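import Mathlib

set_option autoImplicit false

set_option linter.unusedSectionVars false

namespace Pool.Agent.Helper35.BryAlg

open Finset

variable {F : Type} [Field F] {I : Type} [Fintype I] [DecidableEq I]

/-- the mixed family -/
def zz {V : Type} (h y : I → V) (A : Finset I) (i : I) : V := if i ∈ A then y i else h i

/-- the matrix whose columns are the given vectors -/
def cm (u : I → (I → F)) : Matrix I I F := fun a i => u i a

theorem det_ne_zero_iff (u : I → (I → F)) : (cm u).det ≠ 0 ↔ LinearIndependent F u := by
  have h := Matrix.linearIndependent_cols_iff_isUnit (K := F) (A := cm u)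
  have e : (cm u).col = u := by
    funext i a
    rfl
  rw [e, Matrix.isUnit_iff_isUnit_det, isUnit_iff_ne_zero] at h
  exact h.symm

theorem updateCol_cm (u : I → (I → F)) (i : I) (x : I → F) :
    (cm u).updateCol i x = cm (Function.update u i x) := by
  ext a b
  rw [Matrix.updateCol_apply]
  unfold cm
  by_cases hb : b = i
  · subst hb; simp
  · simp [hb]

theorem cramer_sum (u : I → (I → F)) (x : I → F) :
    ∑ i, (cm (Function.update u i x)).det • u i = (cm u).det • x := by
  have h := Matrix.mulVec_cramer (cm u) x
  rw [← h]
  funext a
  rw [Finset.sum_apply, Matrix.mulVec, dotProduct]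
  apply Finset.sum_congr rfl
  intro i _
  rw [Matrix.cramer_apply, updateCol_cm, Pi.smul_apply, smul_eq_mul, mul_comm]
  rfl

theorem zz_update_eq (h y : I → (I → F)) (x : I → F) (i : I) {A B : Finset I}
    (hAB : ∀ j, j ≠ i → (j ∈ A ↔ j ∈ B)) :
    Function.update (zz h y A) i x = Function.update (zz h y B) i x := by
  funext j
  by_cases hj : j = i
  · subst hj; simp
  · rw [Function.update_of_ne hj, Function.update_of_ne hj]
    unfold zz
    simp only [hAB j hj]

/-- the linear-type functions -/
noncomputable def Lf (h y : I → (I → F)) (x : I → F) (p : (I → F) × (I → F)) (A : Finset I) : F :=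
  ∑ i, (cm (Function.update (zz h y A) i x)).det * (if i ∈ A then p.2 i else p.1 i)

theorem ident (h y : I → (I → F)) (x : I → F)
    (hB2 : ∀ (j : I) (A : Finset I), LinearIndependent F (Function.update (zz h y A) j x))
    (l : List ((I → F) × (I → F))) :
    ∀ (I0 E : Finset I), I0.card + l.length + 1 = Fintype.card I →
      ∑ A ∈ (univ : Finset (Finset I)).filter (fun A => A ∩ I0 = E),
        (-1 : F) ^ A.card * (l.map (fun p => Lf h y x p A)).prod *
          (∏ i ∈ I0ᶜ, (cm (Function.update (zz h y A) i x)).det)⁻¹ = 0 := by
  have hlam : ∀ (j : I) (A : Finset I), (cm (Function.update (zz h y A) j x)).det ≠ 0 :=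
    fun j A => (det_ne_zero_iff _).2 (hB2 j A)
  induction l with
  | nil =>
    intro I0 E hc
    simp only [List.length_nil, add_zero] at hc
    have hcc : I0ᶜ.card = 1 := by rw [card_compl]; omega
    obtain ⟨j, hj⟩ := card_eq_one.1 hcc
    have hjI : j ∉ I0 := by
      have : j ∈ I0ᶜ := by rw [hj]; exact mem_singleton_self _
      exact mem_compl.1 this
    have hinter : ∀ A : Finset I, (symmDiff A {j}) ∩ I0 = A ∩ I0 := by
      intro A
      ext a
      simp only [mem_inter, mem_symmDiff, mem_singleton]
      constructor
      · rintro ⟨⟨h1, h2⟩ | ⟨h1, h2⟩, h3⟩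
        · exact ⟨h1, h3⟩
        · exact absurd (h1 ▸ h3) hjI
      · rintro ⟨h1, h3⟩
        exact ⟨Or.inl ⟨h1, fun h => hjI (h ▸ h3)⟩, h3⟩
    apply Finset.sum_involution (fun A _ => symmDiff A {j})
    · intro A hA
      rw [hj, prod_singleton, prod_singleton]
      have e1 : Function.update (zz h y (symmDiff A {j})) j x
          = Function.update (zz h y A) j x := by
        apply zz_update_eq
        intro k hk
        simp [mem_symmDiff, hk]
      rw [e1]
      simp only [List.map_nil, List.prod_nil, mul_one]
      rw [← add_mul]
      have e2 : (-1 : F) ^ A.card + (-1 : F) ^ (symmDiff A {j}).card = 0 := by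
        by_cases hjA : j ∈ A
        · have : symmDiff A {j} = A.erase j := by
            ext a; simp only [mem_symmDiff, mem_singleton, mem_erase]
            constructor
            · rintro (⟨h1, h2⟩ | ⟨h1, h2⟩)
              · exact ⟨h2, h1⟩
              · exact absurd (h1 ▸ hjA) h2
            · rintro ⟨h1, h2⟩
              exact Or.inl ⟨h2, h1⟩
          rw [this]
          have h3 := card_erase_add_one hjA
          rw [← h3, pow_succ]; ring
        · have : symmDiff A {j} = insert j A := by
            ext a; simp only [mem_symmDiff, mem_singleton, mem_insert]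
            constructor
            · rintro (⟨h1, h2⟩ | ⟨h1, h2⟩)
              · exact Or.inr h1
              · exact Or.inl h1
            · rintro (h1 | h1)
              · exact Or.inr ⟨h1, h1 ▸ hjA⟩
              · exact Or.inl ⟨h1, fun h => hjA (h ▸ h1)⟩
          rw [this, card_insert_of_notMem hjA, pow_succ]; ring
      rw [e2, zero_mul]
    · intro A hA _ hcon
      have : symmDiff A {j} = A := hcon
      have h2 := congrArg (fun S => j ∈ S) this
      simp only [mem_symmDiff, mem_singleton, eq_iff_iff] at h2
      tauto
    · intro A hA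
      exact symmDiff_symmDiff_cancel_right {j} A
    · intro A hA
      rw [mem_filter] at hA ⊢
      exact ⟨mem_univ _, by rw [hinter]; exact hA.2⟩
  | cons p l ih =>
    intro I0 E hc
    rw [List.length_cons] at hc
    -- choose an index outside
    have hne : I0ᶜ.Nonempty := by
      rw [← card_pos, card_compl]; omega
    obtain ⟨j, hj⟩ := hne
    have hjI := mem_compl.1 hj
    -- functional
    have hli := hB2 j E
    set bs := basisOfLinearIndependentOfCardEqFinrank' (K := F) _ hli
      (by rw [Module.finrank_fintype_fun_eq_card]) with hbs
    have hbsi : ∀ i, bs i = Function.update (zz h y E) j x i := by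
      intro i
      rw [hbs, coe_basisOfLinearIndependentOfCardEqFinrank']
    set ψ : (I → F) →ₗ[F] F := bs.constr F
      (Function.update (fun i => if i ∈ E then p.2 i else p.1 i) j 0) with hψ
    have hψi : ∀ i, ψ (Function.update (zz h y E) j x i)
        = Function.update (fun i => if i ∈ E then p.2 i else p.1 i) j 0 i := by
      intro i
      rw [← hbsi, hψ, Module.Basis.constr_basis]
    have hψx : ψ x = 0 := by
      have := hψi j
      simpa using this
    -- new coefficients
    set b0 : I → F := fun i => p.1 i - ψ (h i) with hb0
    set b1 : I → F := fun i => p.2 i - ψ (y i) with hb1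
    have hrew : ∀ A ∈ (univ : Finset (Finset I)).filter (fun A => A ∩ I0 = E),
        Lf h y x p A = ∑ i ∈ I0ᶜ, (cm (Function.update (zz h y A) i x)).det *
          (if i ∈ A then b1 i else b0 i) := by
      intro A hA
      rw [mem_filter] at hA
      have hz : ∑ i, (cm (Function.update (zz h y A) i x)).det * ψ (zz h y A i) = 0 := by
        have := congrArg ψ (cramer_sum (zz h y A) x)
        rw [map_sum, map_smul, hψx, smul_zero] at this
        simpa [map_smul, smul_eq_mul] using this
      have h1 : Lf h y x p A = ∑ i, (cm (Function.update (zz h y A) i x)).det *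
          (if i ∈ A then b1 i else b0 i) := by
        rw [← sub_zero (Lf h y x p A), ← hz]
        unfold Lf
        rw [← sum_sub_distrib]
        apply sum_congr rfl
        intro i _
        rw [← mul_sub]
        congr 1
        unfold zz
        by_cases hi : i ∈ A
        · simp [hi, hb1]
        · simp [hi, hb0]
      rw [h1]
      symm
      apply sum_subset (subset_univ _)
      intro i _ hi
      have hiI : i ∈ I0 := by
        by_contra hcon; exact hi (mem_compl.2 hcon)
      have hij : i ≠ j := fun h => hjI (h ▸ hiI)
      have h2 := hψi i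
      rw [Function.update_of_ne hij, Function.update_of_ne hij] at h2
      have hiAE : i ∈ A ↔ i ∈ E := by
        rw [← hA.2, mem_inter]; tauto
      have : (if i ∈ A then b1 i else b0 i) = 0 := by
        unfold zz at h2
        by_cases hiE : i ∈ E
        · have hiA := hiAE.2 hiE
          simp only [hiE, if_true] at h2
          simp [hiA, hb1, h2]
        · have hiA : i ∉ A := fun hh => hiE (hiAE.1 hh)
          simp only [hiE, if_false] at h2
          simp [hiA, hb0, h2]
      rw [this, mul_zero]
    have hstep : ∑ A ∈ (univ : Finset (Finset I)).filter (fun A => A ∩ I0 = E),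
        (-1 : F) ^ A.card * ((p :: l).map (fun p => Lf h y x p A)).prod *
          (∏ i ∈ I0ᶜ, (cm (Function.update (zz h y A) i x)).det)⁻¹
        = ∑ i ∈ I0ᶜ, ∑ A ∈ (univ : Finset (Finset I)).filter (fun A => A ∩ I0 = E),
          (if i ∈ A then b1 i else b0 i) * ((-1 : F) ^ A.card * (l.map (fun p => Lf h y x p A)).prod *
          (∏ k ∈ (insert i I0)ᶜ, (cm (Function.update (zz h y A) k x)).det)⁻¹) := by
      rw [sum_comm]
      apply sum_congr rfl
      intro A hA
      rw [List.map_cons, List.prod_cons, hrew A hA, sum_mul, mul_sum, sum_mul]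
      apply sum_congr rfl
      intro i hi
      have hprod : ∏ k ∈ I0ᶜ, (cm (Function.update (zz h y A) k x)).det
          = (cm (Function.update (zz h y A) i x)).det *
            ∏ k ∈ (insert i I0)ᶜ, (cm (Function.update (zz h y A) k x)).det := by
        rw [← mul_prod_erase _ _ hi]
        congr 2
        ext k
        simp only [mem_erase, mem_compl, mem_insert, not_or]
      rw [hprod, mul_inv]
      have := hlam i A
      field_simp
    rw [hstep]
    apply sum_eq_zero
    intro i hi
    have hiI := mem_compl.1 hi
    have hci : (insert i I0).card + l.length + 1 = Fintype.card I := by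
      rw [card_insert_of_notMem hiI]; omega
    -- split by membership of i
    rw [← sum_filter_add_sum_filter_not _ (fun A => i ∈ A)]
    have h1 : ∑ A ∈ ((univ : Finset (Finset I)).filter (fun A => A ∩ I0 = E)).filter (fun A => i ∈ A),
          (if i ∈ A then b1 i else b0 i) * ((-1 : F) ^ A.card * (l.map (fun p => Lf h y x p A)).prod *
          (∏ k ∈ (insert i I0)ᶜ, (cm (Function.update (zz h y A) k x)).det)⁻¹) = 0 := by
      by_cases hEI : E ⊆ I0
      · have e1 : ((univ : Finset (Finset I)).filter (fun A => A ∩ I0 = E)).filter (fun A => i ∈ A)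
            = (univ : Finset (Finset I)).filter (fun A => A ∩ insert i I0 = insert i E) := by
          ext A
          simp only [mem_filter, mem_univ, true_and]
          constructor
          · rintro ⟨h1, h2⟩
            rw [inter_insert_of_mem h2, h1]
          · intro h1
            have h2 : i ∈ A := by
              have : i ∈ A ∩ insert i I0 := by rw [h1]; exact mem_insert_self _ _
              exact (mem_inter.1 this).1
            refine ⟨?_, h2⟩
            rw [inter_insert_of_mem h2] at h1
            ext k
            by_cases hk : k = i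
            · subst hk
              constructor
              · intro hh; exact absurd (mem_inter.1 hh).2 hiI
              · intro hh; exact absurd (hEI hh) hiI
            · have := congrArg (fun S => k ∈ S) h1
              simpa [hk] using this
        rw [e1]
        have h3 := ih (insert i I0) (insert i E) hci
        have : ∀ A ∈ (univ : Finset (Finset I)).filter (fun A => A ∩ insert i I0 = insert i E),
            (if i ∈ A then b1 i else b0 i) * ((-1 : F) ^ A.card * (l.map (fun p => Lf h y x p A)).prod *
          (∏ k ∈ (insert i I0)ᶜ, (cm (Function.update (zz h y A) k x)).det)⁻¹)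
            = b1 i * ((-1 : F) ^ A.card * (l.map (fun p => Lf h y x p A)).prod *
          (∏ k ∈ (insert i I0)ᶜ, (cm (Function.update (zz h y A) k x)).det)⁻¹) := by
          intro A hA
          rw [mem_filter] at hA
          have : i ∈ A ∩ insert i I0 := by rw [hA.2]; exact mem_insert_self _ _
          rw [if_pos (mem_inter.1 this).1]
        rw [sum_congr rfl this, ← mul_sum, h3, mul_zero]
      · have e1 : ((univ : Finset (Finset I)).filter (fun A => A ∩ I0 = E)).filter (fun A => i ∈ A)
            = ∅ := by
          ext A
          simp only [mem_filter, mem_univ, true_and, notMem_empty, iff_false, not_and]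
          intro h1 _
          exact hEI (h1 ▸ inter_subset_right)
        rw [e1, sum_empty]
    have h2 : ∑ A ∈ ((univ : Finset (Finset I)).filter (fun A => A ∩ I0 = E)).filter (fun A => ¬ i ∈ A),
          (if i ∈ A then b1 i else b0 i) * ((-1 : F) ^ A.card * (l.map (fun p => Lf h y x p A)).prod *
          (∏ k ∈ (insert i I0)ᶜ, (cm (Function.update (zz h y A) k x)).det)⁻¹) = 0 := by
      by_cases hEI : E ⊆ I0
      · have e1 : ((univ : Finset (Finset I)).filter (fun A => A ∩ I0 = E)).filter (fun A => ¬ i ∈ A)
            = (univ : Finset (Finset I)).filter (fun A => A ∩ insert i I0 = E) := by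
          ext A
          simp only [mem_filter, mem_univ, true_and]
          constructor
          · rintro ⟨h1, h2⟩
            rw [inter_insert_of_notMem h2, h1]
          · intro h1
            have h2 : i ∉ A := by
              intro hiA
              have : i ∈ A ∩ insert i I0 := mem_inter.2 ⟨hiA, mem_insert_self _ _⟩
              rw [h1] at this
              exact hiI (hEI this)
            refine ⟨?_, h2⟩
            rwa [inter_insert_of_notMem h2] at h1
        rw [e1]
        have h3 := ih (insert i I0) E hci
        have : ∀ A ∈ (univ : Finset (Finset I)).filter (fun A => A ∩ insert i I0 = E),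
            (if i ∈ A then b1 i else b0 i) * ((-1 : F) ^ A.card * (l.map (fun p => Lf h y x p A)).prod *
          (∏ k ∈ (insert i I0)ᶜ, (cm (Function.update (zz h y A) k x)).det)⁻¹)
            = b0 i * ((-1 : F) ^ A.card * (l.map (fun p => Lf h y x p A)).prod *
          (∏ k ∈ (insert i I0)ᶜ, (cm (Function.update (zz h y A) k x)).det)⁻¹) := by
          intro A hA
          rw [mem_filter] at hA
          have : i ∉ A := by
            intro hiA
            have : i ∈ A ∩ insert i I0 := mem_inter.2 ⟨hiA, mem_insert_self _ _⟩
            rw [hA.2] at this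
            exact hiI (hEI this)
          rw [if_neg this]
        rw [sum_congr rfl this, ← mul_sum, h3, mul_zero]
      · have e1 : ((univ : Finset (Finset I)).filter (fun A => A ∩ I0 = E)).filter (fun A => ¬ i ∈ A)
            = ∅ := by
          ext A
          simp only [mem_filter, mem_univ, true_and, notMem_empty, iff_false, not_and]
          intro h1 _
          exact hEI (h1 ▸ inter_subset_right)
        rw [e1, sum_empty]
    rw [h1, h2, add_zero]

theorem alg_coord [Fintype F] (h y : I → (I → F)) (x : I → F)
    (hdep : ¬ LinearIndependent F h)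
    (hB1 : ∀ A : Finset I, A.Nonempty → LinearIndependent F (zz h y A))
    (hB2 : ∀ (j : I) (A : Finset I), LinearIndependent F (Function.update (zz h y A) j x)) :
    Fintype.card I + 1 ≤ Fintype.card F := by
  classical
  by_contra hcon
  have hcard : Fintype.card F ≤ Fintype.card I := by omega
  have hF1 : 1 < Fintype.card F := Fintype.one_lt_card
  have hlam : ∀ (j : I) (A : Finset I), (cm (Function.update (zz h y A) j x)).det ≠ 0 :=
    fun j A => (det_ne_zero_iff _).2 (hB2 j A)
  obtain ⟨j0⟩ : Nonempty I := Fintype.card_pos_iff.1 (by omega)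
  -- functional with value one at x
  have hli := hB2 j0 ∅
  set bs := basisOfLinearIndependentOfCardEqFinrank' (K := F) _ hli
    (by rw [Module.finrank_fintype_fun_eq_card]) with hbs
  have hbsi : ∀ i, bs i = Function.update (zz h y ∅) j0 x i := by
    intro i
    rw [hbs, coe_basisOfLinearIndependentOfCardEqFinrank']
  set ψ : (I → F) →ₗ[F] F := bs.constr F (Pi.single j0 (1 : F)) with hψ
  have hψx : ψ x = 1 := by
    have h1 : bs j0 = x := by rw [hbsi]; simp
    rw [← h1, hψ, Module.Basis.constr_basis]; simp
  -- the two special functions
  have hlamL : ∀ A, Lf h y x (Pi.single j0 1, Pi.single j0 1) A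
      = (cm (Function.update (zz h y A) j0 x)).det := by
    intro A
    unfold Lf
    simp only [ite_self]
    rw [sum_eq_single j0]
    · simp
    · intro b _ hb
      simp [hb]
    · intro hh; exact absurd (mem_univ _) hh
  have hDL : ∀ (c : F) A, Lf h y x ((fun i => ψ (h i)) - c • (Pi.single j0 1 : I → F),
      (fun i => ψ (y i)) - c • (Pi.single j0 1 : I → F)) A
      = (cm (zz h y A)).det - c * (cm (Function.update (zz h y A) j0 x)).det := by
    intro c A
    have h1 := congrArg ψ (cramer_sum (zz h y A) x)
    rw [map_sum, map_smul, hψx, smul_eq_mul, mul_one] at h1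
    rw [← h1, ← hlamL A]
    unfold Lf
    rw [mul_sum, ← sum_sub_distrib]
    apply sum_congr rfl
    intro i _
    rw [map_smul, smul_eq_mul]
    unfold zz
    by_cases hi : i ∈ A
    · simp only [hi, if_true, Pi.sub_apply, Pi.smul_apply, smul_eq_mul]; ring
    · simp only [hi, if_false, Pi.sub_apply, Pi.smul_apply, smul_eq_mul]; ring
  set l1 : List ((I → F) × (I → F)) := ((univ : Finset F).erase 0).toList.map (fun c =>
      ((fun i => ψ (h i)) - c • (Pi.single j0 1 : I → F),
      (fun i => ψ (y i)) - c • (Pi.single j0 1 : I → F))) with hl1
  set l2 : List ((I → F) × (I → F)) := List.replicate (Fintype.card I - Fintype.card F)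
      (Pi.single j0 1, Pi.single j0 1) with hl2
  have hlen1 : l1.length = Fintype.card F - 1 := by
    rw [hl1, List.length_map, length_toList, card_erase_of_mem (mem_univ _), card_univ]
  have hlen2 : l2.length = Fintype.card I - Fintype.card F := by
    rw [hl2, List.length_replicate]
  have hid := ident h y x hB2 (l1 ++ l2) ∅ ∅ (by
    rw [card_empty, List.length_append, hlen1, hlen2]; omega)
  have hfil : (univ : Finset (Finset I)).filter (fun A => A ∩ ∅ = ∅) = univ := by
    ext A; simp
  rw [hfil] at hid
  have hprod1 : ∀ A, (l1.map (fun p => Lf h y x p A)).prod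
      = ∏ c ∈ (univ : Finset F).erase 0,
        ((cm (zz h y A)).det - c * (cm (Function.update (zz h y A) j0 x)).det) := by
    intro A
    rw [hl1, List.map_map, Finset.prod_map_toList]
    apply prod_congr rfl
    intro c _
    simp only [Function.comp]
    exact hDL c A
  have hprod2 : ∀ A, (l2.map (fun p => Lf h y x p A)).prod
      = ((cm (Function.update (zz h y A) j0 x)).det) ^ (Fintype.card I - Fintype.card F) := by
    intro A
    rw [hl2, List.map_replicate, List.prod_replicate, hlamL]
  rw [sum_eq_single ∅] at hid
  · rw [List.map_append, List.prod_append, hprod1, hprod2] at hid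
    have hz0 : zz h y ∅ = h := by funext i; simp [zz]
    have hD0 : (cm (zz h y ∅)).det = 0 := by
      by_contra hne
      rw [hz0] at hne
      exact hdep ((det_ne_zero_iff _).1 hne)
    rw [hD0] at hid
    have h1 : ∏ c ∈ (univ : Finset F).erase 0,
        ((0 : F) - c * (cm (Function.update (zz h y ∅) j0 x)).det) ≠ 0 := by
      rw [prod_ne_zero_iff]
      intro c hc
      rw [zero_sub, neg_ne_zero]
      exact mul_ne_zero (mem_erase.1 hc).1 (hlam _ _)
    have h2 := pow_ne_zero (Fintype.card I - Fintype.card F) (hlam j0 ∅)
    have h3 : (∏ i ∈ (∅ : Finset I)ᶜ, (cm (Function.update (zz h y ∅) i x)).det)⁻¹ ≠ 0 := by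
      apply inv_ne_zero
      rw [prod_ne_zero_iff]
      intro i _
      exact hlam _ _
    have h4 : (-1 : F) ^ (∅ : Finset I).card ≠ 0 := by simp
    exact (mul_ne_zero (mul_ne_zero h4 (mul_ne_zero h1 h2)) h3) hid
  · intro A _ hA
    have hAne : A.Nonempty := nonempty_iff_ne_empty.2 hA
    have hD : (cm (zz h y A)).det ≠ 0 := (det_ne_zero_iff _).2 (hB1 A hAne)
    have h0 : ∏ c ∈ (univ : Finset F).erase 0,
        ((cm (zz h y A)).det - c * (cm (Function.update (zz h y A) j0 x)).det) = 0 := by
      apply prod_eq_zero (i := (cm (zz h y A)).det / (cm (Function.update (zz h y A) j0 x)).det)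
      · rw [mem_erase]
        exact ⟨div_ne_zero hD (hlam _ _), mem_univ _⟩
      · rw [div_mul_cancel₀ _ (hlam _ _), sub_self]
    rw [List.map_append, List.prod_append, hprod1, h0, zero_mul, mul_zero, zero_mul]
  · intro hh; exact absurd (mem_univ _) hh

theorem alg_sub [Fintype F] {V : Type} [AddCommGroup V] [Module F V] (P : Submodule F V)
    [FiniteDimensional F P]
    (hP : Module.finrank F P = Fintype.card I) (h y : I → V) (x : V)
    (hh : ∀ i, h i ∈ P) (hy : ∀ i, y i ∈ P) (hx : x ∈ P)
    (hdep : ¬ LinearIndependent F h)
    (hB1 : ∀ A : Finset I, A.Nonempty → LinearIndependent F (zz h y A))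
    (hB2 : ∀ (j : I) (A : Finset I), LinearIndependent F (Function.update (zz h y A) j x)) :
    Fintype.card I + 1 ≤ Fintype.card F := by
  classical
  let e : P ≃ₗ[F] (I → F) := LinearEquiv.ofFinrankEq P (I → F)
    (by rw [hP, Module.finrank_fintype_fun_eq_card])
  have key : ∀ (u : I → V) (hu : ∀ i, u i ∈ P),
      LinearIndependent F (fun i => e ⟨u i, hu i⟩) ↔ LinearIndependent F u := by
    intro u hu
    have h1 : LinearIndependent F (fun i => e ⟨u i, hu i⟩)
        ↔ LinearIndependent F (fun i => (⟨u i, hu i⟩ : P)) :=
      LinearMap.linearIndependent_iff e.toLinearMap e.ker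
    have h2 : LinearIndependent F (P.subtype ∘ (fun i => (⟨u i, hu i⟩ : P)))
        ↔ LinearIndependent F (fun i => (⟨u i, hu i⟩ : P)) :=
      LinearMap.linearIndependent_iff P.subtype P.ker_subtype
    rw [h1, ← h2]
    rfl
  have hzz : ∀ A i, zz h y A i ∈ P := by
    intro A i; unfold zz; split_ifs
    · exact hy i
    · exact hh i
  have hup : ∀ A j i, Function.update (zz h y A) j x i ∈ P := by
    intro A j i
    by_cases hij : i = j
    · subst hij; simpa using hx
    · rw [Function.update_of_ne hij]; exact hzz A i
  apply alg_coord (F := F) (fun i => e ⟨h i, hh i⟩) (fun i => e ⟨y i, hy i⟩) (e ⟨x, hx⟩)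
  · intro hcon
    exact hdep ((key h hh).1 hcon)
  · intro A hA
    have h1 := (key (zz h y A) (hzz A)).2 (hB1 A hA)
    convert h1 using 1
    funext i
    unfold zz
    by_cases hi : i ∈ A
    · simp [hi]
    · simp [hi]
  · intro j A
    have h1 := (key _ (hup A j)).2 (hB2 j A)
    convert h1 using 1
    funext i
    by_cases hij : i = j
    · subst hij; simp
    · rw [Function.update_of_ne hij]
      simp only [Function.update_of_ne hij]
      unfold zz
      by_cases hi : i ∈ A
      · simp [hi]
      · simp [hi]

end Pool.Agent.Helper35.BryAlg
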