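import Mathlib

set_option autoImplicit false
set_option linter.unusedSectionVars false

namespace Pool.Agent.Helper35.BryHall

open Finset

variable {W ι : Type} [DecidableEq W] [Fintype ι] [DecidableEq ι]

/-- inner set -/
def KJ (N : ι → Finset W) (J : Finset W) : Finset ι := univ.filter (fun k => N k ⊆ J)

/-- codimension-type function -/
def cc (N : ι → Finset W) (J : Finset W) : ℤ := (J.card : ℤ) - ((KJ N J).card : ℤ)

variable (N : ι → Finset W)

theorem mem_KJ {J : Finset W} {k : ι} : k ∈ KJ N J ↔ N k ⊆ J := by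
  unfold KJ; simp

theorem KJ_inter (J J' : Finset W) : KJ N (J ∩ J') = KJ N J ∩ KJ N J' := by
  ext k
  simp only [mem_KJ, mem_inter, subset_inter_iff]

theorem KJ_mono {J J' : Finset W} (h : J ⊆ J') : KJ N J ⊆ KJ N J' := by
  intro k hk
  rw [mem_KJ] at hk ⊢
  exact hk.trans h

theorem cc_submod (J J' : Finset W) :
    cc N (J ∪ J') + cc N (J ∩ J') ≤ cc N J + cc N J' := by
  unfold cc
  have h1 := card_union_add_card_inter J J'
  have h2 := card_union_add_card_inter (KJ N J) (KJ N J')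
  rw [← KJ_inter] at h2
  have h3 : (KJ N J ∪ KJ N J').card ≤ (KJ N (J ∪ J')).card := by
    apply card_le_card
    apply union_subset
    · exact KJ_mono N subset_union_left
    · exact KJ_mono N subset_union_right
  omega

/-- matching lemma -/
theorem exists_matching (S : Finset W)
    (h : ∀ J : Finset W, ((S ∩ J).card : ℤ) ≤ cc N J) :
    ∃ μ : ι → W, Function.Injective μ ∧ (∀ k, μ k ∈ N k) ∧ ∀ k, μ k ∉ S := by
  classical
  have hall := (Finset.all_card_le_biUnion_card_iff_exists_injective (fun k => N k \ S)).1 (by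
    intro s
    have e : s.biUnion (fun k => N k \ S) = (s.biUnion N) \ S := by
      ext w
      simp only [mem_biUnion, mem_sdiff]
      constructor
      · rintro ⟨k, hk, h1, h2⟩; exact ⟨⟨k, hk, h1⟩, h2⟩
      · rintro ⟨⟨k, hk, h1⟩, h2⟩; exact ⟨k, hk, h1, h2⟩
    rw [e]
    have h1 := h (s.biUnion N)
    unfold cc at h1
    have h2 : s ⊆ KJ N (s.biUnion N) := by
      intro k hk
      rw [mem_KJ]
      exact subset_biUnion_of_mem N hk
    have h3 := card_le_card h2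
    have h4 := card_inter_add_card_sdiff (s.biUnion N) S
    rw [inter_comm] at h4
    omega)
  obtain ⟨μ, hinj, hμ⟩ := hall
  refine ⟨μ, hinj, fun k => (mem_sdiff.1 (hμ k)).1, fun k => (mem_sdiff.1 (hμ k)).2⟩

/-- exits -/
def exits (μ : ι → W) (J : Finset W) : Finset W := J \ (KJ N J).image μ

variable {N} {μ : ι → W}

theorem mem_exits {J : Finset W} {v : W} :
    v ∈ exits N μ J ↔ v ∈ J ∧ ∀ k, N k ⊆ J → μ k ≠ v := by
  unfold exits
  rw [mem_sdiff, mem_image]
  constructor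
  · rintro ⟨h1, h2⟩
    refine ⟨h1, fun k hk hkv => h2 ⟨k, (mem_KJ N).2 hk, hkv⟩⟩
  · rintro ⟨h1, h2⟩
    refine ⟨h1, ?_⟩
    rintro ⟨k, hk, hkv⟩
    exact h2 k ((mem_KJ N).1 hk) hkv

theorem exits_card (hinj : Function.Injective μ) (hmem : ∀ k, μ k ∈ N k) (J : Finset W) :
    ((exits N μ J).card : ℤ) = cc N J := by
  unfold exits cc
  have h1 : (KJ N J).image μ ⊆ J := by
    intro w hw
    obtain ⟨k, hk, rfl⟩ := mem_image.1 hw
    exact (mem_KJ N).1 hk (hmem k)
  rw [card_sdiff_of_subset h1, card_image_of_injective _ hinj]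
  have h2 := card_le_card h1
  rw [card_image_of_injective _ hinj] at h2
  omega

theorem cc_nonneg (hinj : Function.Injective μ) (hmem : ∀ k, μ k ∈ N k) (J : Finset W) :
    0 ≤ cc N J := by
  rw [← exits_card hinj hmem]; omega

theorem exits_sub {J G : Finset W} {v : W} (hv : v ∈ exits N μ J) (hG : G ⊆ J) (hvG : v ∈ G) :
    v ∈ exits N μ G := by
  rw [mem_exits] at hv ⊢
  exact ⟨hvG, fun k hk => hv.2 k (hk.trans hG)⟩

theorem exits_inter (hinj : Function.Injective μ) {J J' : Finset W} {v : W}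
    (hv : v ∈ exits N μ (J ∩ J')) : v ∈ exits N μ J ∨ v ∈ exits N μ J' := by
  rw [mem_exits, mem_inter] at hv
  rw [mem_exits, mem_exits]
  by_contra hcon
  push Not at hcon
  obtain ⟨h1, h2⟩ := hcon
  obtain ⟨k, hk, hkv⟩ := h1 hv.1.1
  obtain ⟨k', hk', hkv'⟩ := h2 hv.1.2
  have hkk : k = k' := hinj (hkv.trans hkv'.symm)
  subst hkk
  exact hv.2 k (subset_inter hk hk') hkv

theorem exits_unmatched {J : Finset W} {v : W} (hv : v ∈ J) (hun : ∀ k, μ k ≠ v) :
    v ∈ exits N μ J := by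
  rw [mem_exits]
  exact ⟨hv, fun k _ => hun k⟩

theorem cc_ge_one_of_exit (hinj : Function.Injective μ) (hmem : ∀ k, μ k ∈ N k)
    {J : Finset W} {v : W} (hv : v ∈ exits N μ J) : 1 ≤ cc N J := by
  rw [← exits_card hinj hmem]
  have : 0 < (exits N μ J).card := card_pos.2 ⟨v, hv⟩
  omega

theorem cc_ge_two_of_exits (hinj : Function.Injective μ) (hmem : ∀ k, μ k ∈ N k)
    {J : Finset W} {v w : W} (hv : v ∈ exits N μ J) (hw : w ∈ exits N μ J) (hvw : v ≠ w) :
    2 ≤ cc N J := by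
  rw [← exits_card hinj hmem]
  have : 1 < (exits N μ J).card := one_lt_card.2 ⟨v, hv, w, hw, hvw⟩
  omega

/-- exit structure relative to a tight set -/
structure HSet (N : ι → Finset W) (μ : ι → W) (JH S : Finset W) : Prop where
  inj : Function.Injective μ
  mem : ∀ k, μ k ∈ N k
  sub : S ⊆ JH
  avoid : ∀ k, μ k ∉ S
  tight : cc N JH = S.card

theorem HSet.exits_eq {JH S : Finset W} (h : HSet N μ JH S) : exits N μ JH = S := by
  symm
  apply eq_of_subset_of_card_le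
  · intro v hv
    exact exits_unmatched (h.sub hv) (fun k hk => h.avoid k (hk ▸ hv))
  · have h1 := exits_card h.inj h.mem JH
    have h2 := h.tight
    omega

theorem HSet.out {JH S : Finset W} (h : HSet N μ JH S) {k : ι} (hk : ¬ N k ⊆ JH) :
    μ k ∉ JH := by
  intro hmem
  have h1 : μ k ∈ exits N μ JH := by
    rw [mem_exits]
    refine ⟨hmem, fun k' hk' hkk => ?_⟩
    rw [h.inj hkk] at hk'
    exact hk hk'
  rw [h.exits_eq] at h1
  exact h.avoid k h1

theorem HSet.exits_in {JH S : Finset W} (h : HSet N μ JH S) {J : Finset W} {v : W}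
    (hv : v ∈ exits N μ (J ∩ JH)) : v ∈ exits N μ J := by
  rw [mem_exits, mem_inter] at hv
  rw [mem_exits]
  refine ⟨hv.1.1, fun k hk hkv => ?_⟩
  by_cases hkH : N k ⊆ JH
  · exact hv.2 k (subset_inter hk hkH) hkv
  · exact h.out hkH (hkv ▸ hv.1.2)

theorem HSet.exits_in' {JH S : Finset W} (_h : HSet N μ JH S) {J : Finset W} {v : W}
    (hv : v ∈ exits N μ J) (hvH : v ∈ JH) : v ∈ exits N μ (J ∩ JH) :=
  exits_sub hv inter_subset_left (mem_inter.2 ⟨(mem_exits.1 hv).1, hvH⟩)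

theorem HSet.claimE {JH S : Finset W} (h : HSet N μ JH S) {J : Finset W}
    (hJ : (S.card : ℤ) + 1 ≤ cc N (J ∪ JH)) : ∃ v ∈ exits N μ J, v ∉ JH := by
  by_contra hcon
  push Not at hcon
  have h1 : exits N μ J ⊆ exits N μ (J ∩ JH) := by
    intro v hv
    exact h.exits_in' hv (hcon v hv)
  have h2 := card_le_card h1
  have h3 := exits_card h.inj h.mem J
  have h4 := exits_card h.inj h.mem (J ∩ JH)
  have h5 := cc_submod N J JH
  have h6 := h.tight
  omega

/-! ### The far lemma -/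

/-- nearness -/
def Near (N : ι → Finset W) (μ : ι → W) (JH J : Finset W) (x : W) : Prop :=
  ∃ G ⊆ J, ∃ v ∈ exits N μ J, v ∉ JH ∧ v ∈ G ∧ x ∈ G ∧ cc N G ≤ 1

/-- far points -/
def Far (N : ι → Finset W) (μ : ι → W) (JH : Finset W) (f x : W) : Prop :=
  ∃ J : Finset W, cc N J = 2 ∧ f ∈ J ∧ x ∈ J ∧ ¬ Near N μ JH J x

theorem HSet.far_root {JH S : Finset W} (h : HSet N μ JH S) {f x0 : W}
    (hx0 : x0 ∉ JH) (hun : ∀ k, μ k ≠ x0) : ¬ Far N μ JH f x0 := by
  rintro ⟨J, hJ, hf, hx, hnear⟩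
  apply hnear
  refine ⟨{x0}, by simpa using hx, x0, exits_unmatched hx hun, hx0, mem_singleton_self _,
    mem_singleton_self _, ?_⟩
  unfold cc
  rw [card_singleton]
  omega

theorem HSet.far_disj {JH S : Finset W} (h : HSet N μ JH S) {f f' x : W}
    (hSx : ∀ J : Finset W, S ⊆ J → x ∈ J → (S.card : ℤ) + 1 ≤ cc N J)
    (hff : ∀ J : Finset W, f ∈ J → f' ∈ J → x ∈ J → 3 ≤ cc N J)
    (h1 : Far N μ JH f x) (h2 : Far N μ JH f' x) : False := by
  obtain ⟨J, hJ, hf, hx, hnear⟩ := h1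
  obtain ⟨J', hJ', hf', hx', hnear'⟩ := h2
  have e1 := hff (J ∪ J') (mem_union_left _ hf) (mem_union_right _ hf') (mem_union_left _ hx)
  have e2 := cc_submod N J J'
  have e3 : cc N (J ∩ J') ≤ 1 := by omega
  have hxi : x ∈ J ∩ J' := mem_inter.2 ⟨hx, hx'⟩
  obtain ⟨v, hv, hvH⟩ := h.claimE (J := J ∩ J')
    (hSx _ (h.sub.trans subset_union_right) (mem_union_left _ hxi))
  have hvi : v ∈ J ∩ J' := (mem_exits.1 hv).1
  rcases exits_inter h.inj hv with hv' | hv'
  · exact hnear ⟨J ∩ J', inter_subset_left, v, hv', hvH, hvi, hxi, e3⟩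
  · exact hnear' ⟨J ∩ J', inter_subset_right, v, hv', hvH, hvi, hxi, e3⟩

/-- two exits: one inside, one outside -/
theorem HSet.two_exits {JH S : Finset W} (h : HSet N μ JH S) {J : Finset W} {f x : W}
    (hJ : cc N J = 2) (hfJ : f ∈ J) (hfH : f ∈ JH) (hf : ∀ G : Finset W, f ∈ G → 1 ≤ cc N G)
    (hx : x ∈ J)
    (hSx : ∀ J : Finset W, S ⊆ J → x ∈ J → (S.card : ℤ) + 1 ≤ cc N J) :
    ∃ u v, u ∈ JH ∧ v ∉ JH ∧ exits N μ J = {u, v} := by
  have h1 := hf (J ∩ JH) (mem_inter.2 ⟨hfJ, hfH⟩)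
  rw [← exits_card h.inj h.mem] at h1
  obtain ⟨u, hu⟩ := card_pos.1 (show 0 < (exits N μ (J ∩ JH)).card by omega)
  have huH : u ∈ JH := (mem_inter.1 (mem_exits.1 hu).1).2
  have huJ := h.exits_in hu
  obtain ⟨v, hv, hvH⟩ := h.claimE (J := J)
    (hSx _ (h.sub.trans subset_union_right) (mem_union_left _ hx))
  refine ⟨u, v, huH, hvH, ?_⟩
  symm
  apply eq_of_subset_of_card_le
  · intro w hw
    rw [mem_insert, mem_singleton] at hw
    rcases hw with rfl | rfl <;> assumption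
  · have h2 := exits_card h.inj h.mem J
    have huv : u ≠ v := by
      intro e
      exact hvH (e ▸ huH)
    rw [card_pair huv]
    omega

theorem HSet.far_simple {JH S : Finset W} (h : HSet N μ JH S) {f x y : W}
    (hfH : f ∈ JH)
    (hf : ∀ G : Finset W, f ∈ G → 1 ≤ cc N G)
    (hfx : ∀ G : Finset W, f ∈ G → x ∈ G → 2 ≤ cc N G)
    (hxy : ∀ G : Finset W, x ∈ G → y ∈ G → 2 ≤ cc N G)
    (hSx : ∀ J : Finset W, S ⊆ J → x ∈ J → (S.card : ℤ) + 1 ≤ cc N J)
    (h1 : ¬ Far N μ JH f x) (h2 : ¬ Far N μ JH f y)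
    {J : Finset W} (hfJ : f ∈ J) (hxJ : x ∈ J) (hyJ : y ∈ J) : 3 ≤ cc N J := by
  by_contra hcon
  have hJ2 : cc N J = 2 := by
    have := hfx J hfJ hxJ
    omega
  obtain ⟨u, w, hu, hw, hex⟩ := h.two_exits hJ2 hfJ hfH hf hxJ hSx
  have hn1 : Near N μ JH J x := by
    by_contra hn; exact h1 ⟨J, hJ2, hfJ, hxJ, hn⟩
  have hn2 : Near N μ JH J y := by
    by_contra hn; exact h2 ⟨J, hJ2, hfJ, hyJ, hn⟩
  obtain ⟨G, hG, v, hv, hvH, hvG, hxG, hGc⟩ := hn1
  obtain ⟨G', hG', v', hv', hvH', hvG', hyG', hGc'⟩ := hn2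
  have e1 : v = w := by
    rw [hex, mem_insert, mem_singleton] at hv
    rcases hv with rfl | rfl
    · exact absurd hu hvH
    · rfl
  have e2 : v' = w := by
    rw [hex, mem_insert, mem_singleton] at hv'
    rcases hv' with rfl | rfl
    · exact absurd hu hvH'
    · rfl
  subst e1
  subst e2
  have e3 := cc_submod N G G'
  have e4 := cc_ge_one_of_exit h.inj h.mem
    (exits_sub hv (inter_subset_left.trans hG) (mem_inter.2 ⟨hvG, hvG'⟩))
  have e5 := hxy (G ∪ G') (mem_union_left _ hxG) (mem_union_right _ hyG')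
  omega

end Pool.Agent.Helper35.BryHall
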