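import Mathlib
import Pool.Agent.Helper35.BryHall

set_option autoImplicit false
set_option linter.unusedSectionVars false

namespace Pool.Agent.Helper35.BryHall

open Finset

variable {W ι : Type} [DecidableEq W] [Fintype ι] [DecidableEq ι]
variable {N : ι → Finset W}

/-- The hypotheses for the base lemma. -/
structure BaseHyp (N : ι → Finset W) (JH Z : Finset W) (X : Finset W) (xa xb : W → W) (x0 : W) :
    Prop where
  sub : Z ⊆ JH
  three : 3 ≤ Z.card
  tight : cc N JH = (Z.card : ℤ) - 1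
  hx0 : x0 ∈ X
  hxa : ∀ i ∈ Z, xa i ∈ X
  hxb : ∀ i ∈ Z, xb i ∈ X
  ind : ∀ j ∈ Z, ∀ x ∈ X, ∀ J : Finset W,
    (((Z.erase j) ∩ J).card : ℤ) + (if x ∈ J then 1 else 0) ≤ cc N J
  ab : ∀ i ∈ Z, ∀ J : Finset W, xa i ∈ J → xb i ∈ J → 2 ≤ cc N J
  dep : ∀ i ∈ Z, ∃ J : Finset W, i ∈ J ∧ xa i ∈ J ∧ xb i ∈ J ∧ cc N J ≤ 2

variable {JH Z X : Finset W} {xa xb : W → W} {x0 : W}

theorem BaseHyp.notin (h : BaseHyp N JH Z X xa xb x0) {x : W} (hx : x ∈ X) : x ∉ JH := by
  intro hxH
  have hne : Z.Nonempty := by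
    rw [← card_pos]
    have := h.three
    omega
  obtain ⟨j, hj⟩ := hne
  have h1 := h.ind j hj x hx JH
  rw [if_pos hxH, h.tight, inter_eq_left.2 ((erase_subset _ _).trans h.sub),
    card_erase_of_mem hj] at h1
  have := h.three
  omega

theorem BaseHyp.hset0 (h : BaseHyp N JH Z X xa xb x0) {j : W} (hj : j ∈ Z) :
    ∃ μ : ι → W, HSet N μ JH (Z.erase j) ∧ ∀ k, μ k ≠ x0 := by
  obtain ⟨μ, hinj, hmem, hav⟩ := exists_matching N (insert x0 (Z.erase j)) (by
    intro J
    refine le_trans ?_ (h.ind j hj x0 h.hx0 J)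
    by_cases hx : x0 ∈ J
    · rw [if_pos hx, insert_inter_of_mem hx]
      have := card_insert_le x0 (Z.erase j ∩ J)
      omega
    · rw [if_neg hx, insert_inter_of_notMem hx]
      omega)
  refine ⟨μ, ⟨hinj, hmem, (erase_subset _ _).trans h.sub, ?_, ?_⟩, ?_⟩
  · intro k hk
    exact hav k (mem_insert_of_mem hk)
  · rw [h.tight, card_erase_of_mem hj]
    have := h.three
    omega
  · intro k hk
    exact hav k (hk ▸ mem_insert_self _ _)

/-- matchings with common outside part -/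
theorem BaseHyp.matchings (h : BaseHyp N JH Z X xa xb x0) :
    ∃ μ : W → ι → W, (∀ j ∈ Z, HSet N (μ j) JH (Z.erase j) ∧ ∀ k, μ j k ≠ x0) ∧
      ∀ j ∈ Z, ∀ j' ∈ Z, ∀ k, ¬ N k ⊆ JH → μ j k = μ j' k := by
  classical
  have hne : Z.Nonempty := by
    rw [← card_pos]
    have := h.three
    omega
  obtain ⟨j1, hj1⟩ := hne
  obtain ⟨μ1, h1, h1x⟩ := h.hset0 hj1
  have hch : ∀ j : W, ∃ μ : ι → W, j ∈ Z → (HSet N μ JH (Z.erase j) ∧ ∀ k, μ k ≠ x0) := by
    intro j
    by_cases hj : j ∈ Z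
    · obtain ⟨μ, hμ⟩ := h.hset0 hj
      exact ⟨μ, fun _ => hμ⟩
    · exact ⟨μ1, fun hh => absurd hh hj⟩
  choose ν hν using hch
  refine ⟨fun j k => if N k ⊆ JH then ν j k else μ1 k, ?_, ?_⟩
  · intro j hj
    obtain ⟨hs, hsx⟩ := hν j hj
    refine ⟨⟨?_, ?_, hs.sub, ?_, hs.tight⟩, ?_⟩
    · intro k k' hkk
      simp only at hkk
      by_cases hk : N k ⊆ JH
      · by_cases hk' : N k' ⊆ JH
        · rw [if_pos hk, if_pos hk'] at hkk
          exact hs.inj hkk
        · rw [if_pos hk, if_neg hk'] at hkk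
          exfalso
          exact h1.out hk' (hkk ▸ hk (hs.mem k))
      · by_cases hk' : N k' ⊆ JH
        · rw [if_neg hk, if_pos hk'] at hkk
          exfalso
          exact h1.out hk (hkk.symm ▸ hk' (hs.mem k'))
        · rw [if_neg hk, if_neg hk'] at hkk
          exact h1.inj hkk
    · intro k
      simp only
      split_ifs
      · exact hs.mem k
      · exact h1.mem k
    · intro k
      simp only
      split_ifs with hk
      · exact hs.avoid k
      · intro hmem
        exact h1.out hk (hs.sub hmem)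
    · intro k
      simp only
      split_ifs
      · exact hsx k
      · exact h1x k
  · intro j _ j' _ k hk
    simp only [if_neg hk]

theorem exits_out_common {μ μ' : ι → W} {S S' : Finset W} (h : HSet N μ JH S)
    (h' : HSet N μ' JH S') (hcom : ∀ k, ¬ N k ⊆ JH → μ k = μ' k)
    {J : Finset W} {v : W} (hv : v ∈ exits N μ J) (hvH : v ∉ JH) : v ∈ exits N μ' J := by
  rw [mem_exits] at hv ⊢
  refine ⟨hv.1, fun k hk hkv => ?_⟩
  by_cases hkH : N k ⊆ JH
  · exact hvH (hkv ▸ hkH (h'.mem k))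
  · exact hv.2 k hk ((hcom k hkH).trans hkv)

theorem base_lemma (h : BaseHyp N JH Z X xa xb x0) :
    ∃ y : W → W, (∀ i ∈ Z, y i = xa i ∨ y i = xb i) ∧
      (∀ A : Finset W, A ⊆ Z → A.Nonempty → ∀ J : Finset W,
        (((Z.filter (fun i => (if i ∈ A then y i else i) ∈ J)).card : ℤ) ≤ cc N J)) ∧
      (∀ j ∈ Z, ∀ A : Finset W, ∀ J : Finset W,
        ((((Z.erase j).filter (fun i => (if i ∈ A then y i else i) ∈ J)).card : ℤ)
          + (if x0 ∈ J then 1 else 0) ≤ cc N J)) := by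
  classical
  obtain ⟨μ, hμ, hcom⟩ := h.matchings
  have h3 := h.three
  -- another index
  have hother : ∀ a b : W, ∃ c ∈ Z, c ≠ a ∧ c ≠ b := by
    intro a b
    by_contra hcon
    push Not at hcon
    have : Z ⊆ {a, b} := by
      intro c hc
      rw [mem_insert, mem_singleton]
      by_cases hca : c = a
      · exact Or.inl hca
      · exact Or.inr (hcon c hc hca)
    have h4 := (card_le_card this).trans card_le_two
    omega
  -- basic lower bounds
  have hlow1 : ∀ i ∈ Z, ∀ G : Finset W, i ∈ G → 1 ≤ cc N G := by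
    intro i hi G hiG
    obtain ⟨j, hj, hji, _⟩ := hother i i
    have h4 := h.ind j hj x0 h.hx0 G
    have h5 : 0 < (Z.erase j ∩ G).card :=
      card_pos.2 ⟨i, mem_inter.2 ⟨mem_erase.2 ⟨hji.symm, hi⟩, hiG⟩⟩
    split_ifs at h4 <;> omega
  have hlow2 : ∀ i ∈ Z, ∀ x ∈ X, ∀ G : Finset W, i ∈ G → x ∈ G → 2 ≤ cc N G := by
    intro i hi x hx G hiG hxG
    obtain ⟨j, hj, hji, _⟩ := hother i i
    have h4 := h.ind j hj x hx G
    have h5 : 0 < (Z.erase j ∩ G).card :=
      card_pos.2 ⟨i, mem_inter.2 ⟨mem_erase.2 ⟨hji.symm, hi⟩, hiG⟩⟩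
    rw [if_pos hxG] at h4
    omega
  have hlow3 : ∀ i ∈ Z, ∀ l ∈ Z, i ≠ l → ∀ x ∈ X, ∀ G : Finset W, i ∈ G → l ∈ G → x ∈ G →
      3 ≤ cc N G := by
    intro i hi l hl hil x hx G hiG hlG hxG
    obtain ⟨j, hj, hji, hjl⟩ := hother i l
    have h4 := h.ind j hj x hx G
    have h5 : 1 < (Z.erase j ∩ G).card :=
      one_lt_card.2 ⟨i, mem_inter.2 ⟨mem_erase.2 ⟨hji.symm, hi⟩, hiG⟩, l,
        mem_inter.2 ⟨mem_erase.2 ⟨hjl.symm, hl⟩, hlG⟩, hil⟩
    rw [if_pos hxG] at h4
    omega
  have hSx : ∀ j ∈ Z, ∀ x ∈ X, ∀ J : Finset W, Z.erase j ⊆ J → x ∈ J →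
      (((Z.erase j).card : ℤ)) + 1 ≤ cc N J := by
    intro j hj x hx J hZJ hxJ
    have h4 := h.ind j hj x hx J
    rw [if_pos hxJ, inter_eq_left.2 hZJ] at h4
    exact h4
  -- the sets J_i
  have hJex : ∀ i : W, ∃ J : Finset W, i ∈ Z →
      (i ∈ J ∧ xa i ∈ J ∧ xb i ∈ J ∧ cc N J = 2) := by
    intro i
    by_cases hi : i ∈ Z
    · obtain ⟨J, h1, h2, h4, h5⟩ := h.dep i hi
      refine ⟨J, fun _ => ⟨h1, h2, h4, ?_⟩⟩
      have := hlow2 i hi _ (h.hxa i hi) J h1 h2
      omega
    · exact ⟨∅, fun hh => absurd hh hi⟩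
  choose Js hJs using hJex
  -- the outside exits
  have hee : ∀ i : W, ∃ e : W, i ∈ Z → (e ∉ JH ∧ ∀ j ∈ Z, e ∈ exits N (μ j) (Js i) ∧
      ∀ v ∈ exits N (μ j) (Js i), v ∉ JH → v = e) := by
    intro i
    by_cases hi : i ∈ Z
    · obtain ⟨hiJ, haJ, hbJ, hJ2⟩ := hJs i hi
      obtain ⟨u, e, hu, he, hex⟩ := (hμ i hi).1.two_exits hJ2 hiJ (h.sub hi) (hlow1 i hi) haJ
        (hSx i hi _ (h.hxa i hi))
      refine ⟨e, fun _ => ⟨he, fun j hj => ⟨?_, ?_⟩⟩⟩
      · apply exits_out_common (hμ i hi).1 (hμ j hj).1 (hcom i hi j hj) _ he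
        rw [hex]; simp
      · intro v hv hvH
        have hv' := exits_out_common (hμ j hj).1 (hμ i hi).1 (hcom j hj i hi) hv hvH
        rw [hex, mem_insert, mem_singleton] at hv'
        rcases hv' with rfl | rfl
        · exact absurd hu hvH
        · rfl
    · exact ⟨i, fun hh => absurd hh hi⟩
  choose e he using hee
  -- inner exit
  have hin : ∀ i ∈ Z, ∀ j ∈ Z, j ≠ i → ∀ v ∈ exits N (μ j) (Js i), v ∈ JH → v = i := by
    intro i hi j hj hji v hv hvH
    obtain ⟨hiJ, haJ, hbJ, hJ2⟩ := hJs i hi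
    obtain ⟨heH, hee⟩ := he i hi
    have h1 : i ∈ exits N (μ j) (Js i) := by
      apply exits_unmatched hiJ
      intro k hk
      exact (hμ j hj).1.avoid k (hk ▸ mem_erase.2 ⟨hji.symm, hi⟩)
    by_contra hne
    have h2 : ({v, i, e i} : Finset W) ⊆ exits N (μ j) (Js i) := by
      intro w hw
      rw [mem_insert, mem_insert, mem_singleton] at hw
      rcases hw with rfl | rfl | rfl
      · exact hv
      · exact h1
      · exact (hee j hj).1
    have h4 : ({v, i, e i} : Finset W).card = 3 := by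
      rw [card_eq_three]
      refine ⟨v, i, e i, hne, ?_, ?_, rfl⟩
      · intro hh; exact heH (hh ▸ hvH)
      · intro hh; exact heH (hh ▸ h.sub hi)
    have h5 := card_le_card h2
    have h6 := exits_card (hμ j hj).1.inj (hμ j hj).1.mem (Js i)
    omega
  -- maximal sets G_i
  have hGex : ∀ i : W, ∃ G : Finset W, i ∈ Z → (G ⊆ Js i ∧ e i ∈ G ∧ cc N G ≤ 1 ∧
      ∀ G' : Finset W, G' ⊆ Js i → cc N (G ∪ G') ≤ 1 → G' ⊆ G) := by
    intro i
    by_cases hi : i ∈ Z
    · obtain ⟨hiJ, haJ, hbJ, hJ2⟩ := hJs i hi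
      obtain ⟨heH, hee⟩ := he i hi
      have heJ : e i ∈ Js i := (mem_exits.1 (hee i hi).1).1
      obtain ⟨G, hG, hmax⟩ := Finset.exists_max_image
        ((Js i).powerset.filter (fun G => e i ∈ G ∧ cc N G ≤ 1)) Finset.card
        ⟨{e i}, by
          rw [mem_filter, mem_powerset]
          refine ⟨by simpa using heJ, mem_singleton_self _, ?_⟩
          unfold cc; rw [card_singleton]; omega⟩
      rw [mem_filter, mem_powerset] at hG
      refine ⟨G, fun _ => ⟨hG.1, hG.2.1, hG.2.2, ?_⟩⟩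
      intro G' hG' hc
      have h1 := hmax (G ∪ G') (by
        rw [mem_filter, mem_powerset]
        exact ⟨union_subset hG.1 hG', mem_union_left _ hG.2.1, hc⟩)
      have h2 := eq_of_subset_of_card_le (subset_union_left (s₁ := G) (s₂ := G')) h1
      rw [h2]
      exact subset_union_right
    · exact ⟨∅, fun hh => absurd hh hi⟩
  choose Gs hGs using hGex
  have hGabs : ∀ i ∈ Z, ∀ G' : Finset W, G' ⊆ Js i → e i ∈ G' → cc N G' ≤ 1 → G' ⊆ Gs i := by
    intro i hi G' hG' heG' hc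
    obtain ⟨hG1, hG2, hG3, hG4⟩ := hGs i hi
    apply hG4 G' hG'
    obtain ⟨heH, hee⟩ := he i hi
    have h1 := cc_submod N (Gs i) G'
    have h2 := cc_ge_one_of_exit (hμ i hi).1.inj (hμ i hi).1.mem
      (exits_sub (hee i hi).1 (inter_subset_left.trans hG1) (mem_inter.2 ⟨hG2, heG'⟩))
    omega
  -- T sets
  set T : W → Finset W := fun i => Js i \ Gs i with hT
  have hTi : ∀ i ∈ Z, i ∈ T i := by
    intro i hi
    obtain ⟨hiJ, haJ, hbJ, hJ2⟩ := hJs i hi
    obtain ⟨hG1, hG2, hG3, hG4⟩ := hGs i hi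
    obtain ⟨heH, hee⟩ := he i hi
    simp only [hT, mem_sdiff]
    refine ⟨hiJ, fun hiG => ?_⟩
    obtain ⟨j, hj, hji, _⟩ := hother i i
    have h1 : i ∈ exits N (μ j) (Gs i) := by
      apply exits_unmatched hiG
      intro k hk
      exact (hμ j hj).1.avoid k (hk ▸ mem_erase.2 ⟨hji.symm, hi⟩)
    have h2 := exits_sub (hee j hj).1 hG1 hG2
    have h4 : i ≠ e i := fun hh => heH (hh ▸ h.sub hi)
    have := cc_ge_two_of_exits (hμ j hj).1.inj (hμ j hj).1.mem h1 h2 h4
    omega
  have heT : ∀ i ∈ Z, e i ∉ T i := by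
    intro i hi hh
    simp only [hT, mem_sdiff] at hh
    exact hh.2 (hGs i hi).2.1
  have hx0T : ∀ i ∈ Z, x0 ∉ T i := by
    intro i hi hh
    have h1 : x0 ∈ Js i := (mem_sdiff.1 hh).1
    have h2 : x0 ∈ exits N (μ i) (Js i) := exits_unmatched h1 (hμ i hi).2
    have h4 := ((he i hi).2 i hi).2 x0 h2 (h.notin h.hx0)
    exact heT i hi (h4 ▸ hh)
  have hkJ : ∀ i ∈ Z, ∀ k ∈ Z, k ≠ i → k ∉ Js i := by
    intro i hi k hk hki hkJ
    obtain ⟨j, hj, hji, hjk⟩ := hother i k
    have h1 : k ∈ exits N (μ j) (Js i) := by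
      apply exits_unmatched hkJ
      intro k' hk'
      exact (hμ j hj).1.avoid k' (hk' ▸ mem_erase.2 ⟨hjk.symm, hk⟩)
    exact hki (hin i hi j hj hji k h1 (h.sub hk))
  have hTdisj : ∀ i ∈ Z, ∀ l ∈ Z, i ≠ l → ∀ w, w ∈ T i → w ∉ T l := by
    intro i hi l hl hil w hwi hwl
    obtain ⟨hiJ, haJ, hbJ, hJ2⟩ := hJs i hi
    obtain ⟨hG1, hG2, hG3, hG4⟩ := hGs i hi
    obtain ⟨hiJ', haJ', hbJ', hJ2'⟩ := hJs l hl
    obtain ⟨hG1', hG2', hG3', hG4'⟩ := hGs l hl
    rw [hT] at hwi hwl
    simp only [mem_sdiff] at hwi hwl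
    have hwm : w ∈ Js i ∩ Js l := mem_inter.2 ⟨hwi.1, hwl.1⟩
    obtain ⟨j, hj, hji, hjl⟩ := hother i l
    have hinj := (hμ j hj).1.inj
    have hmem := (hμ j hj).1.mem
    have h1 := hlow3 i hi l hl hil _ (h.hxa i hi) (Js i ∪ Js l) (mem_union_left _ hiJ)
      (mem_union_right _ hiJ') (mem_union_left _ haJ)
    have h2 := cc_submod N (Js i) (Js l)
    have h4 : cc N (Js i ∩ Js l) ≤ 1 := by omega
    by_cases h0 : cc N (Js i ∩ Js l) ≤ 0
    · have h5 := cc_submod N (Gs i) (Js i ∩ Js l)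
      have h6 := cc_nonneg hinj hmem (Gs i ∩ (Js i ∩ Js l))
      exact hwi.2 (hG4 (Js i ∩ Js l) inter_subset_left (by omega) hwm)
    · have h5 : 0 < (exits N (μ j) (Js i ∩ Js l)).card := by
        have := exits_card hinj hmem (Js i ∩ Js l)
        omega
      obtain ⟨v, hv⟩ := card_pos.1 h5
      have hvm := (mem_exits.1 hv).1
      rcases exits_inter hinj hv with hv' | hv'
      · by_cases hvH : v ∈ JH
        · have := hin i hi j hj hji v hv' hvH
          subst this
          exact hkJ l hl v hi hil (mem_inter.1 hvm).2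
        · have h6 := ((he i hi).2 j hj).2 v hv' hvH
          exact hwi.2 (hGabs i hi _ inter_subset_left (h6 ▸ hvm) h4 hwm)
      · by_cases hvH : v ∈ JH
        · have := hin l hl j hj hjl v hv' hvH
          subst this
          exact hkJ i hi v hl hil.symm (mem_inter.1 hvm).1
        · have h6 := ((he l hl).2 j hj).2 v hv' hvH
          exact hwl.2 (hGabs l hl _ inter_subset_right (h6 ▸ hvm) h4 hwm)
  -- choice of y
  have hyex : ∀ i : W, ∃ y : W, i ∈ Z → ((y = xa i ∨ y = xb i) ∧ y ∈ T i) := by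
    intro i
    by_cases hi : i ∈ Z
    · obtain ⟨hiJ, haJ, hbJ, hJ2⟩ := hJs i hi
      obtain ⟨hG1, hG2, hG3, hG4⟩ := hGs i hi
      by_cases ha : xa i ∈ Gs i
      · have hb : xb i ∉ Gs i := by
          intro hb
          have := h.ab i hi _ ha hb
          omega
        exact ⟨xb i, fun _ => ⟨Or.inr rfl, mem_sdiff.2 ⟨hbJ, hb⟩⟩⟩
      · exact ⟨xa i, fun _ => ⟨Or.inl rfl, mem_sdiff.2 ⟨haJ, ha⟩⟩⟩
    · exact ⟨i, fun hh => absurd hh hi⟩
  choose y hy using hyex
  -- key property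
  have hkey : ∀ i ∈ Z, ∀ j ∈ Z, j ≠ i → ∀ J : Finset W, y i ∈ J →
      ∃ v ∈ exits N (μ j) J, v ∈ T i := by
    intro i hi j hj hji J hyJ
    obtain ⟨hiJ, haJ, hbJ, hJ2⟩ := hJs i hi
    obtain ⟨hG1, hG2, hG3, hG4⟩ := hGs i hi
    obtain ⟨hy1, hyT⟩ := hy i hi
    have hyT' := hyT
    rw [hT] at hyT'
    simp only [mem_sdiff] at hyT'
    have hinj := (hμ j hj).1.inj
    have hmem := (hμ j hj).1.mem
    have h1 : ∃ v ∈ exits N (μ j) (J ∩ Js i), v ∈ T i := by
      by_contra hcon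
      push Not at hcon
      apply hyT'.2
      apply hG4 (J ∩ Js i) inter_subset_right _ (mem_inter.2 ⟨hyJ, hyT'.1⟩)
      have h2 : exits N (μ j) (Gs i ∪ (J ∩ Js i)) ⊆ exits N (μ j) (Gs i) := by
        intro v hv
        have hvm := (mem_exits.1 hv).1
        by_cases hvG : v ∈ Gs i
        · exact exits_sub hv subset_union_left hvG
        · rcases mem_union.1 hvm with hvm | hvm
          · exact absurd hvm hvG
          · exfalso
            have h4 := exits_sub hv subset_union_right hvm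
            exact hcon v h4 (mem_sdiff.2 ⟨(mem_inter.1 hvm).2, hvG⟩)
      have h4 := card_le_card h2
      have h5 := exits_card hinj hmem (Gs i ∪ (J ∩ Js i))
      have h6 := exits_card hinj hmem (Gs i)
      omega
    obtain ⟨v, hv, hvT⟩ := h1
    rcases exits_inter hinj hv with hv' | hv'
    · exact ⟨v, hv', hvT⟩
    · by_cases hvH : v ∈ JH
      · have := hin i hi j hj hji v hv' hvH
        subst this
        refine ⟨v, ?_, hvT⟩
        apply exits_unmatched (mem_inter.1 (mem_exits.1 hv).1).1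
        intro k hk
        exact (hμ j hj).1.avoid k (hk ▸ mem_erase.2 ⟨hji.symm, hi⟩)
      · exfalso
        have := ((he i hi).2 j hj).2 v hv' hvH
        exact heT i hi (this ▸ hvT)
  have hkey2 : ∀ (A : Finset W), ∀ i ∈ Z, ∀ j ∈ Z, j ≠ i → ∀ J : Finset W,
      (if i ∈ A then y i else i) ∈ J → ∃ v ∈ exits N (μ j) J, v ∈ T i := by
    intro A i hi j hj hji J hzJ
    by_cases hA : i ∈ A
    · rw [if_pos hA] at hzJ
      exact hkey i hi j hj hji J hzJ
    · rw [if_neg hA] at hzJ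
      refine ⟨i, ?_, hTi i hi⟩
      apply exits_unmatched hzJ
      intro k hk
      exact (hμ j hj).1.avoid k (hk ▸ mem_erase.2 ⟨hji.symm, hi⟩)
  -- counting
  have hcount : ∀ (A : Finset W) (j : W), j ∈ Z → ∀ (J : Finset W) (w : W),
      (∀ i ∈ Z.erase j, w ∉ T i) →
      ((((Z.erase j).filter (fun i => (if i ∈ A then y i else i) ∈ J)).card : ℤ)
          + (if w ∈ exits N (μ j) J then 1 else 0) ≤ cc N J) := by
    intro A j hj J w hw
    have hinj := (hμ j hj).1.inj
    have hmem := (hμ j hj).1.mem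
    set D := (Z.erase j).filter (fun i => (if i ∈ A then y i else i) ∈ J) with hD
    have hDv : ∀ i : W, ∃ v : W, i ∈ D → (v ∈ exits N (μ j) J ∧ v ∈ T i) := by
      intro i
      by_cases hi : i ∈ D
      · rw [hD, mem_filter, mem_erase] at hi
        obtain ⟨v, hv, hvT⟩ := hkey2 A i hi.1.2 j hj hi.1.1.symm J hi.2
        exact ⟨v, fun _ => ⟨hv, hvT⟩⟩
      · exact ⟨i, fun hh => absurd hh hi⟩
    choose g hg using hDv
    have hginj : Set.InjOn g (↑D : Set W) := by
      intro a ha b hb hab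
      by_contra hne
      have ha' := ha
      have hb' := hb
      rw [mem_coe, hD, mem_filter, mem_erase] at ha' hb'
      exact hTdisj a ha'.1.2 b hb'.1.2 hne (g a) (hg a ha).2 (hab ▸ (hg b hb).2)
    have hDcard : (D.image g).card = D.card := card_image_of_injOn hginj
    have hDsub : D.image g ⊆ exits N (μ j) J := by
      intro v hv
      obtain ⟨i, hi, rfl⟩ := mem_image.1 hv
      exact (hg i hi).1
    have hex := exits_card hinj hmem J
    by_cases hwe : w ∈ exits N (μ j) J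
    · rw [if_pos hwe]
      have hwD : w ∉ D.image g := by
        intro hh
        obtain ⟨i, hi, rfl⟩ := mem_image.1 hh
        have hi' := hi
        rw [hD, mem_filter] at hi'
        exact hw i hi'.1 (hg i hi).2
      have h1 : insert w (D.image g) ⊆ exits N (μ j) J := by
        intro v hv
        rcases mem_insert.1 hv with rfl | hv
        · exact hwe
        · exact hDsub hv
      have h2 := card_le_card h1
      rw [card_insert_of_notMem hwD, hDcard] at h2
      omega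
    · rw [if_neg hwe]
      have h2 := card_le_card hDsub
      rw [hDcard] at h2
      omega
  refine ⟨y, fun i hi => (hy i hi).1, ?_, ?_⟩
  · intro A hAZ hAne J
    by_cases hall : ∀ i ∈ Z, (if i ∈ A then y i else i) ∈ J
    · obtain ⟨a, ha⟩ := hAne
      have haZ := hAZ ha
      have hyJ : y a ∈ J := by
        have := hall a haZ
        rwa [if_pos ha] at this
      have hyX : y a ∈ X := by
        rcases (hy a haZ).1 with h1 | h1
        · rw [h1]; exact h.hxa a haZ
        · rw [h1]; exact h.hxb a haZ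
      obtain ⟨v, hv, hvH⟩ := (hμ a haZ).1.claimE (J := J)
        (hSx a haZ _ hyX _ ((hμ a haZ).1.sub.trans subset_union_right) (mem_union_left _ hyJ))
      obtain ⟨j, hj, hjv⟩ : ∃ j ∈ Z, ∀ i ∈ Z.erase j, v ∉ T i := by
        by_cases hex : ∃ j ∈ Z, v ∈ T j
        · obtain ⟨j, hj, hjv⟩ := hex
          refine ⟨j, hj, ?_⟩
          intro i hi hvi
          rw [mem_erase] at hi
          exact hTdisj j hj i hi.2 hi.1.symm v hjv hvi
        · push Not at hex
          exact ⟨a, haZ, fun i hi => hex i (mem_of_mem_erase hi)⟩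
      have hv' := exits_out_common (hμ a haZ).1 (hμ j hj).1 (hcom a haZ j hj) hv hvH
      have h1 := hcount A j hj J v hjv
      rw [if_pos hv'] at h1
      refine le_trans ?_ h1
      have h2 : Z.filter (fun i => (if i ∈ A then y i else i) ∈ J)
          ⊆ insert j ((Z.erase j).filter (fun i => (if i ∈ A then y i else i) ∈ J)) := by
        intro i hi
        rw [mem_filter] at hi
        rw [mem_insert, mem_filter, mem_erase]
        by_cases hij : i = j
        · exact Or.inl hij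
        · exact Or.inr ⟨⟨hij, hi.1⟩, hi.2⟩
      have h4 := (card_le_card h2).trans (card_insert_le _ _)
      omega
    · push Not at hall
      obtain ⟨j, hj, hjJ⟩ := hall
      obtain ⟨w, hw⟩ : ∃ w : W, w = x0 := ⟨_, rfl⟩
      have h1 := hcount A j hj J x0 (fun i hi => hx0T i (mem_of_mem_erase hi))
      have h2 : Z.filter (fun i => (if i ∈ A then y i else i) ∈ J)
          ⊆ (Z.erase j).filter (fun i => (if i ∈ A then y i else i) ∈ J) := by
        intro i hi
        rw [mem_filter] at hi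
        rw [mem_filter, mem_erase]
        refine ⟨⟨?_, hi.1⟩, hi.2⟩
        rintro rfl
        exact hjJ hi.2
      have h4 := card_le_card h2
      split_ifs at h1 <;> omega
  · intro j hj A J
    have h1 := hcount A j hj J x0 (fun i hi => hx0T i (mem_of_mem_erase hi))
    by_cases hx : x0 ∈ J
    · rw [if_pos hx]
      rw [if_pos (exits_unmatched hx (hμ j hj).2)] at h1
      exact h1
    · rw [if_neg hx]
      split_ifs at h1 <;> omega

end Pool.Agent.Helper35.BryHall
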