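import Mathlib

set_option autoImplicit false
set_option linter.unusedSectionVars false

namespace Pool.Agent.Helper35.BryRank

open Finset

variable {E : Type} [DecidableEq E]

/-- rank functions -/
structure Rk (r : Finset E → ℤ) : Prop where
  empty : r ∅ = 0
  mono : ∀ {S T : Finset E}, S ⊆ T → r S ≤ r T
  ins : ∀ (x : E) (S : Finset E), r (insert x S) ≤ r S + 1
  sub : ∀ S T : Finset E, r (S ∪ T) + r (S ∩ T) ≤ r S + r T

/-- contraction -/
def rc (r : Finset E → ℤ) (B Y : Finset E) : ℤ := r (B ∪ Y) - r B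

theorem Rk.rc {r : Finset E → ℤ} (hr : Rk r) (B : Finset E) : Rk (rc r B) where
  empty := by unfold BryRank.rc; rw [union_empty]; ring
  mono := by
    intro S T h
    unfold BryRank.rc
    have := hr.mono (union_subset_union (Subset.refl B) h)
    omega
  ins := by
    intro x S
    unfold BryRank.rc
    have := hr.ins x (B ∪ S)
    rw [union_insert]
    omega
  sub := by
    intro S T
    unfold BryRank.rc
    have h := hr.sub (B ∪ S) (B ∪ T)
    rw [← union_union_distrib_left, ← union_inter_distrib_left] at h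
    omega

theorem rc_rc (r : Finset E → ℤ) (B C : Finset E) : rc (rc r B) C = rc r (B ∪ C) := by
  funext Y
  unfold rc
  rw [union_assoc]
  ring

variable {r : Finset E → ℤ}

theorem Rk.nonneg (hr : Rk r) (S : Finset E) : 0 ≤ r S := by
  rw [← hr.empty]; exact hr.mono (empty_subset S)

theorem Rk.single_le (hr : Rk r) (x : E) : r {x} ≤ 1 := by
  have := hr.ins x ∅
  rw [hr.empty] at this
  simpa using this

theorem Rk.union_le (hr : Rk r) (S T : Finset E) : r (S ∪ T) ≤ r S + r T := by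
  have h1 := hr.sub S T
  have h2 := hr.nonneg (S ∩ T)
  omega

/-- closure is monotone -/
theorem Rk.cl_mono (hr : Rk r) {S T : Finset E} {x : E} (hST : S ⊆ T)
    (h : r (insert x S) = r S) : r (insert x T) = r T := by
  have h1 := hr.sub (insert x S) T
  have h2 : insert x S ∪ T = insert x T := by
    ext a; simp only [mem_union, mem_insert]
    constructor
    · rintro ((h1 | h1) | h1)
      · exact Or.inl h1
      · exact Or.inr (hST h1)
      · exact Or.inr h1
    · rintro (h1 | h1)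
      · exact Or.inl (Or.inl h1)
      · exact Or.inr h1
  have h3 : S ⊆ insert x S ∩ T := subset_inter (subset_insert _ _) hST
  have h4 := hr.mono h3
  have h5 := hr.mono (subset_insert x T)
  rw [h2] at h1
  omega

theorem Rk.not_cl (hr : Rk r) {S : Finset E} {x : E} (h : r (insert x S) ≠ r S) :
    r (insert x S) = r S + 1 := by
  have h1 := hr.ins x S
  have h2 := hr.mono (subset_insert x S)
  omega

/-- adding a set of closure elements -/
theorem Rk.cl_union (hr : Rk r) {S T : Finset E} (h : ∀ x ∈ T, r (insert x S) = r S) :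
    r (S ∪ T) = r S := by
  induction T using Finset.induction_on with
  | empty => rw [union_empty]
  | insert a T ha ih =>
    have ih' := ih (fun x hx => h x (mem_insert_of_mem hx))
    rw [union_insert, ← ih']
    exact hr.cl_mono subset_union_left (h a (mem_insert_self _ _))

theorem Rk.exch (hr : Rk r) {S : Finset E} {x y : E} (h1 : r (insert x S) ≠ r S)
    (h2 : r (insert x (insert y S)) = r (insert y S)) :
    r (insert y (insert x S)) = r (insert x S) := by
  have h3 := hr.not_cl h1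
  rw [insert_comm] at h2
  have h4 := hr.mono (subset_insert y (insert x S))
  have h5 := hr.ins y S
  omega

/-- connectedness -/
def Conn (r : Finset E → ℤ) (X : Finset E) : Prop :=
  X.Nonempty ∧ ∀ Y ⊆ X, Y.Nonempty → (X \ Y).Nonempty → r X < r Y + r (X \ Y)

/-- simplicity -/
def Simp (r : Finset E → ℤ) (X : Finset E) : Prop :=
  (∀ x ∈ X, r {x} = 1) ∧ ∀ x ∈ X, ∀ y ∈ X, x ≠ y → r {x, y} = 2

/-- circuits through `e` -/
def Circ (r : Finset E → ℤ) (e : E) (C : Finset E) : Prop :=
  e ∉ C ∧ r (insert e C) = r C ∧ ∀ c ∈ C, r (insert e (C.erase c)) = r (C.erase c) + 1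

theorem Simp.mono {X Y : Finset E} (h : Simp r X) (hY : Y ⊆ X) : Simp r Y :=
  ⟨fun x hx => h.1 x (hY hx), fun x hx y hy => h.2 x (hY hx) y (hY hy)⟩

theorem Conn.nocoloop (hr : Rk r) {X : Finset E} (h : Conn r X) {x : E} (hx : x ∈ X)
    (h2 : 2 ≤ X.card) : r (X.erase x) = r X := by
  have h1 := h.2 {x} (singleton_subset_iff.2 hx) (singleton_nonempty x) (by
    rw [← erase_eq, ← card_pos, card_erase_of_mem hx]; omega)
  rw [← erase_eq] at h1
  have h3 := hr.single_le x
  have h4 := hr.mono (erase_subset x X)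
  omega

theorem not_conn {X : Finset E} (hne : X.Nonempty) (h : ¬ Conn r X) :
    ∃ Y ⊆ X, Y.Nonempty ∧ (X \ Y).Nonempty ∧ r Y + r (X \ Y) ≤ r X := by
  by_contra hcon
  push Not at hcon
  exact h ⟨hne, hcon⟩

theorem Conn.tutte (hr : Rk r) {X : Finset E} (h : Conn r X) {g : E} (hg : g ∈ X)
    (h2 : 2 ≤ X.card) : Conn r (X.erase g) ∨ Conn (rc r {g}) (X.erase g) := by
  have hne : (X.erase g).Nonempty := by
    rw [← card_pos, card_erase_of_mem hg]; omega
  by_contra hcon
  push Not at hcon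
  obtain ⟨h3, h4⟩ := hcon
  obtain ⟨Y, hY, hY1, hY2, hY3⟩ := not_conn hne h3
  obtain ⟨P, hP, hP1, hP2, hP3⟩ := not_conn hne h4
  set Z := X.erase g \ Y with hZ
  set Q := X.erase g \ P with hQ
  unfold rc at hP3
  have e0 : {g} ∪ X.erase g = X := by
    rw [← insert_eq, insert_erase hg]
  rw [e0] at hP3
  have hg1 := hr.single_le g
  have hX1 := hr.mono (erase_subset g X)
  have hmemX : ∀ a, a ∈ X ↔ a = g ∨ (a ∈ Y ∨ a ∈ Z) := by
    intro a
    constructor
    · intro ha
      by_cases hag : a = g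
      · exact Or.inl hag
      · right
        by_cases haY : a ∈ Y
        · exact Or.inl haY
        · exact Or.inr (mem_sdiff.2 ⟨mem_erase.2 ⟨hag, ha⟩, haY⟩)
    · rintro (rfl | ha | ha)
      · exact hg
      · exact mem_of_mem_erase (hY ha)
      · exact mem_of_mem_erase (mem_sdiff.1 ha).1
  have hgY : g ∉ Y := fun hh => notMem_erase g X (hY hh)
  have hgZ : g ∉ Z := fun hh => notMem_erase g X (mem_sdiff.1 hh).1
  have hgP : g ∉ P := fun hh => notMem_erase g X (hP hh)
  have hgQ : g ∉ Q := fun hh => notMem_erase g X (mem_sdiff.1 hh).1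
  -- crossing inequality
  have cross : ∀ Y' Z' P' Q' : Finset E,
      (∀ a, a ∈ X ↔ a = g ∨ (a ∈ Y' ∨ a ∈ Z')) → (∀ a, a ∈ X ↔ a = g ∨ (a ∈ P' ∨ a ∈ Q')) →
      (∀ a, a ∈ Y' → a ∉ Z') → (∀ a, a ∈ P' → a ∉ Q') → g ∉ Y' → g ∉ Z' → g ∉ P' → g ∉ Q' →
      r Y' + r Z' ≤ r X → r (insert g P') + r (insert g Q') ≤ r X + 1 →
      (Y' ∩ P').Nonempty → (Z' ∩ Q').Nonempty → False := by
    intro Y' Z' P' Q' hYZ hPQ hdYZ hdPQ gY gZ gP gQ s1 s2 n1 n2
    have a1 := hr.sub Y' (insert g P')
    have a2 := hr.sub Z' (insert g Q')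
    have i1 : Y' ∩ insert g P' = Y' ∩ P' := by
      ext a; simp only [mem_inter, mem_insert]
      constructor
      · rintro ⟨h1, rfl | h2⟩
        · exact absurd h1 gY
        · exact ⟨h1, h2⟩
      · rintro ⟨h1, h2⟩; exact ⟨h1, Or.inr h2⟩
    have i2 : Z' ∩ insert g Q' = Z' ∩ Q' := by
      ext a; simp only [mem_inter, mem_insert]
      constructor
      · rintro ⟨h1, rfl | h2⟩
        · exact absurd h1 gZ
        · exact ⟨h1, h2⟩
      · rintro ⟨h1, h2⟩; exact ⟨h1, Or.inr h2⟩
    have c1 : X \ (Y' ∩ P') = Z' ∪ insert g Q' := by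
      ext a
      simp only [mem_sdiff, mem_inter, mem_union, mem_insert, not_and]
      constructor
      · rintro ⟨h1, h2⟩
        rcases (hYZ a).1 h1 with rfl | h3 | h3
        · exact Or.inr (Or.inl rfl)
        · rcases (hPQ a).1 h1 with rfl | h4 | h4
          · exact Or.inr (Or.inl rfl)
          · exact absurd h4 (h2 h3)
          · exact Or.inr (Or.inr h4)
        · exact Or.inl h3
      · rintro (h1 | rfl | h1)
        · exact ⟨(hYZ a).2 (Or.inr (Or.inr h1)), fun h2 => absurd h1 (hdYZ a h2)⟩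
        · exact ⟨hg, fun h2 => absurd h2 gY⟩
        · exact ⟨(hPQ a).2 (Or.inr (Or.inr h1)), fun _ h2 => hdPQ a h2 h1⟩
    have c2 : X \ (Z' ∩ Q') = Y' ∪ insert g P' := by
      ext a
      simp only [mem_sdiff, mem_inter, mem_union, mem_insert, not_and]
      constructor
      · rintro ⟨h1, h2⟩
        rcases (hYZ a).1 h1 with rfl | h3 | h3
        · exact Or.inr (Or.inl rfl)
        · exact Or.inl h3
        · rcases (hPQ a).1 h1 with rfl | h4 | h4
          · exact Or.inr (Or.inl rfl)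
          · exact Or.inr (Or.inr h4)
          · exact absurd h4 (h2 h3)
      · rintro (h1 | rfl | h1)
        · exact ⟨(hYZ a).2 (Or.inr (Or.inl h1)), fun h2 => absurd h2 (hdYZ a h1)⟩
        · exact ⟨hg, fun h2 => absurd h2 gZ⟩
        · exact ⟨(hPQ a).2 (Or.inr (Or.inl h1)), fun _ h2 => hdPQ a h1 h2⟩
    have sub1 : Y' ∩ P' ⊆ X := fun a ha => (hYZ a).2 (Or.inr (Or.inl (mem_inter.1 ha).1))
    have sub2 : Z' ∩ Q' ⊆ X := fun a ha => (hYZ a).2 (Or.inr (Or.inr (mem_inter.1 ha).1))
    have b1 := h.2 (Y' ∩ P') sub1 n1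
      ⟨g, mem_sdiff.2 ⟨hg, fun hh => gY (mem_inter.1 hh).1⟩⟩
    have b2 := h.2 (Z' ∩ Q') sub2 n2
      ⟨g, mem_sdiff.2 ⟨hg, fun hh => gZ (mem_inter.1 hh).1⟩⟩
    rw [c1] at b1
    rw [c2] at b2
    rw [i1] at a1
    rw [i2] at a2
    omega
  have hmemX' : ∀ a, a ∈ X ↔ a = g ∨ (a ∈ P ∨ a ∈ Q) := by
    intro a
    constructor
    · intro ha
      by_cases hag : a = g
      · exact Or.inl hag
      · right
        by_cases haY : a ∈ P
        · exact Or.inl haY
        · exact Or.inr (mem_sdiff.2 ⟨mem_erase.2 ⟨hag, ha⟩, haY⟩)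
    · rintro (rfl | ha | ha)
      · exact hg
      · exact mem_of_mem_erase (hP ha)
      · exact mem_of_mem_erase (mem_sdiff.1 ha).1
  have dYZ : ∀ a, a ∈ Y → a ∉ Z := fun a h1 h2 => (mem_sdiff.1 h2).2 h1
  have dPQ : ∀ a, a ∈ P → a ∉ Q := fun a h1 h2 => (mem_sdiff.1 h2).2 h1
  have dQP : ∀ a, a ∈ Q → a ∉ P := fun a h1 h2 => (mem_sdiff.1 h1).2 h2
  rw [← insert_eq, ← insert_eq] at hP3
  have s1 : r Y + r Z ≤ r X := by omega
  have s2 : r (insert g P) + r (insert g Q) ≤ r X + 1 := by omega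
  have s2' : r (insert g Q) + r (insert g P) ≤ r X + 1 := by omega
  have hXswap : ∀ a, a ∈ X ↔ a = g ∨ (a ∈ Q ∨ a ∈ P) := by
    intro a; rw [hmemX' a, or_comm (a := a ∈ P)]
  have k1 := cross Y Z P Q hmemX hmemX' dYZ dPQ hgY hgZ hgP hgQ s1 s2
  have k2 := cross Y Z Q P hmemX hXswap dYZ dQP hgY hgZ hgQ hgP s1 s2'
  obtain ⟨y, hy⟩ := hY1
  obtain ⟨z, hz⟩ := hY2
  obtain ⟨p, hp⟩ := hP1
  obtain ⟨q, hq⟩ := hP2
  -- membership facts
  have my : y ∈ P ∨ y ∈ Q := by
    rcases (hmemX' y).1 ((hmemX y).2 (Or.inr (Or.inl hy))) with h1 | h1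
    · exact absurd (h1 ▸ hy) hgY
    · exact h1
  have mz : z ∈ P ∨ z ∈ Q := by
    rcases (hmemX' z).1 ((hmemX z).2 (Or.inr (Or.inr hz))) with h1 | h1
    · exact absurd (h1 ▸ hz) hgZ
    · exact h1
  have mp : p ∈ Y ∨ p ∈ Z := by
    rcases (hmemX p).1 ((hmemX' p).2 (Or.inr (Or.inl hp))) with h1 | h1
    · exact absurd (h1 ▸ hp) hgP
    · exact h1
  have mq : q ∈ Y ∨ q ∈ Z := by
    rcases (hmemX q).1 ((hmemX' q).2 (Or.inr (Or.inr hq))) with h1 | h1
    · exact absurd (h1 ▸ hq) hgQ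
    · exact h1
  have t1 : ∀ a b, a ∈ Y → a ∈ P → b ∈ Z → b ∈ Q → False :=
    fun a b h1 h2 h3 h4 => k1 ⟨a, mem_inter.2 ⟨h1, h2⟩⟩ ⟨b, mem_inter.2 ⟨h3, h4⟩⟩
  have t2 : ∀ a b, a ∈ Y → a ∈ Q → b ∈ Z → b ∈ P → False :=
    fun a b h1 h2 h3 h4 => k2 ⟨a, mem_inter.2 ⟨h1, h2⟩⟩ ⟨b, mem_inter.2 ⟨h3, h4⟩⟩
  rcases my with my | my
  · rcases mz with mz | mz
    · rcases mq with mq | mq
      · exact t2 q z mq hq hz mz
      · exact t1 y q hy my mq hq
    · exact t1 y z hy my hz mz
  · rcases mz with mz | mz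
    · exact t2 y z hy my hz mz
    · rcases mp with mp | mp
      · exact t1 p z mp hp hz mz
      · exact t2 y p hy my mp hp

/-- a circuit all of whose deletions (other than `e`) disconnect contains a series pair -/
theorem Conn.series_lemma (hr : Rk r) {X : Finset E} (h : Conn r X) {e : E} (he : e ∈ X)
    {C : Finset E} (hC : C ⊆ X.erase e) (hcirc : Circ r e C) (hne : C.Nonempty)
    (hdis : ∀ f ∈ C, ¬ Conn r (X.erase f)) :
    ∃ f ∈ C, ∃ f' ∈ C, f ≠ f' ∧ r ((X.erase f).erase f') = r X - 1 := by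
  classical
  have hX2 : 2 ≤ X.card := by
    have h1 : 0 < C.card := card_pos.2 hne
    have h2 := card_le_card hC
    rw [card_erase_of_mem he] at h2
    omega
  have hsep : ∀ f ∈ C, ∃ Y ⊆ X.erase f, e ∉ Y ∧ Y.Nonempty ∧
      r Y + r (X.erase f \ Y) ≤ r X := by
    intro f hf
    have hfX := hC hf
    rw [mem_erase] at hfX
    have hne' : (X.erase f).Nonempty := ⟨e, mem_erase.2 ⟨hfX.1.symm, he⟩⟩
    obtain ⟨Y, hY, hY1, hY2, hY3⟩ := not_conn hne' (hdis f hf)
    have hco := h.nocoloop hr hfX.2 hX2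
    rw [hco] at hY3
    by_cases heY : e ∈ Y
    · refine ⟨X.erase f \ Y, sdiff_subset, fun hh => (mem_sdiff.1 hh).2 heY, hY2, ?_⟩
      rw [Finset.sdiff_sdiff_eq_self hY]
      omega
    · exact ⟨Y, hY, heY, hY1, hY3⟩
  obtain ⟨f0, hf0⟩ := hne
  obtain ⟨Y0, hY0, heY0, hY0n, hY0s⟩ := hsep f0 hf0
  obtain ⟨⟨f, Y⟩, hmem, hmin⟩ := Finset.exists_min_image
    ((C ×ˢ X.powerset).filter (fun p => p.2 ⊆ X.erase p.1 ∧ e ∉ p.2 ∧ p.2.Nonempty ∧
      r p.2 + r (X.erase p.1 \ p.2) ≤ r X)) (fun p => p.2.card)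
    ⟨(f0, Y0), by
      rw [mem_filter, mem_product, mem_powerset]
      exact ⟨⟨hf0, hY0.trans (erase_subset _ _)⟩, hY0, heY0, hY0n, hY0s⟩⟩
  rw [mem_filter, mem_product, mem_powerset] at hmem
  simp only at hmem hmin
  obtain ⟨⟨hf, -⟩, hY, heY, hYn, hYs⟩ := hmem
  have hfX := hC hf
  rw [mem_erase] at hfX
  set Z := X.erase f \ Y with hZ
  have heZ : e ∈ Z := mem_sdiff.2 ⟨mem_erase.2 ⟨hfX.1.symm, he⟩, heY⟩
  have hfY : f ∉ Y := fun hh => notMem_erase f X (hY hh)
  have hfZ : f ∉ Z := fun hh => notMem_erase f X (mem_sdiff.1 hh).1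
  -- C meets Y
  have hCY : ∃ f' ∈ C, f' ∈ Y := by
    by_contra hcon
    push Not at hcon
    have h1 : C.erase f ⊆ Z := by
      intro a ha
      rw [mem_erase] at ha
      have := hC ha.2
      rw [mem_erase] at this
      exact mem_sdiff.2 ⟨mem_erase.2 ⟨ha.1, this.2⟩, hcon a ha.2⟩
    have h2 := hcirc.2.2 f hf
    have h3 : r (insert e (insert f (C.erase f))) = r (insert f (C.erase f)) := by
      rw [insert_erase hf]; exact hcirc.2.1
    have h4 := hr.exch (by omega) h3
    have h5 : insert e (C.erase f) ⊆ Z := by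
      intro a ha
      rcases mem_insert.1 ha with rfl | ha
      · exact heZ
      · exact h1 ha
    have h6 := hr.cl_mono h5 h4
    have h7 : X \ Y = insert f Z := by
      ext a
      simp only [mem_sdiff, mem_insert, hZ, mem_erase]
      constructor
      · rintro ⟨h8, h9⟩
        by_cases haf : a = f
        · exact Or.inl haf
        · exact Or.inr ⟨⟨haf, h8⟩, h9⟩
      · rintro (rfl | ⟨⟨h8, h9⟩, h10⟩)
        · exact ⟨hfX.2, hfY⟩
        · exact ⟨h9, h10⟩
    have h8 := h.2 Y (hY.trans (erase_subset _ _)) hYn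
      ⟨e, mem_sdiff.2 ⟨he, heY⟩⟩
    rw [h7, h6] at h8
    omega
  obtain ⟨f', hf', hf'Y⟩ := hCY
  have hff' : f ≠ f' := fun hh => hfY (hh ▸ hf'Y)
  refine ⟨f, hf, f', hf', hff', ?_⟩
  have hf'X := hC hf'
  rw [mem_erase] at hf'X
  by_contra hcon
  have hX'' : r ((X.erase f).erase f') = r X := by
    have h1 := h.nocoloop hr hfX.2 hX2
    have h2 := hr.ins f' ((X.erase f).erase f')
    rw [insert_erase (mem_erase.2 ⟨hff'.symm, hf'X.2⟩)] at h2
    have h3 := hr.mono (erase_subset f' (X.erase f))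
    omega
  obtain ⟨Y', hY', heY', hYn', hYs'⟩ := hsep f' hf'
  set Z' := X.erase f' \ Y' with hZ'
  have heZ' : e ∈ Z' := mem_sdiff.2 ⟨mem_erase.2 ⟨hf'X.1.symm, he⟩, heY'⟩
  have hf'Z : f' ∉ Z := fun hh => (mem_sdiff.1 hh).2 hf'Y
  have hf'Y' : f' ∉ Y' := fun hh => notMem_erase f' X (hY' hh)
  have hf'Z' : f' ∉ Z' := fun hh => notMem_erase f' X (mem_sdiff.1 hh).1
  -- uncrossing
  have unc : ∀ P Q : Finset E, (∀ a, a ∈ X → a ≠ f' → (a ∈ P ∨ a ∈ Q)) → (∀ a, a ∈ P → a ∉ Q) →
      P ⊆ X → Q ⊆ X → f' ∉ P → f' ∉ Q → f ∈ Q → r P + r Q ≤ r X → ¬ (Z ∩ P).Nonempty := by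
    intro P Q hPQ hd hPX hQX hfP hfQ hfQ' hs hn
    have hfnP : f ∉ P := fun hh => hd f hh hfQ'
    have hsubT : Z ∩ P ⊆ X := inter_subset_right.trans hPX
    have h1 := h.2 (Z ∩ P) hsubT hn
      ⟨f, mem_sdiff.2 ⟨hfX.2, fun hh => hfZ (mem_inter.1 hh).1⟩⟩
    have h2 : X \ (Z ∩ P) = Y ∪ Q := by
      ext a
      simp only [mem_sdiff, mem_inter, mem_union, not_and]
      constructor
      · rintro ⟨h3, h4⟩
        by_cases haf' : a = f'
        · left; rw [haf']; exact hf'Y
        · rcases hPQ a h3 haf' with h5 | h5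
          · by_cases haf : a = f
            · exact absurd (haf ▸ h5) hfnP
            · by_cases haY : a ∈ Y
              · exact Or.inl haY
              · exact absurd h5 (h4 (mem_sdiff.2 ⟨mem_erase.2 ⟨haf, h3⟩, haY⟩))
          · exact Or.inr h5
      · rintro (h3 | h3)
        · exact ⟨mem_of_mem_erase (hY h3), fun h4 => absurd h3 (mem_sdiff.1 h4).2⟩
        · exact ⟨hQX h3, fun _ h4 => hd a h4 h3⟩
    rw [h2] at h1
    have h3 := hr.sub Z P
    have h4 := hr.sub Y Q
    have h5 := hr.union_le (Z ∪ P) (Y ∩ Q)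
    have h6 : (X.erase f).erase f' ⊆ (Z ∪ P) ∪ (Y ∩ Q) := by
      intro a ha
      rw [mem_erase, mem_erase] at ha
      simp only [mem_union, mem_inter]
      rcases hPQ a ha.2.2 ha.1 with h7 | h7
      · exact Or.inl (Or.inr h7)
      · by_cases haY : a ∈ Y
        · exact Or.inr ⟨haY, h7⟩
        · exact Or.inl (Or.inl (mem_sdiff.2 ⟨mem_erase.2 ⟨ha.2.1, ha.2.2⟩, haY⟩))
    have h7 := hr.mono h6
    omega
  have hcov : ∀ a, a ∈ X → a ≠ f' → (a ∈ Y' ∨ a ∈ Z') := by
    intro a ha haf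
    by_cases haY : a ∈ Y'
    · exact Or.inl haY
    · exact Or.inr (mem_sdiff.2 ⟨mem_erase.2 ⟨haf, ha⟩, haY⟩)
  have hd1 : ∀ a, a ∈ Y' → a ∉ Z' := fun a h1 h2 => (mem_sdiff.1 h2).2 h1
  have hd2 : ∀ a, a ∈ Z' → a ∉ Y' := fun a h1 h2 => (mem_sdiff.1 h1).2 h2
  have hY'X : Y' ⊆ X := hY'.trans (erase_subset _ _)
  have hZ'X : Z' ⊆ X := sdiff_subset.trans (erase_subset _ _)
  rcases hcov f hfX.2 hff' with hfc | hfc
  · -- f ∈ Y'
    exact unc Z' Y' (fun a h1 h2 => (hcov a h1 h2).symm) hd2 hZ'X hY'X hf'Z' hf'Y' hfc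
      (by omega) ⟨e, mem_inter.2 ⟨heZ, heZ'⟩⟩
  · have hem := unc Y' Z' hcov hd1 hY'X hZ'X hf'Y' hf'Z' hfc hYs'
    have hsubY : Y' ⊆ Y := by
      intro a ha
      have haf : a ≠ f := fun hh => hd1 a ha (hh ▸ hfc)
      by_contra haY
      exact hem ⟨a, mem_inter.2 ⟨mem_sdiff.2 ⟨mem_erase.2 ⟨haf, hY'X ha⟩, haY⟩, ha⟩⟩
    have hlt : Y'.card < Y.card := by
      apply card_lt_card
      refine ⟨hsubY, fun hh => hf'Y' (hh hf'Y)⟩
    have := hmin (f', Y') (by
      rw [mem_filter, mem_product, mem_powerset]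
      exact ⟨⟨hf', hY'X⟩, hY', heY', hYn', hYs'⟩)
    simp only at this
    omega

/-! ### parallel elements -/

/-- `f` and `h` are parallel -/
theorem Rk.par_swap (hr : Rk r) {f h : E} (hf : r {f} = 1) (hh : r {h} = 1)
    (hfh : r {f, h} = 1) (S : Finset E) : r (insert f S) = r (insert h S) := by
  have h1 : r (insert f {h}) = r {h} := by rw [hh]; exact hfh
  have h2 : r (insert h {f}) = r {f} := by
    rw [hf, ← hfh]; congr 1; ext a; simp [or_comm]
  have h3 := hr.cl_mono (T := insert h S) (by simp) h1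
  have h4 := hr.cl_mono (T := insert f S) (by simp) h2
  rw [← h3, ← h4, insert_comm]

theorem Rk.par_absorb (hr : Rk r) {f h : E} (hh : r {h} = 1)
    (hfh : r {f, h} = 1) {S : Finset E} (hS : h ∈ S) : r (insert f S) = r S := by
  have h1 : r (insert f {h}) = r {h} := by rw [hh]; exact hfh
  exact hr.cl_mono (by simpa using hS) h1

theorem Conn.del_par (hr : Rk r) {X : Finset E} (h : Conn r X) {f g : E} (hf : f ∈ X)
    (hg : g ∈ X) (hfg : f ≠ g) (hg1 : r {g} = 1) (hp : r {f, g} = 1) : Conn r (X.erase f) := by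
  have hgX : g ∈ X.erase f := mem_erase.2 ⟨hfg.symm, hg⟩
  refine ⟨⟨g, hgX⟩, ?_⟩
  have key : ∀ Y ⊆ X.erase f, g ∈ Y → (X.erase f \ Y).Nonempty →
      r (X.erase f) < r Y + r (X.erase f \ Y) := by
    intro Y hY hgY hne
    have hfY : f ∉ Y := fun hh => notMem_erase f X (hY hh)
    have e1 : X \ insert f Y = X.erase f \ Y := by
      ext a
      simp only [mem_sdiff, mem_insert, mem_erase, not_or]
      tauto
    have h1 := h.2 (insert f Y) (insert_subset hf (hY.trans (erase_subset _ _)))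
      (insert_nonempty _ _) (by rw [e1]; exact hne)
    rw [e1, hr.par_absorb hg1 hp hgY] at h1
    have h2 := hr.mono (erase_subset f X)
    omega
  intro Y hY hYn hZn
  by_cases hgY : g ∈ Y
  · exact key Y hY hgY hZn
  · have h1 := key (X.erase f \ Y) sdiff_subset (mem_sdiff.2 ⟨hgX, hgY⟩)
      (by rw [Finset.sdiff_sdiff_eq_self hY]; exact hYn)
    rw [Finset.sdiff_sdiff_eq_self hY] at h1
    omega

theorem Conn.extend (hr : Rk r) {X : Finset E} (h : Conn r X) {x y : E}
    (hx : r (insert x X) = r X + 1) (hy : r (insert y X) = r X + 1)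
    (hxy2 : r {x, y} = 2) (hxy : r (insert x (insert y X)) = r X + 1) :
    Conn r (insert x (insert y X)) := by
  have hxX : x ∉ X := by
    intro hh; rw [insert_eq_of_mem hh] at hx; omega
  have hyX : y ∉ X := by
    intro hh; rw [insert_eq_of_mem hh] at hy; omega
  refine ⟨insert_nonempty _ _, ?_⟩
  -- symmetric key: if P, Q partition, P meets X and Q meets X then done
  have part : ∀ Y Z : Finset E, (∀ a, a ∈ insert x (insert y X) ↔ a ∈ Y ∨ a ∈ Z) →
      (∀ a, a ∈ Y → a ∉ Z) → Y.Nonempty → Z.Nonempty → x ∈ Y →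
      r (insert x (insert y X)) < r Y + r Z := by
    intro Y Z hc hd hYn hZn hxY
    by_contra hcon
    push Not at hcon
    by_cases h1 : (X ∩ Y).Nonempty
    · by_cases h2 : (X ∩ Z).Nonempty
      · have e1 : X \ (X ∩ Y) = X ∩ Z := by
          ext a
          simp only [mem_sdiff, mem_inter, not_and]
          constructor
          · rintro ⟨h3, h4⟩
            rcases (hc a).1 (mem_insert_of_mem (mem_insert_of_mem h3)) with h5 | h5
            · exact absurd h5 (h4 h3)
            · exact ⟨h3, h5⟩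
          · rintro ⟨h3, h4⟩
            exact ⟨h3, fun _ h5 => hd a h5 h4⟩
        have h3 := h.2 (X ∩ Y) inter_subset_left h1 (by rw [e1]; exact h2)
        rw [e1] at h3
        have h4 := hr.mono (inter_subset_right (s₁ := X) (s₂ := Y))
        have h5 := hr.mono (inter_subset_right (s₁ := X) (s₂ := Z))
        have h6 : r (insert x (X ∩ Y)) = r (X ∩ Y) := by
          have h7 := hr.mono (subset_insert x (X ∩ Y))
          have h8 : insert x (X ∩ Y) ⊆ Y := insert_subset hxY inter_subset_right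
          have h9 := hr.mono h8
          omega
        have h7 := hr.cl_mono (inter_subset_left (s₁ := X) (s₂ := Y)) h6
        omega
      · -- X ⊆ Y
        have hXY : X ⊆ Y := by
          intro a ha
          rcases (hc a).1 (mem_insert_of_mem (mem_insert_of_mem ha)) with h5 | h5
          · exact h5
          · exact absurd ⟨a, mem_inter.2 ⟨ha, h5⟩⟩ h2
        obtain ⟨z, hz⟩ := hZn
        have hzy : z = y := by
          rcases mem_insert.1 ((hc z).2 (Or.inr hz)) with h3 | h3
          · exact absurd hz (hd z (h3 ▸ hxY))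
          · rcases mem_insert.1 h3 with h4 | h4
            · exact h4
            · exact absurd hz (hd z (hXY h4))
        subst hzy
        have h3 := hr.mono (insert_subset hxY hXY)
        have h4 := hr.mono (singleton_subset_iff.2 hz)
        have h5 : 1 ≤ r {z} := by
          have h6 := hr.union_le X {z}
          rw [union_comm, ← insert_eq] at h6
          omega
        omega
    · -- X ∩ Y empty, X ⊆ Z
      have hXZ : X ⊆ Z := by
        intro a ha
        rcases (hc a).1 (mem_insert_of_mem (mem_insert_of_mem ha)) with h5 | h5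
        · exact absurd ⟨a, mem_inter.2 ⟨ha, h5⟩⟩ h1
        · exact h5
      by_cases hyY : y ∈ Y
      · have h3 : ({x, y} : Finset E) ⊆ Y := by
          intro a ha
          rw [mem_insert, mem_singleton] at ha
          rcases ha with rfl | rfl <;> assumption
        have h4 := hr.mono h3
        have h5 := hr.mono hXZ
        omega
      · have hyZ : y ∈ Z := by
          rcases (hc y).1 (mem_insert_of_mem (mem_insert_self _ _)) with h5 | h5
          · exact absurd h5 hyY
          · exact h5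
        have h3 := hr.mono (insert_subset hyZ hXZ)
        have h4 := hr.mono (singleton_subset_iff.2 hxY)
        have h5 : 1 ≤ r {x} := by
          have h6 := hr.union_le X {x}
          rw [union_comm, ← insert_eq] at h6
          omega
        omega
  intro Y hY hYn hZn
  have hc : ∀ a, a ∈ insert x (insert y X) ↔ a ∈ Y ∨ a ∈ insert x (insert y X) \ Y := by
    intro a
    rw [mem_sdiff]
    constructor
    · intro ha
      by_cases haY : a ∈ Y
      · exact Or.inl haY
      · exact Or.inr ⟨ha, haY⟩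
    · rintro (h1 | h1)
      · exact hY h1
      · exact h1.1
  by_cases hxY : x ∈ Y
  · exact part Y _ hc (fun a h1 h2 => (mem_sdiff.1 h2).2 h1) hYn hZn hxY
  · have h1 := part _ Y (fun a => by rw [or_comm]; exact hc a)
      (fun a h1 h2 => (mem_sdiff.1 h1).2 h2) hZn hYn
      (mem_sdiff.2 ⟨mem_insert_self _ _, hxY⟩)
    omega

/-! ### series pairs -/

/-- A series pair in `X` (both deletions spanning). -/
structure Series (r : Finset E → ℤ) (X : Finset E) (f g : E) : Prop where
  hf : f ∈ X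
  hg : g ∈ X
  ne : f ≠ g
  del : r ((X.erase f).erase g) = r X - 1
  df : r (X.erase f) = r X
  dg : r (X.erase g) = r X

theorem Series.symm {X : Finset E} {f g : E} (h : Series r X f g) : Series r X g f :=
  ⟨h.hg, h.hf, h.ne.symm, by rw [erase_right_comm]; exact h.del, h.dg, h.df⟩

/-- no element of the pair is in the closure of a set avoiding both -/
theorem Series.not_cl (hr : Rk r) {X : Finset E} {f g : E} (h : Series r X f g)
    {S : Finset E} (hS : S ⊆ X) (hfS : f ∉ S) (hgS : g ∉ S) : r (insert g S) = r S + 1 := by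
  apply hr.not_cl
  intro hcon
  have hsub : S ⊆ (X.erase f).erase g := by
    intro a ha
    rw [mem_erase, mem_erase]
    exact ⟨fun hh => hgS (hh ▸ ha), fun hh => hfS (hh ▸ ha), hS ha⟩
  have h1 := hr.cl_mono hsub hcon
  rw [insert_erase (mem_erase.2 ⟨h.ne.symm, h.hg⟩)] at h1
  have := h.del
  have := h.df
  omega

theorem Series.conn (hr : Rk r) {X : Finset E} {f g : E} (h : Series r X f g)
    (hc : Conn r X) (hg1 : r {g} = 1) : Conn (rc r {g}) (X.erase g) := by
  refine ⟨⟨f, mem_erase.2 ⟨h.ne, h.hf⟩⟩, ?_⟩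
  have key : ∀ Y Z : Finset E, (∀ a, a ∈ X.erase g ↔ a ∈ Y ∨ a ∈ Z) → (∀ a, a ∈ Y → a ∉ Z) →
      Y.Nonempty → Z.Nonempty → f ∈ Y → rc r {g} (X.erase g) < rc r {g} Y + rc r {g} Z := by
    intro Y Z hcv hd hYn hZn hfY
    have hfZ : f ∉ Z := hd f hfY
    have hgY : g ∉ Y := fun hh => notMem_erase g X ((hcv g).2 (Or.inl hh))
    have hgZ : g ∉ Z := fun hh => notMem_erase g X ((hcv g).2 (Or.inr hh))
    have hZX : Z ⊆ X := fun a ha => mem_of_mem_erase ((hcv a).2 (Or.inr ha))
    have hYX : Y ⊆ X := fun a ha => mem_of_mem_erase ((hcv a).2 (Or.inl ha))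
    have h1 := h.not_cl hr hZX hfZ hgZ
    have e1 : X \ Z = insert g Y := by
      ext a
      simp only [mem_sdiff, mem_insert]
      constructor
      · rintro ⟨h2, h3⟩
        by_cases hag : a = g
        · exact Or.inl hag
        · rcases (hcv a).1 (mem_erase.2 ⟨hag, h2⟩) with h4 | h4
          · exact Or.inr h4
          · exact absurd h4 h3
      · rintro (rfl | h2)
        · exact ⟨h.hg, hgZ⟩
        · exact ⟨hYX h2, hd a h2⟩
    have h2 := hc.2 Z hZX hZn ⟨f, mem_sdiff.2 ⟨h.hf, hfZ⟩⟩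
    rw [e1] at h2
    unfold rc
    rw [← insert_eq, ← insert_eq, ← insert_eq, insert_erase h.hg, hg1]
    omega
  intro Y hY hYn hZn
  have hcv : ∀ a, a ∈ X.erase g ↔ a ∈ Y ∨ a ∈ X.erase g \ Y := by
    intro a
    rw [mem_sdiff]
    constructor
    · intro ha
      by_cases haY : a ∈ Y
      · exact Or.inl haY
      · exact Or.inr ⟨ha, haY⟩
    · rintro (h1 | h1)
      · exact hY h1
      · exact h1.1
  by_cases hfY : f ∈ Y
  · exact key Y _ hcv (fun a h1 h2 => (mem_sdiff.1 h2).2 h1) hYn hZn hfY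
  · have h1 := key _ Y (fun a => by rw [or_comm]; exact hcv a)
      (fun a h1 h2 => (mem_sdiff.1 h1).2 h2) hZn hYn
      (mem_sdiff.2 ⟨mem_erase.2 ⟨h.ne, h.hf⟩, hfY⟩)
    omega

theorem Series.circ_in (hr : Rk r) {X : Finset E} {f g e : E} (h : Series r X f g)
    (he : e ∈ X) (hef : e ≠ f) (heg : e ≠ g) {C : Finset E} (hC : C ⊆ X.erase g)
    (hf : f ∈ C) (hcirc : Circ (rc r {g}) e C) : Circ r e (insert g C) := by
  obtain ⟨heC, hcl, hmin⟩ := hcirc
  unfold rc at hcl hmin
  simp only [← insert_eq] at hcl hmin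
  have hgC : g ∉ C := fun hh => notMem_erase g X (hC hh)
  refine ⟨?_, ?_, ?_⟩
  · rw [mem_insert, not_or]; exact ⟨heg, heC⟩
  · rw [insert_comm] at hcl; omega
  · intro c hc
    by_cases hcg : c = g
    · subst hcg
      rw [erase_insert hgC]
      apply hr.not_cl
      intro hcon
      have h1 := hmin f hf
      rw [insert_comm] at h1
      have h2 : r (insert e (C.erase f)) ≠ r (C.erase f) := by
        intro h3
        have h4 := hr.cl_mono (subset_insert c (C.erase f)) h3
        omega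
      have h3 : r (insert e (insert f (C.erase f))) = r (insert f (C.erase f)) := by
        rw [insert_erase hf]; exact hcon
      have h4 := hr.exch h2 h3
      have h5 := h.symm.not_cl hr (S := insert e (C.erase f)) (by
        intro a ha
        rcases mem_insert.1 ha with rfl | ha
        · exact he
        · exact mem_of_mem_erase (hC (mem_of_mem_erase ha))) (by
        rw [mem_insert, mem_erase, not_or]
        exact ⟨heg.symm, fun hh => hgC hh.2⟩) (by
        rw [mem_insert, mem_erase, not_or]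
        exact ⟨hef.symm, fun hh => hh.1 rfl⟩)
      omega
    · have hcC : c ∈ C := by
        rcases mem_insert.1 hc with h1 | h1
        · exact absurd h1 hcg
        · exact h1
      have h1 := hmin c hcC
      rw [erase_insert_of_ne (Ne.symm hcg), insert_comm]
      omega

theorem Series.circ_out (hr : Rk r) {X : Finset E} {f g e : E} (h : Series r X f g)
    (he : e ∈ X) (hef : e ≠ f) (heg : e ≠ g) {C : Finset E} (hC : C ⊆ X.erase g)
    (hf : f ∉ C) (hcirc : Circ (rc r {g}) e C) : Circ r e C := by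
  obtain ⟨heC, hcl, hmin⟩ := hcirc
  unfold rc at hcl hmin
  simp only [← insert_eq] at hcl hmin
  have hgC : g ∉ C := fun hh => notMem_erase g X (hC hh)
  have hCX : C ⊆ X := hC.trans (erase_subset _ _)
  refine ⟨heC, ?_, ?_⟩
  · by_contra hcon
    have h1 : r (insert e (insert g C)) = r (insert g C) := by rw [insert_comm]; omega
    have h2 := hr.exch hcon h1
    have h3 := h.not_cl hr (S := insert e C) (insert_subset he hCX) (by
      rw [mem_insert, not_or]; exact ⟨hef.symm, hf⟩) (by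
      rw [mem_insert, not_or]; exact ⟨heg.symm, hgC⟩)
    omega
  · intro c hc
    apply hr.not_cl
    intro hcon
    have h1 := hmin c hc
    have h2 := hr.cl_mono (subset_insert g (C.erase c)) hcon
    rw [insert_comm] at h2
    omega

theorem Circ.par (hr : Rk r) {f h e : E} (hf : r {f} = 1) (hh : r {h} = 1)
    (hfh : r {f, h} = 1) (hne : f ≠ h) {C : Finset E} (hcirc : Circ r e C) (hhC : h ∈ C) (hfC : f ∉ C)
    (hef : e ≠ f) : Circ r e (insert f (C.erase h)) := by
  obtain ⟨heC, hcl, hmin⟩ := hcirc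
  have hsw := hr.par_swap hf hh hfh
  refine ⟨?_, ?_, ?_⟩
  · rw [mem_insert, mem_erase, not_or]
    exact ⟨hef, fun hh' => heC hh'.2⟩
  · rw [insert_comm, hsw, hsw, insert_comm, insert_erase hhC]
    exact hcl
  · intro c hc
    by_cases hcf : c = f
    · subst hcf
      rw [erase_insert (fun hh' => hfC (mem_of_mem_erase hh'))]
      exact hmin h hhC
    · have hcC : c ∈ C.erase h := by
        rcases mem_insert.1 hc with h1 | h1
        · exact absurd h1 hcf
        · exact h1
      have hcC' := mem_erase.1 hcC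
      rw [erase_insert_of_ne (Ne.symm hcf), insert_comm, hsw, hsw, insert_comm]
      have e1 : insert h ((C.erase h).erase c) = C.erase c := by
        rw [erase_right_comm, insert_erase (mem_erase.2 ⟨hcC'.1.symm, hhC⟩)]
      rw [e1]
      exact hmin c hcC'.2

end Pool.Agent.Helper35.BryRank
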