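import Mathlib
import Pool.Agent.Helper35.BryRank

set_option autoImplicit false
set_option linter.unusedSectionVars false

namespace Pool.Agent.Helper35.BryRank

open Finset

variable {E : Type} [DecidableEq E] {r : Finset E → ℤ}

/-- the class-counting function -/
structure Kap (r : Finset E → ℤ) (U : Finset E) (b : ℤ) (κ : Finset E → ℤ) : Prop where
  anti : ∀ B B' : Finset E, B ⊆ B' → B' ⊆ U → κ B' ≤ κ B
  full : ∀ B : Finset E, B ⊆ U → r B = r U → κ B = 0
  cl : ∀ B B' : Finset E, B ⊆ B' → B' ⊆ U → r B = r B' → κ B = κ B'
  hyp : ∀ B : Finset E, B ⊆ U → r B + 1 = r U → κ B ≤ b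
  two : ∀ B Λ Fs : Finset E, B ⊆ Λ → Λ ⊆ U → Fs ⊆ Λ → r Λ = r B + 2 →
    (∀ f ∈ Fs, r (insert f B) = r B + 1) →
    (∀ f ∈ Fs, ∀ f' ∈ Fs, f ≠ f' → r (insert f (insert f' B)) = r B + 2) →
    ∑ f ∈ Fs, (κ B - κ (insert f B)) ≤ κ B - κ Λ

variable {U : Finset E} {b : ℤ} {κ : Finset E → ℤ}

theorem Kap.nonneg (K : Kap r U b κ) {B : Finset E} (hB : B ⊆ U) : 0 ≤ κ B := by
  have h1 := K.anti B U hB (Subset.refl _)
  have h2 := K.full U (Subset.refl _) rfl
  omega

theorem Kap.w_nonneg (K : Kap r U b κ) {B : Finset E} (hB : B ⊆ U) {x : E} (hx : x ∈ U) :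
    0 ≤ κ B - κ (insert x B) := by
  have h1 := K.anti B (insert x B) (subset_insert _ _) (insert_subset hx hB)
  omega

theorem Kap.two_pt (hr : Rk r) (K : Kap r U b κ) {B : Finset E} (hB : B ⊆ U) {x g : E}
    (hx : x ∈ U) (hg : g ∈ U) (hxg : x ≠ g) (h : r (insert x (insert g B)) = r B + 2) :
    κ B - κ (insert x B) ≤ κ (insert g B) - κ (insert x (insert g B)) := by
  have h1 := hr.ins x (insert g B)
  have h2 := hr.ins g B
  have h3 := hr.ins g (insert x B)
  rw [insert_comm] at h3
  have h4 := hr.ins x B
  have h5 := K.two B (insert x (insert g B)) {x, g}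
    ((subset_insert _ _).trans (subset_insert _ _))
    (insert_subset hx (insert_subset hg hB))
    (by
      intro a ha
      rw [mem_insert, mem_singleton] at ha
      rcases ha with rfl | rfl
      · exact mem_insert_self _ _
      · exact mem_insert_of_mem (mem_insert_self _ _))
    h
    (by
      intro a ha
      rw [mem_insert, mem_singleton] at ha
      rcases ha with rfl | rfl <;> omega)
    (by
      intro a ha a' ha' hne
      rw [mem_insert, mem_singleton] at ha ha'
      rcases ha with rfl | rfl <;> rcases ha' with rfl | rfl
      · exact absurd rfl hne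
      · exact h
      · rw [insert_comm]; exact h
      · exact absurd rfl hne)
  rw [sum_pair hxg] at h5
  omega

theorem Kap.three_pt (hr : Rk r) (K : Kap r U b κ) {B : Finset E} (hB : B ⊆ U) {f g h : E}
    (hf : f ∈ U) (hg : g ∈ U) (hh : h ∈ U) (hfg : f ≠ g) (hfh : f ≠ h) (hgh : g ≠ h)
    (h1 : r (insert f (insert g B)) = r B + 2)
    (h2 : r (insert f (insert h B)) = r B + 2)
    (h3 : r (insert g (insert h B)) = r B + 2)
    (h4 : r (insert f (insert g (insert h B))) = r B + 2) :
    (κ B - κ (insert f B)) + (κ B - κ (insert h B))
      ≤ κ (insert g B) - κ (insert h (insert g B)) := by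
  have hsub : insert f (insert g (insert h B)) ⊆ U :=
    insert_subset hf (insert_subset hg (insert_subset hh hB))
  have s1 := hr.ins f (insert g B)
  have s2 := hr.ins g B
  have s3 := hr.ins f (insert h B)
  have s4 := hr.ins h B
  have s5 := hr.ins g (insert f B)
  rw [insert_comm] at s5
  have s6 := hr.ins f B
  have h5 := K.two B (insert f (insert g (insert h B))) {f, g, h}
    ((subset_insert _ _).trans ((subset_insert _ _).trans (subset_insert _ _)))
    hsub
    (by
      intro a ha
      simp only [mem_insert, mem_singleton] at ha ⊢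
      tauto)
    h4
    (by
      intro a ha
      simp only [mem_insert, mem_singleton] at ha
      rcases ha with rfl | rfl | rfl <;> omega)
    (by
      intro a ha a' ha' hne
      simp only [mem_insert, mem_singleton] at ha ha'
      rcases ha with rfl | rfl | rfl <;> rcases ha' with rfl | rfl | rfl
      · exact absurd rfl hne
      · exact h1
      · exact h2
      · rw [insert_comm]; exact h1
      · exact absurd rfl hne
      · exact h3
      · rw [insert_comm]; exact h2
      · rw [insert_comm]; exact h3
      · exact absurd rfl hne)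
  have h6 := K.cl (insert h (insert g B)) (insert f (insert g (insert h B)))
    (by
      intro a ha
      simp only [mem_insert] at ha ⊢
      tauto) hsub (by rw [insert_comm h g B, h3, h4])
  rw [sum_insert (by simp [hfg, hfh]), sum_pair hgh] at h5
  omega

theorem Kap.sum_hyp (hr : Rk r) (K : Kap r U b κ) :
    ∀ (n : ℕ) (B L T : Finset E), r (B ∪ L) - r B = n → B ⊆ U → L ⊆ U → T ⊆ U →
      r (B ∪ L) + 1 = r U → (∀ f ∈ T, r (insert f (B ∪ L)) = r (B ∪ L) + 1) →
      (∀ f ∈ T, ∀ f' ∈ T, f ≠ f' → r (insert f (insert f' B)) = r B + 2) →
      ∑ f ∈ T, (κ B - κ (insert f B)) ≤ κ (B ∪ L) := by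
  intro n
  induction n with
  | zero =>
    intro B L T hn hB hL hT hU hTL hpar
    have hBL : r B = r (B ∪ L) := by push_cast at hn; omega
    have hBLU : B ∪ L ⊆ U := union_subset hB hL
    have e1 := K.cl B (B ∪ L) subset_union_left hBLU hBL
    rcases T.eq_empty_or_nonempty with rfl | ⟨f, hf⟩
    · rw [sum_empty]; exact K.nonneg hBLU
    · have hT1 : T = {f} := by
        ext a
        rw [mem_singleton]
        constructor
        · intro ha
          by_contra hne
          have h1 := hpar a ha f hf hne
          have h2 := hr.mono (insert_subset (hT ha) (insert_subset (hT hf) hB))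
          omega
        · rintro rfl; exact hf
      rw [hT1, sum_singleton]
      have h1 := hr.ins f B
      have h2 : r (insert f B) = r U := by
        have h3 : r (insert f B) ≠ r B := by
          intro h4
          have h5 := hr.cl_mono (subset_union_left (s₁ := B) (s₂ := L)) h4
          have h6 := hTL f hf
          omega
        have := hr.not_cl h3
        omega
      have h3 := K.full (insert f B) (insert_subset (hT hf) hB) h2
      omega
  | succ n ih =>
    intro B L T hn hB hL hT hU hTL hpar
    -- choose g
    obtain ⟨g, hgL, hg⟩ : ∃ g ∈ L, r (insert g B) ≠ r B := by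
      by_contra hcon
      push Not at hcon
      have := hr.cl_union hcon
      push_cast at hn
      omega
    have hg1 := hr.not_cl hg
    set B' := insert g B with hB'
    have hg1' : r B' = r B + 1 := hg1
    have hBLeq : B' ∪ L = B ∪ L := by
      ext a
      simp only [hB', mem_union, mem_insert]
      constructor
      · rintro ((rfl | h1) | h1)
        · exact Or.inr hgL
        · exact Or.inl h1
        · exact Or.inr h1
      · rintro (h1 | h1)
        · exact Or.inl (Or.inr h1)
        · exact Or.inr h1
    have hB'U : B' ⊆ U := insert_subset (hL hgL) hB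
    have hBLU : B ∪ L ⊆ U := union_subset hB hL
    have hB'L : B' ⊆ B ∪ L := insert_subset (mem_union_right _ hgL) subset_union_left
    have hfcl : ∀ f ∈ T, ∀ S ⊆ B ∪ L, r (insert f S) = r S + 1 := by
      intro f hf S hS
      apply hr.not_cl
      intro hcon
      have h1 := hr.cl_mono hS hcon
      have h2 := hTL f hf
      omega
    -- representatives
    obtain ⟨R, hR, hmax⟩ := Finset.exists_max_image
      (T.powerset.filter (fun R => ∀ f ∈ R, ∀ f' ∈ R, f ≠ f' →
        r (insert f (insert f' B')) = r B' + 2)) Finset.card ⟨∅, by simp⟩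
    rw [mem_filter, mem_powerset] at hR
    obtain ⟨hRT, hRpar⟩ := hR
    have hrep : ∀ f : E, ∃ p : E, f ∈ T → (p ∈ R ∧ r (insert f (insert p B')) = r (insert p B')) := by
      intro f
      by_cases hf : f ∈ T
      · by_cases hfR : f ∈ R
        · exact ⟨f, fun _ => ⟨hfR, by rw [insert_eq_of_mem (mem_insert_self _ _)]⟩⟩
        · by_contra hcon
          push Not at hcon
          have h1 : ∀ p ∈ R, r (insert f (insert p B')) = r B' + 2 := by
            intro p hp
            have h2 := (hcon p).2 hp
            have h3 := hr.not_cl h2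
            have h4 := hfcl p (hRT hp) B' hB'L
            omega
          have h2 := hmax (insert f R) (by
            rw [mem_filter, mem_powerset]
            refine ⟨insert_subset hf hRT, ?_⟩
            intro x hx y hy hxy
            rcases mem_insert.1 hx with hx' | hx'
            · rcases mem_insert.1 hy with hy' | hy'
              · exact absurd (hx'.trans hy'.symm) hxy
              · rw [hx']; exact h1 y hy'
            · rcases mem_insert.1 hy with hy' | hy'
              · rw [insert_comm, hy']; exact h1 x hx'
              · exact hRpar x hx' y hy' hxy)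
          rw [card_insert_of_notMem hfR] at h2
          omega
      · exact ⟨f, fun hh => absurd hh hf⟩
    choose π hπ using hrep
    have hmaps : ∀ f ∈ T, π f ∈ R := fun f hf => (hπ f hf).1
    rw [← sum_fiberwise_of_maps_to hmaps]
    have hIH := ih B' L R (by rw [hBLeq]; push_cast at hn; omega) hB'U hL (hRT.trans hT)
      (by rw [hBLeq]; exact hU)
      (by rw [hBLeq]; exact fun f hf => hTL f (hRT hf)) hRpar
    rw [hBLeq] at hIH
    refine le_trans (sum_le_sum ?_) hIH
    intro p hp
    have hpT := hRT hp
    set Fb := T.filter (fun f => π f = p) with hFb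
    have hFbT : Fb ⊆ T := filter_subset _ _
    have hgFb : g ∉ Fb := by
      intro hh
      have h1 := hTL g (hFbT hh)
      rw [insert_eq_of_mem (mem_union_right _ hgL)] at h1
      omega
    set Λ := insert p B' ∪ Fb with hΛ
    have hΛr : r Λ = r (insert p B') := by
      apply hr.cl_union
      intro f hf
      rw [hFb, mem_filter] at hf
      have := (hπ f hf.1).2
      rw [hf.2] at this
      exact this
    have hpB' := hfcl p hpT B' hB'L
    have hΛU : Λ ⊆ U := union_subset (insert_subset (hT hpT) hB'U) (hFbT.trans hT)
    have hΛ2 : r Λ = r B + 2 := by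
      rw [hΛr, hpB', hg1']; ring
    have h5 := K.two B Λ (insert g Fb)
      (((subset_insert g B).trans (subset_insert p _)).trans subset_union_left) hΛU
      (by
        apply insert_subset
        · exact mem_union_left _ (mem_insert_of_mem (mem_insert_self _ _))
        · exact subset_union_right)
      hΛ2
      (by
        intro f hf
        rcases mem_insert.1 hf with rfl | hf
        · exact hg1
        · exact hfcl f (hFbT hf) B subset_union_left)
      (by
        intro f hf f' hf' hne
        have hgf : ∀ a ∈ Fb, r (insert a (insert g B)) = r B + 2 := by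
          intro a ha
          have h9 : r (insert a (insert g B)) = r B' + 1 := hfcl a (hFbT ha) B' hB'L
          rw [h9, hg1']; ring
        rcases mem_insert.1 hf with h7 | h7
        · rcases mem_insert.1 hf' with h8 | h8
          · exact absurd (h7.trans h8.symm) hne
          · rw [insert_comm, h7]; exact hgf f' h8
        · rcases mem_insert.1 hf' with h8 | h8
          · rw [h8]; exact hgf f h7
          · exact hpar f (hFbT h7) f' (hFbT h8) hne)
    have h6 := K.cl (insert p B') Λ subset_union_left hΛU hΛr.symm
    rw [sum_insert hgFb] at h5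
    have h7 : κ (insert g B) = κ B' := rfl
    omega

/-- the star inequality for ground sets of size `n` -/
def StarStmt (r : Finset E → ℤ) (U : Finset E) (b : ℤ) (κ : Finset E → ℤ) (n : ℕ) : Prop :=
  ∀ (B X : Finset E) (m : E → ℕ) (t : ℤ) (e : E), X.card = n → B ⊆ U → X ⊆ U →
    r (B ∪ X) = r U → Conn (rc r B) X → Simp (rc r B) X → e ∈ X → (∀ x ∈ X, 1 ≤ m x) →
    (m e : ℤ) ≤ t →
    (∀ C : Finset E, C ⊆ X.erase e → Circ (rc r B) e C → ∑ x ∈ C, (m x : ℤ) ≤ t) →
    κ B + ∑ x ∈ X, ((m x : ℤ) - 1) * (κ B - κ (insert x B)) ≤ t * b

theorem rc_single (r : Finset E → ℤ) (B : Finset E) (x : E) :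
    rc r B {x} = r (insert x B) - r B := by
  unfold rc; rw [union_comm, ← insert_eq]

theorem rc_pair (r : Finset E → ℤ) (B : Finset E) (x y : E) :
    rc r B {x, y} = r (insert x (insert y B)) - r B := by
  unfold rc
  congr 2
  ext a; simp only [mem_union, mem_insert, mem_singleton]; tauto

theorem rc_triple (r : Finset E → ℤ) (B : Finset E) (x y z : E) :
    rc r B {x, y, z} = r (insert x (insert y (insert z B))) - r B := by
  unfold rc
  congr 2
  ext a; simp only [mem_union, mem_insert, mem_singleton]; tauto

theorem step3 (hr : Rk r) (K : Kap r U b κ) {B X : Finset E} {m : E → ℕ} {t : ℤ} {e : E}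
    (hB : B ⊆ U) (hX : X ⊆ U) (hsp : r (B ∪ X) = r U) (hc : Conn (rc r B) X)
    (hs : Simp (rc r B) X) (he : e ∈ X) (hm : ∀ x ∈ X, 1 ≤ m x) (hte : (m e : ℤ) ≤ t)
    (hcirc : ∀ C : Finset E, C ⊆ X.erase e → Circ (rc r B) e C → ∑ x ∈ C, (m x : ℤ) ≤ t)
    {f g : E} (hser : Series (rc r B) X f g) (hfe : e ≠ f) (hge : e ≠ g)
    (IH : ∀ n' < X.card, StarStmt r U b κ n') :
    κ (insert g B) + ∑ x ∈ (X.erase g).erase f, ((m x : ℤ) - 1) * (κ B - κ (insert x B))
      + ((m f : ℤ) + m g - 1) * (κ B - κ (insert f B)) ≤ t * b := by
  have hρ := hr.rc B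
  set ρ := rc r B with hρdef
  have hg := hser.hg
  have hf := hser.hf
  have hfg := hser.ne
  have hgU := hX hg
  have hfU := hX hf
  have hg1 : ρ {g} = 1 := hs.1 g hg
  have hρ' := hρ.rc {g}
  have hrr : rc ρ {g} = rc r (insert g B) := by
    rw [hρdef, rc_rc, union_comm, ← insert_eq]
  have hfX1 : f ∈ X.erase g := mem_erase.2 ⟨hfg, hf⟩
  have hB' : insert g B ⊆ U := insert_subset hgU hB
  have hunion : insert g B ∪ X.erase g = B ∪ X := by
    ext a
    simp only [mem_union, mem_insert, mem_erase]
    constructor
    · rintro ((rfl | h1) | h1)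
      · exact Or.inr hg
      · exact Or.inl h1
      · exact Or.inr h1.2
    · rintro (h1 | h1)
      · exact Or.inl (Or.inr h1)
      · by_cases hag : a = g
        · exact Or.inl (Or.inl hag)
        · exact Or.inr ⟨hag, h1⟩
  -- ranks in the contraction
  have hval : ∀ Y : Finset E, rc ρ {g} Y = ρ (insert g Y) - 1 := by
    intro Y; unfold rc; rw [← insert_eq, hg1]
  have hsing : ∀ x ∈ X.erase g, rc ρ {g} {x} = 1 := by
    intro x hx
    rw [mem_erase] at hx
    rw [hval]
    have := hs.2 g hg x hx.2 hx.1.symm
    omega
  have hpair : ∀ x ∈ (X.erase g).erase f, ∀ y ∈ (X.erase g).erase f, x ≠ y →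
      rc ρ {g} {x, y} = 2 := by
    intro x hx y hy hxy
    rw [mem_erase, mem_erase] at hx hy
    rw [hval]
    have h1 := hser.not_cl hρ (S := {x, y}) (by
      intro a ha; rw [mem_insert, mem_singleton] at ha
      rcases ha with rfl | rfl
      · exact hx.2.2
      · exact hy.2.2) (by
      rw [mem_insert, mem_singleton, not_or]; exact ⟨hx.1.symm, hy.1.symm⟩) (by
      rw [mem_insert, mem_singleton, not_or]; exact ⟨hx.2.1.symm, hy.2.1.symm⟩)
    have h2 := hs.2 x hx.2.2 y hy.2.2 hxy
    omega
  have hconn1 : Conn (rc ρ {g}) (X.erase g) := hser.conn hρ hc hg1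
  have hcard1 : (X.erase g).card < X.card := card_erase_lt_of_mem hg
  have heX1 : e ∈ X.erase g := mem_erase.2 ⟨hge, he⟩
  have hfg2 : ρ {f, g} = 2 := hs.2 f hf g hg hfg
  -- lower bounds for the weights
  have hw1 : ∀ x ∈ X.erase g, κ B - κ (insert x B)
      ≤ κ (insert g B) - κ (insert x (insert g B)) := by
    intro x hx
    rw [mem_erase] at hx
    apply K.two_pt hr hB (hX hx.2) hgU hx.1
    have h1 := hs.2 x hx.2 g hg hx.1
    rw [hρdef, rc_pair] at h1
    omega
  by_cases hA : ∀ y ∈ (X.erase g).erase f, ρ {g, f, y} = 3
  · -- no triangle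
    have hsimp1 : Simp (rc ρ {g}) (X.erase g) := by
      refine ⟨hsing, ?_⟩
      intro x hx y hy hxy
      by_cases hxf : x = f
      · subst hxf
        rw [hval, hA y (mem_erase.2 ⟨hxy.symm, hy⟩)]; ring
      · by_cases hyf : y = f
        · subst hyf
          rw [hval]
          have := hA x (mem_erase.2 ⟨hxf, hx⟩)
          rw [pair_comm, this]; ring
        · exact hpair x (mem_erase.2 ⟨hxf, hx⟩) y (mem_erase.2 ⟨hyf, hy⟩) hxy
    have h1 := IH _ hcard1 (insert g B) (X.erase g) (Function.update m f (m f + m g)) t e rfl hB'
      ((erase_subset _ _).trans hX) (by rw [hunion]; exact hsp) (by rw [← hrr]; exact hconn1)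
      (by rw [← hrr]; exact hsimp1) heX1
      (by
        intro x hx
        by_cases hxf : x = f
        · subst hxf; rw [Function.update_self]; have := hm x hf; omega
        · rw [Function.update_of_ne hxf]; exact hm x (mem_of_mem_erase hx))
      (by rw [Function.update_of_ne hfe]; exact hte)
      (by
        intro C hC hCc
        rw [← hrr] at hCc
        have hCg : C ⊆ X.erase g := hC.trans (erase_subset _ _)
        have hgC : g ∉ C := fun hh => notMem_erase g X (hCg hh)
        have heC : e ∉ C := hCc.1
        by_cases hfC : f ∈ C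
        · have h2 := hser.circ_in hρ he hfe hge hCg hfC hCc
          have h3 := hcirc (insert g C) (by
            apply insert_subset (mem_erase.2 ⟨hge.symm, hg⟩)
            intro a ha
            rw [mem_erase]
            exact ⟨fun hh => heC (hh ▸ ha), mem_of_mem_erase (hCg ha)⟩) h2
          rw [sum_insert hgC, ← add_sum_erase _ _ hfC] at h3
          rw [← add_sum_erase _ _ hfC, Function.update_self]
          have h4 : ∑ x ∈ C.erase f, (Function.update m f (m f + m g) x : ℤ)
              = ∑ x ∈ C.erase f, (m x : ℤ) := by
            apply sum_congr rfl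
            intro x hx
            rw [Function.update_of_ne (mem_erase.1 hx).1]
          rw [h4]
          push_cast
          omega
        · have h2 := hser.circ_out hρ he hfe hge hCg hfC hCc
          have h3 := hcirc C (by
            intro a ha
            rw [mem_erase]
            exact ⟨fun hh => heC (hh ▸ ha), mem_of_mem_erase (hCg ha)⟩) h2
          have h4 : ∑ x ∈ C, (Function.update m f (m f + m g) x : ℤ)
              = ∑ x ∈ C, (m x : ℤ) := by
            apply sum_congr rfl
            intro x hx
            rw [Function.update_of_ne (by rintro rfl; exact hfC hx)]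
          rw [h4]; exact h3)
    rw [← add_sum_erase _ _ hfX1, Function.update_self] at h1
    have h4 : ∑ x ∈ (X.erase g).erase f, ((m x : ℤ) - 1) * (κ B - κ (insert x B))
        ≤ ∑ x ∈ (X.erase g).erase f, ((Function.update m f (m f + m g) x : ℤ) - 1) *
          (κ (insert g B) - κ (insert x (insert g B))) := by
      apply sum_le_sum
      intro x hx
      rw [Function.update_of_ne (mem_erase.1 hx).1]
      apply mul_le_mul_of_nonneg_left (hw1 x (mem_of_mem_erase hx))
      have := hm x (mem_of_mem_erase (mem_of_mem_erase hx))
      omega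
    have h5 : ((m f : ℤ) + m g - 1) * (κ B - κ (insert f B)) ≤
        (((m f + m g : ℕ) : ℤ) - 1) * (κ (insert g B) - κ (insert f (insert g B))) := by
      push_cast
      apply mul_le_mul_of_nonneg_left (hw1 f hfX1)
      have := hm f hf
      omega
    linarith
  · -- triangle
    push Not at hA
    obtain ⟨h, hh, hh3⟩ := hA
    have hh' := hh
    rw [mem_erase, mem_erase] at hh'
    obtain ⟨hhf, hhg, hhX⟩ := hh'
    have hhU := hX hhX
    have htri : ρ {g, f, h} = 2 := by
      have h1 := hρ.ins h {g, f}
      have h2 : insert h ({g, f} : Finset E) = {g, f, h} := by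
        ext a; simp only [mem_insert, mem_singleton]; tauto
      have h3 : ({g, f} : Finset E) = {f, g} := pair_comm _ _
      rw [h2, h3, hfg2] at h1
      have h4 : ({f, g} : Finset E) ⊆ {g, f, h} := by
        intro a; simp only [mem_insert, mem_singleton]; tauto
      have h5 := hρ.mono h4
      omega
    have hpar : rc ρ {g} {f, h} = 1 := by rw [hval, htri]; ring
    have hX2s : (X.erase g).erase f ⊆ X.erase g := erase_subset _ _
    have hconn2 : Conn (rc ρ {g}) ((X.erase g).erase f) :=
      hconn1.del_par hρ' hfX1 (hX2s hh) hhf.symm (hsing h (hX2s hh)) hpar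
    have hsimp2 : Simp (rc ρ {g}) ((X.erase g).erase f) :=
      ⟨fun x hx => hsing x (hX2s hx), hpair⟩
    have hrank2 : r (insert g B ∪ (X.erase g).erase f) = r U := by
      have h1 := hρ'.par_absorb (hsing h (hX2s hh)) hpar hh
      rw [insert_erase hfX1, hrr] at h1
      unfold rc at h1
      rw [hunion] at h1
      omega
    have hcard2 : ((X.erase g).erase f).card < X.card :=
      (card_erase_lt_of_mem hfX1).trans hcard1
    set M := max (m h) (m f + m g) with hM
    have hfgt : (e = h → (m f : ℤ) + m g ≤ t) := by
      intro heh
      have h1 := hcirc {f, g} (by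
        intro a ha; rw [mem_insert, mem_singleton] at ha
        rcases ha with rfl | rfl
        · exact mem_erase.2 ⟨hfe.symm, hf⟩
        · exact mem_erase.2 ⟨hge.symm, hg⟩) (by
        refine ⟨?_, ?_, ?_⟩
        · rw [mem_insert, mem_singleton, not_or]; exact ⟨hfe, hge⟩
        · have h2 : insert e ({f, g} : Finset E) = {g, f, h} := by
            ext a; simp only [mem_insert, mem_singleton, heh]; tauto
          rw [h2, htri, hfg2]
        · intro c hc
          rw [mem_insert, mem_singleton] at hc
          rcases hc with rfl | rfl
          · have h2 : ({c, g} : Finset E).erase c = {g} := by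
              ext a; simp only [mem_erase, mem_insert, mem_singleton]
              constructor
              · rintro ⟨h3, h4 | h4⟩
                · exact absurd h4 h3
                · exact h4
              · intro h3; exact ⟨fun h4 => hfg (h4.symm.trans h3), Or.inr h3⟩
            rw [h2, hg1]
            have := hs.2 e he g hg hge
            rw [this]; norm_num
          · have h2 : ({f, c} : Finset E).erase c = {f} := by
              ext a; simp only [mem_erase, mem_insert, mem_singleton]
              constructor
              · rintro ⟨h3, h4 | h4⟩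
                · exact h4
                · exact absurd h4 h3
              · intro h3; exact ⟨fun h4 => hfg (h3.symm.trans h4), Or.inl h3⟩
            rw [h2, hs.1 f hf]
            have := hs.2 e he f hf hfe
            rw [this]; norm_num)
      rw [sum_pair hfg] at h1
      exact h1
    have h1 := IH _ hcard2 (insert g B) ((X.erase g).erase f) (Function.update m h M) t e rfl hB'
      (hX2s.trans ((erase_subset _ _).trans hX)) hrank2 (by rw [← hrr]; exact hconn2)
      (by rw [← hrr]; exact hsimp2) (mem_erase.2 ⟨hfe, heX1⟩)
      (by
        intro x hx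
        by_cases hxh : x = h
        · subst hxh; rw [Function.update_self]
          have := hm x hhX
          exact this.trans (le_max_left _ _)
        · rw [Function.update_of_ne hxh]; exact hm x (mem_of_mem_erase (hX2s hx)))
      (by
        by_cases heh : e = h
        · rw [heh, Function.update_self, hM]
          push_cast
          apply max_le
          · rw [← heh]; exact hte
          · exact hfgt heh
        · rw [Function.update_of_ne heh]; exact hte)
      (by
        intro C hC hCc
        rw [← hrr] at hCc
        have hCf : C ⊆ (X.erase g).erase f := hC.trans (erase_subset _ _)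
        have hCg : C ⊆ X.erase g := hCf.trans (erase_subset _ _)
        have hgC : g ∉ C := fun hh => notMem_erase g X (hCg hh)
        have hfC : f ∉ C := fun hh => notMem_erase f _ (hCf hh)
        have heC : e ∉ C := hCc.1
        have h2 := hser.circ_out hρ he hfe hge hCg hfC hCc
        have h3 := hcirc C (by
          intro a ha
          rw [mem_erase]
          exact ⟨fun hh => heC (hh ▸ ha), mem_of_mem_erase (hCg ha)⟩) h2
        by_cases hhC : h ∈ C
        · have h5 := hCc.par hρ' (hsing f hfX1) (hsing h (hX2s hh)) hpar hhf.symm hhC hfC hfe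
          have h6 := hser.circ_in hρ he hfe hge (by
            apply insert_subset hfX1
            exact (erase_subset _ _).trans hCg) (mem_insert_self _ _) h5
          have h7 := hcirc _ (by
            apply insert_subset (mem_erase.2 ⟨hge.symm, hg⟩)
            apply insert_subset (mem_erase.2 ⟨hfe.symm, hf⟩)
            intro a ha
            have ha' := mem_of_mem_erase ha
            rw [mem_erase]
            exact ⟨fun hh => heC (hh ▸ ha'), mem_of_mem_erase (hCg ha')⟩) h6
          rw [sum_insert (by
            rw [mem_insert, mem_erase, not_or]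
            exact ⟨hfg.symm, fun hh => hgC hh.2⟩), sum_insert (by
            rw [mem_erase]; exact fun hh => hfC hh.2)] at h7
          rw [← add_sum_erase _ _ hhC] at h3
          rw [← add_sum_erase _ _ hhC, Function.update_self]
          have h4 : ∑ x ∈ C.erase h, (Function.update m h M x : ℤ)
              = ∑ x ∈ C.erase h, (m x : ℤ) := by
            apply sum_congr rfl
            intro x hx
            rw [Function.update_of_ne (mem_erase.1 hx).1]
          rw [h4, hM]
          push_cast
          rcases max_choice (m h : ℤ) ((m f : ℤ) + m g) with h8 | h8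
          · rw [h8]; exact h3
          · rw [h8]; linarith
        · have h4 : ∑ x ∈ C, (Function.update m h M x : ℤ)
              = ∑ x ∈ C, (m x : ℤ) := by
            apply sum_congr rfl
            intro x hx
            rw [Function.update_of_ne (by rintro rfl; exact hhC hx)]
          rw [h4]; exact h3)
    rw [← add_sum_erase _ _ hh, Function.update_self] at h1
    rw [← add_sum_erase _ _ hh]
    have h4 : ∑ x ∈ ((X.erase g).erase f).erase h, ((m x : ℤ) - 1) * (κ B - κ (insert x B))
        ≤ ∑ x ∈ ((X.erase g).erase f).erase h, ((Function.update m h M x : ℤ) - 1) *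
          (κ (insert g B) - κ (insert x (insert g B))) := by
      apply sum_le_sum
      intro x hx
      have hx' := mem_erase.1 hx
      rw [Function.update_of_ne hx'.1]
      apply mul_le_mul_of_nonneg_left (hw1 x (mem_of_mem_erase hx'.2))
      have := hm x (mem_of_mem_erase (mem_of_mem_erase hx'.2))
      omega
    have h5 : (κ B - κ (insert f B)) + (κ B - κ (insert h B))
        ≤ κ (insert g B) - κ (insert h (insert g B)) := by
      apply K.three_pt hr hB hfU hgU hhU hfg hhf.symm hhg.symm
      · have := hs.2 f hf g hg hfg
        rw [hρdef, rc_pair] at this; omega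
      · have := hs.2 f hf h hhX hhf.symm
        rw [hρdef, rc_pair] at this; omega
      · have := hs.2 g hg h hhX hhg.symm
        rw [hρdef, rc_pair] at this; omega
      · have h6 : ({f, g, h} : Finset E) = {g, f, h} := by
          ext a; simp only [mem_insert, mem_singleton]; tauto
        have h7 := htri
        rw [← h6, hρdef, rc_triple] at h7
        omega
    have w1 := K.w_nonneg hB hfU
    have w2 := K.w_nonneg hB hhU
    have M1 : (m h : ℤ) ≤ (M : ℤ) := by rw [hM]; exact_mod_cast le_max_left _ _
    have M2 : (m f : ℤ) + m g ≤ (M : ℤ) := by rw [hM]; exact_mod_cast le_max_right _ _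
    have m1 : (1 : ℤ) ≤ m h := by exact_mod_cast hm h hhX
    have m2 : (1 : ℤ) ≤ m f := by exact_mod_cast hm f hf
    have h6 : ((M : ℤ) - 1) * ((κ B - κ (insert f B)) + (κ B - κ (insert h B)))
        ≤ ((M : ℤ) - 1) * (κ (insert g B) - κ (insert h (insert g B))) :=
      mul_le_mul_of_nonneg_left h5 (by linarith)
    have h7 : ((m h : ℤ) - 1) * (κ B - κ (insert h B)) ≤ ((M : ℤ) - 1) * (κ B - κ (insert h B)) :=
      mul_le_mul_of_nonneg_right (by linarith) w2
    have h8 : ((m f : ℤ) + m g - 1) * (κ B - κ (insert f B))
        ≤ ((M : ℤ) - 1) * (κ B - κ (insert f B)) :=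
      mul_le_mul_of_nonneg_right (by linarith) w1
    linarith

end Pool.Agent.Helper35.BryRank
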