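import Mathlib
import Pool.Agent.Helper35.BryStar

set_option autoImplicit false
set_option linter.unusedSectionVars false

namespace Pool.Agent.Helper35.BryRank

open Finset

variable {E : Type} [DecidableEq E] {r : Finset E → ℤ}
variable {U : Finset E} {b : ℤ} {κ : Finset E → ℤ}

/-- minimal circuits inside a set whose closure contains `e` -/
theorem exists_circ {ρ : Finset E → ℤ} (hρ : Rk ρ) {e : E} {S : Finset E} (heS : e ∉ S)
    (h : ρ (insert e S) = ρ S) : ∃ C ⊆ S, Circ ρ e C := by
  obtain ⟨C, hC, hmin⟩ := Finset.exists_min_image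
    (S.powerset.filter (fun C => ρ (insert e C) = ρ C)) Finset.card
    ⟨S, by rw [mem_filter, mem_powerset]; exact ⟨Subset.refl _, h⟩⟩
  rw [mem_filter, mem_powerset] at hC
  refine ⟨C, hC.1, fun hh => heS (hC.1 hh), hC.2, ?_⟩
  intro c hc
  apply hρ.not_cl
  intro hcon
  have h1 := hmin (C.erase c) (by
    rw [mem_filter, mem_powerset]
    exact ⟨(erase_subset _ _).trans hC.1, hcon⟩)
  have h2 := card_erase_lt_of_mem hc
  omega

/-- a hyperplane containing `S` and avoiding `e` -/
theorem exists_hyper {ρ : Finset E → ℤ} (hρ : Rk ρ) {X : Finset E} {e : E} (he : e ∈ X)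
    {S : Finset E} (hS : S ⊆ X) (h : ρ (insert e S) ≠ ρ S) :
    ∃ L : Finset E, S ⊆ L ∧ L ⊆ X ∧ ρ L + 1 = ρ X ∧ (∀ d ∈ X \ L, ρ (insert d L) = ρ L + 1) ∧
      e ∉ L := by
  obtain ⟨L, hL, hmax⟩ := Finset.exists_max_image
    (X.powerset.filter (fun L => S ⊆ L ∧ ρ (insert e L) ≠ ρ L)) Finset.card
    ⟨S, by rw [mem_filter, mem_powerset]; exact ⟨hS, Subset.refl _, h⟩⟩
  rw [mem_filter, mem_powerset] at hL
  obtain ⟨hLX, hSL, heL⟩ := hL
  have heL' : e ∉ L := by
    intro hh
    exact heL (by rw [insert_eq_of_mem hh])
  have he1 := hρ.not_cl heL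
  have hd : ∀ d ∈ X, d ∉ L → ρ (insert d L) = ρ L + 1 ∧
      ρ (insert d (insert e L)) = ρ (insert e L) := by
    intro d hd hdL
    by_cases hde : d = e
    · subst hde
      exact ⟨he1, by rw [insert_eq_of_mem (mem_insert_self _ _)]⟩
    · have h1 : ρ (insert e (insert d L)) = ρ (insert d L) := by
        by_contra hcon
        have h2 := hmax (insert d L) (by
          rw [mem_filter, mem_powerset]
          exact ⟨insert_subset hd hLX, hSL.trans (subset_insert _ _), hcon⟩)
        rw [card_insert_of_notMem hdL] at h2
        omega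
      have h2 := hρ.exch heL h1
      have h3 := hρ.mono (show insert e L ⊆ insert e (insert d L) from
        insert_subset_insert _ (subset_insert _ _))
      have h4 := hρ.ins d L
      exact ⟨by omega, h2⟩
  refine ⟨L, hSL, hLX, ?_, ?_, heL'⟩
  · have h1 : ρ (insert e L ∪ X) = ρ (insert e L) := by
      apply hρ.cl_union
      intro x hx
      by_cases hxL : x ∈ L
      · rw [insert_eq_of_mem (mem_insert_of_mem hxL)]
      · exact (hd x hx hxL).2
    rw [union_eq_right.2 (insert_subset he hLX)] at h1
    omega
  · intro d hd'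
    rw [mem_sdiff] at hd'
    exact (hd d hd'.1 hd'.2).1

theorem star_all (hr : Rk r) (K : Kap r U b κ) : ∀ n, StarStmt r U b κ n := by
  intro n
  induction n using Nat.strong_induction_on with
  | _ n IHn =>
  -- inner induction on the total weight
  have inner : ∀ (s : ℕ) (B X : Finset E) (m : E → ℕ) (t : ℤ) (e : E), ∑ x ∈ X, m x = s →
      X.card = n → B ⊆ U → X ⊆ U →
      r (B ∪ X) = r U → Conn (rc r B) X → Simp (rc r B) X → e ∈ X → (∀ x ∈ X, 1 ≤ m x) →
      (m e : ℤ) ≤ t →
      (∀ C : Finset E, C ⊆ X.erase e → Circ (rc r B) e C → ∑ x ∈ C, (m x : ℤ) ≤ t) →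
      κ B + ∑ x ∈ X, ((m x : ℤ) - 1) * (κ B - κ (insert x B)) ≤ t * b := by
    intro s
    induction s using Nat.strong_induction_on with
    | _ s IHs =>
    intro B X m t e hsum hn hB hX hsp hc hs he hm hte hcirc
    have hρ := hr.rc B
    have hrX : rc r B X = r U - r B := by unfold rc; rw [hsp]
    by_cases hX1 : X.card ≤ 1
    · have hXe : X = {e} := by
        have h1 : 0 < X.card := card_pos.2 ⟨e, he⟩
        obtain ⟨a, ha⟩ := card_eq_one.1 (show X.card = 1 by omega)
        rw [ha, mem_singleton] at he
        rw [ha, he]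
      have h1 := hs.1 e he
      rw [rc_single] at h1
      have h2 : r (insert e B) = r U := by
        rw [← hsp, hXe, union_comm, ← insert_eq]
      have h3 := K.full (insert e B) (insert_subset (hX he) hB) h2
      have h4 := K.hyp B hB (by omega)
      have h5 := K.nonneg hB
      rw [hXe, sum_singleton, h3]
      have h6 : (1 : ℤ) ≤ m e := by exact_mod_cast hm e he
      have h7 : (m e : ℤ) * κ B ≤ t * b := by
        have h8 : (m e : ℤ) * κ B ≤ (m e : ℤ) * b := mul_le_mul_of_nonneg_left h4 (by linarith)
        have h9 : (m e : ℤ) * b ≤ t * b := mul_le_mul_of_nonneg_right hte (by linarith)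
        linarith
      nlinarith
    push Not at hX1
    have hX2 : 2 ≤ X.card := hX1
    have hnoco : ∀ x ∈ X, rc r B (X.erase x) = rc r B X := fun x hx => hc.nocoloop hρ hx hX2
    by_cases h1 : ∃ f ∈ X, f ≠ e ∧ m f = 1 ∧ Conn (rc r B) (X.erase f)
    · obtain ⟨f, hf, hfe, hmf, hcf⟩ := h1
      have h2 := IHn (X.erase f).card (by rw [← hn]; exact card_erase_lt_of_mem hf) B (X.erase f)
        m t e rfl hB ((erase_subset _ _).trans hX) (by
          have := hnoco f hf
          unfold rc at this
          omega) hcf (hs.mono (erase_subset _ _)) (mem_erase.2 ⟨hfe.symm, he⟩)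
        (fun x hx => hm x (mem_of_mem_erase hx)) hte
        (fun C hC hCc => hcirc C (hC.trans (erase_subset_erase _ (erase_subset _ _))) hCc)
      rw [← add_sum_erase _ _ hf, hmf]
      push_cast
      linarith
    push Not at h1
    set S1 := (X.erase e).filter (fun x => m x = 1) with hS1
    have hS1X : S1 ⊆ X.erase e := filter_subset _ _
    have heS1 : e ∉ S1 := fun hh => notMem_erase e X (hS1X hh)
    by_cases h2 : rc r B (insert e S1) = rc r B S1
    · -- series pair
      obtain ⟨C, hCS, hCc⟩ := exists_circ hρ heS1 h2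
      have hCX : C ⊆ X.erase e := hCS.trans hS1X
      have hCne : C.Nonempty := by
        rw [nonempty_iff_ne_empty]
        rintro rfl
        have h3 := hCc.2.1
        have h4 := hs.1 e he
        have h5 : insert e (∅ : Finset E) = {e} := rfl
        rw [h5, hρ.empty] at h3
        omega
      obtain ⟨f, hf, g, hg, hfg, hdel⟩ := hc.series_lemma hρ he hCX hCc hCne (by
        intro f hf
        have hf1 := hCS hf
        rw [hS1, mem_filter, mem_erase] at hf1
        exact h1 f hf1.1.2 hf1.1.1 hf1.2)
      have hfX := hCS hf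
      have hgX := hCS hg
      rw [hS1, mem_filter, mem_erase] at hfX hgX
      have hser : Series (rc r B) X f g :=
        ⟨hfX.1.2, hgX.1.2, hfg, hdel, hnoco f hfX.1.2, hnoco g hgX.1.2⟩
      have IHX : ∀ n' < X.card, StarStmt r U b κ n' := by
        rw [hn]; exact IHn
      have k1 := step3 hr K hB hX hsp hc hs he hm hte hcirc hser hfX.1.1.symm hgX.1.1.symm IHX
      have k2 := step3 hr K hB hX hsp hc hs he hm hte hcirc hser.symm hgX.1.1.symm hfX.1.1.symm IHX
      rw [erase_right_comm] at k2
      rw [hfX.2, hgX.2] at k1 k2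
      rw [← add_sum_erase _ _ hgX.1.2, ← add_sum_erase _ _ (mem_erase.2 ⟨hfg, hfX.1.2⟩),
        hfX.2, hgX.2]
      push_cast at k1 k2 ⊢
      linarith
    · -- cocircuit step
      obtain ⟨L, hSL, hLX, hLr, hLd, heL⟩ := exists_hyper hρ he (hS1X.trans (erase_subset _ _)) h2
      set m' : E → ℕ := fun x => if x ∈ X \ L ∧ 2 ≤ m x then m x - 1 else m x with hm'
      have hheavy : ∀ x ∈ X \ L, x ≠ e → 2 ≤ m x := by
        intro x hx hxe
        rw [mem_sdiff] at hx
        by_contra hcon
        have h3 := hm x hx.1
        apply hx.2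
        apply hSL
        rw [hS1, mem_filter, mem_erase]
        exact ⟨⟨hxe, hx.1⟩, by omega⟩
      have hm'le : ∀ x, m' x ≤ m x := by
        intro x; simp only [hm']; split_ifs <;> omega
      obtain ⟨d, hd, hde⟩ : ∃ d ∈ X \ L, d ≠ e := by
        by_contra hcon
        push Not at hcon
        have h3 : X.erase e ⊆ L := by
          intro a ha
          rw [mem_erase] at ha
          by_contra haL
          exact ha.1 (hcon a (mem_sdiff.2 ⟨ha.2, haL⟩))
        have h4 := hρ.mono h3
        have h5 := hnoco e he
        omega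
      have hdX := (mem_sdiff.1 hd).1
      have hm'd : m' d < m d := by
        have h3 := hheavy d hd hde
        simp only [hm']
        rw [if_pos ⟨hd, h3⟩]
        omega
      have hlt : ∑ x ∈ X, m' x < s := by
        rw [← hsum]
        exact sum_lt_sum (fun x _ => hm'le x) ⟨d, hdX, hm'd⟩
      -- circuits meet the cocircuit
      have hmeet : ∀ C : Finset E, C ⊆ X.erase e → Circ (rc r B) e C → ∃ c ∈ C, c ∈ X \ L := by
        intro C hC hCc
        by_contra hcon
        push Not at hcon
        have h3 : C ⊆ L := by
          intro a ha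
          by_contra haL
          exact hcon a ha (mem_sdiff.2 ⟨mem_of_mem_erase (hC ha), haL⟩)
        have h4 := hρ.cl_mono h3 hCc.2.1
        have h5 := hLd e (mem_sdiff.2 ⟨he, heL⟩)
        omega
      have hcirc' : ∀ C : Finset E, C ⊆ X.erase e → Circ (rc r B) e C →
          ∑ x ∈ C, (m' x : ℤ) ≤ t - 1 := by
        intro C hC hCc
        obtain ⟨c, hcC, hcD⟩ := hmeet C hC hCc
        have h3 := hcirc C hC hCc
        have hce : c ≠ e := fun hh => hCc.1 (hh ▸ hcC)
        have h4 := hheavy c hcD hce
        have h5 : m' c < m c := by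
          simp only [hm']
          rw [if_pos ⟨hcD, h4⟩]
          omega
        have h6 : ∑ x ∈ C, (m' x : ℤ) < ∑ x ∈ C, (m x : ℤ) :=
          sum_lt_sum (fun x _ => by exact_mod_cast hm'le x) ⟨c, hcC, by exact_mod_cast h5⟩
        omega
      have hte' : (m' e : ℤ) ≤ t - 1 := by
        by_cases hme : 2 ≤ m e
        · have h3 : m' e = m e - 1 := by
            simp only [hm']
            rw [if_pos ⟨mem_sdiff.2 ⟨he, heL⟩, hme⟩]
          rw [h3]
          omega
        · have h3 : m' e = m e := by
            simp only [hm']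
            rw [if_neg (fun hh => hme hh.2)]
          have h4 := hm e he
          rw [h3]
          -- there is a circuit through e
          obtain ⟨C, hCX, hCc⟩ := exists_circ hρ (notMem_erase e X) (by
            rw [insert_erase he]; exact (hnoco e he).symm)
          obtain ⟨c, hcC, hcD⟩ := hmeet C hCX hCc
          have hce : c ≠ e := fun hh => hCc.1 (hh ▸ hcC)
          have h5 := hheavy c hcD hce
          have h6 := hcirc C hCX hCc
          have h7 : (m c : ℤ) ≤ ∑ x ∈ C, (m x : ℤ) :=
            single_le_sum (f := fun x => (m x : ℤ)) (fun x _ => by positivity) hcC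
          omega
      have hm1' : ∀ x ∈ X, 1 ≤ m' x := by
        intro x hx
        have := hm x hx
        simp only [hm']
        split_ifs with h3
        · omega
        · exact this
      have k1 := IHs _ hlt B X m' (t - 1) e rfl hn hB hX hsp hc hs he hm1' hte' hcirc'
      -- difference
      have hLr' : r (B ∪ L) + 1 = r U := by
        unfold rc at hLr hrX
        omega
      have k2 := K.sum_hyp hr (r (B ∪ L) - r B).toNat B L (X \ L) (by
          have := hr.mono (subset_union_left (s₁ := B) (s₂ := L))
          omega) hB (hLX.trans hX) (sdiff_subset.trans hX) hLr' (by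
          intro f hf
          have h3 := hLd f hf
          unfold rc at h3
          rw [union_insert] at h3
          omega) (by
          intro f hf f' hf' hne
          have h3 := hs.2 f (mem_sdiff.1 hf).1 f' (mem_sdiff.1 hf').1 hne
          rw [rc_pair] at h3
          omega)
      have k3 := K.hyp (B ∪ L) (union_subset hB (hLX.trans hX)) hLr'
      have k4 : ∑ x ∈ X, ((m x : ℤ) - 1) * (κ B - κ (insert x B))
          ≤ ∑ x ∈ X, ((m' x : ℤ) - 1) * (κ B - κ (insert x B))
            + ∑ x ∈ X \ L, (κ B - κ (insert x B)) := by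
        have h3 : ∑ x ∈ X \ L, (κ B - κ (insert x B))
            = ∑ x ∈ X, (if x ∈ X \ L then (κ B - κ (insert x B)) else 0) := by
          rw [← sum_filter]
          congr 1
          ext a
          rw [mem_filter, mem_sdiff]
          tauto
        rw [h3, ← sum_add_distrib]
        apply sum_le_sum
        intro x hx
        have hw := K.w_nonneg hB (hX hx)
        have h4 := hm x hx
        by_cases hxD : x ∈ X \ L
        · rw [if_pos hxD]
          by_cases h2x : 2 ≤ m x
          · have h5 : m' x = m x - 1 := by
              simp only [hm']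
              rw [if_pos ⟨hxD, h2x⟩]
            have h6 : ((m' x : ℕ) : ℤ) = (m x : ℤ) - 1 := by
              rw [h5]; push_cast [Nat.cast_sub h4]; ring
            rw [h6]
            apply le_of_eq
            ring
          · have h5 : m' x = m x := by
              simp only [hm']
              rw [if_neg (fun hh => h2x hh.2)]
            rw [h5]
            linarith
        · rw [if_neg hxD]
          have h5 : m' x = m x := by
            simp only [hm']
            rw [if_neg (fun hh => hxD hh.1)]
          rw [h5]
          linarith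
      have k5 : (t - 1) * b = t * b - b := by ring
      rw [k5] at k1
      linarith
  intro B X m t e hn
  exact inner _ B X m t e rfl hn

end Pool.Agent.Helper35.BryRank
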