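import Mathlib
import Pool.Agent.Helper35.BryStarMain
import Pool.Agent.Helper35.BryBase
import Pool.Agent.Helper35.BryAlg

set_option autoImplicit false
set_option linter.unusedSectionVars false

namespace Pool.Agent.Helper35.BryLin

open Finset Module Submodule Pool.Agent.Helper35.BryHall Pool.Agent.Helper35.BryRank

section rank

variable (F : Type) [Field F] {V : Type} [AddCommGroup V] [Module F V] [FiniteDimensional F V]
variable {E : Type} [DecidableEq E]

/-- span of the vectors of `S` -/
def sp (v : E → V) (S : Finset E) : Submodule F V := span F (v '' (S : Set E))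

/-- rank -/
noncomputable def Rf (v : E → V) (S : Finset E) : ℤ := (finrank F (sp F v S) : ℤ)

variable {F}

theorem sp_mono (v : E → V) {S T : Finset E} (h : S ⊆ T) : sp F v S ≤ sp F v T :=
  span_mono (Set.image_mono (by exact_mod_cast h))

theorem mem_sp (v : E → V) {S : Finset E} {x : E} (hx : x ∈ S) : v x ∈ sp F v S :=
  subset_span ⟨x, by exact_mod_cast hx, rfl⟩

theorem sp_union (v : E → V) (S T : Finset E) : sp F v (S ∪ T) = sp F v S ⊔ sp F v T := by
  unfold sp
  rw [coe_union, Set.image_union, span_union]

theorem sp_insert (v : E → V) (x : E) (S : Finset E) :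
    sp F v (insert x S) = span F {v x} ⊔ sp F v S := by
  unfold sp
  rw [coe_insert, Set.image_insert_eq, span_insert]

theorem sp_singleton (v : E → V) (x : E) : sp F v {x} = span F {v x} := by
  unfold sp
  rw [coe_singleton, Set.image_singleton]

theorem sp_le (v : E → V) {S : Finset E} {P : Submodule F V} (h : ∀ x ∈ S, v x ∈ P) :
    sp F v S ≤ P := by
  apply span_le.2
  rintro _ ⟨x, hx, rfl⟩
  exact h x (by exact_mod_cast hx)

theorem Rf_rk (v : E → V) : Rk (Rf F v) where
  empty := by
    unfold Rf sp
    simp
  mono := by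
    intro S T h
    unfold Rf
    exact_mod_cast finrank_mono (sp_mono v h)
  ins := by
    intro x S
    unfold Rf
    rw [sp_insert]
    have h1 := finrank_sup_add_finrank_inf_eq (span F {v x}) (sp F v S)
    have h2 : finrank F (span F {v x}) ≤ 1 := by
      by_cases hv : v x = 0
      · rw [hv, span_zero_singleton, finrank_bot]; omega
      · rw [finrank_span_singleton hv]
    omega
  sub := by
    intro S T
    unfold Rf
    have h1 := finrank_sup_add_finrank_inf_eq (sp F v S) (sp F v T)
    rw [← sp_union] at h1
    have h2 : sp F v (S ∩ T) ≤ sp F v S ⊓ sp F v T :=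
      le_inf (sp_mono v inter_subset_left) (sp_mono v inter_subset_right)
    have h3 := finrank_mono h2
    omega

theorem sp_eq_of_Rf (v : E → V) {S T : Finset E} (h : S ⊆ T) (hR : Rf F v S = Rf F v T) :
    sp F v S = sp F v T := by
  apply Submodule.eq_of_le_of_finrank_eq (sp_mono v h)
  unfold Rf at hR
  exact_mod_cast hR

theorem mem_sp_iff (v : E → V) {S : Finset E} {x : E} :
    v x ∈ sp F v S ↔ Rf F v (insert x S) = Rf F v S := by
  constructor
  · intro h
    unfold Rf
    rw [sp_insert, sup_eq_right.2 ((span_singleton_le_iff_mem _ _).2 h)]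
  · intro h
    rw [sp_eq_of_Rf v (subset_insert x S) h.symm]
    exact mem_sp v (mem_insert_self _ _)

theorem li_iff (v : E → V) (S : Finset E) :
    LinearIndependent F (fun s : S => v s) ↔ Rf F v S = S.card := by
  rw [linearIndependent_iff_card_eq_finrank_span, Fintype.card_coe]
  have e : Set.range (fun s : S => v s) = v '' (S : Set E) := by
    ext a
    simp
  rw [e]
  unfold Rf sp Set.finrank
  constructor
  · intro h; rw [← h]
  · intro h; exact_mod_cast h.symm

theorem Rf_le_card (v : E → V) (S : Finset E) : Rf F v S ≤ S.card := by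
  induction S using Finset.induction_on with
  | empty => rw [(Rf_rk v).empty]; simp
  | insert a S ha ih =>
    have := (Rf_rk (F := F) v).ins a S
    rw [card_insert_of_notMem ha]
    push_cast
    omega

theorem exists_basis (v : E → V) {B S : Finset E} (hBS : B ⊆ S) (hB : Rf F v B = B.card) :
    ∃ T, B ⊆ T ∧ T ⊆ S ∧ Rf F v T = T.card ∧ Rf F v T = Rf F v S := by
  obtain ⟨T, hT, hmax⟩ := Finset.exists_max_image
    (S.powerset.filter (fun T => B ⊆ T ∧ Rf F v T = T.card)) Finset.card
    ⟨B, by rw [mem_filter, mem_powerset]; exact ⟨hBS, Subset.refl _, hB⟩⟩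
  rw [mem_filter, mem_powerset] at hT
  refine ⟨T, hT.2.1, hT.1, hT.2.2, ?_⟩
  have hr := Rf_rk (F := F) v
  have h1 : Rf F v (T ∪ S) = Rf F v T := by
    apply hr.cl_union
    intro x hx
    by_contra hcon
    have h2 := hr.not_cl hcon
    have hxT : x ∉ T := by
      intro hh
      exact hcon (by rw [insert_eq_of_mem hh])
    have h3 := hmax (insert x T) (by
      rw [mem_filter, mem_powerset]
      refine ⟨insert_subset hx hT.1, hT.2.1.trans (subset_insert _ _), ?_⟩
      rw [card_insert_of_notMem hxT, h2, hT.2.2]
      push_cast; ring)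
    rw [card_insert_of_notMem hxT] at h3
    omega
  rw [union_eq_right.2 hT.1] at h1
  exact h1.symm

/-- subsets of independent sets are independent -/
theorem indep_sub (v : E → V) {B S : Finset E} (hBS : B ⊆ S) (hS : Rf F v S = S.card) :
    Rf F v B = B.card := by
  have h1 := (Rf_rk (F := F) v).union_le B (S \ B)
  rw [union_sdiff_of_subset hBS] at h1
  have h2 := Rf_le_card (F := F) v (S \ B)
  have h3 := Rf_le_card (F := F) v B
  have h4 := card_sdiff_add_card_eq_card hBS
  omega

/-- rank of the contraction -/
theorem Rf_contract (v : E → V) (A : Finset E) (P : Submodule F V) (hP : P = sp F v A)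
    (S : Finset E) : Rf F (P.mkQ ∘ v) S = rc (Rf F v) A S := by
  subst hP
  unfold rc Rf
  have e1 : sp F ((sp F v A).mkQ ∘ v) S = (sp F v (A ∪ S)).map (sp F v A).mkQ := by
    have h1 : sp F ((sp F v A).mkQ ∘ v) S = (sp F v S).map (sp F v A).mkQ := by
      unfold sp
      rw [map_span, Set.image_comp]
    rw [h1, sp_union, Submodule.map_sup]
    rw [Submodule.mkQ_map_self, bot_sup_eq]
  rw [e1]
  have h2 := LinearMap.finrank_range_add_finrank_ker (((sp F v A).mkQ).domRestrict (sp F v (A ∪ S)))
  rw [LinearMap.range_domRestrict, LinearMap.ker_domRestrict, ker_mkQ] at h2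
  have h3 : finrank F (Submodule.comap (sp F v (A ∪ S)).subtype (sp F v A)) = finrank F (sp F v A) := by
    have h4 : sp F v A ≤ sp F v (A ∪ S) := sp_mono v subset_union_left
    exact LinearEquiv.finrank_eq (Submodule.comapSubtypeEquivOfLe h4)
  omega

end rank

end Pool.Agent.Helper35.BryLin
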