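import Mathlib
import Pool.Agent.Helper35.BryLin

set_option autoImplicit false
set_option linter.unusedSectionVars false

namespace Pool.Agent.Helper35.BryLin

open Finset Module Submodule Pool.Agent.Helper35.BryHall Pool.Agent.Helper35.BryRank

variable {F : Type} [Field F] {V : Type} [AddCommGroup V] [Module F V] [FiniteDimensional F V]
variable {E : Type} [DecidableEq E]
variable {W ι : Type} [DecidableEq W] [Fintype ι] [DecidableEq ι]

/-- independence of families in the Hall sense -/
def IndF (N : ι → Finset W) {T : Type} [Fintype T] (u : T → W) : Prop :=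
  ∀ J : Finset W, ((univ.filter (fun t => u t ∈ J)).card : ℤ) ≤ cc N J

variable (F) in
/-- the gammoid structure -/
def Gam (v : E → V) (N : ι → Finset W) (em : E → W) : Prop :=
  ∀ (T : Type) [Fintype T] (u : T → E), LinearIndependent F (v ∘ u) ↔ IndF N (em ∘ u)

/-- contraction of the Hall structure -/
def Nc (N : ι → Finset W) (em : E → W) (A : Finset E) : ι ⊕ {a // a ∈ A} → Finset W :=
  Sum.elim N (fun a => {em a.1})

theorem cc_Nc (N : ι → Finset W) (em : E → W) (A : Finset E) (J : Finset W) :
    cc (Nc N em A) J = cc N J - ((A.filter (fun a => em a ∈ J)).card : ℤ) := by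
  classical
  unfold cc
  have h1 : (KJ (Nc N em A) J).card
      = (KJ N J).card + (A.filter (fun a => em a ∈ J)).card := by
    have e : KJ (Nc N em A) J = (KJ N J).disjSum (univ.filter (fun a : {a // a ∈ A} => em a.1 ∈ J)) := by
      ext k
      rcases k with k | a
      · simp [mem_KJ, Nc]
      · simp [mem_KJ, Nc]
    rw [e, card_disjSum]
    congr 1
    rw [card_filter, card_filter]
    exact sum_coe_sort A (fun a => if em a ∈ J then 1 else 0)
  rw [h1]
  push_cast
  ring

theorem Gam.fin {v : E → V} {N : ι → Finset W} {em : E → W} (h : Gam F v N em) (S : Finset E) :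
    Rf F v S = S.card ↔ ∀ J : Finset W, ((S.filter (fun s => em s ∈ J)).card : ℤ) ≤ cc N J := by
  rw [← li_iff]
  have h1 := h {x // x ∈ S} (fun s => s.1)
  have h2 : (v ∘ fun s : {x // x ∈ S} => s.1) = (fun s : S => v s) := rfl
  rw [h2] at h1
  rw [h1]
  unfold IndF
  apply forall_congr'
  intro J
  have e : (univ.filter (fun t : {x // x ∈ S} => (em ∘ fun s : {x // x ∈ S} => s.1) t ∈ J)).card
      = (S.filter (fun s => em s ∈ J)).card := by
    rw [card_filter, card_filter]
    exact sum_coe_sort S (fun a => if em a ∈ J then 1 else 0)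
  rw [e]

theorem Gam.contract {v : E → V} {N : ι → Finset W} {em : E → W} (h : Gam F v N em)
    {A : Finset E} (hA : Rf F v A = A.card) :
    Gam F ((sp F v A).mkQ ∘ v) (Nc N em A) em := by
  classical
  intro T _ u
  set f : {a // a ∈ A} ⊕ T → V := Sum.elim (fun a => v a.1) (v ∘ u) with hf
  have hAli : LinearIndependent F (fun s : A => v s) := (li_iff v A).2 hA
  have hs : LinearIndepOn F f (Set.range Sum.inl) := by
    rw [linearIndepOn_range_iff Sum.inl_injective]
    exact hAli
  have himg : f '' (Set.range Sum.inl) = v '' (A : Set E) := by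
    rw [← Set.range_comp]
    ext a
    simp [hf]
  have h1 := hs.quotient_iff_union (t := Set.range (Sum.inr : T → {a // a ∈ A} ⊕ T)) (by
    rw [Set.disjoint_left]
    rintro _ ⟨a, rfl⟩ ⟨b, hb⟩
    cases hb)
  rw [Set.range_inl_union_range_inr, linearIndepOn_univ_iff,
    linearIndepOn_range_iff Sum.inr_injective, himg] at h1
  have h1' : LinearIndependent F (((sp F v A).mkQ ∘ v) ∘ u) ↔ LinearIndependent F f := h1
  rw [h1']
  have e2 : f = v ∘ (Sum.elim (fun a : {a // a ∈ A} => a.1) u) := by
    funext x
    rcases x with a | t <;> rfl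
  rw [e2, h]
  unfold IndF
  apply forall_congr'
  intro J
  rw [cc_Nc]
  have e3 : (univ.filter (fun t => (em ∘ Sum.elim (fun a : {a // a ∈ A} => a.1) u) t ∈ J)).card
      = (A.filter (fun a => em a ∈ J)).card + (univ.filter (fun t => (em ∘ u) t ∈ J)).card := by
    rw [card_filter, Fintype.sum_sum_type, card_filter, card_filter]
    congr 1
    exact sum_coe_sort A (fun a => if em a ∈ J then 1 else 0)
  rw [e3]
  push_cast
  constructor
  · intro hh; linarith
  · intro hh; linarith

theorem Gam.rank_le_cc {v : E → V} {N : ι → Finset W} {em : E → W} (h : Gam F v N em)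
    {S : Finset E} {J : Finset W} (hS : ∀ s ∈ S, em s ∈ J) : Rf F v S ≤ cc N J := by
  obtain ⟨T, -, hTS, hT, hTr⟩ := exists_basis (F := F) v (empty_subset S) (by
    rw [(Rf_rk v).empty]; simp)
  have h1 := (h.fin T).1 hT J
  rw [filter_true_of_mem (fun s hs => hS s (hTS hs))] at h1
  omega

theorem Gam.exists_JH {v : E → V} {N : ι → Finset W} {em : E → W} (h : Gam F v N em)
    {H : Finset E} (hc : Conn (Rf F v) H) (h2 : 2 ≤ H.card) :
    ∃ JH : Finset W, (∀ x ∈ H, em x ∈ JH) ∧ cc N JH = Rf F v H := by
  classical
  have hr := Rf_rk (F := F) v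
  obtain ⟨S, -, hSH, hS, hSr⟩ := exists_basis (F := F) v (empty_subset H) (by
    rw [(Rf_rk v).empty]; simp)
  have hSle := (h.fin S).1 hS
  -- tight sets
  have hunion : ∀ J J' : Finset W, ((S.filter (fun s => em s ∈ J)).card : ℤ) = cc N J →
      ((S.filter (fun s => em s ∈ J')).card : ℤ) = cc N J' →
      ((S.filter (fun s => em s ∈ J ∪ J')).card : ℤ) = cc N (J ∪ J') := by
    intro J J' h3 h4
    have h5 := cc_submod N J J'
    have h6 := hSle (J ∪ J')
    have h7 := hSle (J ∩ J')
    have h8 := card_union_add_card_inter (S.filter (fun s => em s ∈ J))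
      (S.filter (fun s => em s ∈ J'))
    have e1 : S.filter (fun s => em s ∈ J) ∪ S.filter (fun s => em s ∈ J')
        = S.filter (fun s => em s ∈ J ∪ J') := by
      ext a; simp only [mem_union, mem_filter]; tauto
    have e2 : S.filter (fun s => em s ∈ J) ∩ S.filter (fun s => em s ∈ J')
        = S.filter (fun s => em s ∈ J ∩ J') := by
      ext a; simp only [mem_inter, mem_filter]; tauto
    rw [e1, e2] at h8
    omega
  have hone : ∀ x ∈ H, x ∉ S → ∃ J : Finset W, em x ∈ J ∧
      ((S.filter (fun s => em s ∈ J)).card : ℤ) = cc N J := by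
    intro x hx hxS
    have h3 : ¬ Rf F v (insert x S) = (insert x S).card := by
      intro h4
      have h5 := hr.mono (insert_subset hx hSH)
      rw [h4, card_insert_of_notMem hxS] at h5
      push_cast at h5
      omega
    rw [h.fin] at h3
    push Not at h3
    obtain ⟨J, hJ⟩ := h3
    have h4 := hSle J
    by_cases hxJ : em x ∈ J
    · refine ⟨J, hxJ, ?_⟩
      rw [filter_insert, if_pos hxJ, card_insert_of_notMem (by
        rw [mem_filter]; exact fun hh => hxS hh.1)] at hJ
      push_cast at hJ
      omega
    · rw [filter_insert, if_neg hxJ] at hJ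
      omega
  have hall : ∀ T : Finset E, T ⊆ H \ S → ∃ J : Finset W, (∀ x ∈ T, em x ∈ J) ∧
      ((S.filter (fun s => em s ∈ J)).card : ℤ) = cc N J := by
    intro T
    induction T using Finset.induction_on with
    | empty =>
      intro _
      refine ⟨∅, fun x hx => absurd hx (notMem_empty _), ?_⟩
      have h3 := hSle ∅
      have h4 : cc N ∅ ≤ 0 := by unfold cc; simp
      simp only [notMem_empty, filter_false, card_empty, Nat.cast_zero] at h3 ⊢
      omega
    | insert a T ha ih =>
      intro hsub
      obtain ⟨J, hJ, hJt⟩ := ih ((subset_insert _ _).trans hsub)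
      have haH := mem_sdiff.1 (hsub (mem_insert_self _ _))
      obtain ⟨J', hJ', hJt'⟩ := hone a haH.1 haH.2
      refine ⟨J ∪ J', ?_, hunion J J' hJt hJt'⟩
      intro x hx
      rcases mem_insert.1 hx with rfl | hx
      · exact mem_union_right _ hJ'
      · exact mem_union_left _ (hJ x hx)
  obtain ⟨JH, hJH, hJHt⟩ := hall (H \ S) (Subset.refl _)
  set Y := H.filter (fun x => em x ∈ JH) with hY
  have hYS : H \ Y ⊆ S := by
    intro a ha
    rw [mem_sdiff, hY, mem_filter, not_and] at ha
    by_contra haS
    exact ha.2 ha.1 (hJH a (mem_sdiff.2 ⟨ha.1, haS⟩))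
  have r1 : Rf F v Y ≤ cc N JH := h.rank_le_cc (fun s hs => by
    rw [hY, mem_filter] at hs; exact hs.2)
  have r2 := Rf_le_card (F := F) v (H \ Y)
  have r3 : (H \ Y).card + (S.filter (fun s => em s ∈ JH)).card ≤ S.card := by
    rw [← card_union_of_disjoint]
    · exact card_le_card (union_subset hYS (filter_subset _ _))
    · rw [disjoint_left]
      intro a ha ha'
      rw [mem_sdiff, hY, mem_filter, not_and] at ha
      rw [mem_filter] at ha'
      exact ha.2 ha.1 ha'.2
  have hYne : Y.Nonempty := by
    by_contra hcon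
    rw [not_nonempty_iff_eq_empty] at hcon
    rw [hcon, sdiff_empty] at hYS
    have hHS : H = S := Subset.antisymm hYS hSH
    obtain ⟨x, hx⟩ := hc.1
    have h3 := hc.2 {x} (singleton_subset_iff.2 hx) (singleton_nonempty x) (by
      rw [← erase_eq, ← card_pos, card_erase_of_mem hx]; omega)
    rw [← erase_eq] at h3
    have h4 := Rf_le_card (F := F) v {x}
    have h5 := Rf_le_card (F := F) v (H.erase x)
    rw [card_erase_of_mem hx] at h5
    rw [card_singleton] at h4
    rw [← hHS] at hS
    omega
  have hHY : ¬ (H \ Y).Nonempty := by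
    intro hne
    have h3 := hc.2 Y (filter_subset _ _) hYne hne
    omega
  have hHYe : H \ Y = ∅ := not_nonempty_iff_eq_empty.1 hHY
  have hHsub : H ⊆ Y := sdiff_eq_empty_iff_subset.1 hHYe
  refine ⟨JH, ?_, ?_⟩
  · intro x hx
    have := hHsub hx
    rw [hY, mem_filter] at this
    exact this.2
  · rw [← hJHt, filter_true_of_mem (fun s hs => by
      have := hHsub (hSH hs)
      rw [hY, mem_filter] at this
      exact this.2)]
    omega

end Pool.Agent.Helper35.BryLin
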