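import Mathlib
import Pool.Agent.Helper35.BryGam

set_option autoImplicit false
set_option linter.unusedSectionVars false

namespace Pool.Agent.Helper35.BryLin

open Finset Module Submodule Pool.Agent.Helper35.BryHall Pool.Agent.Helper35.BryRank

variable {F : Type} [Field F] {V : Type} [AddCommGroup V] [Module F V] [FiniteDimensional F V]
variable {E : Type} [DecidableEq E]
variable {W ι : Type} [DecidableEq W] [Fintype ι] [DecidableEq ι]

/-- normalised points -/
noncomputable def pp (v : E → V) (φ : V →ₗ[F] F) (x : E) : V := (φ (v x))⁻¹ • v x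

theorem pp_smul (v : E → V) (φ : V →ₗ[F] F) {x : E} (hx : φ (v x) ≠ 0) :
    v x = φ (v x) • pp v φ x := by
  unfold pp
  rw [smul_smul, mul_inv_cancel₀ hx, one_smul]

theorem φ_pp (v : E → V) (φ : V →ₗ[F] F) {x : E} (hx : φ (v x) ≠ 0) : φ (pp v φ x) = 1 := by
  unfold pp
  rw [map_smul, smul_eq_mul, inv_mul_cancel₀ hx]

theorem sp_φ_zero (v : E → V) (φ : V →ₗ[F] F) {S : Finset E} (hS : ∀ s ∈ S, φ (v s) = 0)
    {w : V} (hw : w ∈ sp F v S) : φ w = 0 := by
  have h : sp F v S ≤ LinearMap.ker φ := sp_le v (fun x hx => LinearMap.mem_ker.2 (hS x hx))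
  exact LinearMap.mem_ker.1 (h hw)

theorem rank_insert_out (v : E → V) (φ : V →ₗ[F] F) {S : Finset E} (hS : ∀ s ∈ S, φ (v s) = 0)
    {x : E} (hx : φ (v x) ≠ 0) : Rf F v (insert x S) = Rf F v S + 1 := by
  apply (Rf_rk v).not_cl
  intro hcon
  exact hx (sp_φ_zero v φ hS ((mem_sp_iff v).2 hcon))

theorem Rf_single (v : E → V) {x : E} (hx : v x ≠ 0) : Rf F v {x} = 1 := by
  unfold Rf
  rw [sp_singleton, finrank_span_singleton hx]
  rfl

theorem Gam.em_inj {v : E → V} {N : ι → Finset W} {em : E → W} (h : Gam F v N em)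
    {S : Finset E} (hS : Rf F v S = S.card) : Set.InjOn em (S : Set E) := by
  intro x hx y hy hxy
  by_contra hne
  have h1 := (h.fin S).1 hS {em x}
  have h2 : cc N {em x} ≤ 1 := by unfold cc; rw [card_singleton]; omega
  have h3 : 1 < (S.filter (fun s => em s ∈ ({em x} : Finset W))).card := by
    apply one_lt_card.2
    refine ⟨x, ?_, y, ?_, hne⟩
    · rw [mem_filter]; exact ⟨by exact_mod_cast hx, mem_singleton_self _⟩
    · rw [mem_filter]; exact ⟨by exact_mod_cast hy, by rw [hxy]; exact mem_singleton_self _⟩
  omega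

theorem Gam.matching {v : E → V} {N : ι → Finset W} {em : E → W} (h : Gam F v N em)
    {S : Finset E} (hS : Rf F v S = S.card) :
    ∃ μ : ι → W, Function.Injective μ ∧ (∀ k, μ k ∈ N k) ∧ ∀ k, μ k ∉ S.image em := by
  apply exists_matching
  intro J
  refine le_trans ?_ ((h.fin S).1 hS J)
  have : S.image em ∩ J ⊆ (S.filter (fun s => em s ∈ J)).image em := by
    intro w hw
    rw [mem_inter, mem_image] at hw
    obtain ⟨⟨s, hs, rfl⟩, hw⟩ := hw
    exact mem_image_of_mem _ (mem_filter.2 ⟨hs, hw⟩)
  have h1 := (card_le_card this).trans card_image_le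
  exact_mod_cast h1

/-- number of distinct images is determined by the kernel relation -/
theorem card_image_le_of {α β γ : Type} [DecidableEq β] [DecidableEq γ] (Q : Finset α)
    (g : α → β) (g' : α → γ) (h : ∀ x ∈ Q, ∀ y ∈ Q, g' x = g' y → g x = g y) :
    (Q.image g).card ≤ (Q.image g').card := by
  classical
  rcases Q.eq_empty_or_nonempty with rfl | ⟨a0, ha0⟩
  · simp
  have hch : ∀ w : γ, ∃ a : α, a ∈ Q ∧ (w ∈ Q.image g' → g' a = w) := by
    intro w
    by_cases hw : w ∈ Q.image g'
    · obtain ⟨a, ha, haw⟩ := mem_image.1 hw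
      exact ⟨a, ha, fun _ => haw⟩
    · exact ⟨a0, ha0, fun hh => absurd hh hw⟩
  choose s hs hs' using hch
  have : Q.image g ⊆ (Q.image g').image (fun w => g (s w)) := by
    intro w hw
    obtain ⟨a, ha, rfl⟩ := mem_image.1 hw
    rw [mem_image]
    refine ⟨g' a, mem_image_of_mem _ ha, ?_⟩
    exact h _ (hs _) _ ha (hs' (g' a) (mem_image_of_mem _ ha))
  exact (card_le_card this).trans card_image_le

/-- number of classes -/
noncomputable def kk (v : E → V) (φ : V →ₗ[F] F) (Q : Finset E) (P : Submodule F V) : ℕ :=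
  letI := Classical.decEq (V ⧸ P)
  (Q.image (fun x => P.mkQ (pp v φ x))).card

theorem mkQ_eq_iff (P : Submodule F V) (a b : V) : P.mkQ a = P.mkQ b ↔ a - b ∈ P := by
  rw [mkQ_apply, mkQ_apply, Submodule.Quotient.eq]

theorem kk_ge_of_inj (v : E → V) (φ : V →ₗ[F] F) {Q R : Finset E} (P : Submodule F V)
    (hR : R ⊆ Q) (h : ∀ x ∈ R, ∀ y ∈ R, pp v φ x - pp v φ y ∈ P → x = y) :
    R.card ≤ kk v φ Q P := by
  classical
  unfold kk
  have h1 : (R.image (fun x => P.mkQ (pp v φ x))).card = R.card := by
    apply card_image_of_injOn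
    intro x hx y hy hxy
    exact h x hx y hy ((mkQ_eq_iff P _ _).1 hxy)
  rw [← h1]
  apply card_le_card
  intro w hw
  obtain ⟨a, ha, rfl⟩ := mem_image.1 hw
  exact mem_image_of_mem (fun x => P.mkQ (pp v φ x)) (hR ha)

theorem kk_le_card (v : E → V) (φ : V →ₗ[F] F) (Q : Finset E) (P : Submodule F V) :
    kk v φ Q P ≤ Q.card := by
  classical
  unfold kk
  exact card_image_le

/-- far lemma, linear form -/
theorem far_linear {v : E → V} {N : ι → Finset W} {em : E → W} (h : Gam F v N em)
    (φ : V →ₗ[F] F) {JH : Finset W} {S : Finset E} (hS : Rf F v S = S.card)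
    (hSJ : ∀ s ∈ S, em s ∈ JH) (hcc : cc N JH = S.card) (hφS : ∀ s ∈ S, φ (v s) = 0)
    {Fs : Finset E} (hFJ : ∀ f ∈ Fs, em f ∈ JH) (hφF : ∀ f ∈ Fs, φ (v f) = 0)
    (hF1 : ∀ f ∈ Fs, v f ≠ 0) (hF2 : ∀ f ∈ Fs, ∀ f' ∈ Fs, f ≠ f' → Rf F v {f, f'} = 2)
    {Q : Finset E} (hφQ : ∀ x ∈ Q, φ (v x) ≠ 0)
    (hinj : ∀ x ∈ Q, ∀ y ∈ Q, pp v φ x = pp v φ y → x = y) (hQ : Q.Nonempty) :
    ∑ f ∈ Fs, ((Q.card : ℤ) - (kk v φ Q (span F {v f}) : ℤ)) ≤ (Q.card : ℤ) - 1 := by
  classical
  have hr := Rf_rk (F := F) v
  obtain ⟨x0, hx0⟩ := hQ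
  have hx0S : x0 ∉ S := fun hh => hφQ x0 hx0 (hφS x0 hh)
  have hlb : ∀ (T : Finset E) (J : Finset W), (∀ t ∈ T, em t ∈ J) → Rf F v T ≤ cc N J :=
    fun T J hT => h.rank_le_cc hT
  have hSx : ∀ x ∈ Q, ∀ J : Finset W, S.image em ⊆ J → em x ∈ J →
      ((S.image em).card : ℤ) + 1 ≤ cc N J := by
    intro x hx J hJ hxJ
    have h1 := hlb (insert x S) J (by
      intro t ht
      rcases mem_insert.1 ht with rfl | ht
      · exact hxJ
      · exact hJ (mem_image_of_mem em ht))
    rw [rank_insert_out v φ hφS (hφQ x hx), hS] at h1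
    have h2 : (S.image em).card ≤ S.card := card_image_le
    omega
  have hins : Rf F v (insert x0 S) = (insert x0 S).card := by
    rw [rank_insert_out v φ hφS (hφQ x0 hx0), hS, card_insert_of_notMem hx0S]
    push_cast; ring
  obtain ⟨μ, hμ1, hμ2, hμ3⟩ := h.matching hins
  rw [image_insert] at hμ3
  have hSinj := h.em_inj hS
  have hHS : HSet N μ JH (S.image em) := by
    refine ⟨hμ1, hμ2, ?_, ?_, ?_⟩
    · intro w hw
      obtain ⟨s, hs, rfl⟩ := mem_image.1 hw
      exact hSJ s hs
    · intro k hk
      exact hμ3 k (mem_insert_of_mem hk)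
    · rw [hcc, card_image_of_injOn hSinj]
  have hx0JH : em x0 ∉ JH := by
    intro hh
    have h1 := hlb (insert x0 S) JH (by
      intro t ht
      rcases mem_insert.1 ht with rfl | ht
      · exact hh
      · exact hSJ t ht)
    rw [hins, card_insert_of_notMem hx0S, hcc] at h1
    push_cast at h1
    omega
  have hx0un : ∀ k, μ k ≠ em x0 := by
    intro k hk
    exact hμ3 k (hk ▸ mem_insert_self _ _)
  -- small ranks
  have hfx : ∀ f ∈ Fs, ∀ x ∈ Q, Rf F v {x, f} = 2 := by
    intro f hf x hx
    rw [rank_insert_out v φ (S := {f}) (by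
      intro s hs; rw [mem_singleton] at hs; rw [hs]; exact hφF f hf) (hφQ x hx),
      Rf_single v (hF1 f hf)]
    norm_num
  have hxy : ∀ x ∈ Q, ∀ y ∈ Q, x ≠ y → Rf F v {x, y} = 2 := by
    intro x hx y hy hne
    have hy0 : v y ≠ 0 := fun hh => hφQ y hy (by rw [hh, map_zero])
    have h1 := Rf_single (F := F) v hy0
    have h2 : Rf F v (insert x {y}) ≠ Rf F v {y} := by
      intro h3
      rw [← mem_sp_iff, sp_singleton, mem_span_singleton] at h3
      obtain ⟨c, hc⟩ := h3
      apply hne
      apply hinj x hx y hy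
      unfold pp
      have hφx := hφQ x hx
      have hφy := hφQ y hy
      rw [← hc, map_smul, smul_eq_mul] at hφx ⊢
      have hc0 : c ≠ 0 := left_ne_zero_of_mul hφx
      rw [smul_smul]
      congr 1
      field_simp
    have h3 := hr.not_cl h2
    rw [h1] at h3
    exact h3
  set Fr : E → Finset E := fun f => Q.filter (fun x => Far N μ JH (em f) (em x)) with hFr
  -- counting classes
  have hcount : ∀ f ∈ Fs, (Q.card : ℤ) - (kk v φ Q (span F {v f}) : ℤ) ≤ ((Fr f).card : ℤ) := by
    intro f hf
    have h1 := kk_ge_of_inj v φ (Q := Q) (R := Q \ Fr f) (span F {v f}) sdiff_subset (by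
      intro x hx y hy hxyP
      by_contra hne
      have hx' := mem_sdiff.1 hx
      have hy' := mem_sdiff.1 hy
      have nfx : ¬ Far N μ JH (em f) (em x) := fun hh => hx'.2 (mem_filter.2 ⟨hx'.1, hh⟩)
      have nfy : ¬ Far N μ JH (em f) (em y) := fun hh => hy'.2 (mem_filter.2 ⟨hy'.1, hh⟩)
      have hfx2 := hfx f hf x hx'.1
      have hfy2 := hfx f hf y hy'.1
      have hxy2 := hxy x hx'.1 y hy'.1 hne
      have hfne : ∀ z ∈ Q, z ≠ f := by
        rintro z hz rfl; exact hφQ z hz (hφF z hf)
      have hcard3 : ({x, y, f} : Finset E).card = 3 :=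
        card_eq_three.2 ⟨x, y, f, hne, hfne x hx'.1, hfne y hy'.1, rfl⟩
      have hsimple : ∀ J : Finset W, em f ∈ J → em x ∈ J → em y ∈ J → 3 ≤ cc N J := by
        intro J h1 h2 h3
        apply hHS.far_simple (hFJ f hf) _ _ _ (hSx x hx'.1) nfx nfy h1 h2 h3
        · intro G hG
          have := hlb {f} G (by intro t ht; rw [mem_singleton] at ht; rw [ht]; exact hG)
          rw [Rf_single v (hF1 f hf)] at this
          exact this
        · intro G hG hG'
          have := hlb {x, f} G (by
            intro t ht; rw [mem_insert, mem_singleton] at ht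
            rcases ht with rfl | rfl <;> assumption)
          rw [hfx2] at this
          exact this
        · intro G hG hG'
          have := hlb {x, y} G (by
            intro t ht; rw [mem_insert, mem_singleton] at ht
            rcases ht with rfl | rfl <;> assumption)
          rw [hxy2] at this
          exact this
      have hR3 : Rf F v {x, y, f} = 3 := by
        have h2 := (h.fin {x, y, f}).2 (by
          intro J
          by_cases hall : em x ∈ J ∧ em y ∈ J ∧ em f ∈ J
          · have h3 := hsimple J hall.2.2 hall.1 hall.2.1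
            have h4 := card_filter_le ({x, y, f} : Finset E) (fun s => em s ∈ J)
            rw [hcard3] at h4
            omega
          · -- some element outside
            have key : ∀ T : Finset E, Rf F v T = T.card →
                ({x, y, f} : Finset E).filter (fun s => em s ∈ J) ⊆ T →
                ((({x, y, f} : Finset E).filter (fun s => em s ∈ J)).card : ℤ) ≤ cc N J := by
              intro T hT hsub
              have h5 := indep_sub v hsub hT
              have h6 := hlb (({x, y, f} : Finset E).filter (fun s => em s ∈ J)) J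
                (fun t ht => (mem_filter.1 ht).2)
              omega
            by_cases hxJ : em x ∈ J
            · by_cases hyJ : em y ∈ J
              · have hfJ : em f ∉ J := fun hh => hall ⟨hxJ, hyJ, hh⟩
                apply key {x, y}
                · rw [hxy2, card_pair hne]; rfl
                · intro t ht
                  rw [mem_filter] at ht
                  have h7 := ht.1
                  rw [mem_insert, mem_insert, mem_singleton] at h7
                  rw [mem_insert, mem_singleton]
                  rcases h7 with h7 | h7 | h7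
                  · exact Or.inl h7
                  · exact Or.inr h7
                  · exact absurd (h7 ▸ ht.2) hfJ
              · apply key {x, f}
                · rw [hfx2, card_pair (hfne x hx'.1)]; rfl
                · intro t ht
                  rw [mem_filter] at ht
                  have h7 := ht.1
                  rw [mem_insert, mem_insert, mem_singleton] at h7
                  rw [mem_insert, mem_singleton]
                  rcases h7 with h7 | h7 | h7
                  · exact Or.inl h7
                  · exact absurd (h7 ▸ ht.2) hyJ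
                  · exact Or.inr h7
            · apply key {y, f}
              · rw [hfy2, card_pair (hfne y hy'.1)]; rfl
              · intro t ht
                rw [mem_filter] at ht
                have h7 := ht.1
                rw [mem_insert, mem_insert, mem_singleton] at h7
                rw [mem_insert, mem_singleton]
                rcases h7 with h7 | h7 | h7
                · exact absurd (h7 ▸ ht.2) hxJ
                · exact Or.inl h7
                · exact Or.inr h7)
        rw [h2, hcard3]; rfl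
      -- contradiction
      have h2 : v x ∈ sp F v {y, f} := by
        rw [pp_smul v φ (hφQ x hx'.1)]
        apply smul_mem
        have e1 : pp v φ x = (pp v φ x - pp v φ y) + pp v φ y := by abel
        rw [e1]
        apply add_mem
        · have h3 : span F {v f} ≤ sp F v {y, f} := by
            rw [span_singleton_le_iff_mem]
            exact mem_sp v (by simp)
          exact h3 hxyP
        · unfold pp
          exact smul_mem _ _ (mem_sp v (by simp))
      rw [mem_sp_iff] at h2
      rw [h2] at hR3
      omega)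
    have h2 := card_sdiff_add_card_eq_card (show Fr f ⊆ Q from filter_subset _ _)
    omega
  have hdisj : ∀ f ∈ Fs, ∀ f' ∈ Fs, f ≠ f' → Disjoint (Fr f) (Fr f') := by
    intro f hf f' hf' hne
    rw [disjoint_left]
    intro x hx hx'
    rw [hFr] at hx hx'
    simp only [mem_filter] at hx hx'
    apply hHS.far_disj (hSx x hx.1) _ hx.2 hx'.2
    intro J h1 h2 h3
    have h4 := hlb {x, f, f'} J (by
      intro t ht; rw [mem_insert, mem_insert, mem_singleton] at ht
      rcases ht with rfl | rfl | rfl <;> assumption)
    rw [rank_insert_out v φ (S := {f, f'}) (by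
      intro s hs; rw [mem_insert, mem_singleton] at hs
      rcases hs with rfl | rfl
      · exact hφF _ hf
      · exact hφF _ hf') (hφQ x hx.1), hF2 f hf f' hf' hne] at h4
    exact h4
  have hunion : (Fs.biUnion Fr).card ≤ (Q.erase x0).card := by
    apply card_le_card
    intro x hx
    obtain ⟨f, hf, hx⟩ := mem_biUnion.1 hx
    rw [hFr] at hx
    simp only [mem_filter] at hx
    rw [mem_erase]
    refine ⟨?_, hx.1⟩
    rintro rfl
    exact hHS.far_root hx0JH hx0un hx.2
  rw [card_biUnion hdisj, card_erase_of_mem hx0] at hunion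
  have hpos : 0 < Q.card := card_pos.2 ⟨x0, hx0⟩
  have h1 := sum_le_sum hcount
  have h2 : (∑ f ∈ Fs, ((Fr f).card : ℤ)) ≤ (Q.card : ℤ) - 1 := by
    have : ((∑ f ∈ Fs, (Fr f).card : ℕ) : ℤ) ≤ ((Q.card - 1 : ℕ) : ℤ) := by exact_mod_cast hunion
    push_cast [Nat.cast_sub (show 1 ≤ Q.card from hpos)] at this
    exact this
  linarith

end Pool.Agent.Helper35.BryLin
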