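import Mathlib
import Pool.Agent.Helper35.BryFar

set_option autoImplicit false
set_option linter.unusedSectionVars false

namespace Pool.Agent.Helper35.BryLin

open Finset Module Submodule Pool.Agent.Helper35.BryHall Pool.Agent.Helper35.BryRank

variable {F : Type} [Field F] {V : Type} [AddCommGroup V] [Module F V] [FiniteDimensional F V]
variable {E : Type} [DecidableEq E]
variable {W ι : Type} [DecidableEq W] [Fintype ι] [DecidableEq ι]

/-- configurations -/
structure Cfg (v : E → V) (N : ι → Finset W) (em : E → W) (φ : V →ₗ[F] F) (H C : Finset E)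
    (JH : Finset W) : Prop where
  gam : Gam F v N em
  φH : ∀ x ∈ H, φ (v x) = 0
  φC : ∀ x ∈ C, φ (v x) ≠ 0
  inj : ∀ x ∈ C, ∀ y ∈ C, pp v φ x = pp v φ y → x = y
  spanC : ∀ x ∈ C, ∀ y ∈ C, pp v φ x - pp v φ y ∈ sp F v H
  JHmem : ∀ x ∈ H, em x ∈ JH
  JHcc : cc N JH = Rf F v H

theorem kk_le_of {V' : Type} [AddCommGroup V'] [Module F V'] [FiniteDimensional F V']
    (v : E → V) (φ : V →ₗ[F] F) (v' : E → V') (φ' : V' →ₗ[F] F) (Q : Finset E)
    (P : Submodule F V) (P' : Submodule F V')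
    (h : ∀ x ∈ Q, ∀ y ∈ Q, pp v' φ' x - pp v' φ' y ∈ P' → pp v φ x - pp v φ y ∈ P) :
    kk v φ Q P ≤ kk v' φ' Q P' := by
  classical
  unfold kk
  apply card_image_le_of
  intro x hx y hy hxy
  rw [mkQ_eq_iff] at hxy ⊢
  exact h x hx y hy hxy

theorem kk_anti (v : E → V) (φ : V →ₗ[F] F) (Q : Finset E) {P P' : Submodule F V} (h : P ≤ P') :
    kk v φ Q P' ≤ kk v φ Q P :=
  kk_le_of v φ v φ Q P' P (fun _ _ _ _ hh => h hh)

/-- the contracted functional -/
noncomputable def φc (v : E → V) (φ : V →ₗ[F] F) (A : Finset E) (hA : ∀ x ∈ A, φ (v x) = 0) :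
    (V ⧸ sp F v A) →ₗ[F] F :=
  (sp F v A).liftQ φ (sp_le v (fun x hx => LinearMap.mem_ker.2 (hA x hx)))

theorem φc_mkQ (v : E → V) (φ : V →ₗ[F] F) (A : Finset E) (hA : ∀ x ∈ A, φ (v x) = 0) (w : V) :
    φc v φ A hA ((sp F v A).mkQ w) = φ w := rfl

theorem pp_c (v : E → V) (φ : V →ₗ[F] F) (A : Finset E) (hA : ∀ x ∈ A, φ (v x) = 0) (x : E) :
    pp ((sp F v A).mkQ ∘ v) (φc v φ A hA) x = (sp F v A).mkQ (pp v φ x) := by
  unfold pp
  rw [map_smul]
  rfl

theorem mkQ_mem_sp (v : E → V) (A S : Finset E) (w : V) :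
    (sp F v A).mkQ w ∈ sp F ((sp F v A).mkQ ∘ v) S ↔ w ∈ sp F v (A ∪ S) := by
  have h1 : sp F ((sp F v A).mkQ ∘ v) S = (sp F v S).map (sp F v A).mkQ := by
    unfold sp
    rw [map_span, Set.image_comp]
  rw [h1, sp_union, ← Submodule.comap_map_mkQ, Submodule.mem_comap]

/-- class inequality in general position -/
theorem class_ineq {v : E → V} {N : ι → Finset W} {em : E → W} {φ : V →ₗ[F] F} {H C : Finset E}
    {JH : Finset W} (h : Cfg v N em φ H C JH) {B : Finset E} (hB : B ⊆ H) {Fs : Finset E}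
    (hF : Fs ⊆ H) (hF1 : ∀ f ∈ Fs, Rf F v (insert f B) = Rf F v B + 1)
    (hF2 : ∀ f ∈ Fs, ∀ f' ∈ Fs, f ≠ f' → Rf F v (insert f (insert f' B)) = Rf F v B + 2)
    {Q : Finset E} (hQC : Q ⊆ C)
    (hinj : ∀ x ∈ Q, ∀ y ∈ Q, pp v φ x - pp v φ y ∈ sp F v B → x = y) (hQ : Q.Nonempty) :
    ∑ f ∈ Fs, ((Q.card : ℤ) - (kk v φ Q (sp F v (insert f B)) : ℤ)) ≤ (Q.card : ℤ) - 1 := by
  classical
  obtain ⟨B0, -, hB0B, hB0, hB0r⟩ := exists_basis (F := F) v (empty_subset B) (by
    rw [(Rf_rk v).empty]; simp)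
  obtain ⟨S0, hBS, hSH, hS0, hS0r⟩ := exists_basis (F := F) v (hB0B.trans hB) hB0
  have hspB : sp F v B0 = sp F v B := sp_eq_of_Rf v hB0B hB0r
  have hφB0 : ∀ x ∈ B0, φ (v x) = 0 := fun x hx => h.φH x (hB (hB0B hx))
  have hgam := h.gam.contract hB0
  have hRc := fun T => Rf_contract (F := F) v B0 (sp F v B0) rfl T
  have hspins : ∀ T : Finset E, sp F v (B0 ∪ T) = sp F v (B ∪ T) := by
    intro T; rw [sp_union, sp_union, hspB]
  have hRfins : ∀ T : Finset E, Rf F v (B0 ∪ T) = Rf F v (B ∪ T) := by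
    intro T; unfold Rf; rw [hspins]
  have key := far_linear hgam (φc v φ B0 hφB0) (JH := JH) (S := S0 \ B0) (Fs := Fs) (Q := Q)
    (by
      rw [hRc]
      unfold rc
      rw [union_sdiff_of_subset hBS, hS0, hB0]
      have := card_sdiff_add_card_eq_card hBS
      omega)
    (fun s hs => h.JHmem s (hSH (mem_sdiff.1 hs).1))
    (by
      rw [cc_Nc, h.JHcc, filter_true_of_mem (fun s hs => h.JHmem s (hB (hB0B hs))), ← hS0r, hS0]
      have := card_sdiff_add_card_eq_card hBS
      omega)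
    (fun s hs => h.φH s (hSH (mem_sdiff.1 hs).1))
    (fun f hf => h.JHmem f (hF hf))
    (fun f hf => h.φH f (hF hf))
    (by
      intro f hf hcon
      have h1 := hF1 f hf
      have h2 : Rf F ((sp F v B0).mkQ ∘ v) {f} = 0 := by
        unfold Rf
        rw [sp_singleton, hcon, span_zero_singleton, finrank_bot]
        rfl
      rw [hRc] at h2
      unfold rc at h2
      rw [hRfins, hB0r, union_comm, ← insert_eq] at h2
      omega)
    (by
      intro f hf f' hf' hne
      have h1 := hF2 f hf f' hf' hne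
      rw [hRc, rc_pair]
      have e1 : insert f (insert f' B0) = B0 ∪ {f, f'} := by
        ext a; simp only [mem_union, mem_insert, mem_singleton]; tauto
      have e2 : insert f (insert f' B) = B ∪ {f, f'} := by
        ext a; simp only [mem_union, mem_insert, mem_singleton]; tauto
      rw [e1, hRfins, hB0r, ← e2]
      omega)
    (fun x hx => h.φC x (hQC hx))
    (by
      intro x hx y hy hxy
      rw [pp_c, pp_c, mkQ_eq_iff, hspB] at hxy
      exact hinj x hx y hy hxy)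
    hQ
  refine le_trans (sum_le_sum ?_) key
  intro f hf
  have h1 : kk ((sp F v B0).mkQ ∘ v) (φc v φ B0 hφB0) Q (span F {((sp F v B0).mkQ ∘ v) f})
      ≤ kk v φ Q (sp F v (insert f B)) := by
    apply kk_le_of
    intro x hx y hy hxy
    rw [pp_c, pp_c, ← map_sub, ← sp_singleton, mkQ_mem_sp, hspins, union_comm, ← insert_eq]
    exact hxy
  omega

theorem exists_reps {β : Type} [DecidableEq β] (C : Finset E) (g : E → β) :
    ∃ D ⊆ C, (∀ x ∈ D, ∀ y ∈ D, g x = g y → x = y) ∧ ∀ x ∈ C, ∃ y ∈ D, g x = g y := by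
  classical
  rcases C.eq_empty_or_nonempty with rfl | ⟨a0, ha0⟩
  · exact ⟨∅, Subset.refl _, fun x hx => absurd hx (notMem_empty _),
      fun x hx => absurd hx (notMem_empty _)⟩
  have hch : ∀ w : β, ∃ a : E, a ∈ C ∧ (w ∈ C.image g → g a = w) := by
    intro w
    by_cases hw : w ∈ C.image g
    · obtain ⟨a, ha, haw⟩ := mem_image.1 hw
      exact ⟨a, ha, fun _ => haw⟩
    · exact ⟨a0, ha0, fun hh => absurd hh hw⟩
  choose s hs hs' using hch
  refine ⟨(C.image g).image s, ?_, ?_, ?_⟩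
  · intro x hx
    obtain ⟨w, _, rfl⟩ := mem_image.1 hx
    exact hs w
  · intro x hx y hy hxy
    obtain ⟨w, hw, rfl⟩ := mem_image.1 hx
    obtain ⟨w', hw', rfl⟩ := mem_image.1 hy
    rw [hs' w hw, hs' w' hw'] at hxy
    rw [hxy]
  · intro x hx
    refine ⟨s (g x), mem_image_of_mem _ (mem_image_of_mem _ hx), ?_⟩
    exact (hs' (g x) (mem_image_of_mem _ hx)).symm

/-- the class-counting function of a configuration -/
noncomputable def kap (v : E → V) (φ : V →ₗ[F] F) (C B : Finset E) : ℤ :=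
  (kk v φ C (sp F v B) : ℤ) - 1

theorem kap_two {v : E → V} {N : ι → Finset W} {em : E → W} {φ : V →ₗ[F] F} {H C : Finset E}
    {JH : Finset W} (h : Cfg v N em φ H C JH) {B Λ Fs : Finset E} (hBΛ : B ⊆ Λ) (hΛ : Λ ⊆ H)
    (hF : Fs ⊆ Λ) (hF1 : ∀ f ∈ Fs, Rf F v (insert f B) = Rf F v B + 1)
    (hF2 : ∀ f ∈ Fs, ∀ f' ∈ Fs, f ≠ f' → Rf F v (insert f (insert f' B)) = Rf F v B + 2) :
    ∑ f ∈ Fs, (kap v φ C B - kap v φ C (insert f B)) ≤ kap v φ C B - kap v φ C Λ := by
  classical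
  -- representatives modulo B
  obtain ⟨D, hDC, hDinj, hDrep⟩ := exists_reps C (fun x => (sp F v B).mkQ (pp v φ x))
  have hDinj' : ∀ x ∈ D, ∀ y ∈ D, pp v φ x - pp v φ y ∈ sp F v B → x = y := by
    intro x hx y hy hxy
    exact hDinj x hx y hy ((mkQ_eq_iff _ _ _).2 hxy)
  have hDrep' : ∀ x ∈ C, ∃ y ∈ D, pp v φ x - pp v φ y ∈ sp F v B := by
    intro x hx
    obtain ⟨y, hy, hxy⟩ := hDrep x hx
    exact ⟨y, hy, (mkQ_eq_iff _ _ _).1 hxy⟩
  have hbig : ∀ P : Submodule F V, sp F v B ≤ P →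
      C.image (fun x => P.mkQ (pp v φ x)) = D.image (fun x => P.mkQ (pp v φ x)) := by
    intro P hP
    apply Subset.antisymm
    · intro w hw
      obtain ⟨x, hx, rfl⟩ := mem_image.1 hw
      obtain ⟨y, hy, hxy⟩ := hDrep' x hx
      rw [mem_image]
      exact ⟨y, hy, ((mkQ_eq_iff P _ _).2 (hP hxy)).symm⟩
    · exact image_subset_image hDC
  have hkkP : ∀ P : Submodule F V, sp F v B ≤ P → kk v φ C P = kk v φ D P := by
    intro P hP
    unfold kk
    rw [hbig P hP]
  have hkB : kk v φ D (sp F v B) = D.card := by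
    apply le_antisymm (kk_le_card _ _ _ _)
    exact kk_ge_of_inj v φ _ (Subset.refl _) hDinj'
  set gΛ : E → V ⧸ sp F v Λ := fun x => (sp F v Λ).mkQ (pp v φ x) with hgΛ
  set cls := D.image gΛ with hcls
  have hkΛ : kk v φ D (sp F v Λ) = cls.card := rfl
  have hD : D.card = ∑ q ∈ cls, (D.filter (fun x => gΛ x = q)).card :=
    card_eq_sum_card_image gΛ D
  have hspBΛ : sp F v B ≤ sp F v Λ := sp_mono v hBΛ
  have hkf : ∀ f ∈ Fs, (kk v φ D (sp F v (insert f B)) : ℤ)
      = ∑ q ∈ cls, (kk v φ (D.filter (fun x => gΛ x = q)) (sp F v (insert f B)) : ℤ) := by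
    intro f hf
    have hfΛ : sp F v (insert f B) ≤ sp F v Λ := sp_mono v (insert_subset (hF hf) hBΛ)
    have e1 : D.image (fun x => (sp F v (insert f B)).mkQ (pp v φ x))
        = cls.biUnion (fun q => (D.filter (fun x => gΛ x = q)).image
          (fun x => (sp F v (insert f B)).mkQ (pp v φ x))) := by
      ext w
      simp only [mem_image, mem_biUnion, mem_filter, hcls]
      constructor
      · rintro ⟨x, hx, rfl⟩
        exact ⟨gΛ x, ⟨x, hx, rfl⟩, x, ⟨hx, rfl⟩, rfl⟩
      · rintro ⟨q, _, x, ⟨hx, _⟩, rfl⟩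
        exact ⟨x, hx, rfl⟩
    have e2 : kk v φ D (sp F v (insert f B))
        = ∑ q ∈ cls, kk v φ (D.filter (fun x => gΛ x = q)) (sp F v (insert f B)) := by
      unfold kk
      rw [e1, card_biUnion]
      intro q _ q' _ hne
      rw [Function.onFun, disjoint_left]
      intro w hw hw'
      obtain ⟨x, hx, rfl⟩ := mem_image.1 hw
      obtain ⟨y, hy, hxy⟩ := mem_image.1 hw'
      rw [mem_filter] at hx hy
      apply hne
      rw [← hx.2, ← hy.2]
      rw [mkQ_eq_iff] at hxy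
      exact ((mkQ_eq_iff _ _ _).2 (hfΛ hxy)).symm
    rw [e2]
    push_cast
    rfl
  have hmain : ∀ q ∈ cls, ∑ f ∈ Fs, (((D.filter (fun x => gΛ x = q)).card : ℤ)
      - (kk v φ (D.filter (fun x => gΛ x = q)) (sp F v (insert f B)) : ℤ))
      ≤ ((D.filter (fun x => gΛ x = q)).card : ℤ) - 1 := by
    intro q hq
    apply class_ineq h (hBΛ.trans hΛ) (hF.trans hΛ) hF1 hF2
      ((filter_subset _ _).trans hDC)
    · intro x hx y hy hxy
      exact hDinj' x (mem_filter.1 hx).1 y (mem_filter.1 hy).1 hxy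
    · obtain ⟨x, hx, hxq⟩ := mem_image.1 hq
      exact ⟨x, mem_filter.2 ⟨hx, hxq⟩⟩
  have h1 : ∑ f ∈ Fs, (kap v φ C B - kap v φ C (insert f B))
      = ∑ q ∈ cls, ∑ f ∈ Fs, (((D.filter (fun x => gΛ x = q)).card : ℤ)
      - (kk v φ (D.filter (fun x => gΛ x = q)) (sp F v (insert f B)) : ℤ)) := by
    rw [sum_comm]
    apply sum_congr rfl
    intro f hf
    unfold kap
    rw [hkkP _ (sp_mono v (subset_insert f B)), hkkP _ le_rfl, hkB, hkf f hf, sum_sub_distrib, hD]
    push_cast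
    ring
  rw [h1]
  refine (sum_le_sum hmain).trans ?_
  rw [sum_sub_distrib]
  unfold kap
  rw [hkkP _ hspBΛ, hkkP _ le_rfl, hkB, hkΛ, hD]
  push_cast
  simp

theorem kap_hyp [Fintype F] {v : E → V} {N : ι → Finset W} {em : E → W} {φ : V →ₗ[F] F}
    {H C : Finset E}
    {JH : Finset W} (h : Cfg v N em φ H C JH) {B : Finset E} (hB : B ⊆ H)
    (hr : Rf F v B + 1 = Rf F v H) : kap v φ C B ≤ (Fintype.card F : ℤ) - 1 := by
  classical
  unfold kap kk
  have hmain : (C.image (fun x => (sp F v B).mkQ (pp v φ x))).card ≤ Fintype.card F := by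
    rcases C.eq_empty_or_nonempty with rfl | ⟨x0, hx0⟩
    · simp
    set D := sp F ((sp F v B).mkQ ∘ v) H with hD
    have hDr : finrank F D = 1 := by
      have h1 := Rf_contract (F := F) v B (sp F v B) rfl H
      unfold rc at h1
      rw [union_eq_right.2 hB] at h1
      unfold Rf at h1 hr
      rw [← hD] at h1
      omega
    haveI : Finite D := Module.finite_of_finite F
    haveI : Fintype D := Fintype.ofFinite D
    have hcard : Fintype.card D = Fintype.card F := by
      rw [Module.card_eq_pow_finrank (K := F) (V := D), hDr, pow_one]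
    rw [← hcard, ← card_univ]
    have hmem : ∀ x ∈ C, (sp F v B).mkQ (pp v φ x) - (sp F v B).mkQ (pp v φ x0) ∈ D := by
      intro x hx
      rw [← map_sub, hD, mkQ_mem_sp]
      exact sp_mono v subset_union_right (h.spanC x hx x0 hx0)
    apply card_le_card_of_injOn (fun w => if hw : w - (sp F v B).mkQ (pp v φ x0) ∈ D then
      (⟨w - (sp F v B).mkQ (pp v φ x0), hw⟩ : D) else 0)
    · intro w _
      exact mem_coe.2 (mem_univ _)
    · intro w hw w' hw' hww
      obtain ⟨x, hx, rfl⟩ := mem_image.1 (mem_coe.1 hw)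
      obtain ⟨y, hy, rfl⟩ := mem_image.1 (mem_coe.1 hw')
      simp only at hww
      rw [dif_pos (hmem x hx), dif_pos (hmem y hy)] at hww
      have := congrArg Subtype.val hww
      simpa using this
  omega

theorem Cfg.kap_Kap [Fintype F] {v : E → V} {N : ι → Finset W} {em : E → W} {φ : V →ₗ[F] F}
    {H C : Finset E} {JH : Finset W} (h : Cfg v N em φ H C JH) (hC : C.Nonempty) :
    Kap (Rf F v) H ((Fintype.card F : ℤ) - 1) (kap v φ C) where
  anti := by
    intro B B' hBB _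
    unfold kap
    have := kk_anti v φ C (sp_mono (F := F) v hBB)
    omega
  full := by
    classical
    intro B hB hr
    have hsp := sp_eq_of_Rf v hB hr
    unfold kap
    have h1 : kk v φ C (sp F v B) = 1 := by
      unfold kk
      rw [card_eq_one]
      obtain ⟨x0, hx0⟩ := hC
      refine ⟨(sp F v B).mkQ (pp v φ x0), ?_⟩
      ext w
      rw [mem_singleton, mem_image]
      constructor
      · rintro ⟨x, hx, rfl⟩
        rw [mkQ_eq_iff, hsp]
        exact h.spanC x hx x0 hx0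
      · rintro rfl
        exact ⟨x0, hx0, rfl⟩
    rw [h1]; norm_num
  cl := by
    intro B B' hBB _ hr
    unfold kap
    rw [sp_eq_of_Rf v hBB hr]
  hyp := fun B hB hr => kap_hyp h hB hr
  two := fun B Λ Fs h1 h2 h3 _ h5 h6 => kap_two h h1 h2 h3 h5 h6

end Pool.Agent.Helper35.BryLin
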