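import Mathlib
import Pool.Agent.Helper35.BryKap

set_option autoImplicit false
set_option linter.unusedSectionVars false

namespace Pool.Agent.Helper35.BryLin

open Finset Module Submodule Pool.Agent.Helper35.BryHall Pool.Agent.Helper35.BryRank
open Pool.Agent.Helper35.BryAlg

variable {F : Type} [Field F] {V : Type} [AddCommGroup V] [Module F V] [FiniteDimensional F V]
variable {E : Type} [DecidableEq E]
variable {W ι : Type} [DecidableEq W] [Fintype ι] [DecidableEq ι]

theorem rank_pair_pp (v : E → V) (φ : V →ₗ[F] F) {x y : E} (hx : φ (v x) ≠ 0)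
    (hy : φ (v y) ≠ 0) (hne : pp v φ x ≠ pp v φ y) : Rf F v {x, y} = 2 := by
  have hr := Rf_rk (F := F) v
  have hy0 : v y ≠ 0 := fun hh => hy (by rw [hh, map_zero])
  have h1 := Rf_single (F := F) v hy0
  have h2 : Rf F v (insert x {y}) ≠ Rf F v {y} := by
    intro h3
    rw [← mem_sp_iff, sp_singleton, mem_span_singleton] at h3
    obtain ⟨c, hc⟩ := h3
    apply hne
    unfold pp
    have hφx := hx
    rw [← hc, map_smul, smul_eq_mul] at hφx ⊢
    have hc0 : c ≠ 0 := left_ne_zero_of_mul hφx
    rw [smul_smul]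
    congr 1
    field_simp
  have h3 := hr.not_cl h2
  rw [h1] at h3
  exact h3

/-- a dependent triple all of whose pairs are independent is contained in a codimension two set -/
theorem Gam.triple {v : E → V} {N : ι → Finset W} {em : E → W} (h : Gam F v N em) {x y f : E}
    (hxy2 : Rf F v {x, y} = 2) (hfx2 : Rf F v {x, f} = 2) (hfy2 : Rf F v {y, f} = 2)
    (hne : x ≠ y) (hxf : x ≠ f) (hyf : y ≠ f) (hdep : Rf F v {x, y, f} ≠ 3) :
    ∃ J : Finset W, em x ∈ J ∧ em y ∈ J ∧ em f ∈ J ∧ cc N J ≤ 2 := by
  have hcard3 : ({x, y, f} : Finset E).card = 3 :=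
    card_eq_three.2 ⟨x, y, f, hne, hxf, hyf, rfl⟩
  by_contra hcon
  push Not at hcon
  apply hdep
  have h2 := (h.fin {x, y, f}).2 (by
    intro J
    by_cases hall : em x ∈ J ∧ em y ∈ J ∧ em f ∈ J
    · have h3 := hcon J hall.1 hall.2.1 hall.2.2
      have h4 := card_filter_le ({x, y, f} : Finset E) (fun s => em s ∈ J)
      rw [hcard3] at h4
      omega
    · have key : ∀ T : Finset E, Rf F v T = T.card →
          ({x, y, f} : Finset E).filter (fun s => em s ∈ J) ⊆ T →
          ((({x, y, f} : Finset E).filter (fun s => em s ∈ J)).card : ℤ) ≤ cc N J := by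
        intro T hT hsub
        have h5 := indep_sub v hsub hT
        have h6 := h.rank_le_cc (S := ({x, y, f} : Finset E).filter (fun s => em s ∈ J)) (J := J)
          (fun t ht => (mem_filter.1 ht).2)
        omega
      by_cases hxJ : em x ∈ J
      · by_cases hyJ : em y ∈ J
        · have hfJ : em f ∉ J := fun hh => hall ⟨hxJ, hyJ, hh⟩
          apply key {x, y}
          · rw [hxy2, card_pair hne]; rfl
          · intro t ht
            rw [mem_filter] at ht
            have h7 := ht.1
            rw [mem_insert, mem_insert, mem_singleton] at h7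
            rw [mem_insert, mem_singleton]
            rcases h7 with h7 | h7 | h7
            · exact Or.inl h7
            · exact Or.inr h7
            · exact absurd (h7 ▸ ht.2) hfJ
        · apply key {x, f}
          · rw [hfx2, card_pair hxf]; rfl
          · intro t ht
            rw [mem_filter] at ht
            have h7 := ht.1
            rw [mem_insert, mem_insert, mem_singleton] at h7
            rw [mem_insert, mem_singleton]
            rcases h7 with h7 | h7 | h7
            · exact Or.inl h7
            · exact absurd (h7 ▸ ht.2) hyJ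
            · exact Or.inr h7
      · apply key {y, f}
        · rw [hfy2, card_pair hyf]; rfl
        · intro t ht
          rw [mem_filter] at ht
          have h7 := ht.1
          rw [mem_insert, mem_insert, mem_singleton] at h7
          rw [mem_insert, mem_singleton]
          rcases h7 with h7 | h7 | h7
          · exact absurd (h7 ▸ ht.2) hxJ
          · exact Or.inl h7
          · exact Or.inr h7)
  rw [h2, hcard3]; rfl

/-- spanning circuit version -/
theorem circuit_spanning [Fintype F] {v : E → V} {N : ι → Finset W} {em : E → W}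
    (hg : Gam F v N em) {φ : V →ₗ[F] F} {C Z : Finset E} {JH : Finset W} {x0 : E} (hx0 : x0 ∈ C)
    (hφZ : ∀ z ∈ Z, φ (v z) = 0) (hφC : ∀ x ∈ C, φ (v x) ≠ 0)
    (hspanC : ∀ x ∈ C, ∀ y ∈ C, pp v φ x - pp v φ y ∈ sp F v Z)
    (hZJ : ∀ z ∈ Z, em z ∈ JH) (hcc : cc N JH = (Z.card : ℤ) - 1)
    (hZ3 : 3 ≤ Z.card) (hZr : Rf F v Z + 1 = Z.card)
    (hZi : ∀ z ∈ Z, Rf F v (Z.erase z) = (Z.erase z).card)
    (xE yE : E → E) (hxE : ∀ z ∈ Z, xE z ∈ C) (hyE : ∀ z ∈ Z, yE z ∈ C)
    (hxyE : ∀ z ∈ Z, pp v φ (xE z) ≠ pp v φ (yE z))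
    (hreal : ∀ z ∈ Z, pp v φ (xE z) - pp v φ (yE z) ∈ span F {v z}) :
    Z.card + 1 ≤ Fintype.card F := by
  classical
  have hr := Rf_rk (F := F) v
  have hother : ∀ a b : E, ∃ c ∈ Z, c ≠ a ∧ c ≠ b := by
    intro a b
    by_contra hcon
    push Not at hcon
    have : Z ⊆ {a, b} := by
      intro c hc
      rw [mem_insert, mem_singleton]
      by_cases hca : c = a
      · exact Or.inl hca
      · exact Or.inr (hcon c hc hca)
    have h4 := (card_le_card this).trans card_le_two
    omega
  have hCZ : ∀ x ∈ C, x ∉ Z := fun x hx hxZ => hφC x hx (hφZ x hxZ)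
  have hvz : ∀ z ∈ Z, v z ≠ 0 := by
    intro z hz hz0
    obtain ⟨c, hc, hcz, _⟩ := hother z z
    have h1 := indep_sub v (singleton_subset_iff.2 (mem_erase.2 ⟨hcz.symm, hz⟩)) (hZi c hc)
    unfold Rf at h1
    rw [sp_singleton, hz0, span_zero_singleton, finrank_bot, card_singleton] at h1
    norm_num at h1
  have hinj : Set.InjOn em (Z : Set E) := by
    intro a ha b hb hab
    obtain ⟨c, hc, hca, hcb⟩ := hother a b
    apply hg.em_inj (hZi c hc) _ _ hab
    · exact mem_coe.2 (mem_erase.2 ⟨hca.symm, mem_coe.1 ha⟩)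
    · exact mem_coe.2 (mem_erase.2 ⟨hcb.symm, mem_coe.1 hb⟩)
  have hZcard : (Z.image em).card = Z.card := card_image_of_injOn hinj
  obtain ⟨z00, hz00⟩ : Z.Nonempty := by rw [← card_pos]; omega
  have hinv : ∀ w : W, ∃ z : E, z ∈ Z ∧ (w ∈ Z.image em → em z = w) := by
    intro w
    by_cases hw : w ∈ Z.image em
    · obtain ⟨a, ha, haw⟩ := mem_image.1 hw
      exact ⟨a, ha, fun _ => haw⟩
    · exact ⟨z00, hz00, fun hh => absurd hh hw⟩
  choose inv hinv1 hinv2 using hinv
  have hinvem : ∀ z ∈ Z, inv (em z) = z := by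
    intro z hz
    apply hinj (mem_coe.2 (hinv1 _)) (mem_coe.2 hz)
    exact hinv2 (em z) (mem_image_of_mem em hz)
  -- the base hypotheses
  have hxz : ∀ x ∈ C, ∀ z ∈ Z, Rf F v {x, z} = 2 := by
    intro x hx z hz
    rw [rank_insert_out v φ (S := {z}) (by
      intro s hs; rw [mem_singleton] at hs; rw [hs]; exact hφZ z hz) (hφC x hx),
      Rf_single v (hvz z hz)]
    norm_num
  have hind : ∀ z ∈ Z, ∀ c ∈ C, Rf F v (insert c (Z.erase z)) = (insert c (Z.erase z)).card := by
    intro z hz c hc
    rw [rank_insert_out v φ (fun s hs => hφZ s (mem_of_mem_erase hs)) (hφC c hc), hZi z hz,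
      card_insert_of_notMem (fun hh => hCZ c hc (mem_of_mem_erase hh))]
    push_cast; ring
  have hbase : BaseHyp N JH (Z.image em) (C.image em) (fun w => em (xE (inv w)))
      (fun w => em (yE (inv w))) (em x0) := by
    refine ⟨?_, ?_, ?_, ?_, ?_, ?_, ?_, ?_, ?_⟩
    · intro w hw
      obtain ⟨z, hz, rfl⟩ := mem_image.1 hw
      exact hZJ z hz
    · rw [hZcard]; exact hZ3
    · rw [hZcard]; exact hcc
    · exact mem_image_of_mem em hx0
    · intro i hi
      exact mem_image_of_mem em (hxE _ (hinv1 i))
    · intro i hi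
      exact mem_image_of_mem em (hyE _ (hinv1 i))
    · intro j hj x hx J
      obtain ⟨z, hz, rfl⟩ := mem_image.1 hj
      obtain ⟨c, hc, rfl⟩ := mem_image.1 hx
      have h1 := (hg.fin _).1 (hind z hz c hc) J
      refine le_trans ?_ h1
      have h2 : ((Z.image em).erase (em z) ∩ J).card
          ≤ ((Z.erase z).filter (fun s => em s ∈ J)).card := by
        have h3 : (Z.image em).erase (em z) ∩ J
            ⊆ ((Z.erase z).filter (fun s => em s ∈ J)).image em := by
          intro w hw
          rw [mem_inter, mem_erase, mem_image] at hw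
          obtain ⟨⟨h4, s, hs, rfl⟩, h5⟩ := hw
          apply mem_image_of_mem
          rw [mem_filter, mem_erase]
          exact ⟨⟨fun hh => h4 (hh ▸ rfl), hs⟩, h5⟩
        exact (card_le_card h3).trans card_image_le
      rw [filter_insert]
      by_cases hcJ : em c ∈ J
      · rw [if_pos hcJ, if_pos hcJ, card_insert_of_notMem (by
          rw [mem_filter, mem_erase]
          exact fun hh => hCZ c hc hh.1.2)]
        push_cast
        omega
      · rw [if_neg hcJ, if_neg hcJ]
        omega
    · intro i hi J h1 h2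
      obtain ⟨z, hz, rfl⟩ := mem_image.1 hi
      simp only [hinvem z hz] at h1 h2
      have h3 := hg.rank_le_cc (S := {xE z, yE z}) (J := J) (by
        intro s hs
        rw [mem_insert, mem_singleton] at hs
        rcases hs with rfl | rfl <;> assumption)
      rw [rank_pair_pp v φ (hφC _ (hxE z hz)) (hφC _ (hyE z hz)) (hxyE z hz)] at h3
      exact h3
    · intro i hi
      obtain ⟨z, hz, rfl⟩ := mem_image.1 hi
      simp only [hinvem z hz]
      obtain ⟨J, h1, h2, h3, h4⟩ := hg.triple (x := xE z) (y := yE z) (f := z)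
        (rank_pair_pp v φ (hφC _ (hxE z hz)) (hφC _ (hyE z hz)) (hxyE z hz))
        (hxz _ (hxE z hz) z hz) (hxz _ (hyE z hz) z hz)
        (fun hh => hxyE z hz (by rw [hh]))
        (fun hh => hCZ _ (hxE z hz) (by rw [hh]; exact hz))
        (fun hh => hCZ _ (hyE z hz) (by rw [hh]; exact hz))
        (by
          intro h5
          have h6 : v (xE z) ∈ sp F v {yE z, z} := by
            rw [pp_smul v φ (hφC _ (hxE z hz))]
            apply smul_mem
            have e1 : pp v φ (xE z) = (pp v φ (xE z) - pp v φ (yE z)) + pp v φ (yE z) := by abel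
            rw [e1]
            apply add_mem
            · have h3 : span F {v z} ≤ sp F v {yE z, z} := by
                rw [span_singleton_le_iff_mem]
                exact mem_sp v (by simp)
              exact h3 (hreal z hz)
            · unfold pp
              exact smul_mem _ _ (mem_sp v (by simp))
          rw [mem_sp_iff, hxz _ (hyE z hz) z hz] at h6
          rw [h6] at h5
          omega)
      exact ⟨J, h3, h1, h2, h4⟩
  obtain ⟨y, hy, hB1, hB2⟩ := base_lemma hbase
  -- back to elements
  set yy : E → E := fun z => if y (em z) = em (xE z) then xE z else yE z with hyy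
  have hyyC : ∀ z ∈ Z, yy z ∈ C := by
    intro z hz
    simp only [hyy]
    split_ifs
    · exact hxE z hz
    · exact hyE z hz
  have hyyem : ∀ z ∈ Z, em (yy z) = y (em z) := by
    intro z hz
    have h1 := hy (em z) (mem_image_of_mem em hz)
    simp only [hinvem z hz] at h1
    simp only [hyy]
    split_ifs with h2
    · exact h2.symm
    · rcases h1 with h1 | h1
      · exact absurd h1 h2
      · exact h1.symm
  set I := {z // z ∈ Z} with hI
  have hcardI : Fintype.card I = Z.card := Fintype.card_coe Z
  have hzz : ∀ A : Finset I, zz (fun i : I => v i.1) (fun i : I => v (yy i.1)) A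
      = v ∘ (fun i : I => if i ∈ A then yy i.1 else i.1) := by
    intro A
    funext i
    unfold zz
    simp only [Function.comp]
    split_ifs <;> rfl
  -- correspondence of membership
  have hcorr : ∀ (A : Finset I) (i : I),
      em (if i ∈ A then yy i.1 else i.1)
        = (if em i.1 ∈ A.image (fun i : I => em i.1) then y (em i.1) else em i.1) := by
    intro A i
    by_cases hi : i ∈ A
    · rw [if_pos hi, if_pos (mem_image_of_mem (fun i : I => em i.1) hi)]
      exact hyyem i.1 i.2
    · rw [if_neg hi, if_neg]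
      intro hh
      obtain ⟨k, hk, hki⟩ := mem_image.1 hh
      have : k.1 = i.1 := hinj (mem_coe.2 k.2) (mem_coe.2 i.2) hki
      exact hi ((Subtype.ext this) ▸ hk)
  have hinjI : Function.Injective (fun i : I => em i.1) := by
    intro a b hab
    exact Subtype.ext (hinj (mem_coe.2 a.2) (mem_coe.2 b.2) hab)
  rw [← hcardI]
  have hPr : Module.finrank F (sp F v (insert x0 Z)) = Fintype.card I := by
    have h1 := rank_insert_out v φ hφZ (hφC x0 hx0)
    rw [hcardI]
    unfold Rf at h1 hZr
    omega
  apply alg_sub (sp F v (insert x0 Z)) hPr (fun i : I => v i.1) (fun i : I => v (yy i.1)) (v x0)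
  · intro i
    exact mem_sp v (mem_insert_of_mem i.2)
  · intro i
    rw [pp_smul v φ (hφC _ (hyyC i.1 i.2))]
    apply smul_mem
    have e1 : pp v φ (yy i.1) = (pp v φ (yy i.1) - pp v φ x0) + pp v φ x0 := by abel
    rw [e1]
    apply add_mem
    · exact sp_mono v (subset_insert _ _) (hspanC _ (hyyC i.1 i.2) _ hx0)
    · unfold pp
      exact smul_mem _ _ (mem_sp v (mem_insert_self _ _))
  · exact mem_sp v (mem_insert_self _ _)
  · intro hcon
    have h1 := (li_iff v Z).1 hcon
    omega
  · intro A hA
    rw [hzz, hg]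
    intro J
    refine le_trans ?_ (hB1 (A.image (fun i : I => em i.1)) (by
      intro w hw
      obtain ⟨i, _, rfl⟩ := mem_image.1 hw
      exact mem_image_of_mem em i.2) (hA.image _) J)
    have h1 : (univ.filter (fun i : I => (em ∘ fun i : I => if i ∈ A then yy i.1 else i.1) i ∈ J)).card
        ≤ ((Z.image em).filter (fun i => (if i ∈ A.image (fun i : I => em i.1) then y i else i) ∈ J)).card := by
      apply card_le_card_of_injOn (fun i : I => em i.1)
      · intro i hi
        have hi' := (mem_filter.1 (mem_coe.1 hi)).2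
        simp only [Function.comp] at hi'
        rw [hcorr] at hi'
        exact mem_coe.2 (mem_filter.2 ⟨mem_image_of_mem em i.2, hi'⟩)
      · exact hinjI.injOn
    exact_mod_cast h1
  · intro j A
    have hup : Function.update (zz (fun i : I => v i.1) (fun i : I => v (yy i.1)) A) j (v x0)
        = v ∘ (fun i : I => if i = j then x0 else (if i ∈ A then yy i.1 else i.1)) := by
      funext i
      simp only [Function.comp]
      by_cases hij : i = j
      · subst hij; simp
      · rw [Function.update_of_ne hij, if_neg hij, hzz]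
        rfl
    rw [hup, hg]
    intro J
    have h0 := hB2 (em j.1) (mem_image_of_mem em j.2) (A.image (fun i : I => em i.1)) J
    refine le_trans ?_ h0
    have h1 : ((univ.erase j).filter (fun i : I => em (if i ∈ A then yy i.1 else i.1) ∈ J)).card
        ≤ (((Z.image em).erase (em j.1)).filter
          (fun i => (if i ∈ A.image (fun i : I => em i.1) then y i else i) ∈ J)).card := by
      apply card_le_card_of_injOn (fun i : I => em i.1)
      · intro i hi
        have hi' := mem_filter.1 (mem_coe.1 hi)
        rw [hcorr] at hi'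
        refine mem_coe.2 (mem_filter.2 ⟨mem_erase.2 ⟨?_, mem_image_of_mem em i.2⟩, hi'.2⟩)
        intro hh
        exact (mem_erase.1 hi'.1).1 (hinjI hh)
      · exact hinjI.injOn
    by_cases hxJ : em x0 ∈ J
    · rw [if_pos hxJ]
      have h2 : univ.filter (fun i : I => (em ∘ fun i : I => if i = j then x0 else
            (if i ∈ A then yy i.1 else i.1)) i ∈ J)
          ⊆ insert j ((univ.erase j).filter (fun i : I => em (if i ∈ A then yy i.1 else i.1) ∈ J)) := by
        intro i hi
        have hi' := (mem_filter.1 hi).2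
        simp only [Function.comp] at hi'
        rw [mem_insert]
        by_cases hij : i = j
        · exact Or.inl hij
        · rw [if_neg hij] at hi'
          exact Or.inr (mem_filter.2 ⟨mem_erase.2 ⟨hij, mem_univ _⟩, hi'⟩)
      have h3 := (card_le_card h2).trans (card_insert_le _ _)
      omega
    · rw [if_neg hxJ]
      have h2 : univ.filter (fun i : I => (em ∘ fun i : I => if i = j then x0 else
            (if i ∈ A then yy i.1 else i.1)) i ∈ J)
          ⊆ (univ.erase j).filter (fun i : I => em (if i ∈ A then yy i.1 else i.1) ∈ J) := by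
        intro i hi
        have hi' := (mem_filter.1 hi).2
        simp only [Function.comp] at hi'
        by_cases hij : i = j
        · rw [if_pos hij] at hi'
          exact absurd hi' hxJ
        · rw [if_neg hij] at hi'
          exact mem_filter.2 ⟨mem_erase.2 ⟨hij, mem_univ _⟩, hi'⟩
      have h3 := card_le_card h2
      omega

/-- the circuit bound -/
theorem Cfg.circuit_bound [Fintype F] {v : E → V} {N : ι → Finset W} {em : E → W}
    {φ : V →ₗ[F] F} {H C : Finset E} {JH : Finset W} (h : Cfg v N em φ H C JH)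
    (hreal : ∀ z ∈ H, ∃ x ∈ C, ∃ y ∈ C, x ≠ y ∧ pp v φ x - pp v φ y ∈ span F {v z})
    {Z : Finset E} (hZH : Z ⊆ H) (hZ3 : 3 ≤ Z.card) (hZr : Rf F v Z + 1 = Z.card)
    (hZi : ∀ z ∈ Z, Rf F v (Z.erase z) = (Z.erase z).card) : Z.card + 1 ≤ Fintype.card F := by
  classical
  have hr := Rf_rk (F := F) v
  obtain ⟨z0, hz0⟩ : Z.Nonempty := by rw [← card_pos]; omega
  obtain ⟨S0, hZS, hSH, hS0, hS0r⟩ := exists_basis (F := F) v
    ((erase_subset z0 Z).trans hZH) (hZi z0 hz0)
  have hz0S : z0 ∉ S0 := by
    intro hh
    have h1 : Z ⊆ S0 := by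
      rw [← insert_erase hz0]; exact insert_subset hh hZS
    have h2 := indep_sub v h1 hS0
    omega
  set B0 := S0 \ Z with hB0
  have hB0S : B0 ⊆ S0 := sdiff_subset
  have hB0i := indep_sub v hB0S hS0
  have hS0eq : B0 ∪ Z.erase z0 = S0 := by
    ext a
    simp only [hB0, mem_union, mem_sdiff, mem_erase]
    constructor
    · rintro (h1 | h1)
      · exact h1.1
      · exact hZS (mem_erase.2 h1)
    · intro h1
      by_cases haZ : a ∈ Z
      · exact Or.inr ⟨fun hh => hz0S (hh ▸ h1), haZ⟩
      · exact Or.inl ⟨h1, haZ⟩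
  have hdisj : Disjoint B0 (Z.erase z0) := by
    rw [disjoint_left]
    intro a ha ha'
    rw [hB0, mem_sdiff] at ha
    exact ha.2 (mem_of_mem_erase ha')
  have hcardS : S0.card = B0.card + (Z.card - 1) := by
    rw [← hS0eq, card_union_of_disjoint hdisj, card_erase_of_mem hz0]
  have hspZ : ∀ z ∈ Z, sp F v (Z.erase z) = sp F v Z := by
    intro z hz
    apply sp_eq_of_Rf v (erase_subset _ _)
    rw [hZi z hz, card_erase_of_mem hz]
    omega
  have hspS : sp F v S0 = sp F v H := sp_eq_of_Rf v hSH hS0r
  have hspBZ : ∀ z ∈ Z, sp F v (B0 ∪ Z.erase z) = sp F v S0 := by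
    intro z hz
    rw [sp_union, hspZ z hz, ← hspZ z0 hz0, ← sp_union, hS0eq]
  have hspBZ' : sp F v (B0 ∪ Z) = sp F v S0 := by
    rw [sp_union, ← hspZ z0 hz0, ← sp_union, hS0eq]
  have hRc := fun T => Rf_contract (F := F) v B0 (sp F v B0) rfl T
  have hB0H : B0 ⊆ H := hB0S.trans hSH
  have hφB0 : ∀ x ∈ B0, φ (v x) = 0 := fun x hx => h.φH x (hB0H hx)
  -- real points
  have hch : ∀ z : E, ∃ x y : E, z ∈ H → (x ∈ C ∧ y ∈ C ∧ x ≠ y ∧
      pp v φ x - pp v φ y ∈ span F {v z}) := by
    intro z
    by_cases hz : z ∈ H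
    · obtain ⟨x, hx, y, hy, hne, hxy⟩ := hreal z hz
      exact ⟨x, y, fun _ => ⟨hx, hy, hne, hxy⟩⟩
    · exact ⟨z, z, fun hh => absurd hh hz⟩
  choose xE yE hxyE using hch
  obtain ⟨x0, hx0, -⟩ := hreal z0 (hZH hz0)
  have hZ1 : 1 ≤ Z.card := by omega
  have hrS : Rf F v S0 = (B0.card : ℤ) + ((Z.card : ℤ) - 1) := by
    rw [hS0, hcardS]; push_cast [Nat.cast_sub hZ1]; ring
  apply circuit_spanning (h.gam.contract hB0i) (φ := φc v φ B0 hφB0) (C := C) (Z := Z) (JH := JH)
    hx0 (fun z hz => h.φH z (hZH hz)) (fun x hx => h.φC x hx)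
    (by
      intro x hx y hy
      rw [pp_c, pp_c, ← map_sub, mkQ_mem_sp, hspBZ', hspS]
      exact h.spanC x hx y hy)
    (fun z hz => h.JHmem z (hZH hz))
    (by
      rw [cc_Nc, h.JHcc, filter_true_of_mem (fun s hs => h.JHmem s (hB0H hs)), ← hS0r, hrS]
      ring) hZ3
    (by
      rw [hRc]
      unfold rc
      have : Rf F v (B0 ∪ Z) = Rf F v S0 := by unfold Rf; rw [hspBZ']
      rw [this, hrS, hB0i]; ring)
    (by
      intro z hz
      rw [hRc]
      unfold rc
      have : Rf F v (B0 ∪ Z.erase z) = Rf F v S0 := by unfold Rf; rw [hspBZ z hz]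
      rw [this, hrS, hB0i, card_erase_of_mem hz]
      push_cast [Nat.cast_sub hZ1]; ring)
    xE yE (fun z hz => (hxyE z (hZH hz)).1) (fun z hz => (hxyE z (hZH hz)).2.1)
    (by
      intro z hz hcon
      obtain ⟨hx, hy, hne, hxy⟩ := hxyE z (hZH hz)
      rw [pp_c, pp_c, mkQ_eq_iff] at hcon
      rw [mem_span_singleton] at hxy
      obtain ⟨c, hc⟩ := hxy
      have hc0 : c ≠ 0 := by
        rintro rfl
        rw [zero_smul] at hc
        exact hne (h.inj _ hx _ hy (sub_eq_zero.1 hc.symm))
      rw [← hc] at hcon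
      have h1 : v z ∈ sp F v B0 := (smul_mem_iff _ hc0).1 hcon
      -- z is independent of B0
      obtain ⟨z', hz', hzz'⟩ : ∃ z' ∈ Z, z ≠ z' := by
        by_contra hcon2
        push Not at hcon2
        have h2 : Z ⊆ {z} := by
          intro a ha
          rw [mem_singleton]; exact (hcon2 a ha).symm
        have h3 := card_le_card h2
        rw [card_singleton] at h3
        omega
      have h2 : Rf F v (B0 ∪ Z.erase z') = (B0 ∪ Z.erase z').card := by
        have h3 : Rf F v (B0 ∪ Z.erase z') = Rf F v S0 := by unfold Rf; rw [hspBZ z' hz']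
        have h4 : Disjoint B0 (Z.erase z') := by
          rw [disjoint_left]
          intro a ha ha'
          rw [hB0, mem_sdiff] at ha
          exact ha.2 (mem_of_mem_erase ha')
        rw [h3, hrS, card_union_of_disjoint h4, card_erase_of_mem hz']
        push_cast [Nat.cast_sub hZ1]; ring
      have hzB : z ∉ B0 := by
        rw [hB0, mem_sdiff]; exact fun hh => hh.2 hz
      have h3 := indep_sub v (B := insert z B0) (by
        apply insert_subset
        · exact mem_union_right _ (mem_erase.2 ⟨hzz', hz⟩)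
        · exact subset_union_left) h2
      rw [mem_sp_iff, h3, hB0i, card_insert_of_notMem hzB] at h1
      push_cast at h1
      omega)
    (by
      intro z hz
      obtain ⟨hx, hy, hne, hxy⟩ := hxyE z (hZH hz)
      rw [pp_c, pp_c, ← map_sub]
      rw [mem_span_singleton] at hxy ⊢
      obtain ⟨c, hc⟩ := hxy
      refine ⟨c, ?_⟩
      rw [← hc, map_smul]
      rfl)

end Pool.Agent.Helper35.BryLin
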