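import Mathlib
import Pool.Agent.Helper35.BryCirc

set_option autoImplicit false
set_option linter.unusedSectionVars false

namespace Pool.Agent.Helper35.BryLin

open Finset Module Submodule Pool.Agent.Helper35.BryHall Pool.Agent.Helper35.BryRank
open Pool.Agent.Helper35.BryAlg

variable {F : Type} [Field F] {V : Type} [AddCommGroup V] [Module F V] [FiniteDimensional F V]
variable {E : Type} [DecidableEq E]
variable {W ι : Type} [DecidableEq W] [Fintype ι] [DecidableEq ι]

theorem rc_empty {r : Finset E → ℤ} (hr : Rk r) : rc r ∅ = r := by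
  funext Y
  unfold rc
  rw [empty_union, hr.empty, sub_zero]

theorem Cfg.final [Fintype F] {v : E → V} {N : ι → Finset W} {em : E → W}
    {φ : V →ₗ[F] F} {H C : Finset E} {JH : Finset W} (h : Cfg v N em φ H C JH)
    (hconn : Conn (Rf F v) H) (hsimp : Simp (Rf F v) H) (hH3 : 3 ≤ H.card)
    (hreal : ∀ z ∈ H, ∃ x ∈ C, ∃ y ∈ C, x ≠ y ∧ pp v φ x - pp v φ y ∈ span F {v z})
    (hq : (Fintype.card F) ^ 2 ≤ C.card) : False := by
  classical
  have hr := Rf_rk (F := F) v
  have hF1 : 1 < Fintype.card F := Fintype.one_lt_card
  have hCne : C.Nonempty := by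
    rw [← card_pos]
    have : 0 < (Fintype.card F) ^ 2 := by positivity
    omega
  obtain ⟨e, he⟩ := hconn.1
  -- circuits
  have hcirc : ∀ C0 ⊆ H.erase e, Circ (Rf F v) e C0 →
      2 ≤ C0.card ∧ C0.card + 2 ≤ Fintype.card F := by
    intro C0 hC0 hC
    have heC := hC.1
    have hind : Rf F v C0 = C0.card := by
      obtain ⟨T, -, hT, hTi, hTr⟩ := exists_basis (F := F) v (empty_subset C0) (by
        rw [hr.empty]; simp)
      by_cases hTC : T = C0
      · rw [← hTC]; exact hTi
      · exfalso
        obtain ⟨c, hc, hcT⟩ : ∃ c ∈ C0, c ∉ T := by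
          by_contra hcon
          push Not at hcon
          exact hTC (Subset.antisymm hT hcon)
        have h1 : T ⊆ C0.erase c := fun a ha => mem_erase.2 ⟨fun hh => hcT (hh ▸ ha), hT ha⟩
        have h2 := hr.mono h1
        have h3 := hC.2.2 c hc
        have h4 := hr.mono (insert_subset_insert e (erase_subset c C0))
        have h5 := hC.2.1
        omega
    have h2 : 2 ≤ C0.card := by
      by_contra hcon
      have h3 : C0.card = 0 ∨ C0.card = 1 := by omega
      rcases h3 with h3 | h3
      · rw [card_eq_zero] at h3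
        subst h3
        have h4 := hC.2.1
        have h5 := hsimp.1 e he
        have h6 : insert e (∅ : Finset E) = {e} := rfl
        rw [h6, hr.empty] at h4
        omega
      · obtain ⟨c, rfl⟩ := card_eq_one.1 h3
        have hcH := hC0 (mem_singleton_self c)
        rw [mem_erase] at hcH
        have h4 := hC.2.1
        have h5 := hsimp.1 c hcH.2
        have h6 := hsimp.2 e he c hcH.2 hcH.1.symm
        have h7 : insert e ({c} : Finset E) = {e, c} := rfl
        rw [h7] at h4
        omega
    refine ⟨h2, ?_⟩
    have hcard : (insert e C0).card = C0.card + 1 := card_insert_of_notMem heC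
    have hb := h.circuit_bound hreal (Z := insert e C0)
      (insert_subset he (hC0.trans (erase_subset _ _))) (by omega) (by
        rw [hC.2.1, hind, hcard]; push_cast; ring) (by
        intro z hz
        rcases mem_insert.1 hz with rfl | hz
        · rw [erase_insert heC]; exact hind
        · have hze : z ≠ e := fun hh => heC (hh ▸ hz)
          have h3 : (insert e C0).erase z = insert e (C0.erase z) :=
            erase_insert_of_ne hze.symm
          have h4 : e ∉ C0.erase z := fun hh => heC (mem_of_mem_erase hh)
          rw [h3, hC.2.2 z hz, card_insert_of_notMem h4,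
            indep_sub v (erase_subset z C0) hind]
          push_cast; ring)
    omega
  -- existence of a circuit
  have hno := hconn.nocoloop hr he (by omega)
  obtain ⟨C1, hC1, hC1c⟩ := exists_circ hr (notMem_erase e H) (by
    rw [insert_erase he]; exact hno.symm)
  have h4q := hcirc C1 hC1 hC1c
  have hstar := star_all hr (h.kap_Kap hCne) H.card ∅ H (fun _ => 1)
    ((Fintype.card F : ℤ) - 2) e rfl (empty_subset _) (Subset.refl _) (by rw [empty_union])
    (by rw [rc_empty hr]; exact hconn) (by rw [rc_empty hr]; exact hsimp) he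
    (fun _ _ => le_refl _) (by push_cast; omega) (by
      intro C0 hC0 hC
      rw [rc_empty hr] at hC
      have := (hcirc C0 hC0 hC).2
      simp only [Nat.cast_one, sum_const, nsmul_eq_mul, mul_one]
      omega)
  have hk : (C.card : ℤ) - 1 ≤ kap v φ C ∅ := by
    unfold kap
    have h1 := kk_ge_of_inj v φ (Q := C) (R := C) (sp F v ∅) (Subset.refl _) (by
      intro x hx y hy hxy
      apply h.inj x hx y hy
      have : sp F v ∅ = ⊥ := by unfold sp; simp
      rw [this, mem_bot] at hxy
      exact sub_eq_zero.1 hxy)
    omega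
  simp only [Nat.cast_one, sub_self, zero_mul, sum_const_zero, add_zero] at hstar
  have hq' : ((Fintype.card F : ℤ)) ^ 2 ≤ C.card := by exact_mod_cast hq
  have hF1' : (1 : ℤ) < Fintype.card F := by exact_mod_cast hF1
  nlinarith

/-- configurations without the Hall certificate -/
structure Cfg0 (v : E → V) (N : ι → Finset W) (em : E → W) (φ : V →ₗ[F] F) (H C : Finset E)
    : Prop where
  gam : Gam F v N em
  φH : ∀ x ∈ H, φ (v x) = 0
  φC : ∀ x ∈ C, φ (v x) ≠ 0
  inj : ∀ x ∈ C, ∀ y ∈ C, pp v φ x = pp v φ y → x = y
  spanC : ∀ x ∈ C, ∀ y ∈ C, pp v φ x - pp v φ y ∈ sp F v H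
  conn : Conn (Rf F v) H

theorem no_config [Fintype F] : ∀ (n : ℕ) (V : Type) [AddCommGroup V] [Module F V]
    [FiniteDimensional F V] (ι : Type) [Fintype ι] [DecidableEq ι] (v : E → V)
    (N : ι → Finset W) (em : E → W) (φ : V →ₗ[F] F) (H C : Finset E), H.card = n →
    Cfg0 v N em φ H C → (Fintype.card F) ^ 2 ≤ C.card → False := by
  classical
  intro n
  induction n using Nat.strong_induction_on with
  | _ n IH =>
  intro V _ _ _ ι _ _ v N em φ H C hn h hq
  have hr := Rf_rk (F := F) v
  have hF1 : 1 < Fintype.card F := Fintype.one_lt_card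
  have hCne : C.Nonempty := by
    rw [← card_pos]
    have : 0 < (Fintype.card F) ^ 2 := by positivity
    omega
  obtain ⟨x0, hx0⟩ := hCne
  by_cases hH1 : H.card ≤ 1
  · -- the line case
    have hfr : finrank F (sp F v H) ≤ 1 := by
      have h1 := Rf_le_card (F := F) v H
      unfold Rf at h1
      omega
    have : Finite (sp F v H) := Module.finite_of_finite F
    let _ : Fintype (sp F v H) := Fintype.ofFinite _
    have hcard : Fintype.card (sp F v H) ≤ Fintype.card F := by
      rw [Module.card_eq_pow_finrank (K := F) (V := sp F v H)]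
      calc Fintype.card F ^ finrank F (sp F v H) ≤ Fintype.card F ^ 1 :=
            Nat.pow_le_pow_right (by omega) hfr
        _ = Fintype.card F := pow_one _
    have h1 : C.card ≤ Fintype.card (sp F v H) := by
      rw [← card_univ]
      apply card_le_card_of_injOn (fun x => if hx : x ∈ C then
        (⟨pp v φ x - pp v φ x0, h.spanC x hx x0 hx0⟩ : sp F v H) else 0)
      · intro w _; exact mem_coe.2 (mem_univ _)
      · intro x hx y hy hxy
        have hx' := mem_coe.1 hx
        have hy' := mem_coe.1 hy
        simp only at hxy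
        rw [dif_pos hx', dif_pos hy'] at hxy
        have h2 := congrArg Subtype.val hxy
        simp only [sub_left_inj] at h2
        exact h.inj x hx' y hy' h2
    nlinarith
  push Not at hH1
  have hH2 : 2 ≤ H.card := hH1
  have hnoco : ∀ x ∈ H, Rf F v (H.erase x) = Rf F v H := fun x hx => h.conn.nocoloop hr hx hH2
  have hsing : ∀ x ∈ H, Rf F v {x} = 1 := by
    intro x hx
    have h1 := h.conn.2 {x} (singleton_subset_iff.2 hx) (singleton_nonempty x) (by
      rw [← erase_eq, ← card_pos, card_erase_of_mem hx]; omega)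
    rw [← erase_eq, hnoco x hx] at h1
    have h2 := hr.single_le x
    omega
  -- deletion step
  have hdel : ∀ x ∈ H, Conn (Rf F v) (H.erase x) → False := by
    intro x hx hc
    apply IH (H.erase x).card (by rw [← hn]; exact card_erase_lt_of_mem hx) V ι v N em φ
      (H.erase x) C rfl _ hq
    refine ⟨h.gam, fun y hy => h.φH y (mem_of_mem_erase hy), h.φC, h.inj, ?_, hc⟩
    intro a ha b hb
    rw [sp_eq_of_Rf v (erase_subset x H) (hnoco x hx)]
    exact h.spanC a ha b hb
  by_cases hsimp : Simp (Rf F v) H
  · have hH3 : 3 ≤ H.card := by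
      by_contra hcon
      have h2 : H.card = 2 := by omega
      obtain ⟨a, b, hab, rfl⟩ := card_eq_two.1 h2
      have h3 := h.conn.2 {a} (by simp) (singleton_nonempty a) ⟨b, by
        rw [mem_sdiff, mem_singleton]; exact ⟨by simp, hab.symm⟩⟩
      have h4 : ({a, b} : Finset E) \ {a} = {b} := by
        ext c; simp only [mem_sdiff, mem_insert, mem_singleton]
        constructor
        · rintro ⟨h5 | h5, h6⟩
          · exact absurd h5 h6
          · exact h5
        · intro h5; exact ⟨Or.inr h5, fun h6 => hab (h6.symm.trans h5)⟩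
      rw [h4, hsimp.2 a (by simp) b (by simp) hab, hsing a (by simp), hsing b (by simp)] at h3
      omega
    have hreal : ∀ z ∈ H, ∃ x ∈ C, ∃ y ∈ C, x ≠ y ∧ pp v φ x - pp v φ y ∈ span F {v z} := by
      intro z hz
      by_contra hcon
      push Not at hcon
      rcases h.conn.tutte hr hz hH2 with hc | hc
      · exact hdel z hz hc
      · have hzi : Rf F v {z} = ({z} : Finset E).card := by rw [hsing z hz]; simp
        have hφz : ∀ x ∈ ({z} : Finset E), φ (v x) = 0 := by
          intro x hx; rw [mem_singleton] at hx; rw [hx]; exact h.φH z hz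
        have hRfun : Rf F ((sp F v {z}).mkQ ∘ v) = rc (Rf F v) {z} := by
          funext T
          exact Rf_contract v {z} (sp F v {z}) rfl T
        apply IH (H.erase z).card (by rw [← hn]; exact card_erase_lt_of_mem hz)
          (V ⧸ sp F v {z}) (ι ⊕ {a // a ∈ ({z} : Finset E)}) ((sp F v {z}).mkQ ∘ v)
          (Nc N em {z}) em (φc v φ {z} hφz) (H.erase z) C rfl _ hq
        refine ⟨h.gam.contract hzi, fun y hy => h.φH y (mem_of_mem_erase hy), h.φC, ?_, ?_, ?_⟩
        · intro x hx y hy hxy
          by_contra hne
          rw [pp_c, pp_c, mkQ_eq_iff, sp_singleton] at hxy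
          exact hcon x hx y hy hne hxy
        · intro x hx y hy
          rw [pp_c, pp_c, ← map_sub, mkQ_mem_sp, ← insert_eq, insert_erase hz]
          exact h.spanC x hx y hy
        · rw [hRfun]; exact hc
    obtain ⟨JH, hJ1, hJ2⟩ := h.gam.exists_JH h.conn hH2
    have hcfg : Cfg v N em φ H C JH := ⟨h.gam, h.φH, h.φC, h.inj, h.spanC, hJ1, hJ2⟩
    exact hcfg.final h.conn hsimp hH3 hreal hq
  · -- parallel elements
    have : ∃ f ∈ H, ∃ g ∈ H, f ≠ g ∧ Rf F v {f, g} ≠ 2 := by
      by_contra hcon
      push Not at hcon
      exact hsimp ⟨hsing, hcon⟩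
    obtain ⟨f, hf, g, hg, hfg, hne⟩ := this
    have h1 := hr.ins f {g}
    have h2 := hr.mono (subset_insert f ({g} : Finset E))
    have h3 := hsing g hg
    have h4 : Rf F v {f, g} = 1 := by
      have h5 : insert f ({g} : Finset E) = {f, g} := rfl
      rw [h5] at h1 h2
      omega
    exact hdel f hf (h.conn.del_par hr hf hg hfg h3 h4)

end Pool.Agent.Helper35.BryLin
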