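import Mathlib
import Pool.Agent.Helper35.BryMain

set_option autoImplicit false
set_option linter.unusedSectionVars false

namespace Pool.Agent.Helper35.BryLin

open Finset Module Submodule Pool.Agent.Helper35.BryHall Pool.Agent.Helper35.BryRank

variable {F : Type} [Field F]
variable {E : Type} [DecidableEq E]
variable {W : Type} [DecidableEq W]

theorem exists_functional [Fintype F] : ∀ (n : ℕ) (V : Type) [AddCommGroup V] [Module F V]
    [FiniteDimensional F V] (ι : Type) [Fintype ι] [DecidableEq ι] (v : E → V)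
    (N : ι → Finset W) (em : E → W) (X : Finset E), Gam F v N em → Simp (Rf F v) X →
    X.Nonempty → Rf F v X = n → ∃ φ : V →ₗ[F] F, ∃ D ⊆ X, D.Nonempty ∧
      D.card < (Fintype.card F) ^ 2 ∧ (∀ x ∈ D, φ (v x) ≠ 0) ∧ ∀ x ∈ X, x ∉ D → φ (v x) = 0 := by
  classical
  intro n
  induction n using Nat.strong_induction_on with
  | _ n IH =>
  intro V _ _ _ ι _ _ v N em X hg hs hX hn
  have hr := Rf_rk (F := F) v
  have hF1 : 1 < Fintype.card F := Fintype.one_lt_card
  by_contra hcon
  push Not at hcon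
  -- reformulate: every functional that is nonzero somewhere has many nonzeros
  have hmany : ∀ φ : V →ₗ[F] F, (X.filter (fun x => φ (v x) ≠ 0)).Nonempty →
      (Fintype.card F) ^ 2 ≤ (X.filter (fun x => φ (v x) ≠ 0)).card := by
    intro φ hne
    by_contra hlt
    push Not at hlt
    obtain ⟨x, hx, hxD, hφx⟩ := hcon φ (X.filter (fun x => φ (v x) ≠ 0)) (filter_subset _ _) hne hlt
      (fun x hx => (mem_filter.1 hx).2)
    exact hxD (mem_filter.2 ⟨hx, hφx⟩)
  have hstepA : ∀ F0 ⊆ X, 0 < Rf F v F0 → Rf F v F0 < n → ∃ x ∈ X, ∃ y ∈ X, x ≠ y ∧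
      Rf F v (insert x F0) = Rf F v F0 + 1 ∧ Rf F v (insert y F0) = Rf F v F0 + 1 ∧
      Rf F v (insert x (insert y F0)) = Rf F v F0 + 1 := by
    intro F0 hF0 hpos hlt
    by_contra hno
    push Not at hno
    obtain ⟨B0, -, hBF, hB0, hB0r⟩ := exists_basis (F := F) v (empty_subset F0) (by
      rw [hr.empty]; simp)
    have hsp : sp F v B0 = sp F v F0 := sp_eq_of_Rf v hBF hB0r
    have hRc := fun T => Rf_contract (F := F) v B0 (sp F v B0) rfl T
    have hRun : ∀ T, Rf F v (B0 ∪ T) = Rf F v (F0 ∪ T) := by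
      intro T; unfold Rf; rw [sp_union, sp_union, hsp]
    set X' := X.filter (fun x => Rf F v (insert x F0) ≠ Rf F v F0) with hX'
    have hX'ne : X'.Nonempty := by
      by_contra hemp
      rw [not_nonempty_iff_eq_empty] at hemp
      have h1 : Rf F v (F0 ∪ X) = Rf F v F0 := by
        apply hr.cl_union
        intro x hx
        by_contra hx'
        have : x ∈ X' := mem_filter.2 ⟨hx, hx'⟩
        rw [hemp] at this
        exact notMem_empty _ this
      rw [union_eq_right.2 hF0] at h1
      omega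
    have hsimp' : Simp (Rf F ((sp F v B0).mkQ ∘ v)) X' := by
      constructor
      · intro x hx
        rw [hX', mem_filter] at hx
        have h1 := hr.not_cl hx.2
        rw [hRc]
        unfold rc
        rw [hRun, union_comm, ← insert_eq, hB0r]
        omega
      · intro x hx y hy hxy
        rw [hX', mem_filter] at hx hy
        have h1 := hr.not_cl hx.2
        have h2 := hr.not_cl hy.2
        have h3 := hno x hx.1 y hy.1 hxy h1 h2
        have h4 := hr.ins x (insert y F0)
        have h5 := hr.mono (subset_insert x (insert y F0))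
        rw [hRc]
        unfold rc
        have e : F0 ∪ {x, y} = insert x (insert y F0) := by
          ext a; simp only [mem_union, mem_insert, mem_singleton]; tauto
        rw [hRun, e, hB0r]
        omega
    have hR' : Rf F ((sp F v B0).mkQ ∘ v) X' < n := by
      have hX'X : X' ⊆ X := filter_subset _ _
      have h1 := (Rf_rk (F := F) ((sp F v B0).mkQ ∘ v)).mono hX'X
      rw [hRc X] at h1
      unfold rc at h1
      rw [hRun, union_eq_right.2 hF0] at h1
      omega
    have hR'0 := (Rf_rk (F := F) ((sp F v B0).mkQ ∘ v)).nonneg X'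
    obtain ⟨φ', D, hDX, hDne, hDc, hD1, hD2⟩ := IH (Rf F ((sp F v B0).mkQ ∘ v) X').toNat
      (by omega) (V ⧸ sp F v B0) (ι ⊕ {a // a ∈ B0}) ((sp F v B0).mkQ ∘ v) (Nc N em B0) em X'
      (hg.contract hB0) hsimp' hX'ne (by omega)
    obtain ⟨x, hx, hxD, hφx⟩ := hcon (φ' ∘ₗ (sp F v B0).mkQ) D
      (hDX.trans (filter_subset _ _)) hDne hDc (fun x hx => hD1 x hx)
    apply hφx
    by_cases hxX' : x ∈ X'
    · exact hD2 x hxX' hxD
    · have h1 : Rf F v (insert x F0) = Rf F v F0 := by
        by_contra h2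
        exact hxX' (mem_filter.2 ⟨hx, h2⟩)
      rw [← mem_sp_iff, ← hsp] at h1
      rw [LinearMap.comp_apply, mkQ_apply, (Submodule.Quotient.mk_eq_zero _).2 h1, map_zero]
  obtain ⟨x0, hx0⟩ := hX
  have hv0 : ∀ x ∈ X, v x ≠ 0 := by
    intro x hx hz
    have h1 := hs.1 x hx
    unfold Rf at h1
    rw [sp_singleton, hz, span_zero_singleton, finrank_bot] at h1
    norm_num at h1
  -- rank at least two
  have hn2 : 2 ≤ n := by
    by_contra hlt
    have hX1 : X = {x0} := by
      ext a
      rw [mem_singleton]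
      constructor
      · intro ha
        by_contra hne
        have h1 := hs.2 a ha x0 hx0 hne
        have h2 := hr.mono (show ({a, x0} : Finset E) ⊆ X by
          intro b hb; rw [mem_insert, mem_singleton] at hb
          rcases hb with rfl | rfl <;> assumption)
        omega
      · rintro rfl; exact hx0
    obtain ⟨φ, hφ, -⟩ := Submodule.exists_le_ker_of_notMem (p := (⊥ : Submodule F V)) (v := v x0)
      (by rw [mem_bot]; exact hv0 x0 hx0)
    have h1 := hmany φ ⟨x0, mem_filter.2 ⟨hx0, hφ⟩⟩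
    have h2 := card_filter_le X (fun x => φ (v x) ≠ 0)
    rw [hX1, card_singleton] at h2
    rw [← hX1] at h2
    nlinarith
  -- maximal connected subset of smaller rank
  obtain ⟨H, hH, hmax⟩ := Finset.exists_max_image
    (X.powerset.filter (fun H => Conn (Rf F v) H ∧ Rf F v H < n)) (fun H => Rf F v H)
    ⟨{x0}, by
      rw [mem_filter, mem_powerset]
      refine ⟨singleton_subset_iff.2 hx0, ⟨singleton_nonempty _, ?_⟩, ?_⟩
      · intro Y hY hYn hYc
        exfalso
        obtain ⟨a, ha⟩ := hYn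
        obtain ⟨b, hb⟩ := hYc
        rw [mem_sdiff, mem_singleton] at hb
        have := mem_singleton.1 (hY ha)
        exact hb.2 (by rw [hb.1, ← this]; exact ha)
      · rw [hs.1 x0 hx0]; exact_mod_cast hn2⟩
  rw [mem_filter, mem_powerset] at hH
  obtain ⟨hHX, hHc, hHn⟩ := hH
  have hHpos : 0 < Rf F v H := by
    obtain ⟨a, ha⟩ := hHc.1
    have h1 := hr.mono (singleton_subset_iff.2 ha)
    rw [hs.1 a (hHX ha)] at h1
    omega
  obtain ⟨x, hx, y, hy, hxy, e1, e2, e3⟩ := hstepA H hHX hHpos hHn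
  have hHn' : Rf F v H + 1 = n := by
    by_contra hne
    have h1 : Conn (Rf F v) (insert x (insert y H)) :=
      hHc.extend hr e1 e2 (hs.2 x hx y hy hxy) e3
    have h2 := hmax (insert x (insert y H)) (by
      rw [mem_filter, mem_powerset]
      exact ⟨insert_subset hx (insert_subset hy hHX), h1, by omega⟩)
    omega
  -- the functional
  have hxH : v x ∉ sp F v H := by
    rw [mem_sp_iff]; omega
  obtain ⟨φ, hφx, hφH⟩ := Submodule.exists_le_ker_of_notMem hxH
  have hφH' : ∀ w ∈ sp F v H, φ w = 0 := fun w hw => LinearMap.mem_ker.1 (hφH hw)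
  have hspX : sp F v X = span F {v x} ⊔ sp F v H := by
    rw [← sp_insert]
    symm
    apply sp_eq_of_Rf v (insert_subset hx hHX)
    omega
  have hdec : ∀ w ∈ sp F v X, ∃ a : F, ∃ u ∈ sp F v H, w = a • v x + u := by
    intro w hw
    rw [hspX, Submodule.mem_sup] at hw
    obtain ⟨y, hy, z, hz, rfl⟩ := hw
    rw [mem_span_singleton] at hy
    obtain ⟨a, rfl⟩ := hy
    exact ⟨a, z, hz, rfl⟩
  have hker : ∀ w ∈ sp F v X, φ w = 0 → w ∈ sp F v H := by
    intro w hw hφw
    obtain ⟨a, u, hu, rfl⟩ := hdec w hw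
    rw [map_add, map_smul, hφH' u hu, add_zero, smul_eq_mul] at hφw
    rcases mul_eq_zero.1 hφw with h1 | h1
    · rw [h1, zero_smul, zero_add]; exact hu
    · exact absurd h1 hφx
  set C := X.filter (fun x => φ (v x) ≠ 0) with hC
  have hCX : C ⊆ X := filter_subset _ _
  have hφC : ∀ a ∈ C, φ (v a) ≠ 0 := fun a ha => (mem_filter.1 ha).2
  apply no_config H.card V ι v N em φ H C rfl _ (hmany φ ⟨x, mem_filter.2 ⟨hx, hφx⟩⟩)
  refine ⟨hg, fun a ha => hφH' _ (mem_sp v ha), hφC, ?_, ?_, hHc⟩
  · intro a ha b hb hab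
    by_contra hne
    have h1 := hs.2 a (hCX ha) b (hCX hb) hne
    have h2 : v a ∈ sp F v {b} := by
      rw [sp_singleton, mem_span_singleton, pp_smul v φ (hφC a ha), hab]
      unfold pp
      rw [smul_smul]
      exact ⟨_, rfl⟩
    rw [mem_sp_iff, hs.1 b (hCX hb)] at h2
    have h3 : insert a ({b} : Finset E) = {a, b} := rfl
    rw [h3] at h2
    omega
  · intro a ha b hb
    apply hker
    · apply sub_mem
      · unfold pp; exact smul_mem _ _ (mem_sp v (hCX ha))
      · unfold pp; exact smul_mem _ _ (mem_sp v (hCX hb))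
    · rw [map_sub, φ_pp v φ (hφC a ha), φ_pp v φ (hφC b hb), sub_self]

theorem exists_map2 [Fintype F] {V : Type} [AddCommGroup V] [Module F V]
    [FiniteDimensional F V] {ι : Type} [Fintype ι] [DecidableEq ι] (v : E → V)
    (N : ι → Finset W) (em : E → W) (hg : Gam F v N em) :
    ∀ (n : ℕ) (X : Finset E), X.card = n → Simp (Rf F v) X →
      ∃ L : V →ₗ[F] (Fin 2 → F), ∀ x ∈ X, L (v x) ≠ 0 := by
  classical
  intro n
  induction n using Nat.strong_induction_on with
  | _ n IH =>
  intro X hn hs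
  rcases X.eq_empty_or_nonempty with rfl | hX
  · exact ⟨0, fun x hx => absurd hx (notMem_empty _)⟩
  have hr := Rf_rk (F := F) v
  obtain ⟨φ, D, hDX, hDne, hDc, hD1, hD2⟩ := exists_functional (F := F) (Rf F v X).toNat V ι v N em X
    hg hs hX (by have := hr.nonneg X; omega)
  have hlt : (X \ D).card < n := by
    rw [← hn]
    apply card_lt_card
    refine ⟨sdiff_subset, fun hh => ?_⟩
    obtain ⟨d, hd⟩ := hDne
    exact (mem_sdiff.1 (hh (hDX hd))).2 hd
  obtain ⟨L, hL⟩ := IH _ hlt (X \ D) rfl (hs.mono sdiff_subset)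
  -- choose w
  set bad : Finset (Fin 2 → F) := D.image (fun x => -((φ (v x))⁻¹ • L (v x))) with hbad
  have hbc : bad.card < Fintype.card (Fin 2 → F) := by
    refine lt_of_le_of_lt card_image_le ?_
    rw [Fintype.card_fun, Fintype.card_fin]
    exact hDc
  obtain ⟨w, hw⟩ : ∃ w, w ∉ bad := by
    by_contra hcon
    push Not at hcon
    have : bad = univ := by
      ext w; simp [hcon w]
    rw [this, card_univ] at hbc
    omega
  refine ⟨L + φ.smulRight w, ?_⟩
  intro x hx h0
  rw [LinearMap.add_apply, LinearMap.smulRight_apply] at h0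
  by_cases hxD : x ∈ D
  · apply hw
    rw [hbad, mem_image]
    refine ⟨x, hxD, ?_⟩
    have h1 : φ (v x) • w = -(L (v x)) := by
      rw [eq_neg_iff_add_eq_zero, add_comm]; exact h0
    rw [← smul_neg, ← h1, smul_smul, inv_mul_cancel₀ (hD1 x hxD), one_smul]
  · rw [hD2 x hx hxD, zero_smul, add_zero] at h0
    exact hL x (mem_sdiff.2 ⟨hx, hxD⟩) h0

end Pool.Agent.Helper35.BryLin
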