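import Mathlib
import Pool.Agent.Helper35.BryFinal

set_option autoImplicit false
set_option linter.unusedSectionVars false

namespace Pool.Agent.Helper35.BryLin

open Finset Module Submodule Pool.Agent.Helper35.BryHall Pool.Agent.Helper35.BryRank

/-- a strict presentation from a contraction of a transversal presentation -/
theorem exists_gam {F : Type} [Field F] {N K m r : ℕ}
    (v : Fin N → (Fin r → F)) (R : Fin N ⊕ Fin K → Fin m → Prop)
    (hR : ∀ S : Finset (Fin N),
          LinearIndependent F (fun i : S => v i.1) ↔
            ∃ f : Fin N ⊕ Fin K → Fin m,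
              Set.InjOn f ((Sum.inl '' (S : Set (Fin N))) ∪ Set.range Sum.inr) ∧
              ∀ x ∈ ((Sum.inl '' (S : Set (Fin N))) ∪ Set.range Sum.inr), R x (f x)) :
    ∃ Nb : (Fin N ⊕ Fin K) → Finset (Fin N ⊕ Fin m), Gam F v Nb Sum.inl := by
  classical
  set Nb : (Fin N ⊕ Fin K) → Finset (Fin N ⊕ Fin m) := fun x =>
    univ.filter (fun w => (∃ i, w = Sum.inl i ∧ x = Sum.inl i) ∨ (∃ a, w = Sum.inr a ∧ R x a)) with hNb
  have hl : ∀ x i, (Sum.inl i : Fin N ⊕ Fin m) ∈ Nb x ↔ x = Sum.inl i := by
    intro x i
    rw [hNb]
    simp only [mem_filter, mem_univ, true_and]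
    constructor
    · rintro (⟨j, h1, h2⟩ | ⟨a, h1, h2⟩)
      · rw [Sum.inl.injEq] at h1
        rw [h1]; exact h2
      · cases h1
    · intro h
      exact Or.inl ⟨i, rfl, h⟩
  have hrr : ∀ x a, (Sum.inr a : Fin N ⊕ Fin m) ∈ Nb x ↔ R x a := by
    intro x a
    rw [hNb]
    simp only [mem_filter, mem_univ, true_and]
    constructor
    · rintro (⟨j, h1, h2⟩ | ⟨b, h1, h2⟩)
      · cases h1
      · rw [Sum.inr.injEq] at h1
        rw [h1]; exact h2
    · intro h
      exact Or.inr ⟨a, rfl, h⟩
  obtain ⟨f₀, -⟩ : ∃ f₀ : Fin N ⊕ Fin K → Fin m, True := by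
    obtain ⟨f, _⟩ := (hR ∅).1 (by
      have : IsEmpty {x // x ∈ (∅ : Finset (Fin N))} := ⟨fun x => absurd x.2 (notMem_empty _)⟩
      exact linearIndependent_empty_type)
    exact ⟨f, trivial⟩
  have hS : ∀ S : Finset (Fin N), LinearIndependent F (fun i : S => v i.1) ↔
      ∀ J : Finset (Fin N ⊕ Fin m),
        ((S.filter (fun s => (Sum.inl s : Fin N ⊕ Fin m) ∈ J)).card : ℤ) ≤ cc Nb J := by
    intro S
    rw [hR S]
    constructor
    · rintro ⟨f, hf1, hf2⟩ J
      set μ : Fin N ⊕ Fin K → Fin N ⊕ Fin m := fun x =>
        Sum.elim (fun i => if i ∈ S then Sum.inr (f (Sum.inl i)) else Sum.inl i)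
          (fun k => Sum.inr (f (Sum.inr k))) x with hμ
      have hmemr : ∀ k, (Sum.inr k : Fin N ⊕ Fin K) ∈
          ((Sum.inl '' (S : Set (Fin N))) ∪ Set.range Sum.inr) := fun k => Or.inr ⟨k, rfl⟩
      have hmeml : ∀ i ∈ S, (Sum.inl i : Fin N ⊕ Fin K) ∈
          ((Sum.inl '' (S : Set (Fin N))) ∪ Set.range Sum.inr) :=
        fun i hi => Or.inl ⟨i, mem_coe.2 hi, rfl⟩
      have hinj : Function.Injective μ := by
        intro x y hxy
        rcases x with i | k
        · rcases y with j | l
          · simp only [hμ, Sum.elim_inl] at hxy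
            by_cases hi : i ∈ S
            · by_cases hj : j ∈ S
              · rw [if_pos hi, if_pos hj, Sum.inr.injEq] at hxy
                exact hf1 (hmeml i hi) (hmeml j hj) hxy
              · rw [if_pos hi, if_neg hj] at hxy
                cases hxy
            · by_cases hj : j ∈ S
              · rw [if_neg hi, if_pos hj] at hxy
                cases hxy
              · rw [if_neg hi, if_neg hj, Sum.inl.injEq] at hxy
                rw [hxy]
          · simp only [hμ, Sum.elim_inl, Sum.elim_inr] at hxy
            by_cases hi : i ∈ S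
            · rw [if_pos hi, Sum.inr.injEq] at hxy
              exact hf1 (hmeml i hi) (hmemr l) hxy
            · rw [if_neg hi] at hxy
              cases hxy
        · rcases y with j | l
          · simp only [hμ, Sum.elim_inl, Sum.elim_inr] at hxy
            by_cases hj : j ∈ S
            · rw [if_pos hj, Sum.inr.injEq] at hxy
              exact hf1 (hmemr k) (hmeml j hj) hxy
            · rw [if_neg hj] at hxy
              cases hxy
          · simp only [hμ, Sum.elim_inr, Sum.inr.injEq] at hxy
            exact hf1 (hmemr k) (hmemr l) hxy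
      have hmem : ∀ x, μ x ∈ Nb x := by
        intro x
        rcases x with i | k
        · simp only [hμ, Sum.elim_inl]
          by_cases hi : i ∈ S
          · rw [if_pos hi, hrr]
            exact hf2 _ (hmeml i hi)
          · rw [if_neg hi, hl]
        · simp only [hμ, Sum.elim_inr]
          rw [hrr]
          exact hf2 _ (hmemr k)
      have hav : ∀ x, ∀ s ∈ S, μ x ≠ Sum.inl s := by
        intro x s hs hxs
        rcases x with i | k
        · simp only [hμ, Sum.elim_inl] at hxs
          by_cases hi : i ∈ S
          · rw [if_pos hi] at hxs; cases hxs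
          · rw [if_neg hi, Sum.inl.injEq] at hxs
            exact hi (hxs ▸ hs)
        · simp only [hμ, Sum.elim_inr] at hxs
          cases hxs
      unfold cc
      have h1 : ((KJ Nb J).image μ ∪ (S.filter (fun s => (Sum.inl s : Fin N ⊕ Fin m) ∈ J)).image
          Sum.inl).card ≤ J.card := by
        apply card_le_card
        apply union_subset
        · intro w hw
          obtain ⟨x, hx, rfl⟩ := mem_image.1 hw
          exact (mem_KJ Nb).1 hx (hmem x)
        · intro w hw
          obtain ⟨s, hs, rfl⟩ := mem_image.1 hw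
          exact (mem_filter.1 hs).2
      rw [card_union_of_disjoint (by
        rw [disjoint_left]
        intro w hw hw'
        obtain ⟨x, hx, rfl⟩ := mem_image.1 hw
        obtain ⟨s, hs, hsx⟩ := mem_image.1 hw'
        exact hav x s (mem_filter.1 hs).1 hsx.symm), card_image_of_injective _ hinj,
        card_image_of_injective _ Sum.inl_injective] at h1
      omega
    · intro hJ
      obtain ⟨μ, hμ1, hμ2, hμ3⟩ := exists_matching Nb (S.image Sum.inl) (by
        intro J
        refine le_trans ?_ (hJ J)
        have h1 : S.image Sum.inl ∩ J ⊆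
            (S.filter (fun s => (Sum.inl s : Fin N ⊕ Fin m) ∈ J)).image Sum.inl := by
          intro w hw
          rw [mem_inter, mem_image] at hw
          obtain ⟨⟨s, hs, rfl⟩, hw⟩ := hw
          exact mem_image_of_mem _ (mem_filter.2 ⟨hs, hw⟩)
        have h2 := (card_le_card h1).trans card_image_le
        exact_mod_cast h2)
      have hval : ∀ x ∈ ((Sum.inl '' (S : Set (Fin N))) ∪ Set.range Sum.inr :
          Set (Fin N ⊕ Fin K)), ∃ a, μ x = Sum.inr a := by
        intro x hx
        have h1 := hμ2 x
        rcases hμx : μ x with i | a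
        · exfalso
          rw [hμx, hl] at h1
          subst h1
          rcases hx with ⟨s, hs, hsi⟩ | ⟨k, hk⟩
          · rw [Sum.inl.injEq] at hsi
            subst hsi
            exact hμ3 (Sum.inl s) (by rw [hμx]; exact mem_image_of_mem _ (mem_coe.1 hs))
          · cases hk
        · exact ⟨a, rfl⟩
      refine ⟨fun x => Sum.elim (fun _ => f₀ x) id (μ x), ?_, ?_⟩
      · intro x hx y hy hxy
        obtain ⟨a, ha⟩ := hval x hx
        obtain ⟨b, hb⟩ := hval y hy
        simp only [ha, hb, Sum.elim_inr, id] at hxy
        apply hμ1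
        rw [ha, hb, hxy]
      · intro x hx
        obtain ⟨a, ha⟩ := hval x hx
        simp only [ha, Sum.elim_inr, id]
        have h1 := hμ2 x
        rw [ha, hrr] at h1
        exact h1
  refine ⟨Nb, ?_⟩
  intro T _ u
  by_cases hu : Function.Injective u
  · have h1 : LinearIndependent F (v ∘ u) ↔
        LinearIndependent F (fun i : (univ.image u : Finset (Fin N)) => v i.1) := by
      rw [← linearIndepOn_range_iff hu v]
      have e : Set.range u = (↑(univ.image u : Finset (Fin N)) : Set (Fin N)) := by
        rw [coe_image, coe_univ, Set.image_univ]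
      rw [e]
      rfl
    rw [h1, hS]
    unfold IndF
    apply forall_congr'
    intro J
    have e : (univ.image u).filter (fun s => (Sum.inl s : Fin N ⊕ Fin m) ∈ J)
        = (univ.filter (fun t => (Sum.inl ∘ u) t ∈ J)).image u := by
      ext a
      simp only [mem_filter, mem_image, mem_univ, true_and, Function.comp]
      constructor
      · rintro ⟨⟨t, rfl⟩, h2⟩; exact ⟨t, h2, rfl⟩
      · rintro ⟨t, h2, rfl⟩; exact ⟨⟨t, rfl⟩, h2⟩
    rw [e, card_image_of_injective _ hu]
  · constructor
    · intro h
      exact absurd (Function.Injective.of_comp h.injective) hu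
    · intro h
      exfalso
      apply hu
      intro t t' htt
      by_contra hne
      have h1 := h {Sum.inl (u t)}
      have h2 : cc Nb {Sum.inl (u t)} ≤ 1 := by unfold cc; rw [card_singleton]; omega
      have h3 : 1 < (univ.filter (fun s => (Sum.inl ∘ u) s ∈
          ({Sum.inl (u t)} : Finset (Fin N ⊕ Fin m)))).card := by
        apply one_lt_card.2
        refine ⟨t, ?_, t', ?_, hne⟩
        · rw [mem_filter]; exact ⟨mem_univ _, mem_singleton_self _⟩
        · rw [mem_filter]
          refine ⟨mem_univ _, ?_⟩
          simp only [Function.comp, htt]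
          exact mem_singleton_self _
      omega

theorem brylawski (F : Type) [Field F] [Fintype F] (N r : ℕ) (v : Fin N → (Fin r → F))
    (hv : ∀ i, v i ≠ 0)
    (h : ∃ (K m : ℕ) (R : Fin N ⊕ Fin K → Fin m → Prop),
        ∀ S : Finset (Fin N),
          LinearIndependent F (fun i : S => v i.1) ↔
            ∃ f : Fin N ⊕ Fin K → Fin m,
              Set.InjOn f ((Sum.inl '' (S : Set (Fin N))) ∪ Set.range Sum.inr) ∧
              ∀ x ∈ ((Sum.inl '' (S : Set (Fin N))) ∪ Set.range Sum.inr), R x (f x)) :
    ∃ L : (Fin r → F) →ₗ[F] (Fin 2 → F), ∀ i, L (v i) ≠ 0 := by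
  classical
  obtain ⟨K, m, R, hR⟩ := h
  obtain ⟨Nb, hg⟩ := exists_gam v R hR
  have hr := Rf_rk (F := F) v
  -- maximal simple set
  obtain ⟨X, hX, hmax⟩ := Finset.exists_max_image
    ((univ : Finset (Finset (Fin N))).filter (fun X => Simp (Rf F v) X)) Finset.card
    ⟨∅, by
      rw [mem_filter]
      exact ⟨mem_univ _, fun x hx => absurd hx (notMem_empty _),
        fun x hx => absurd hx (notMem_empty _)⟩⟩
  rw [mem_filter] at hX
  obtain ⟨L, hL⟩ := exists_map2 v Nb Sum.inl hg _ X rfl hX.2
  refine ⟨L, ?_⟩
  intro i
  by_cases hi : i ∈ X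
  · exact hL i hi
  · have : ∃ j ∈ X, Rf F v {i, j} ≠ 2 := by
      by_contra hcon
      push Not at hcon
      have h1 := hmax (insert i X) (by
        rw [mem_filter]
        refine ⟨mem_univ _, ?_, ?_⟩
        · intro x hx
          rcases mem_insert.1 hx with rfl | hx
          · exact Rf_single v (hv x)
          · exact hX.2.1 x hx
        · intro x hx y hy hxy
          rcases mem_insert.1 hx with hx' | hx'
          · rcases mem_insert.1 hy with hy' | hy'
            · exact absurd (hx'.trans hy'.symm) hxy
            · rw [hx']; exact hcon y hy'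
          · rcases mem_insert.1 hy with hy' | hy'
            · rw [hy', pair_comm]; exact hcon x hx'
            · exact hX.2.2 x hx' y hy' hxy)
      rw [card_insert_of_notMem hi] at h1
      omega
    obtain ⟨j, hj, hij⟩ := this
    have h1 := Rf_single (F := F) v (hv j)
    have h2 := hr.ins i {j}
    have h3 := hr.mono (subset_insert i ({j} : Finset (Fin N)))
    have h5 : insert i ({j} : Finset (Fin N)) = {i, j} := rfl
    have h4 : v i ∈ sp F v {j} := by
      rw [mem_sp_iff]
      rw [h5] at h2 h3 ⊢
      omega
    rw [sp_singleton, mem_span_singleton] at h4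
    obtain ⟨c, hc⟩ := h4
    have hc0 : c ≠ 0 := by
      rintro rfl
      rw [zero_smul] at hc
      exact hv i hc.symm
    rw [← hc, map_smul]
    exact smul_ne_zero hc0 (hL j hj)

end Pool.Agent.Helper35.BryLin
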