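import Mathlib

set_option autoImplicit false

namespace Pool.Agent.Helper35.Conf

/-- A symmetric configuration `v₃` with point set `V` (so `v = |V|`): a family of `v` blocks, each
a set of three points, such that every point lies in exactly three blocks and two distinct points
lie together in at most one block. -/
structure SymConfig (V : Type) [Fintype V] [DecidableEq V] where
  blocks : Finset (Finset V)
  card_blocks : blocks.card = Fintype.card V
  card_of_mem : ∀ B ∈ blocks, B.card = 3
  degree : ∀ x : V, (blocks.filter (fun B => x ∈ B)).card = 3
  linear : ∀ x y : V, x ≠ y → (blocks.filter (fun B => x ∈ B ∧ y ∈ B)).card ≤ 1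

/-- The associated graph `K`: two distinct points are adjacent when they lie in a common block. -/
def SymConfig.graph {V : Type} [Fintype V] [DecidableEq V] (X : SymConfig V) : SimpleGraph V where
  Adj x y := x ≠ y ∧ ∃ B ∈ X.blocks, x ∈ B ∧ y ∈ B
  symm := ⟨fun _ _ h => ⟨h.1.symm, by obtain ⟨B, hB, h1, h2⟩ := h.2; exact ⟨B, hB, h2, h1⟩⟩⟩
  loopless := ⟨fun _ h => h.1 rfl⟩

/-- An orientation chooses for each block one of its cyclic orders, recorded as the cyclic
permutation of the points of the block that sends each point to the next one. -/
structure SymConfig.Orientation {V : Type} [Fintype V] [DecidableEq V] (X : SymConfig V) where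
  cyc : Finset V → Equiv.Perm V
  isCycle : ∀ B ∈ X.blocks, (cyc B).IsCycle
  support_eq : ∀ B ∈ X.blocks, (cyc B).support = B

/-- A rotation system of a graph: at every vertex a cyclic permutation of its neighbours.
Rotation systems of a connected graph encode its cellular embeddings in closed oriented surfaces. -/
structure RotationSystem {V : Type} [Fintype V] [DecidableEq V] (G : SimpleGraph V) where
  rot : V → Equiv.Perm V
  isCycle : ∀ u, (rot u).IsCycle
  mem_support : ∀ u w, w ∈ (rot u).support ↔ G.Adj u w

/-- Face tracing: the dart `(x, y)` is followed on its face by `(y, z)`, where `z` is the neighbour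
after `x` in the rotation at `y`. -/
def RotationSystem.next {V : Type} [Fintype V] [DecidableEq V] {G : SimpleGraph V}
    (ρ : RotationSystem G) (d : V × V) : V × V := (d.2, ρ.rot d.2 d.1)

/-- The set of darts traced from the dart `d`. -/
def RotationSystem.faceOf {V : Type} [Fintype V] [DecidableEq V] {G : SimpleGraph V}
    (ρ : RotationSystem G) (d : V × V) : Set (V × V) := {e | ∃ n : ℕ, ρ.next^[n] d = e}

/-- The faces of the embedding, as sets of darts. -/
def RotationSystem.IsFace {V : Type} [Fintype V] [DecidableEq V] {G : SimpleGraph V}
    (ρ : RotationSystem G) (F : Set (V × V)) : Prop := ∃ x y, G.Adj x y ∧ F = ρ.faceOf (x, y)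

/-- The darts of the triangle of the block `B`, directed as prescribed by the orientation. -/
def SymConfig.Orientation.blockFace {V : Type} [Fintype V] [DecidableEq V] {X : SymConfig V}
    (ω : X.Orientation) (B : Finset V) : Set (V × V) := {e | ∃ x ∈ B, e = (x, ω.cyc B x)}

/-- `X` is upper embeddable in the orientation `ω`: some cellular embedding of `K` in a closed
oriented surface has every block triangle as a face whose boundary is directed as in `ω`, and has
exactly one face that is not a block face. -/
def UpperEmbeddable {V : Type} [Fintype V] [DecidableEq V] (X : SymConfig V)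
    (ω : X.Orientation) : Prop :=
  ∃ ρ : RotationSystem X.graph,
    (∀ B ∈ X.blocks, ρ.IsFace (ω.blockFace B)) ∧
    ∃! F : Set (V × V), ρ.IsFace F ∧ ∀ B ∈ X.blocks, F ≠ ω.blockFace B

end Pool.Agent.Helper35.Conf
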