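import Mathlib

set_option autoImplicit false

namespace Pool.Agent.Helper35.Core27

/-- packed table of the map `flag ↦ arrival state` -/
def T2 : ℕ := 258916652319118875111672125557535761206216273063263885800717408380012540726099224344275202931263083743833190152071466567443349046671101899949941848173346756107747554084796

def look (T s : ℕ) : ℕ := (T >>> (7 * s)) % 128

/-- the arrival map -/
def A (T : ℕ) (e : ℕ → Bool) (s : ℕ) : ℕ :=
  look T (3 * (s / 3) + (s % 3 + (if e (s / 3) then 1 else 2)) % 3)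

/-- follow the walk while it stays in `[lo, hi)` -/
def walk (T : ℕ) (e : ℕ → Bool) (lo hi : ℕ) : ℕ → ℕ → Option ℕ
  | 0, _ => none
  | n + 1, s => if lo ≤ s ∧ s < hi then walk T e lo hi n (A T e s) else some s

/-- does the walk return to `s0` staying in `[lo, hi)` -/
def ret (T : ℕ) (e : ℕ → Bool) (lo hi s0 : ℕ) : ℕ → ℕ → Bool
  | 0, _ => false
  | n + 1, s => if lo ≤ s ∧ s < hi then (if A T e s = s0 then true else ret T e lo hi s0 n (A T e s))
      else false

theorem walk_spec (T : ℕ) (e : ℕ → Bool) (lo hi : ℕ) :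
    ∀ (n s t : ℕ), walk T e lo hi n s = some t →
      ∃ k, (A T e)^[k] s = t ∧ (∀ j < k, lo ≤ (A T e)^[j] s ∧ (A T e)^[j] s < hi) := by
  intro n
  induction n with
  | zero => intro s t h; simp [walk] at h
  | succ n ih =>
    intro s t h
    unfold walk at h
    split_ifs at h with hc
    · obtain ⟨k, hk, hj⟩ := ih _ _ h
      refine ⟨k + 1, by simpa using hk, ?_⟩
      intro j hj'
      cases j with
      | zero => simpa using hc
      | succ j => simpa using hj j (by omega)
    · refine ⟨0, by simpa using h, by intro j hj; omega⟩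

theorem ret_spec (T : ℕ) (e : ℕ → Bool) (lo hi s0 : ℕ) :
    ∀ (n s : ℕ), ret T e lo hi s0 n s = true →
      ∃ k, (A T e)^[k + 1] s = s0 ∧ (∀ j ≤ k, lo ≤ (A T e)^[j] s ∧ (A T e)^[j] s < hi) := by
  intro n
  induction n with
  | zero => intro s h; simp [ret] at h
  | succ n ih =>
    intro s h
    unfold ret at h
    split_ifs at h with hc h2
    · refine ⟨0, by simpa using h2, ?_⟩
      intro j hj
      have : j = 0 := by omega
      subst this; simpa using hc
    · obtain ⟨k, hk, hj⟩ := ih _ h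
      refine ⟨k + 1, by simpa using hk, ?_⟩
      intro j hj'
      cases j with
      | zero => simpa using hc
      | succ j => simpa using hj j (by omega)

theorem ret_closed (T : ℕ) (e : ℕ → Bool) (lo hi s0 n : ℕ) (h : ret T e lo hi s0 n s0 = true) :
    ∀ m, lo ≤ (A T e)^[m] s0 ∧ (A T e)^[m] s0 < hi := by
  obtain ⟨k, hk, hj⟩ := ret_spec T e lo hi s0 n s0 h
  intro m
  induction m using Nat.strong_induction_on with
  | _ m ih =>
    by_cases hm : m ≤ k
    · exact hj m hm
    · have : m = (m - (k + 1)) + (k + 1) := by omega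
      rw [this, Function.iterate_add_apply, hk]
      exact ih _ (by omega)

theorem A_congr (T : ℕ) (e e' : ℕ → Bool) (s : ℕ) (h : e (s / 3) = e' (s / 3)) :
    A T e s = A T e' s := by
  unfold A; rw [h]

theorem walk_congr (T : ℕ) (e e' : ℕ → Bool) (lo hi : ℕ)
    (h : ∀ s, lo ≤ s → s < hi → e (s / 3) = e' (s / 3)) :
    ∀ n s, walk T e lo hi n s = walk T e' lo hi n s := by
  intro n
  induction n with
  | zero => intro s; rfl
  | succ n ih =>
    intro s
    unfold walk
    split_ifs with hc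
    · rw [A_congr T e e' s (h s hc.1 hc.2), ih]
    · rfl

theorem ret_congr (T : ℕ) (e e' : ℕ → Bool) (lo hi s0 : ℕ)
    (h : ∀ s, lo ≤ s → s < hi → e (s / 3) = e' (s / 3)) :
    ∀ n s, ret T e lo hi s0 n s = ret T e' lo hi s0 n s := by
  intro n
  induction n with
  | zero => intro s; rfl
  | succ n ih =>
    intro s
    unfold ret
    split_ifs with hc h1 h2 h2
    · rfl
    · rw [A_congr T e e' s (h s hc.1 hc.2)] at h1; exact absurd h1 h2
    · rw [A_congr T e e' s (h s hc.1 hc.2)] at h1; exact absurd h2 h1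
    · rw [A_congr T e e' s (h s hc.1 hc.2), ih]
    · rfl

def sel (lo : ℕ) (b0 b1 b2 b3 b4 b5 b6 : Bool) (u : ℕ) : Bool :=
  if u = lo then b0 else if u = lo + 1 then b1 else if u = lo + 2 then b2 else
  if u = lo + 3 then b3 else if u = lo + 4 then b4 else if u = lo + 5 then b5 else b6

def existsRet (T : ℕ) (e : ℕ → Bool) (lo hi : ℕ) : ℕ → Bool
  | 0 => false
  | n + 1 => ret T e lo hi (lo + n) 22 (lo + n) || existsRet T e lo hi n

theorem existsRet_spec (T : ℕ) (e : ℕ → Bool) (lo hi : ℕ) :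
    ∀ n, existsRet T e lo hi n = true → ∃ s, lo ≤ s ∧ s < lo + n ∧ ret T e lo hi s 22 s = true := by
  intro n
  induction n with
  | zero => intro h; simp [existsRet] at h
  | succ n ih =>
    intro h
    unfold existsRet at h
    rcases Bool.or_eq_true _ _ ▸ h with h | h
    · exact ⟨lo + n, by omega, by omega, h⟩
    · obtain ⟨s, h1, h2, h3⟩ := ih h
      exact ⟨s, h1, by omega, h3⟩

theorem existsRet_congr (T : ℕ) (e e' : ℕ → Bool) (lo hi : ℕ)
    (h : ∀ s, lo ≤ s → s < hi → e (s / 3) = e' (s / 3)) :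
    ∀ n, existsRet T e lo hi n = existsRet T e' lo hi n := by
  intro n
  induction n with
  | zero => rfl
  | succ n ih =>
    unfold existsRet
    rw [ret_congr T e e' lo hi _ h, ih]

/-- the check for one component -/
def compOK (T : ℕ) (e : ℕ → Bool) (lo E1 X1 E2 X2 : ℕ) : Bool :=
  (decide (walk T e lo (lo + 21) 22 E1 = some X1) && decide (walk T e lo (lo + 21) 22 E2 = some X2))
    || existsRet T e lo (lo + 21) 21

theorem comp0 : ∀ b0 b1 b2 b3 b4 b5 b6 : Bool,
    compOK T2 (sel 6 b0 b1 b2 b3 b4 b5 b6) 18 27 5 18 13 = true := by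
  decide +kernel

theorem comp1 : ∀ b0 b1 b2 b3 b4 b5 b6 : Bool,
    compOK T2 (sel 13 b0 b1 b2 b3 b4 b5 b6) 39 48 11 39 6 = true := by
  decide +kernel

theorem comp2 : ∀ b0 b1 b2 b3 b4 b5 b6 : Bool,
    compOK T2 (sel 20 b0 b1 b2 b3 b4 b5 b6) 60 69 17 60 12 = true := by
  decide +kernel

/-- effective exit when all three components are in the separated state -/
def exitMap (t : ℕ) : ℕ :=
  if t = 27 then 5 else if t = 18 then 13 else if t = 48 then 11 else if t = 39 then 6 else
  if t = 69 then 17 else if t = 60 then 12 else t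

/-- effective base map -/
def B (T : ℕ) (e : ℕ → Bool) (s : ℕ) : ℕ := exitMap (A T e s)

def orb (T : ℕ) (e : ℕ → Bool) : ℕ → ℕ → List ℕ
  | 0, _ => []
  | n + 1, s => s :: orb T e n (B T e s)

theorem mem_orb (T : ℕ) (e : ℕ → Bool) : ∀ (n s t : ℕ), t ∈ orb T e n s → ∃ j < n, t = (B T e)^[j] s := by
  intro n
  induction n with
  | zero => intro s t h; simp [orb] at h
  | succ n ih =>
    intro s t h
    unfold orb at h
    rcases List.mem_cons.1 h with h | h
    · exact ⟨0, by omega, by simpa using h⟩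
    · obtain ⟨j, hj, hj'⟩ := ih _ _ h
      exact ⟨j + 1, by omega, by simpa using hj'⟩

def baseOK (T : ℕ) (e : ℕ → Bool) (s0 t0 m : ℕ) : Bool :=
  decide (s0 < 18) && decide (t0 < 18) && decide (s0 ∈ (orb T e m s0)) &&
  (orb T e m s0).all (fun y => decide (B T e y ∈ orb T e m s0)) && decide (t0 ∉ orb T e m s0)

def sel6 (b0 b1 b2 b3 b4 b5 : Bool) (u : ℕ) : Bool :=
  if u = 0 then b0 else if u = 1 then b1 else if u = 2 then b2 else
  if u = 3 then b3 else if u = 4 then b4 else b5

theorem base_check : ∀ b0 b1 b2 b3 b4 b5 : Bool,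
    ∃ s0 < 18, ∃ t0 < 18, ∃ m < 18, baseOK T2 (sel6 b0 b1 b2 b3 b4 b5) s0 t0 m = true := by
  decide +kernel

theorem base_step : ∀ s < 18, ∀ b : Bool,
    A T2 (fun _ => b) s < 18 ∨ A T2 (fun _ => b) s ∈ [27, 18, 48, 39, 69, 60] := by
  decide +kernel

theorem comp_transfer (e : ℕ → Bool) (l E1 X1 E2 X2 : ℕ)
    (hc : ∀ b0 b1 b2 b3 b4 b5 b6 : Bool,
      compOK T2 (sel l b0 b1 b2 b3 b4 b5 b6) (3 * l) E1 X1 E2 X2 = true) :
    (walk T2 e (3 * l) (3 * l + 21) 22 E1 = some X1 ∧ walk T2 e (3 * l) (3 * l + 21) 22 E2 = some X2) ∨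
      ∃ s, 3 * l ≤ s ∧ s < 3 * l + 21 ∧ ∀ m, 3 * l ≤ (A T2 e)^[m] s ∧ (A T2 e)^[m] s < 3 * l + 21 := by
  have h := hc (e l) (e (l + 1)) (e (l + 2)) (e (l + 3)) (e (l + 4)) (e (l + 5)) (e (l + 6))
  set e' := sel l (e l) (e (l + 1)) (e (l + 2)) (e (l + 3)) (e (l + 4)) (e (l + 5)) (e (l + 6)) with he'
  have hag : ∀ s, 3 * l ≤ s → s < 3 * l + 21 → e (s / 3) = e' (s / 3) := by
    intro s h1 h2
    have : s / 3 = l ∨ s / 3 = l + 1 ∨ s / 3 = l + 2 ∨ s / 3 = l + 3 ∨ s / 3 = l + 4 ∨ s / 3 = l + 5 ∨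
        s / 3 = l + 6 := by omega
    rw [he']
    unfold sel
    rcases this with h | h | h | h | h | h | h <;> rw [h] <;> simp
  unfold compOK at h
  rcases Bool.or_eq_true _ _ ▸ h with h | h
  · left
    have h' := Bool.and_eq_true _ _ ▸ h
    refine ⟨?_, ?_⟩
    · rw [walk_congr T2 e e' _ _ hag]; exact of_decide_eq_true h'.1
    · rw [walk_congr T2 e e' _ _ hag]; exact of_decide_eq_true h'.2
  · right
    rw [← existsRet_congr T2 e e' _ _ hag] at h
    obtain ⟨s, h1, h2, h3⟩ := existsRet_spec T2 e _ _ 21 h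
    exact ⟨s, h1, h2, ret_closed T2 e _ _ _ _ h3⟩

theorem not_transitive (e : ℕ → Bool) : ∃ s0 < 81, ∃ t0 < 81, ∀ n, (A T2 e)^[n] s0 ≠ t0 := by
  rcases comp_transfer e 6 27 5 18 13 comp0 with h0 | ⟨s, h1, h2, h3⟩
  swap
  · exact ⟨s, by omega, 0, by omega, fun n hn => by have := h3 n; omega⟩
  rcases comp_transfer e 13 48 11 39 6 comp1 with h1 | ⟨s, h1, h2, h3⟩
  swap
  · exact ⟨s, by omega, 0, by omega, fun n hn => by have := h3 n; omega⟩
  rcases comp_transfer e 20 69 17 60 12 comp2 with h2 | ⟨s, h1, h2, h3⟩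
  swap
  · exact ⟨s, by omega, 0, by omega, fun n hn => by have := h3 n; omega⟩
  -- first return for entries
  have key : ∀ E X lo : ℕ, 18 ≤ lo → walk T2 e lo (lo + 21) 22 E = some X →
      ∃ k, (A T2 e)^[k] E = X ∧ ∀ j < k, 18 ≤ (A T2 e)^[j] E := by
    intro E X lo hlo h
    obtain ⟨k, hk, hj⟩ := walk_spec T2 e lo (lo + 21) 22 E X h
    exact ⟨k, hk, fun j hj' => by have := hj j hj'; omega⟩
  have ent : ∀ t ∈ [27, 18, 48, 39, 69, 60],
      ∃ k, (A T2 e)^[k] t = exitMap t ∧ ∀ j < k, 18 ≤ (A T2 e)^[j] t := by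
    intro t ht
    simp only [List.mem_cons, List.not_mem_nil, or_false] at ht
    rcases ht with h | h | h | h | h | h <;> subst h
    · exact key _ _ 18 (by omega) h0.1
    · exact key _ _ 18 (by omega) h0.2
    · exact key _ _ 39 (by omega) h1.1
    · exact key _ _ 39 (by omega) h1.2
    · exact key _ _ 60 (by omega) h2.1
    · exact key _ _ 60 (by omega) h2.2
  have small : ∀ t < 18, exitMap t = t := by decide +kernel
  have step : ∀ y < 18, ∃ k, (A T2 e)^[k + 1] y = B T2 e y ∧ ∀ j, 0 < j → j < k + 1 → 18 ≤ (A T2 e)^[j] y := by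
    intro y hy
    have hb := base_step y hy (e (y / 3))
    have hA : A T2 (fun _ => e (y / 3)) y = A T2 e y := A_congr T2 _ _ y rfl
    rw [hA] at hb
    rcases hb with hb | hb
    · refine ⟨0, ?_, ?_⟩
      · simp only [zero_add, Function.iterate_one]
        unfold B; rw [small _ hb]
      · intro j h1 h2; omega
    · obtain ⟨k, hk, hj⟩ := ent _ hb
      refine ⟨k, ?_, ?_⟩
      · rw [Function.iterate_succ_apply]; exact hk
      · intro j h1 h2
        obtain ⟨j', rfl⟩ : ∃ j', j = j' + 1 := ⟨j - 1, by omega⟩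
        rw [Function.iterate_succ_apply]
        exact hj j' (by omega)
  obtain ⟨s0, hs0, t0, ht0, m, hm, hOK⟩ := base_check (e 0) (e 1) (e 2) (e 3) (e 4) (e 5)
  set e' := sel6 (e 0) (e 1) (e 2) (e 3) (e 4) (e 5) with he'
  have hag : ∀ s, s < 18 → e (s / 3) = e' (s / 3) := by
    intro s h2
    have : s / 3 = 0 ∨ s / 3 = 1 ∨ s / 3 = 2 ∨ s / 3 = 3 ∨ s / 3 = 4 ∨ s / 3 = 5 := by omega
    rw [he']
    unfold sel6
    rcases this with h | h | h | h | h | h <;> rw [h] <;> simp
  have hB : ∀ y < 18, B T2 e' y = B T2 e y := by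
    intro y hy
    unfold B
    rw [A_congr T2 e e' y (hag y hy)]
  unfold baseOK at hOK
  simp only [Bool.and_eq_true, decide_eq_true_eq, List.all_eq_true] at hOK
  obtain ⟨⟨⟨⟨-, -⟩, hs0m⟩, hcl⟩, htn⟩ := hOK
  set O := orb T2 e' m s0 with hO
  have hO18 : ∀ y ∈ O, y < 18 := by
    intro y hy
    obtain ⟨j, hj, hjy⟩ := mem_orb T2 e' m s0 y hy
    -- all iterates of B from s0 are in O and below 18
    have hlt : ∀ z < 18, B T2 e' z < 18 := by
      intro z hz
      rw [hB z hz]
      have hb := base_step z hz (e (z / 3))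
      have hA : A T2 (fun _ => e (z / 3)) z = A T2 e z := A_congr T2 _ _ z rfl
      rw [hA] at hb
      unfold B
      rcases hb with hb | hb
      · rw [small _ hb]; exact hb
      · simp only [List.mem_cons, List.not_mem_nil, or_false] at hb
        rcases hb with h | h | h | h | h | h <;> rw [h] <;> decide
    have : ∀ j, (B T2 e')^[j] s0 < 18 := by
      intro j
      induction j with
      | zero => exact hs0
      | succ j ih => rw [Function.iterate_succ_apply']; exact hlt _ ih
    rw [hjy]; exact this j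
  have main : ∀ n, ∀ y ∈ O, (A T2 e)^[n] y < 18 → (A T2 e)^[n] y ∈ O := by
    intro n
    induction n using Nat.strong_induction_on with
    | _ n ih =>
      intro y hy hn
      obtain ⟨k, hk, hj⟩ := step y (hO18 y hy)
      by_cases h0 : n = 0
      · subst h0; simpa using hy
      · by_cases hlt : n < k + 1
        · have := hj n (by omega) hlt; omega
        · have hne : n = (n - (k + 1)) + (k + 1) := by omega
          rw [hne, Function.iterate_add_apply, hk] at hn ⊢
          rw [← hB y (hO18 y hy)] at hn ⊢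
          exact ih _ (by omega) _ (hcl y hy) hn
  refine ⟨s0, by omega, t0, by omega, fun n hn => ?_⟩
  have := main n s0 hs0m (by rw [hn]; exact ht0)
  rw [hn] at this
  exact htn this

end Pool.Agent.Helper35.Core27
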