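import Mathlib
import Pool.Agent.Helper35.ConfDefs
import Pool.Agent.Helper35.Core27

set_option autoImplicit false

namespace Pool.Agent.Helper35.Conf

section Bridge

variable {V : Type} [Fintype V] [DecidableEq V]

/-- tabulated data of an oriented configuration -/
structure Table (X : SymConfig V) (ω : X.Orientation) where
  a : V → Fin 3 → V
  b : V → Fin 3 → V
  idx : V → Fin 3 → Fin 3
  bl : V → Fin 3 → Finset V
  bl_mem : ∀ u i, bl u i ∈ X.blocks
  u_mem : ∀ u i, u ∈ bl u i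
  complete : ∀ B ∈ X.blocks, ∀ u ∈ B, ∃ i, B = bl u i
  cyc_u : ∀ u i, ω.cyc (bl u i) u = a u i
  cyc_a : ∀ u i, ω.cyc (bl u i) (a u i) = b u i
  cyc_b : ∀ u i, ω.cyc (bl u i) (b u i) = u
  a_mem : ∀ u i, a u i ∈ bl u i
  b_mem : ∀ u i, b u i ∈ bl u i
  bl_b : ∀ u i, bl (b u i) (idx u i) = bl u i
  a_inj : ∀ u i j, a u i = a u j → i = j
  b_inj : ∀ u i j, b u i = b u j → i = j
  a_ne_b : ∀ u i j, a u i ≠ b u j
  adj_iff : ∀ u w, X.graph.Adj u w ↔ ∃ i, w = a u i ∨ w = b u i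

variable {X : SymConfig V} {ω : X.Orientation}

theorem pi3 : ∀ π : Fin 3 → Fin 3, (∀ i j, π i = π j → i = j) → (∀ i, π i ≠ i) →
    (∀ i, π i = i + 1) ∨ (∀ i, π i = i + 2) := by
  decide +kernel

theorem perm6 (σ : Equiv.Perm V) (hc : σ.IsCycle) (a b : Fin 3 → V)
    (ha : ∀ i j, a i = a j → i = j)
    (hab : ∀ i j, a i ≠ b j) (hs : ∀ w, w ∈ σ.support ↔ ∃ i, w = a i ∨ w = b i)
    (h : ∀ i, σ (b i) = a i) :
    (∀ i, σ (a i) = b (i + 1)) ∨ (∀ i, σ (a i) = b (i + 2)) := by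
  have hex : ∀ i, ∃ j, σ (a i) = b j := by
    intro i
    have h1 : a i ∈ σ.support := (hs _).2 ⟨i, Or.inl rfl⟩
    have h2 : σ (a i) ∈ σ.support := Equiv.Perm.apply_mem_support.2 h1
    obtain ⟨j, hj | hj⟩ := (hs _).1 h2
    · rw [← h j] at hj
      exact absurd (σ.injective hj) (hab i j)
    · exact ⟨j, hj⟩
  choose π hπ using hex
  have hinj : ∀ i j, π i = π j → i = j := by
    intro i j hij
    have : σ (a i) = σ (a j) := by rw [hπ, hπ, hij]
    exact ha i j (σ.injective this)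
  have hfix : ∀ i, π i ≠ i := by
    intro i hi
    have hi' : σ (a i) = b i := by rw [hπ, hi]
    have hclosed : ∀ n : ℕ, (σ ^ n) (a i) = a i ∨ (σ ^ n) (a i) = b i := by
      intro n
      induction n with
      | zero => left; simp
      | succ n ih =>
        rw [pow_succ', Equiv.Perm.mul_apply]
        rcases ih with ih | ih
        · right; rw [ih]; exact hi'
        · left; rw [ih]; exact h i
    have h1 : σ (a i) ≠ a i := Equiv.Perm.mem_support.1 ((hs _).2 ⟨i, Or.inl rfl⟩)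
    have h2 : σ (a (i + 1)) ≠ a (i + 1) := Equiv.Perm.mem_support.1 ((hs _).2 ⟨i + 1, Or.inl rfl⟩)
    obtain ⟨n, hn⟩ := hc.exists_pow_eq h1 h2
    rcases hclosed n with h3 | h3
    · rw [h3] at hn
      have := ha _ _ hn
      revert this; fin_cases i <;> decide
    · rw [h3] at hn
      exact hab _ _ hn.symm
  rcases pi3 π hinj hfix with h1 | h1
  · left; intro i; rw [hπ, h1]
  · right; intro i; rw [hπ, h1]

/-- the reduced face tracing map on flags -/
def Table.Phi (T : Table X ω) (s : V → Fin 3) (f : V × Fin 3) : V × Fin 3 :=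
  (T.b f.1 f.2, T.idx f.1 f.2 + s (T.b f.1 f.2))

def Table.del (T : Table X ω) (f : V × Fin 3) : V × V := (f.1, T.b f.1 f.2)

theorem Table.del_inj (T : Table X ω) (f g : V × Fin 3) (h : T.del f = T.del g) : f = g := by
  obtain ⟨u, i⟩ := f
  obtain ⟨w, j⟩ := g
  simp only [Table.del, Prod.mk.injEq] at h
  obtain ⟨h1, h2⟩ := h
  subst h1
  rw [T.b_inj u i j h2]

theorem Table.a_idx (T : Table X ω) (u : V) (i : Fin 3) : T.a (T.b u i) (T.idx u i) = u := by
  rw [← T.cyc_u, T.bl_b, T.cyc_b]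

theorem Table.next_del (T : Table X ω) (ρ : RotationSystem X.graph) (s : V → Fin 3)
    (h : ∀ u i, ρ.rot u (T.a u i) = T.b u (i + s u)) (f : V × Fin 3) :
    ρ.next (T.del f) = T.del (T.Phi s f) := by
  obtain ⟨u, i⟩ := f
  simp only [Table.del, Table.Phi, RotationSystem.next]
  have := h (T.b u i) (T.idx u i)
  rw [T.a_idx] at this
  rw [this]

theorem Table.next_iter (T : Table X ω) (ρ : RotationSystem X.graph) (s : V → Fin 3)
    (h : ∀ u i, ρ.rot u (T.a u i) = T.b u (i + s u)) (n : ℕ) (f : V × Fin 3) :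
    ρ.next^[n] (T.del f) = T.del ((T.Phi s)^[n] f) := by
  induction n generalizing f with
  | zero => rfl
  | succ n ih => rw [Function.iterate_succ_apply, Function.iterate_succ_apply, T.next_del ρ s h, ih]

theorem Table.not_blockFace (T : Table X ω) (ρ : RotationSystem X.graph) (f : V × Fin 3)
    (B : Finset V) (hB : B ∈ X.blocks) : ρ.faceOf (T.del f) ≠ ω.blockFace B := by
  intro h
  have h1 : T.del f ∈ ρ.faceOf (T.del f) := ⟨0, rfl⟩
  rw [h] at h1
  obtain ⟨x, hx, he⟩ := h1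
  obtain ⟨u, i⟩ := f
  simp only [Table.del, Prod.mk.injEq] at he
  obtain ⟨h2, h3⟩ := he
  subst h2
  obtain ⟨j, rfl⟩ := T.complete B hB _ hx
  rw [T.cyc_u] at h3
  exact T.a_ne_b _ _ _ h3.symm

theorem Table.isFace_del (T : Table X ω) (ρ : RotationSystem X.graph) (f : V × Fin 3) :
    ρ.IsFace (ρ.faceOf (T.del f)) :=
  ⟨f.1, T.b f.1 f.2, (T.adj_iff _ _).2 ⟨f.2, Or.inr rfl⟩, rfl⟩

theorem Table.transitive_of_UE (T : Table X ω) (h : UpperEmbeddable X ω) :
    ∃ s : V → Fin 3, (∀ u, s u = 1 ∨ s u = 2) ∧ ∀ f g, ∃ n : ℕ, (T.Phi s)^[n] f = g := by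
  obtain ⟨ρ, hbf, F, -, huniq⟩ := h
  have hba : ∀ u i, ρ.rot u (T.b u i) = T.a u i := by
    intro u i
    obtain ⟨x, y, -, hxy⟩ := hbf (T.bl u i) (T.bl_mem u i)
    have h1 : (T.b u i, u) ∈ ω.blockFace (T.bl u i) :=
      ⟨T.b u i, T.b_mem u i, by rw [T.cyc_b]⟩
    rw [hxy] at h1
    obtain ⟨n, hn⟩ := h1
    have h2 : (u, ρ.rot u (T.b u i)) ∈ ρ.faceOf (x, y) := by
      refine ⟨n + 1, ?_⟩
      rw [Function.iterate_succ_apply', hn]
      rfl
    rw [← hxy] at h2
    obtain ⟨z, hz, he⟩ := h2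
    simp only [Prod.mk.injEq] at he
    obtain ⟨h3, h4⟩ := he
    subst h3
    rw [h4, T.cyc_u]
  have hs : ∀ u, ∃ s : Fin 3, (s = 1 ∨ s = 2) ∧ ∀ i, ρ.rot u (T.a u i) = T.b u (i + s) := by
    intro u
    rcases perm6 (ρ.rot u) (ρ.isCycle u) (T.a u) (T.b u) (T.a_inj u) (T.a_ne_b u)
      (fun w => (ρ.mem_support u w).trans (T.adj_iff u w)) (hba u) with h | h
    · exact ⟨1, Or.inl rfl, h⟩
    · exact ⟨2, Or.inr rfl, h⟩
  choose s hs12 hs using hs
  refine ⟨s, hs12, fun f g => ?_⟩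
  have hf := huniq _ ⟨T.isFace_del ρ f, T.not_blockFace ρ f⟩
  have hg := huniq _ ⟨T.isFace_del ρ g, T.not_blockFace ρ g⟩
  have h1 : T.del g ∈ ρ.faceOf (T.del f) := by
    rw [hf, ← hg]; exact ⟨0, rfl⟩
  obtain ⟨n, hn⟩ := h1
  rw [T.next_iter ρ s hs] at hn
  exact ⟨n, T.del_inj _ _ hn⟩

theorem form6 (x0 x1 x2 x3 x4 x5 : V) (h : [x0, x1, x2, x3, x4, x5].Nodup) :
    let σ := [x0, x1, x2, x3, x4, x5].formPerm
    σ x0 = x1 ∧ σ x1 = x2 ∧ σ x2 = x3 ∧ σ x3 = x4 ∧ σ x4 = x5 ∧ σ x5 = x0 := by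
  intro σ
  refine ⟨?_, ?_, ?_, ?_, ?_, ?_⟩
  · exact List.formPerm_apply_lt_getElem _ h 0 (by simp)
  · exact List.formPerm_apply_lt_getElem _ h 1 (by simp)
  · exact List.formPerm_apply_lt_getElem _ h 2 (by simp)
  · exact List.formPerm_apply_lt_getElem _ h 3 (by simp)
  · exact List.formPerm_apply_lt_getElem _ h 4 (by simp)
  · exact List.formPerm_apply_getLast x0 [x1, x2, x3, x4, x5]

/-- the rotation built from the table -/
def Table.lst (T : Table X ω) (s : V → Fin 3) (u : V) : List V :=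
  if s u = 1 then [T.b u 0, T.a u 0, T.b u 1, T.a u 1, T.b u 2, T.a u 2]
  else [T.b u 0, T.a u 0, T.b u 2, T.a u 2, T.b u 1, T.a u 1]

theorem Table.lst_nodup (T : Table X ω) (s : V → Fin 3) (u : V) : (T.lst s u).Nodup := by
  have ha : ∀ i j, i ≠ j → T.a u i ≠ T.a u j := fun i j h h' => h (T.a_inj u i j h')
  have hb : ∀ i j, i ≠ j → T.b u i ≠ T.b u j := fun i j h h' => h (T.b_inj u i j h')
  have hab := T.a_ne_b u
  have h01 : (0 : Fin 3) ≠ 1 := by decide
  have h02 : (0 : Fin 3) ≠ 2 := by decide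
  have h12 : (1 : Fin 3) ≠ 2 := by decide
  unfold Table.lst
  split_ifs
  · simp only [List.nodup_cons, List.mem_cons, List.not_mem_nil, or_false, not_or,
      List.nodup_nil, and_true, not_false_eq_true]
    exact ⟨⟨(hab _ _).symm, hb _ _ h01, (hab _ _).symm, hb _ _ h02, (hab _ _).symm⟩,
      ⟨hab _ _, ha _ _ h01, hab _ _, ha _ _ h02⟩, ⟨(hab _ _).symm, hb _ _ h12, (hab _ _).symm⟩,
      ⟨hab _ _, ha _ _ h12⟩, (hab _ _).symm⟩
  · simp only [List.nodup_cons, List.mem_cons, List.not_mem_nil, or_false, not_or,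
      List.nodup_nil, and_true, not_false_eq_true]
    exact ⟨⟨(hab _ _).symm, hb _ _ h02, (hab _ _).symm, hb _ _ h01, (hab _ _).symm⟩,
      ⟨hab _ _, ha _ _ h02, hab _ _, ha _ _ h01⟩, ⟨(hab _ _).symm, hb _ _ h12.symm, (hab _ _).symm⟩,
      ⟨hab _ _, ha _ _ h12.symm⟩, (hab _ _).symm⟩

theorem Table.lst_mem (T : Table X ω) (s : V → Fin 3) (u w : V) :
    w ∈ T.lst s u ↔ ∃ i, w = T.a u i ∨ w = T.b u i := by
  constructor
  · intro h
    unfold Table.lst at h
    split_ifs at h <;> simp only [List.mem_cons, List.not_mem_nil, or_false] at h <;>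
      rcases h with h | h | h | h | h | h <;> first
        | exact ⟨0, Or.inl h⟩ | exact ⟨1, Or.inl h⟩ | exact ⟨2, Or.inl h⟩
        | exact ⟨0, Or.inr h⟩ | exact ⟨1, Or.inr h⟩ | exact ⟨2, Or.inr h⟩
  · rintro ⟨i, h | h⟩ <;> subst h <;> unfold Table.lst <;> split_ifs <;> fin_cases i <;> simp

def Table.rs (T : Table X ω) (s : V → Fin 3) : RotationSystem X.graph where
  rot u := (T.lst s u).formPerm
  isCycle u := List.isCycle_formPerm (T.lst_nodup s u) (by unfold Table.lst; split_ifs <;> simp)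
  mem_support u w := by
    rw [List.support_formPerm_of_nodup _ (T.lst_nodup s u)
      (by unfold Table.lst; split_ifs <;> simp), List.mem_toFinset, T.lst_mem, T.adj_iff]

theorem Table.rs_b (T : Table X ω) (s : V → Fin 3) (u : V) (i : Fin 3) :
    (T.rs s).rot u (T.b u i) = T.a u i := by
  have hn := T.lst_nodup s u
  change (T.lst s u).formPerm (T.b u i) = T.a u i
  unfold Table.lst at hn ⊢
  split_ifs at hn ⊢
  · obtain ⟨h0, h1, h2, h3, h4, h5⟩ := form6 _ _ _ _ _ _ hn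
    fin_cases i
    · exact h0
    · exact h2
    · exact h4
  · obtain ⟨h0, h1, h2, h3, h4, h5⟩ := form6 _ _ _ _ _ _ hn
    fin_cases i
    · exact h0
    · exact h4
    · exact h2

theorem Table.rs_a (T : Table X ω) (s : V → Fin 3) (hs : ∀ u, s u = 1 ∨ s u = 2) (u : V)
    (i : Fin 3) : (T.rs s).rot u (T.a u i) = T.b u (i + s u) := by
  have hn := T.lst_nodup s u
  change (T.lst s u).formPerm (T.a u i) = T.b u (i + s u)
  unfold Table.lst at hn ⊢
  split_ifs at hn ⊢ with hc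
  · obtain ⟨h0, h1, h2, h3, h4, h5⟩ := form6 _ _ _ _ _ _ hn
    rw [hc]
    fin_cases i
    · exact h1
    · exact h3
    · exact h5
  · obtain ⟨h0, h1, h2, h3, h4, h5⟩ := form6 _ _ _ _ _ _ hn
    have hc2 : s u = 2 := (hs u).resolve_left hc
    rw [hc2]
    fin_cases i
    · exact h1
    · exact h5
    · exact h3

theorem Table.next_block (T : Table X ω) (s : V → Fin 3) (B : Finset V) (hB : B ∈ X.blocks)
    (x : V) (hx : x ∈ B) :
    (T.rs s).next (x, ω.cyc B x) = (ω.cyc B x, ω.cyc B (ω.cyc B x)) := by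
  obtain ⟨i, rfl⟩ := T.complete B hB x hx
  rw [T.cyc_u, T.cyc_a]
  simp only [RotationSystem.next, Prod.mk.injEq, true_and]
  obtain ⟨k, hk⟩ := T.complete _ hB (T.a x i) (T.a_mem x i)
  have h1 : T.a (T.a x i) k = T.b x i := by rw [← T.cyc_u, ← hk, T.cyc_a]
  have h2 : T.b (T.a x i) k = x := by rw [← T.cyc_a, h1, ← hk, T.cyc_b]
  have := T.rs_b s (T.a x i) k
  rw [h2, h1] at this
  exact this

theorem Table.face_block (T : Table X ω) (s : V → Fin 3) (B : Finset V) (hB : B ∈ X.blocks)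
    (x : V) (hx : x ∈ B) : (T.rs s).faceOf (x, ω.cyc B x) = ω.blockFace B := by
  have hsupp := ω.support_eq B hB
  have hit : ∀ n : ℕ, (T.rs s).next^[n] (x, ω.cyc B x) =
      ((ω.cyc B ^ n) x, ω.cyc B ((ω.cyc B ^ n) x)) ∧ (ω.cyc B ^ n) x ∈ B := by
    intro n
    induction n with
    | zero => exact ⟨rfl, by simpa using hx⟩
    | succ n ih =>
      have hmem : (ω.cyc B ^ (n + 1)) x ∈ B := by
        have h1 : x ∈ (ω.cyc B).support := by rw [hsupp]; exact hx
        have h2 : (ω.cyc B ^ (n + 1)) x ∈ (ω.cyc B).support := Equiv.Perm.pow_apply_mem_support.2 h1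
        rw [hsupp] at h2
        exact h2
      refine ⟨?_, hmem⟩
      rw [Function.iterate_succ_apply', ih.1, T.next_block s B hB _ ih.2, pow_succ',
        Equiv.Perm.mul_apply]
  ext e
  constructor
  · rintro ⟨n, hn⟩
    exact ⟨(ω.cyc B ^ n) x, (hit n).2, by rw [← hn, (hit n).1]⟩
  · rintro ⟨y, hy, rfl⟩
    have h1 : ω.cyc B x ≠ x := Equiv.Perm.mem_support.1 (by rw [hsupp]; exact hx)
    have h2 : ω.cyc B y ≠ y := Equiv.Perm.mem_support.1 (by rw [hsupp]; exact hy)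
    obtain ⟨n, hn⟩ := (ω.isCycle B hB).exists_pow_eq h1 h2
    exact ⟨n, by rw [(hit n).1, hn]⟩

theorem Table.UE_of_transitive (T : Table X ω) (s : V → Fin 3) (hs : ∀ u, s u = 1 ∨ s u = 2)
    (f0 : V × Fin 3) (ht : ∀ f g, ∃ n : ℕ, (T.Phi s)^[n] f = g) : UpperEmbeddable X ω := by
  have hface : ∀ f, (T.rs s).faceOf (T.del f) = Set.range T.del := by
    intro f
    ext e
    constructor
    · rintro ⟨n, hn⟩
      rw [T.next_iter _ s (T.rs_a s hs)] at hn
      exact ⟨_, hn⟩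
    · rintro ⟨g, rfl⟩
      obtain ⟨n, hn⟩ := ht f g
      exact ⟨n, by rw [T.next_iter _ s (T.rs_a s hs), hn]⟩
  refine ⟨T.rs s, ?_, (T.rs s).faceOf (T.del f0), ⟨T.isFace_del _ _, T.not_blockFace _ _⟩, ?_⟩
  · intro B hB
    have hne : B.Nonempty := by
      rw [← Finset.card_pos, X.card_of_mem B hB]; norm_num
    obtain ⟨x, hx⟩ := hne
    refine ⟨x, ω.cyc B x, ?_, (T.face_block s B hB x hx).symm⟩
    obtain ⟨i, rfl⟩ := T.complete B hB x hx
    exact (T.adj_iff _ _).2 ⟨i, Or.inl (T.cyc_u x i)⟩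
  · rintro F ⟨⟨u, w, hadj, hF⟩, hnb⟩
    obtain ⟨i, hw | hw⟩ := (T.adj_iff u w).1 hadj
    · exfalso
      apply hnb (T.bl u i) (T.bl_mem u i)
      rw [hF, hw, ← T.cyc_u, T.face_block s _ (T.bl_mem u i) u (T.u_mem u i)]
    · subst hw
      rw [hF, hface f0]
      exact hface (u, i)

end Bridge

section Concrete

/-- ordered triples, first orientation -/
def t1 : Fin 27 → List (Fin 27) := ![[0, 4, 20], [5, 1, 0], [0, 2, 13], [1, 2, 3], [2, 4, 6], [3, 4, 5], [1, 7, 9], [7, 8, 10], [8, 9, 11], [9, 10, 12], [10, 11, 6], [11, 12, 7], [12, 6, 8], [3, 14, 16], [14, 15, 17], [15, 16, 18], [16, 17, 19], [17, 18, 13], [18, 19, 14], [19, 13, 15], [5, 21, 23], [21, 22, 24], [22, 23, 25], [23, 24, 26], [24, 25, 20], [25, 26, 21], [26, 20, 22]]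

/-- ordered triples, second orientation -/
def t2 : Fin 27 → List (Fin 27) := ![[0, 4, 20], [0, 1, 5], [0, 2, 13], [1, 2, 3], [2, 4, 6], [3, 4, 5], [1, 7, 9], [7, 8, 10], [8, 9, 11], [9, 10, 12], [10, 11, 6], [11, 12, 7], [12, 6, 8], [3, 14, 16], [14, 15, 17], [15, 16, 18], [16, 17, 19], [17, 18, 13], [18, 19, 14], [19, 13, 15], [5, 21, 23], [21, 22, 24], [22, 23, 25], [23, 24, 26], [24, 25, 20], [25, 26, 21], [26, 20, 22]]

def blks : Finset (Finset (Fin 27)) := Finset.univ.image (fun k => (t2 k).toFinset)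

theorem blks_card : blks.card = 27 := by decide +kernel
theorem blks_three : ∀ k, (t2 k).toFinset.card = 3 := by decide +kernel
theorem blks_degree : ∀ x : Fin 27, (blks.filter (fun B => x ∈ B)).card = 3 := by decide +kernel
theorem blks_linear : ∀ x y : Fin 27, x ≠ y →
    (blks.filter (fun B => x ∈ B ∧ y ∈ B)).card ≤ 1 := by decide +kernel

/-- the configuration `27₃` of the counterexample -/
def X27 : SymConfig (Fin 27) where
  blocks := blks
  card_blocks := by rw [Fintype.card_fin]; exact blks_card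
  card_of_mem := by
    intro B hB
    obtain ⟨k, -, rfl⟩ := Finset.mem_image.1 hB
    exact blks_three k
  degree := blks_degree
  linear := blks_linear

def cycOf (t : Fin 27 → List (Fin 27)) (B : Finset (Fin 27)) : Equiv.Perm (Fin 27) :=
  (((List.finRange 27).find? (fun k => (t k).toFinset = B)).map (fun k => (t k).formPerm)).getD 1

theorem cycOf_spec (t : Fin 27 → List (Fin 27)) (B : Finset (Fin 27))
    (h : ∃ k, (t k).toFinset = B) : ∃ k, (t k).toFinset = B ∧ cycOf t B = (t k).formPerm := by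
  unfold cycOf
  cases hf : (List.finRange 27).find? (fun k => decide ((t k).toFinset = B)) with
  | none =>
    obtain ⟨k, hk⟩ := h
    rw [List.find?_eq_none] at hf
    exact absurd (by simpa using hk) (hf k (List.mem_finRange k))
  | some k =>
    refine ⟨k, ?_, rfl⟩
    have := List.find?_some hf
    simpa using this

theorem mem_blks (B : Finset (Fin 27)) : B ∈ X27.blocks → ∃ k, (t2 k).toFinset = B := by
  intro h
  change B ∈ Finset.univ.image (fun k => (t2 k).toFinset) at h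
  simpa using h

theorem t12 : ∀ k, (t1 k).toFinset = (t2 k).toFinset := by decide +kernel

theorem nodup1 : ∀ k, (t1 k).Nodup ∧ (t1 k).length = 3 := by decide +kernel
theorem nodup2 : ∀ k, (t2 k).Nodup ∧ (t2 k).length = 3 := by decide +kernel

def om (t : Fin 27 → List (Fin 27)) (ht : ∀ k, (t k).Nodup ∧ (t k).length = 3)
    (hb : ∀ B ∈ X27.blocks, ∃ k, (t k).toFinset = B) : X27.Orientation where
  cyc := cycOf t
  isCycle B hB := by
    obtain ⟨k, -, h2⟩ := cycOf_spec t B (hb B hB)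
    rw [h2]
    exact List.isCycle_formPerm (ht k).1 (by rw [(ht k).2]; norm_num)
  support_eq B hB := by
    obtain ⟨k, h1, h2⟩ := cycOf_spec t B (hb B hB)
    rw [h2, List.support_formPerm_of_nodup _ (ht k).1, h1]
    intro x hx
    have := (ht k).2
    rw [hx] at this
    simp at this

def om1 : X27.Orientation := om t1 nodup1 (fun B hB => by
  obtain ⟨k, hk⟩ := mem_blks B hB
  exact ⟨k, by rw [t12, hk]⟩)

def om2 : X27.Orientation := om t2 nodup2 mem_blks

def inc : Fin 27 → Fin 3 → Fin 27 := ![![0, 1, 2], ![1, 3, 6], ![2, 3, 4], ![3, 5, 13], ![0, 4, 5], ![1, 5, 20], ![4, 10, 12], ![6, 7, 11], ![7, 8, 12], ![6, 8, 9], ![7, 9, 10], ![8, 10, 11], ![9, 11, 12], ![2, 17, 19], ![13, 14, 18], ![14, 15, 19], ![13, 15, 16], ![14, 16, 17], ![15, 17, 18], ![16, 18, 19], ![0, 24, 26], ![20, 21, 25], ![21, 22, 26], ![20, 22, 23], ![21, 23, 24], ![22, 24, 25], ![23, 25, 26]]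

def a1 : Fin 27 → Fin 3 → Fin 27 := ![![4, 5, 2], ![0, 2, 7], ![13, 3, 4], ![1, 4, 14], ![20, 6, 5], ![1, 3, 21], ![2, 10, 8], ![9, 8, 11], ![10, 9, 12], ![1, 11, 10], ![7, 12, 11], ![8, 6, 12], ![9, 7, 6], ![0, 17, 15], ![16, 15, 18], ![17, 16, 19], ![3, 18, 17], ![14, 19, 18], ![15, 13, 19], ![16, 14, 13], ![0, 24, 22], ![23, 22, 25], ![24, 23, 26], ![5, 25, 24], ![21, 26, 25], ![22, 20, 26], ![23, 21, 20]]
def b1 : Fin 27 → Fin 3 → Fin 27 := ![![20, 1, 13], ![5, 3, 9], ![0, 1, 6], ![2, 5, 16], ![0, 2, 3], ![0, 4, 23], ![4, 11, 12], ![1, 10, 12], ![7, 11, 6], ![7, 8, 12], ![8, 9, 6], ![9, 10, 7], ![10, 11, 8], ![2, 18, 19], ![3, 17, 19], ![14, 18, 13], ![14, 15, 19], ![15, 16, 13], ![16, 17, 14], ![17, 18, 15], ![4, 25, 26], ![5, 24, 26], ![21, 25, 20], ![21, 22, 26], ![22, 23, 20], ![23, 24, 21], ![24, 25, 22]]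
def i1 : Fin 27 → Fin 3 → Fin 3 := ![![0, 0, 0], ![0, 0, 0], ![2, 1, 0], ![1, 1, 0], ![0, 2, 1], ![1, 2, 0], ![1, 1, 2], ![2, 0, 1], ![1, 0, 2], ![0, 1, 0], ![0, 2, 1], ![1, 2, 2], ![1, 2, 2], ![0, 1, 2], ![2, 0, 1], ![1, 0, 2], ![0, 1, 0], ![0, 2, 1], ![1, 2, 2], ![1, 2, 2], ![0, 1, 2], ![2, 0, 1], ![1, 0, 2], ![0, 1, 0], ![0, 2, 1], ![1, 2, 2], ![1, 2, 2]]
def a2 : Fin 27 → Fin 3 → Fin 27 := ![![4, 1, 2], ![5, 2, 7], ![13, 3, 4], ![1, 4, 14], ![20, 6, 5], ![0, 3, 21], ![2, 10, 8], ![9, 8, 11], ![10, 9, 12], ![1, 11, 10], ![7, 12, 11], ![8, 6, 12], ![9, 7, 6], ![0, 17, 15], ![16, 15, 18], ![17, 16, 19], ![3, 18, 17], ![14, 19, 18], ![15, 13, 19], ![16, 14, 13], ![0, 24, 22], ![23, 22, 25], ![24, 23, 26], ![5, 25, 24], ![21, 26, 25], ![22, 20, 26], ![23, 21, 20]]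
def b2 : Fin 27 → Fin 3 → Fin 27 := ![![20, 5, 13], ![0, 3, 9], ![0, 1, 6], ![2, 5, 16], ![0, 2, 3], ![1, 4, 23], ![4, 11, 12], ![1, 10, 12], ![7, 11, 6], ![7, 8, 12], ![8, 9, 6], ![9, 10, 7], ![10, 11, 8], ![2, 18, 19], ![3, 17, 19], ![14, 18, 13], ![14, 15, 19], ![15, 16, 13], ![16, 17, 14], ![17, 18, 15], ![4, 25, 26], ![5, 24, 26], ![21, 25, 20], ![21, 22, 26], ![22, 23, 20], ![23, 24, 21], ![24, 25, 22]]
def i2 : Fin 27 → Fin 3 → Fin 3 := ![![0, 0, 0], ![1, 0, 0], ![2, 1, 0], ![1, 1, 0], ![0, 2, 1], ![0, 2, 0], ![1, 1, 2], ![2, 0, 1], ![1, 0, 2], ![0, 1, 0], ![0, 2, 1], ![1, 2, 2], ![1, 2, 2], ![0, 1, 2], ![2, 0, 1], ![1, 0, 2], ![0, 1, 0], ![0, 2, 1], ![1, 2, 2], ![1, 2, 2], ![0, 1, 2], ![2, 0, 1], ![1, 0, 2], ![0, 1, 0], ![0, 2, 1], ![1, 2, 2], ![1, 2, 2]]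

theorem cu1 : ∀ u i, cycOf t1 (t2 (inc u i)).toFinset u = a1 u i := by decide +kernel
theorem ca1 : ∀ u i, cycOf t1 (t2 (inc u i)).toFinset (a1 u i) = b1 u i := by decide +kernel
theorem cb1 : ∀ u i, cycOf t1 (t2 (inc u i)).toFinset (b1 u i) = u := by decide +kernel
theorem cu2 : ∀ u i, cycOf t2 (t2 (inc u i)).toFinset u = a2 u i := by decide +kernel
theorem ca2 : ∀ u i, cycOf t2 (t2 (inc u i)).toFinset (a2 u i) = b2 u i := by decide +kernel
theorem cb2 : ∀ u i, cycOf t2 (t2 (inc u i)).toFinset (b2 u i) = u := by decide +kernel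
theorem umem : ∀ u i, u ∈ (t2 (inc u i)).toFinset := by decide +kernel
theorem am1 : ∀ u i, a1 u i ∈ (t2 (inc u i)).toFinset := by decide +kernel
theorem bm1 : ∀ u i, b1 u i ∈ (t2 (inc u i)).toFinset := by decide +kernel
theorem am2 : ∀ u i, a2 u i ∈ (t2 (inc u i)).toFinset := by decide +kernel
theorem bm2 : ∀ u i, b2 u i ∈ (t2 (inc u i)).toFinset := by decide +kernel
theorem compl : ∀ k u : Fin 27, u ∈ (t2 k).toFinset →
    ∃ i, (t2 k).toFinset = (t2 (inc u i)).toFinset := by decide +kernel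
theorem blb1 : ∀ u i, (t2 (inc (b1 u i) (i1 u i))).toFinset = (t2 (inc u i)).toFinset := by
  decide +kernel
theorem blb2 : ∀ u i, (t2 (inc (b2 u i) (i2 u i))).toFinset = (t2 (inc u i)).toFinset := by
  decide +kernel
theorem ai1 : ∀ u i j, a1 u i = a1 u j → i = j := by decide +kernel
theorem bi1 : ∀ u i j, b1 u i = b1 u j → i = j := by decide +kernel
theorem ab1 : ∀ u i j, a1 u i ≠ b1 u j := by decide +kernel
theorem ai2 : ∀ u i j, a2 u i = a2 u j → i = j := by decide +kernel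
theorem bi2 : ∀ u i j, b2 u i = b2 u j → i = j := by decide +kernel
theorem ab2 : ∀ u i j, a2 u i ≠ b2 u j := by decide +kernel
theorem uab1 : ∀ u i, u ≠ a1 u i ∧ u ≠ b1 u i := by decide +kernel
theorem uab2 : ∀ u i, u ≠ a2 u i ∧ u ≠ b2 u i := by decide +kernel
theorem memb1 : ∀ u i w, w ∈ (t2 (inc u i)).toFinset → w = u ∨ w = a1 u i ∨ w = b1 u i := by
  decide +kernel
theorem memb2 : ∀ u i w, w ∈ (t2 (inc u i)).toFinset → w = u ∨ w = a2 u i ∨ w = b2 u i := by
  decide +kernel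

theorem inc_mem (u : Fin 27) (i : Fin 3) : (t2 (inc u i)).toFinset ∈ X27.blocks :=
  Finset.mem_image.2 ⟨inc u i, Finset.mem_univ _, rfl⟩

theorem complB (B : Finset (Fin 27)) (hB : B ∈ X27.blocks) (u : Fin 27) (hu : u ∈ B) :
    ∃ i, B = (t2 (inc u i)).toFinset := by
  obtain ⟨k, rfl⟩ := mem_blks B hB
  exact compl k u hu

theorem adj1 (u w : Fin 27) : X27.graph.Adj u w ↔ ∃ i, w = a1 u i ∨ w = b1 u i := by
  constructor
  · rintro ⟨hne, B, hB, hu, hw⟩
    obtain ⟨i, rfl⟩ := complB B hB u hu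
    rcases memb1 u i w hw with h | h | h
    · exact absurd h.symm hne
    · exact ⟨i, Or.inl h⟩
    · exact ⟨i, Or.inr h⟩
  · rintro ⟨i, h | h⟩ <;> subst h
    · exact ⟨(uab1 u i).1, _, inc_mem u i, umem u i, am1 u i⟩
    · exact ⟨(uab1 u i).2, _, inc_mem u i, umem u i, bm1 u i⟩

theorem adj2 (u w : Fin 27) : X27.graph.Adj u w ↔ ∃ i, w = a2 u i ∨ w = b2 u i := by
  constructor
  · rintro ⟨hne, B, hB, hu, hw⟩
    obtain ⟨i, rfl⟩ := complB B hB u hu
    rcases memb2 u i w hw with h | h | h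
    · exact absurd h.symm hne
    · exact ⟨i, Or.inl h⟩
    · exact ⟨i, Or.inr h⟩
  · rintro ⟨i, h | h⟩ <;> subst h
    · exact ⟨(uab2 u i).1, _, inc_mem u i, umem u i, am2 u i⟩
    · exact ⟨(uab2 u i).2, _, inc_mem u i, umem u i, bm2 u i⟩

def Tab1 : Table X27 om1 where
  a := a1
  b := b1
  idx := i1
  bl u i := (t2 (inc u i)).toFinset
  bl_mem := inc_mem
  u_mem := umem
  complete := complB
  cyc_u := cu1
  cyc_a := ca1
  cyc_b := cb1
  a_mem := am1
  b_mem := bm1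
  bl_b := blb1
  a_inj := ai1
  b_inj := bi1
  a_ne_b := ab1
  adj_iff := adj1

def Tab2 : Table X27 om2 where
  a := a2
  b := b2
  idx := i2
  bl u i := (t2 (inc u i)).toFinset
  bl_mem := inc_mem
  u_mem := umem
  complete := complB
  cyc_u := cu2
  cyc_a := ca2
  cyc_b := cb2
  a_mem := am2
  b_mem := bm2
  bl_b := blb2
  a_inj := ai2
  b_inj := bi2
  a_ne_b := ab2
  adj_iff := adj2

open Pool.Agent.Helper35.Core27 in
theorem look2 : ∀ u i, look T2 (3 * (u : Fin 27).val + (i : Fin 3).val) =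
    3 * (b2 u i).val + (i2 u i).val := by decide +kernel

def T1 : ℕ := 258916652319118875111672125557535761206216273063263885800717408380012540726099224344275202931263083743833190152071466567443349046671101899868812209758740074411958578299324

open Pool.Agent.Helper35.Core27 in
theorem look1 : ∀ u i, look T1 (3 * (u : Fin 27).val + (i : Fin 3).val) =
    3 * (b1 u i).val + (i1 u i).val := by decide +kernel

/-- code of the arrival state reached from a flag -/
def code (b : Fin 27 → Fin 3 → Fin 27) (ix : Fin 27 → Fin 3 → Fin 3) (f : Fin 27 × Fin 3) : ℕ :=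
  3 * (b f.1 f.2).val + (ix f.1 f.2).val

theorem code2_surj : ∀ s : Fin 81, ∃ f : Fin 27 × Fin 3, code b2 i2 f = s.val := by decide +kernel

theorem code1_inj : ∀ f g : Fin 27 × Fin 3, code b1 i1 f = code b1 i1 g → f = g := by
  decide +kernel

open Pool.Agent.Helper35.Core27 in
theorem semiconj (T : ℕ) (b : Fin 27 → Fin 3 → Fin 27) (ix : Fin 27 → Fin 3 → Fin 3)
    (hl : ∀ u i, look T (3 * (u : Fin 27).val + (i : Fin 3).val) = 3 * (b u i).val + (ix u i).val)
    (s : Fin 27 → Fin 3) (e : ℕ → Bool)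
    (he : ∀ u : Fin 27, (s u).val = if e u.val then 1 else 2) (f : Fin 27 × Fin 3) :
    code b ix (b f.1 f.2, ix f.1 f.2 + s (b f.1 f.2)) = A T e (code b ix f) := by
  obtain ⟨u, i⟩ := f
  unfold A code
  simp only
  have h1 : (3 * (b u i).val + (ix u i).val) / 3 = (b u i).val := by
    have := (ix u i).isLt; omega
  have h2 : (3 * (b u i).val + (ix u i).val) % 3 = (ix u i).val := by
    have := (ix u i).isLt; omega
  rw [h1, h2, ← hl, ← he]
  congr 1

/-- the transition signs used for the first orientation -/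
def s1 (u : Fin 27) : Fin 3 := if Nat.testBit 26556507 u.val then 1 else 2

open Pool.Agent.Helper35.Core27 in
theorem orbit1 : ∀ s : Fin 81, ∃ n : Fin 81, (A T1 (fun u => Nat.testBit 26556507 u))^[n.val] 0 = s.val := by
  decide +kernel

open Pool.Agent.Helper35.Core27 in
theorem period1 : (A T1 (fun u => Nat.testBit 26556507 u))^[81] 0 = 0 := by
  decide +kernel

theorem code_lt : ∀ f : Fin 27 × Fin 3, code b1 i1 f < 81 := by decide +kernel

open Pool.Agent.Helper35.Core27 in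
theorem UE1 : UpperEmbeddable X27 om1 := by
  refine Tab1.UE_of_transitive s1 (fun u => ?_) (0, 0) (fun f g => ?_)
  · unfold s1; split_ifs <;> simp
  · set e : ℕ → Bool := fun u => Nat.testBit 26556507 u with he
    have hse : ∀ u : Fin 27, (s1 u).val = if e u.val then 1 else 2 := by
      intro u; unfold s1; simp only [he]; split_ifs <;> rfl
    have hconj : ∀ n f, code b1 i1 ((Tab1.Phi s1)^[n] f) = (A T1 e)^[n] (code b1 i1 f) := by
      intro n
      induction n with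
      | zero => intro f; rfl
      | succ n ih =>
        intro f
        rw [Function.iterate_succ_apply, ih, Function.iterate_succ_apply]
        congr 1
        exact semiconj T1 b1 i1 look1 s1 e hse f
    obtain ⟨n, hn⟩ := orbit1 ⟨code b1 i1 f, code_lt f⟩
    obtain ⟨m, hm⟩ := orbit1 ⟨code b1 i1 g, code_lt g⟩
    simp only at hn hm
    refine ⟨m.val + (81 - n.val), code1_inj _ _ ?_⟩
    rw [hconj, ← hn, ← Function.iterate_add_apply]
    have : m.val + (81 - n.val) + n.val = m.val + 81 := by have := n.isLt; omega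
    rw [this, Function.iterate_add_apply, period1, hm]

open Pool.Agent.Helper35.Core27 in
theorem notUE2 : ¬ UpperEmbeddable X27 om2 := by
  intro h
  obtain ⟨s, hs, ht⟩ := Tab2.transitive_of_UE h
  set e : ℕ → Bool := fun u => if h : u < 27 then decide (s ⟨u, h⟩ = 1) else false with he
  have hse : ∀ u : Fin 27, (s u).val = if e u.val then 1 else 2 := by
    intro u
    simp only [he, u.isLt, dif_pos, Fin.eta]
    rcases hs u with h1 | h1 <;> rw [h1] <;> decide
  have hconj : ∀ n f, code b2 i2 ((Tab2.Phi s)^[n] f) = (A T2 e)^[n] (code b2 i2 f) := by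
    intro n
    induction n with
    | zero => intro f; rfl
    | succ n ih =>
      intro f
      rw [Function.iterate_succ_apply, ih, Function.iterate_succ_apply]
      congr 1
      exact semiconj T2 b2 i2 look2 s e hse f
  obtain ⟨s0, hs0, t0, ht0, hne⟩ := not_transitive e
  obtain ⟨f, hf⟩ := code2_surj ⟨s0, hs0⟩
  obtain ⟨g, hg⟩ := code2_surj ⟨t0, ht0⟩
  obtain ⟨n, hn⟩ := ht f g
  apply hne n
  have := hconj n f
  rw [hn, hf, hg] at this
  exact this.symm

def parent : Fin 27 → Fin 27 := ![0, 0, 0, 4, 0, 0, 4, 1, 6, 1, 6, 6, 6, 0, 3, 13, 3, 13, 13, 13, 0, 5, 20, 5, 20, 20, 20]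

theorem par_adj : ∀ u : Fin 27, u ≠ 0 → ∃ i, parent u = a2 u i ∨ parent u = b2 u i := by
  decide +kernel

theorem par_root : ∀ u : Fin 27, parent^[27] u = 0 := by decide +kernel

theorem conn27 : X27.graph.Connected := by
  have hreach : ∀ n : ℕ, ∀ u, parent^[n] u = 0 → X27.graph.Reachable u 0 := by
    intro n
    induction n with
    | zero => intro u hu; rw [Function.iterate_zero, id] at hu; rw [hu]
    | succ n ih =>
      intro u hu
      by_cases h0 : u = 0
      · rw [h0]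
      · have h1 : X27.graph.Adj u (parent u) := (adj2 _ _).2 (par_adj u h0)
        exact h1.reachable.trans (ih _ hu)
  have : Nonempty (Fin 27) := ⟨0⟩
  exact ⟨fun u w => (hreach 27 u (par_root u)).trans (hreach 27 w (par_root w)).symm⟩

end Concrete

theorem counterexample27 : ∃ X : SymConfig (Fin 27), X.graph.Connected ∧
    ∃ ω₁ ω₂ : X.Orientation, UpperEmbeddable X ω₁ ∧ ¬ UpperEmbeddable X ω₂ :=
  ⟨X27, conn27, om1, om2, UE1, notUE2⟩

end Pool.Agent.Helper35.Conf
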