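import Mathlib

set_option autoImplicit false

namespace Pool.Agent.Helper35.Gamm

open Finset

variable {α Ω : Type} [DecidableEq α] [DecidableEq Ω]

/-- members of `S` whose neighbourhood lies inside `J` -/
def Inn (Nb : α → Finset Ω) (S : Finset α) (J : Finset Ω) : Finset α :=
  S.filter (fun x => Nb x ⊆ J)

variable (Nb : α → Finset Ω)

theorem mem_Inn {S : Finset α} {J : Finset Ω} {x : α} :
    x ∈ Inn Nb S J ↔ x ∈ S ∧ Nb x ⊆ J := by
  unfold Inn; simp

theorem Inn_inter (S : Finset α) (J J' : Finset Ω) :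
    Inn Nb S (J ∩ J') = Inn Nb S J ∩ Inn Nb S J' := by
  ext x
  simp only [mem_Inn, mem_inter, subset_inter_iff]
  tauto

theorem Inn_mono (S : Finset α) {J J' : Finset Ω} (h : J ⊆ J') :
    Inn Nb S J ⊆ Inn Nb S J' := by
  intro x hx
  rw [mem_Inn] at hx ⊢
  exact ⟨hx.1, hx.2.trans h⟩

theorem Inn_union_left (S T : Finset α) (J : Finset Ω) :
    Inn Nb (S ∪ T) J = Inn Nb S J ∪ Inn Nb T J := by
  ext x
  simp only [mem_Inn, mem_union]
  tauto

theorem Inn_supermod (S : Finset α) (J J' : Finset Ω) :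
    (Inn Nb S J).card + (Inn Nb S J').card
      ≤ (Inn Nb S (J ∪ J')).card + (Inn Nb S (J ∩ J')).card := by
  rw [Inn_inter, ← card_union_add_card_inter]
  have : (Inn Nb S J ∪ Inn Nb S J').card ≤ (Inn Nb S (J ∪ J')).card := by
    apply card_le_card
    apply union_subset
    · exact Inn_mono Nb S subset_union_left
    · exact Inn_mono Nb S subset_union_right
  omega

/-- The standing hypotheses: `K` is matchable (Hall condition) and `X` is simple modulo `K`. -/
structure Simp (K X : Finset α) : Prop where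
  disj : Disjoint K X
  hK : ∀ J : Finset Ω, (Inn Nb K J).card ≤ J.card
  h1 : ∀ x ∈ X, ∀ J : Finset Ω, Nb x ⊆ J → (Inn Nb K J).card + 1 ≤ J.card
  h2 : ∀ x ∈ X, ∀ y ∈ X, x ≠ y → ∀ J : Finset Ω, Nb x ⊆ J → Nb y ⊆ J →
    (Inn Nb K J).card + 2 ≤ J.card

variable {Nb} {K X : Finset α}

theorem Simp.card_split (h : Simp Nb K X) (J : Finset Ω) :
    (Inn Nb (K ∪ X) J).card = (Inn Nb K J).card + (Inn Nb X J).card := by
  rw [Inn_union_left, card_union_of_disjoint]
  refine disjoint_of_subset_left ?_ (disjoint_of_subset_right ?_ h.disj)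
  · intro x hx; exact ((mem_Inn Nb).1 hx).1
  · intro x hx; exact ((mem_Inn Nb).1 hx).1

theorem Simp.two_le (h : Simp Nb K X) {J : Finset Ω} (hJ : 2 ≤ (Inn Nb X J).card) :
    (Inn Nb K J).card + 2 ≤ J.card := by
  obtain ⟨x, hx, y, hy, hxy⟩ := one_lt_card.1 (show 1 < (Inn Nb X J).card by omega)
  rw [mem_Inn] at hx hy
  exact h.h2 x hx.1 y hy.1 hxy J hx.2 hy.2

theorem Simp.one_le (h : Simp Nb K X) {J : Finset Ω} (hJ : 1 ≤ (Inn Nb X J).card) :
    (Inn Nb K J).card + 1 ≤ J.card := by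
  obtain ⟨x, hx⟩ := card_pos.1 (show 0 < (Inn Nb X J).card by omega)
  rw [mem_Inn] at hx
  exact h.h1 x hx.1 J hx.2

theorem Simp.low_card (h : Simp Nb K X) {P : Finset Ω} (hP : P.card ≤ (Inn Nb K P).card + 1) :
    (Inn Nb (K ∪ X) P).card ≤ P.card := by
  rw [h.card_split]
  have h0 := h.hK P
  by_cases h2 : 2 ≤ (Inn Nb X P).card
  · have := h.two_le h2; omega
  · by_cases h1 : 1 ≤ (Inn Nb X P).card
    · have := h.one_le h1; omega
    · omega

theorem Simp.zero_union (h : Simp Nb K X) {Q Q' : Finset Ω}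
    (hQ : Q.card ≤ (Inn Nb K Q).card) (hQ' : Q'.card ≤ (Inn Nb K Q').card) :
    (Q ∪ Q').card ≤ (Inn Nb K (Q ∪ Q')).card ∧
      Inn Nb (K ∪ X) (Q ∪ Q') = Inn Nb (K ∪ X) Q ∪ Inn Nb (K ∪ X) Q' := by
  have hu := card_union_add_card_inter Q Q'
  have hs := Inn_supermod Nb K Q Q'
  have hi := h.hK (Q ∩ Q')
  have hun := h.hK (Q ∪ Q')
  have hz : (Q ∪ Q').card ≤ (Inn Nb K (Q ∪ Q')).card := by omega
  refine ⟨hz, ?_⟩
  symm
  apply eq_of_subset_of_card_le
  · apply union_subset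
    · exact Inn_mono Nb _ subset_union_left
    · exact Inn_mono Nb _ subset_union_right
  · have e1 := h.low_card (P := Q ∪ Q') (by omega)
    have e2 := card_union_add_card_inter (Inn Nb (K ∪ X) Q) (Inn Nb (K ∪ X) Q')
    rw [← Inn_inter] at e2
    have e3 := h.card_split Q
    have e4 := h.card_split Q'
    have e5 := h.low_card (P := Q ∩ Q') (by omega)
    omega

theorem Simp.zero_biUnion (h : Simp Nb K X) (𝒬 : Finset (Finset Ω))
    (hQ : ∀ Q ∈ 𝒬, Q.card ≤ (Inn Nb K Q).card) :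
    (𝒬.biUnion id).card ≤ (Inn Nb K (𝒬.biUnion id)).card ∧
      Inn Nb (K ∪ X) (𝒬.biUnion id) ⊆ 𝒬.biUnion (Inn Nb (K ∪ X)) ∨ 𝒬 = ∅ := by
  classical
  induction 𝒬 using Finset.induction_on with
  | empty => right; rfl
  | insert Q 𝒬 hnot ih =>
    left
    have hQ0 := hQ Q (mem_insert_self _ _)
    rcases ih (fun Q' hQ' => hQ Q' (mem_insert_of_mem hQ')) with ih | ih
    · obtain ⟨hz, hI⟩ := h.zero_union hQ0 ih.1
      rw [biUnion_insert, biUnion_insert]
      refine ⟨hz, ?_⟩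
      simp only [id] at hI ⊢
      rw [hI]
      exact union_subset_union (Subset.refl _) ih.2
    · subst ih
      simp [hQ0]

end Pool.Agent.Helper35.Gamm
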