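import Mathlib
import Pool.Agent.Helper35.GammLine

set_option autoImplicit false

namespace Pool.Agent.Helper35.Gamm

open Finset

variable {α Ω : Type} [DecidableEq α] [DecidableEq Ω]
variable {Nb : α → Finset Ω} {K X : Finset α}

theorem Simp.claimA (h : Simp Nb K X) :
    ∀ (n : ℕ) (PP : Finset (Finset Ω)), PP.card = n →
      (∀ P ∈ PP, P.card ≤ (Inn Nb K P).card + 1) →
      (PP.biUnion (Inn Nb (K ∪ X))).card ≤ (PP.biUnion id).card := by
  classical
  intro n
  induction n using Nat.strong_induction_on with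
  | _ n ih =>
  intro PP hn hlow
  by_cases hmerge : ∃ P ∈ PP, ∃ P' ∈ PP, P ≠ P' ∧ (P ∪ P').card ≤ (Inn Nb K (P ∪ P')).card + 1
  · obtain ⟨P, hP, P', hP', hne, hlu⟩ := hmerge
    set PM := insert (P ∪ P') ((PP.erase P).erase P') with hPM
    have hP'e : P' ∈ PP.erase P := mem_erase.2 ⟨hne.symm, hP'⟩
    have hc2 : ((PP.erase P).erase P').card = n - 2 := by
      rw [card_erase_of_mem hP'e, card_erase_of_mem hP, hn]; omega
    have hc : PM.card ≤ n - 2 + 1 := by
      rw [hPM, ← hc2]; exact card_insert_le _ _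
    have hn2 : 2 ≤ n := by
      rw [← hn]; exact one_lt_card.2 ⟨P, hP, P', hP', hne⟩
    have key := ih PM.card (by omega) PM rfl (by
      intro Q hQ
      rw [hPM, mem_insert] at hQ
      rcases hQ with rfl | hQ
      · exact hlu
      · exact hlow Q (mem_of_mem_erase (mem_of_mem_erase hQ)))
    have e1 : PM.biUnion id = PP.biUnion id := by
      ext w
      simp only [mem_biUnion, hPM, mem_insert, mem_erase, id]
      constructor
      · rintro ⟨Q, hQ | ⟨h1, h2, h3⟩, hw⟩
        · subst hQ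
          rcases mem_union.1 hw with hw | hw
          · exact ⟨P, hP, hw⟩
          · exact ⟨P', hP', hw⟩
        · exact ⟨Q, h3, hw⟩
      · rintro ⟨Q, hQ, hw⟩
        by_cases hQP : Q = P
        · subst hQP; exact ⟨_, Or.inl rfl, mem_union_left _ hw⟩
        · by_cases hQP' : Q = P'
          · subst hQP'; exact ⟨_, Or.inl rfl, mem_union_right _ hw⟩
          · exact ⟨Q, Or.inr ⟨hQP', hQP, hQ⟩, hw⟩
    have e2 : PP.biUnion (Inn Nb (K ∪ X)) ⊆ PM.biUnion (Inn Nb (K ∪ X)) := by
      intro x hx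
      rw [mem_biUnion] at hx ⊢
      obtain ⟨Q, hQ, hx⟩ := hx
      by_cases hQP : Q = P
      · subst hQP
        exact ⟨_, mem_insert_self _ _, Inn_mono Nb _ subset_union_left hx⟩
      · by_cases hQP' : Q = P'
        · subst hQP'
          exact ⟨_, mem_insert_self _ _, Inn_mono Nb _ subset_union_right hx⟩
        · exact ⟨Q, mem_insert_of_mem (mem_erase.2 ⟨hQP', mem_erase.2 ⟨hQP, hQ⟩⟩), hx⟩
    rw [← e1]
    exact (card_le_card e2).trans key
  · push Not at hmerge
    rcases PP.eq_empty_or_nonempty with rfl | ⟨P₁, hP₁⟩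
    · simp
    set PQ := PP.erase P₁ with hPQ
    have hins : insert P₁ PQ = PP := insert_erase hP₁
    have hcard : PQ.card < n := by
      rw [← hn]; exact card_erase_lt_of_mem hP₁
    have hIH := ih _ hcard PQ rfl (fun P hP => hlow P (mem_of_mem_erase hP))
    have hzero : ∀ Q ∈ PQ.image (fun P => P₁ ∩ P), Q.card ≤ (Inn Nb K Q).card := by
      intro Q hQ
      obtain ⟨P, hP, rfl⟩ := mem_image.1 hQ
      rw [hPQ, mem_erase] at hP
      have a1 := hmerge P₁ hP₁ P hP.2 (Ne.symm hP.1)
      have a2 := hlow P₁ hP₁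
      have a3 := hlow P hP.2
      have a4 := card_union_add_card_inter P₁ P
      have a5 := Inn_supermod Nb K P₁ P
      omega
    have hL1 := h.low_card (hlow P₁ hP₁)
    rcases h.zero_biUnion _ hzero with ⟨hz, hI⟩ | hempty
    · rw [← hins, biUnion_insert, biUnion_insert]
      set Z := (PQ.image (fun P => P₁ ∩ P)).biUnion id with hZ
      have hZeq : Z = P₁ ∩ PQ.biUnion id := by
        ext w
        simp only [hZ, mem_biUnion, mem_image, mem_inter, id]
        constructor
        · rintro ⟨Q, ⟨P, hP, rfl⟩, hw⟩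
          rw [mem_inter] at hw
          exact ⟨hw.1, P, hP, hw.2⟩
        · rintro ⟨h1, P, hP, hw⟩
          exact ⟨_, ⟨P, hP, rfl⟩, mem_inter.2 ⟨h1, hw⟩⟩
      have hsub : Inn Nb (K ∪ X) Z ⊆
          Inn Nb (K ∪ X) P₁ ∩ PQ.biUnion (Inn Nb (K ∪ X)) := by
        refine hI.trans ?_
        intro x hx
        rw [mem_biUnion] at hx
        obtain ⟨Q, hQ, hx⟩ := hx
        obtain ⟨P, hP, rfl⟩ := mem_image.1 hQ
        rw [Inn_inter, mem_inter] at hx
        rw [mem_inter, mem_biUnion]
        exact ⟨hx.1, P, hP, hx.2⟩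
      have b1 : Z.card ≤ (Inn Nb (K ∪ X) Z).card := by
        rw [h.card_split]; omega
      have b2 := card_le_card hsub
      have b3 := card_union_add_card_inter (Inn Nb (K ∪ X) P₁) (PQ.biUnion (Inn Nb (K ∪ X)))
      have b4 := card_union_add_card_inter P₁ (PQ.biUnion id)
      rw [← hZeq] at b4
      simp only [id] at b4 hIH ⊢
      omega
    · have hemp : PQ = ∅ := by
        rw [image_eq_empty] at hempty
        exact hempty
      rw [← hins, hemp]
      simpa using hL1

/-- `J` has codimension exactly two. -/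
def Two (Nb : α → Finset Ω) (K : Finset α) (J : Finset Ω) : Prop :=
  J.card = (Inn Nb K J).card + 2

/-- maximal codimension-two sets carrying at least three members of `X` -/
def Big (Nb : α → Finset Ω) (K X : Finset α) (J : Finset Ω) : Prop :=
  Two Nb K J ∧ 3 ≤ (Inn Nb X J).card ∧ ∀ J', Two Nb K J' → J ⊆ J' → J' = J

theorem Simp.big_inter_low (h : Simp Nb K X) {J J' : Finset Ω}
    (hJ : Big Nb K X J) (hJ' : Big Nb K X J') (hne : J ≠ J') :
    (J ∩ J').card ≤ (Inn Nb K (J ∩ J')).card + 1 := by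
  have a1 := card_union_add_card_inter J J'
  have a2 := Inn_supermod Nb K J J'
  have a3 : 2 ≤ (Inn Nb X (J ∪ J')).card := by
    have := card_le_card (Inn_mono Nb X (subset_union_left (s₁ := J) (s₂ := J')))
    have := hJ.2.1
    omega
  have a4 := h.two_le a3
  have a5 : ¬ Two Nb K (J ∪ J') := by
    intro hT
    have e1 := hJ.2.2 _ hT subset_union_left
    have e2 := hJ'.2.2 _ hT subset_union_right
    exact hne (e1.symm.trans e2)
  have a6 := hJ.1
  have a7 := hJ'.1
  unfold Two at a5 a6 a7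
  omega

theorem Simp.big_family (h : Simp Nb K X) (𝓕 : Finset (Finset Ω))
    (hF : ∀ J ∈ 𝓕, Big Nb K X J) :
    (𝓕.biUnion id).card + ∑ J ∈ 𝓕, ((Inn Nb X J).card - 2)
      ≤ (𝓕.biUnion (Inn Nb (K ∪ X))).card := by
  classical
  induction 𝓕 using Finset.induction_on with
  | empty => simp
  | insert J₀ 𝓕 hnot ih =>
    have ih' := ih (fun J hJ => hF J (mem_insert_of_mem hJ))
    have hJ₀ := hF J₀ (mem_insert_self _ _)
    rw [biUnion_insert, biUnion_insert, sum_insert hnot]
    have hlow : ∀ P ∈ 𝓕.image (fun J => J₀ ∩ J), P.card ≤ (Inn Nb K P).card + 1 := by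
      intro P hP
      obtain ⟨J, hJ, rfl⟩ := mem_image.1 hP
      exact h.big_inter_low hJ₀ (hF J (mem_insert_of_mem hJ))
        (fun e => hnot (e ▸ hJ))
    have hA := h.claimA _ _ rfl hlow
    have e1 : (𝓕.image (fun J => J₀ ∩ J)).biUnion id = J₀ ∩ 𝓕.biUnion id := by
      ext w
      simp only [mem_biUnion, mem_image, mem_inter, id]
      constructor
      · rintro ⟨Q, ⟨P, hP, rfl⟩, hw⟩
        rw [mem_inter] at hw
        exact ⟨hw.1, P, hP, hw.2⟩
      · rintro ⟨h1, P, hP, hw⟩
        exact ⟨_, ⟨P, hP, rfl⟩, mem_inter.2 ⟨h1, hw⟩⟩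
    have e2 : (𝓕.image (fun J => J₀ ∩ J)).biUnion (Inn Nb (K ∪ X))
        = Inn Nb (K ∪ X) J₀ ∩ 𝓕.biUnion (Inn Nb (K ∪ X)) := by
      ext x
      simp only [mem_biUnion, mem_image, mem_inter]
      constructor
      · rintro ⟨Q, ⟨P, hP, rfl⟩, hw⟩
        rw [Inn_inter, mem_inter] at hw
        exact ⟨hw.1, P, hP, hw.2⟩
      · rintro ⟨h1, P, hP, hw⟩
        refine ⟨_, ⟨P, hP, rfl⟩, ?_⟩
        rw [Inn_inter, mem_inter]
        exact ⟨h1, hw⟩
    rw [e1, e2] at hA
    have b1 := card_union_add_card_inter (Inn Nb (K ∪ X) J₀) (𝓕.biUnion (Inn Nb (K ∪ X)))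
    have b2 := card_union_add_card_inter J₀ (𝓕.biUnion id)
    have b3 := h.card_split J₀
    have b4 := hJ₀.1
    have b5 := hJ₀.2.1
    unfold Two at b4
    rw [id]
    omega

/-- A set `B ⊆ X` is independent modulo `K`. -/
def Hall (Nb : α → Finset Ω) (S : Finset α) : Prop :=
  ∀ J : Finset Ω, (Inn Nb S J).card ≤ J.card

theorem Simp.big_sum (h : Simp Nb K X) (𝓕 : Finset (Finset Ω))
    (hF : ∀ J ∈ 𝓕, Big Nb K X J) {B : Finset α} (hBX : B ⊆ X)
    (hB : Hall Nb (K ∪ B)) :
    ∑ J ∈ 𝓕, ((Inn Nb X J).card - 2) + B.card ≤ X.card := by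
  classical
  have hfam := h.big_family 𝓕 hF
  set U := 𝓕.biUnion id with hU
  set W := 𝓕.biUnion (Inn Nb (K ∪ X)) with hW
  have hWU : W ⊆ Inn Nb (K ∪ X) U := by
    intro x hx
    rw [hW, mem_biUnion] at hx
    obtain ⟨J, hJ, hx⟩ := hx
    refine Inn_mono Nb _ ?_ hx
    intro w hw
    rw [hU, mem_biUnion]
    exact ⟨J, hJ, hw⟩
  have hWK : (W ∩ K).card ≤ (Inn Nb K U).card := by
    apply card_le_card
    intro x hx
    rw [mem_inter] at hx
    have := hWU hx.1
    rw [mem_Inn] at this ⊢
    exact ⟨hx.2, this.2⟩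
  have hWsplit : W.card = (W ∩ K).card + (W ∩ X).card := by
    have : W = (W ∩ K) ∪ (W ∩ X) := by
      rw [← inter_union_distrib_left]
      symm
      apply inter_eq_left.2
      intro x hx
      have := hWU hx
      rw [mem_Inn] at this
      exact this.1
    conv_lhs => rw [this]
    apply card_union_of_disjoint
    refine disjoint_of_subset_left inter_subset_right (disjoint_of_subset_right inter_subset_right h.disj)
  have hBW : (Inn Nb K U).card + (B ∩ W).card ≤ U.card := by
    refine le_trans ?_ (hB U)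
    rw [Inn_union_left, card_union_of_disjoint]
    · apply Nat.add_le_add_left
      apply card_le_card
      intro x hx
      rw [mem_inter] at hx
      have := hWU hx.2
      rw [mem_Inn] at this ⊢
      exact ⟨hx.1, this.2⟩
    · refine disjoint_of_subset_left ?_ (disjoint_of_subset_right ?_ h.disj)
      · intro x hx; exact ((mem_Inn Nb).1 hx).1
      · intro x hx; exact hBX ((mem_Inn Nb).1 hx).1
  have hB1 : B.card = (B ∩ W).card + (B \ W).card := (card_inter_add_card_sdiff B W).symm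
  have hX1 : X.card = (X ∩ W).card + (X \ W).card := (card_inter_add_card_sdiff X W).symm
  have hBX' : (B \ W).card ≤ (X \ W).card := card_le_card (sdiff_subset_sdiff hBX (Subset.refl _))
  rw [inter_comm X W] at hX1
  omega

end Pool.Agent.Helper35.Gamm
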