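import Mathlib
import Pool.Agent.Helper35.GammFam

set_option autoImplicit false

namespace Pool.Agent.Helper35.Gamm

open Finset

variable {α Ω : Type} [DecidableEq α] [DecidableEq Ω] [Fintype Ω]
variable {Nb : α → Finset Ω} {K X : Finset α}

theorem exists_big {J : Finset Ω} (hJ : Two Nb K J)
    (h3 : 3 ≤ (Inn Nb X J).card) : ∃ J', Big Nb K X J' ∧ J ⊆ J' := by
  classical
  obtain ⟨J', hJ', hmax⟩ := Finset.exists_max_image
    ((univ : Finset (Finset Ω)).filter (fun J' => Two Nb K J' ∧ J ⊆ J')) Finset.card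
    ⟨J, by simp [hJ]⟩
  simp only [mem_filter, mem_univ, true_and] at hJ' hmax
  refine ⟨J', ⟨hJ'.1, h3.trans (card_le_card (Inn_mono Nb X hJ'.2)), ?_⟩, hJ'.2⟩
  intro J'' h1 h2
  exact (eq_of_subset_of_card_le h2 (hmax J'' ⟨h1, hJ'.2.trans h2⟩)).symm

theorem Simp.mono (h : Simp Nb K X) {Y : Finset α} (hY : Y ⊆ X) : Simp Nb K Y where
  disj := disjoint_of_subset_right hY h.disj
  hK := h.hK
  h1 := fun x hx => h.h1 x (hY hx)
  h2 := fun x hx y hy => h.h2 x (hY hx) y (hY hy)

theorem Inn_insert_le (p : α) (J : Finset Ω) :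
    (Inn Nb (insert p K) J).card ≤ (Inn Nb K J).card + 1 := by
  have : Inn Nb (insert p K) J ⊆ insert p (Inn Nb K J) := by
    intro x hx
    rw [mem_Inn, mem_insert] at hx
    rw [mem_insert, mem_Inn]
    tauto
  exact (card_le_card this).trans (card_insert_le _ _)

theorem Inn_insert_of_not {p : α} {J : Finset Ω} (hp : ¬ Nb p ⊆ J) :
    Inn Nb (insert p K) J = Inn Nb K J := by
  ext x
  rw [mem_Inn, mem_Inn, mem_insert]
  constructor
  · rintro ⟨rfl | hx, h2⟩
    · exact absurd h2 hp
    · exact ⟨hx, h2⟩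
  · rintro ⟨hx, h2⟩
    exact ⟨Or.inr hx, h2⟩

/-- the big lines, as a finite set -/
noncomputable def bigs (Nb : α → Finset Ω) (K X : Finset α) : Finset (Finset Ω) := by
  classical
  exact (univ : Finset (Finset Ω)).filter (Big Nb K X)

theorem mem_bigs {J : Finset Ω} : J ∈ bigs Nb K X ↔ Big Nb K X J := by
  classical
  unfold bigs
  simp

theorem Simp.contract (h : Simp Nb K X) {p : α} (hp : p ∈ X) :
    ∃ X' ⊆ X.erase p, Simp Nb (insert p K) X' ∧
      X.card ≤ X'.card + 1 +
        ∑ J ∈ (bigs Nb K X).filter (fun J => Nb p ⊆ J), ((Inn Nb X J).card - 2) := by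
  classical
  have hρ : ∀ J : Finset Ω, ∃ ρ : α, J ∈ bigs Nb K X → Nb p ⊆ J → (ρ ∈ Inn Nb X J ∧ ρ ≠ p) := by
    intro J
    by_cases hJ : J ∈ bigs Nb K X ∧ Nb p ⊆ J
    · rw [mem_bigs] at hJ
      obtain ⟨ρ, h1, h2⟩ := exists_mem_ne (show 1 < (Inn Nb X J).card by have := hJ.1.2.1; omega) p
      exact ⟨ρ, fun _ _ => ⟨h1, h2⟩⟩
    · exact ⟨p, fun h1 h2 => absurd ⟨h1, h2⟩ hJ⟩
  choose ρ hρ using hρ
  set FF := (bigs Nb K X).filter (fun J => Nb p ⊆ J) with hFF
  set D := FF.biUnion (fun J => (Inn Nb X J) \ {p, ρ J}) with hD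
  have hDc : D.card ≤ ∑ J ∈ FF, ((Inn Nb X J).card - 2) := by
    refine card_biUnion_le.trans (sum_le_sum ?_)
    intro J hJ
    rw [hFF, mem_filter] at hJ
    obtain ⟨hr1, hr2⟩ := hρ J hJ.1 hJ.2
    have hsub : ({p, ρ J} : Finset α) ⊆ Inn Nb X J := by
      intro x hx
      rw [mem_insert, mem_singleton] at hx
      rcases hx with rfl | rfl
      · rw [mem_Inn]; exact ⟨hp, hJ.2⟩
      · exact hr1
    rw [card_sdiff_of_subset hsub, card_pair (Ne.symm hr2)]
  refine ⟨X.erase p \ D, sdiff_subset, ?_, ?_⟩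
  · constructor
    · rw [disjoint_left]
      intro x hx hx'
      rw [mem_sdiff, mem_erase] at hx'
      rw [mem_insert] at hx
      rcases hx with rfl | hx
      · exact hx'.1.1 rfl
      · exact (disjoint_left.1 h.disj) hx hx'.1.2
    · intro J
      by_cases hpJ : Nb p ⊆ J
      · exact (Inn_insert_le p J).trans (h.h1 p hp J hpJ)
      · rw [Inn_insert_of_not hpJ]; exact h.hK J
    · intro x hx J hxJ
      rw [mem_sdiff, mem_erase] at hx
      by_cases hpJ : Nb p ⊆ J
      · have := Inn_insert_le (Nb := Nb) (K := K) p J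
        have := h.h2 x hx.1.2 p hp hx.1.1 J hxJ hpJ
        omega
      · rw [Inn_insert_of_not hpJ]; exact h.h1 x hx.1.2 J hxJ
    · intro x hx y hy hxy J hxJ hyJ
      rw [mem_sdiff, mem_erase] at hx hy
      by_cases hpJ : Nb p ⊆ J
      · have a1 := Inn_insert_le (Nb := Nb) (K := K) p J
        have a2 := h.h2 x hx.1.2 p hp hx.1.1 J hxJ hpJ
        by_contra hcon
        have hTwo : Two Nb K J := by unfold Two; omega
        have h3 : 3 ≤ (Inn Nb X J).card := by
          have : ({p, x, y} : Finset α) ⊆ Inn Nb X J := by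
            intro z hz
            simp only [mem_insert, mem_singleton] at hz
            rw [mem_Inn]
            rcases hz with rfl | rfl | rfl
            · exact ⟨hp, hpJ⟩
            · exact ⟨hx.1.2, hxJ⟩
            · exact ⟨hy.1.2, hyJ⟩
          have hc : ({p, x, y} : Finset α).card = 3 := by
            rw [card_eq_three]
            exact ⟨p, x, y, Ne.symm hx.1.1, Ne.symm hy.1.1, hxy, rfl⟩
          rw [← hc]
          exact card_le_card this
        obtain ⟨J', hJ', hJJ'⟩ := exists_big hTwo h3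
        have hJ'F : J' ∈ FF := by
          rw [hFF, mem_filter, mem_bigs]
          exact ⟨hJ', hpJ.trans hJJ'⟩
        have hxr : x = ρ J' := by
          by_contra hne
          apply hx.2
          rw [hD, mem_biUnion]
          refine ⟨J', hJ'F, ?_⟩
          rw [mem_sdiff, mem_Inn]
          refine ⟨⟨hx.1.2, hxJ.trans hJJ'⟩, ?_⟩
          simp only [mem_insert, mem_singleton, not_or]
          exact ⟨hx.1.1, hne⟩
        have hyr : y = ρ J' := by
          by_contra hne
          apply hy.2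
          rw [hD, mem_biUnion]
          refine ⟨J', hJ'F, ?_⟩
          rw [mem_sdiff, mem_Inn]
          refine ⟨⟨hy.1.2, hyJ.trans hJJ'⟩, ?_⟩
          simp only [mem_insert, mem_singleton, not_or]
          exact ⟨hy.1.1, hne⟩
        exact hxy (hxr.trans hyr.symm)
      · rw [Inn_insert_of_not hpJ]; exact h.h2 x hx.1.2 y hy.1.2 hxy J hxJ hyJ
  · have h1 : (X.erase p).card ≤ (X.erase p \ D).card + D.card := by
      have := card_le_card (show X.erase p ⊆ (X.erase p \ D) ∪ D by
        intro x hx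
        by_cases hxD : x ∈ D
        · exact mem_union_right _ hxD
        · exact mem_union_left _ (mem_sdiff.2 ⟨hx, hxD⟩))
      exact this.trans (card_union_le _ _)
    rw [card_erase_of_mem hp] at h1
    omega

theorem Simp.hall_one (h : Simp Nb K X) {x : α} (hx : x ∈ X) : Hall Nb (K ∪ {x}) := by
  intro J
  rw [union_comm, ← insert_eq]
  by_cases hxJ : Nb x ⊆ J
  · exact (Inn_insert_le x J).trans (h.h1 x hx J hxJ)
  · rw [Inn_insert_of_not hxJ]; exact h.hK J

theorem Simp.hall_two (h : Simp Nb K X) {x y : α} (hx : x ∈ X) (hy : y ∈ X) (hxy : x ≠ y) :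
    Hall Nb (K ∪ {x, y}) := by
  intro J
  have e : K ∪ {x, y} = insert x (insert y K) := by
    ext z; simp only [mem_union, mem_insert, mem_singleton]; tauto
  rw [e]
  by_cases hxJ : Nb x ⊆ J
  · by_cases hyJ : Nb y ⊆ J
    · have a1 := Inn_insert_le (Nb := Nb) (K := insert y K) x J
      have a2 := Inn_insert_le (Nb := Nb) (K := K) y J
      have a3 := h.h2 x hx y hy hxy J hxJ hyJ
      omega
    · have a1 := Inn_insert_le (Nb := Nb) (K := insert y K) x J
      rw [Inn_insert_of_not hyJ] at a1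
      exact a1.trans (h.h1 x hx J hxJ)
  · rw [Inn_insert_of_not hxJ]
    by_cases hyJ : Nb y ⊆ J
    · exact (Inn_insert_le y J).trans (h.h1 y hy J hyJ)
    · rw [Inn_insert_of_not hyJ]; exact h.hK J

theorem extremal (q : ℕ) (hq : 2 ≤ q) (K₀ E : Finset α)
    (hline : ∀ K X : Finset α, K₀ ⊆ K → K ∪ X ⊆ K₀ ∪ E → Simp Nb K X →
      ∀ J, Two Nb K J → (∀ x ∈ X, Nb x ⊆ J) → X.card ≤ q + 1) :
    ∀ (n : ℕ) (K X : Finset α), X.card = n → K₀ ⊆ K → K ∪ X ⊆ K₀ ∪ E → Simp Nb K X →
      X.Nonempty → ∃ B ⊆ X, Hall Nb (K ∪ B) ∧ X.card + q ≤ q * B.card + 1 := by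
  classical
  intro n
  induction n using Nat.strong_induction_on with
  | _ n ih =>
  intro K X hn hK₀ hE h hne
  obtain ⟨B, hB, hmax⟩ := Finset.exists_max_image
    (X.powerset.filter (fun B => Hall Nb (K ∪ B))) Finset.card
    ⟨∅, by
      rw [mem_filter]
      refine ⟨empty_mem_powerset _, ?_⟩
      rw [union_empty]; exact h.hK⟩
  simp only [mem_filter, mem_powerset] at hB hmax
  refine ⟨B, hB.1, hB.2, ?_⟩
  by_contra hcon
  push Not at hcon
  set r := B.card with hr
  have hr1 : 1 ≤ r := by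
    obtain ⟨x, hx⟩ := hne
    have := hmax {x} ⟨singleton_subset_iff.2 hx, h.hall_one hx⟩
    simpa using this
  have hX2 : 2 ≤ X.card := by
    by_contra hlt
    have : X.card ≤ 1 := by omega
    nlinarith
  have hr2 : 2 ≤ r := by
    obtain ⟨x, hx, y, hy, hxy⟩ := one_lt_card.1 (show 1 < X.card by omega)
    have := hmax {x, y} ⟨by
      intro z hz
      rw [mem_insert, mem_singleton] at hz
      rcases hz with rfl | rfl <;> assumption, h.hall_two hx hy hxy⟩
    rwa [card_pair hxy] at this
  have hδ : ∀ p ∈ X, X.card + 2 * q ≤ q * r + 2 +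
      ∑ J ∈ (bigs Nb K X).filter (fun J => Nb p ⊆ J), ((Inn Nb X J).card - 2) := by
    intro p hp
    obtain ⟨X', hX', hS, hc⟩ := h.contract hp
    rcases X'.eq_empty_or_nonempty with hem | hne'
    · subst hem
      rw [card_empty] at hc
      nlinarith
    · have hlt : X'.card < n := by
        rw [← hn]
        exact (card_le_card hX').trans_lt (card_erase_lt_of_mem hp)
      obtain ⟨B', hB', hH, hb⟩ := ih _ hlt (insert p K) X' rfl
        (hK₀.trans (subset_insert _ _)) (by
          refine Subset.trans ?_ hE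
          intro z hz
          rw [mem_union, mem_insert] at hz
          rw [mem_union]
          rcases hz with (rfl | hz) | hz
          · exact Or.inr hp
          · exact Or.inl hz
          · exact Or.inr (mem_of_mem_erase (hX' hz))) hS hne'
      have hpB : p ∉ B' := by
        intro hpB
        exact (mem_erase.1 (hX' (hB' hpB))).1 rfl
      have := hmax (insert p B') ⟨by
        intro z hz
        rw [mem_insert] at hz
        rcases hz with rfl | hz
        · exact hp
        · exact mem_of_mem_erase (hX' (hB' hz)), by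
        have e : K ∪ insert p B' = insert p K ∪ B' := by
          ext z; simp only [mem_union, mem_insert]; tauto
        rw [e]; exact hH⟩
      rw [card_insert_of_notMem hpB] at this
      have h3 : q * B'.card + q ≤ q * r := by
        have := Nat.mul_le_mul_left q this
        rw [Nat.mul_add, Nat.mul_one] at this
        exact this
      omega
  have hsum := sum_le_sum hδ
  rw [sum_const, sum_add_distrib, sum_const, smul_eq_mul, smul_eq_mul] at hsum
  have hswap : ∑ p ∈ X, ∑ J ∈ (bigs Nb K X).filter (fun J => Nb p ⊆ J), ((Inn Nb X J).card - 2)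
      = ∑ J ∈ bigs Nb K X, (Inn Nb X J).card * ((Inn Nb X J).card - 2) := by
    simp_rw [sum_filter]
    rw [sum_comm]
    apply sum_congr rfl
    intro J _
    rw [← sum_filter, sum_const, smul_eq_mul]
    rfl
  have hbound : ∑ J ∈ bigs Nb K X, (Inn Nb X J).card * ((Inn Nb X J).card - 2)
      ≤ (q + 1) * ∑ J ∈ bigs Nb K X, ((Inn Nb X J).card - 2) := by
    rw [mul_sum]
    apply sum_le_sum
    intro J hJ
    rw [mem_bigs] at hJ
    apply Nat.mul_le_mul_right
    apply hline K (Inn Nb X J) hK₀ _ (h.mono (fun x hx => ((mem_Inn Nb).1 hx).1)) J hJ.1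
      (fun x hx => ((mem_Inn Nb).1 hx).2)
    refine Subset.trans (union_subset_union (Subset.refl _) ?_) hE
    intro x hx
    exact ((mem_Inn Nb).1 hx).1
  have hbs := h.big_sum (bigs Nb K X) (fun J hJ => mem_bigs.1 hJ) hB.1 hB.2
  rw [hswap] at hsum
  obtain ⟨t, ht⟩ : ∃ t, X.card + q = q * r + 2 + t := ⟨X.card + q - (q * r + 2), by omega⟩
  set N := X.card
  set s := ∑ J ∈ bigs Nb K X, ((Inn Nb X J).card - 2)
  have e1 : N + 2 * q = q * r + 2 + t + q := by omega
  rw [e1] at hsum
  have e2 : N * (q * r + 2 + t + q) = N * (q * r + 2) + N * t + N * q := by ring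
  rw [e2] at hsum
  have e3 : N * t + N * q ≤ (q + 1) * s := by omega
  have e4 : (q + 1) * (s + r) ≤ (q + 1) * N := Nat.mul_le_mul_left _ hbs
  have e5 : N * t + (q + 1) * r ≤ N := by nlinarith
  rcases Nat.eq_zero_or_pos t with ht0 | ht0
  · subst ht0
    nlinarith
  · have : N ≤ N * t := Nat.le_mul_of_pos_right _ ht0
    nlinarith

end Pool.Agent.Helper35.Gamm
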