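import Mathlib

set_option autoImplicit false

namespace Pool.Agent.Helper35.Gamm

open Finset Module

theorem rado {k U ι : Type} [Field k] [AddCommGroup U] [Module k U] [FiniteDimensional k U]
    [Fintype ι] [DecidableEq ι] [DecidableEq U] :
    ∀ (n : ℕ) (S : ι → Finset U), ∑ i, (S i).card = n →
      (∀ B : Finset ι, B.card ≤ finrank k (Submodule.span k (↑(B.biUnion S) : Set U))) →
      ∃ u : ι → U, (∀ i, u i ∈ S i) ∧ LinearIndependent k u := by
  intro n
  induction n using Nat.strong_induction_on with
  | _ n ih =>
  intro S hn hS
  by_cases hall : ∀ i, (S i).card ≤ 1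
  · have hne : ∀ i, (S i).Nonempty := by
      intro i
      by_contra hemp
      rw [not_nonempty_iff_eq_empty] at hemp
      have := hS {i}
      simp [hemp] at this
    choose u hu using hne
    refine ⟨u, hu, ?_⟩
    have hSi : ∀ i, S i = {u i} := by
      intro i
      rw [eq_singleton_iff_unique_mem]
      refine ⟨hu i, ?_⟩
      intro x hx
      exact card_le_one.1 (hall i) x hx (u i) (hu i)
    rw [linearIndependent_iff_card_le_finrank_span]
    have := hS univ
    have e : (↑((univ : Finset ι).biUnion S) : Set U) = Set.range u := by
      ext x
      simp [hSi, eq_comm]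
    rw [e] at this
    simpa [Set.finrank] using this
  · push Not at hall
    obtain ⟨i, hi⟩ := hall
    obtain ⟨x, hx, y, hy, hxy⟩ := one_lt_card.1 hi
    have main : ∀ z ∈ S i,
        (∃ u : ι → U, (∀ j, u j ∈ S j) ∧ LinearIndependent k u) ∨
        ∃ B : Finset ι, i ∈ B ∧
          finrank k (Submodule.span k
            (↑(B.biUnion (Function.update S i ((S i).erase z))) : Set U)) + 1 ≤ B.card := by
      intro z hz
      by_cases hc : ∀ B : Finset ι, B.card ≤ finrank k (Submodule.span k
            (↑(B.biUnion (Function.update S i ((S i).erase z))) : Set U))
      · left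
        obtain ⟨u, hu, hlu⟩ := ih (∑ j, (Function.update S i ((S i).erase z) j).card) (by
          rw [← hn]
          apply sum_lt_sum
          · intro j _
            by_cases hj : j = i
            · subst hj; simp only [Function.update_self]; exact card_le_card (erase_subset _ _)
            · rw [Function.update_of_ne hj]
          · refine ⟨i, mem_univ _, ?_⟩
            simp only [Function.update_self]
            exact card_erase_lt_of_mem hz) (Function.update S i ((S i).erase z)) rfl hc
        refine ⟨u, ?_, hlu⟩
        intro j
        have := hu j
        by_cases hj : j = i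
        · subst hj; simp only [Function.update_self] at this; exact mem_of_mem_erase this
        · rwa [Function.update_of_ne hj] at this
      · right
        push Not at hc
        obtain ⟨B, hB⟩ := hc
        refine ⟨B, ?_, hB⟩
        by_contra hiB
        have e : B.biUnion (Function.update S i ((S i).erase z)) = B.biUnion S := by
          apply biUnion_congr rfl
          intro j hj
          rw [Function.update_of_ne]
          rintro rfl
          exact hiB hj
        rw [e] at hB
        have := hS B
        omega
    rcases main x hx with h | ⟨Bx, hiBx, hBx⟩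
    · exact h
    rcases main y hy with h | ⟨By, hiBy, hBy⟩
    · exact h
    exfalso
    set Mx := Submodule.span k (↑(Bx.biUnion (Function.update S i ((S i).erase x))) : Set U) with hMx
    set My := Submodule.span k (↑(By.biUnion (Function.update S i ((S i).erase y))) : Set U) with hMy
    have h1 : (Bx ∪ By).card ≤ finrank k ↥(Mx ⊔ My) := by
      refine (hS (Bx ∪ By)).trans ?_
      apply Submodule.finrank_mono
      rw [hMx, hMy, ← Submodule.span_union]
      apply Submodule.span_mono
      intro w hw
      simp only [coe_biUnion, Set.mem_iUnion, mem_coe, Set.mem_union] at hw ⊢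
      obtain ⟨j, hj, hw⟩ := hw
      by_cases hji : j = i
      · subst hji
        by_cases hwx : w = x
        · right
          refine ⟨j, hiBy, ?_⟩
          simp only [Function.update_self]
          exact mem_erase.2 ⟨by rw [hwx]; exact hxy, hw⟩
        · left
          refine ⟨j, hiBx, ?_⟩
          simp only [Function.update_self]
          exact mem_erase.2 ⟨hwx, hw⟩
      · rcases mem_union.1 hj with hj | hj
        · left
          exact ⟨j, hj, by rw [Function.update_of_ne hji]; exact hw⟩
        · right
          exact ⟨j, hj, by rw [Function.update_of_ne hji]; exact hw⟩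
    have h2 : ((Bx ∩ By).erase i).card ≤ finrank k ↥(Mx ⊓ My) := by
      refine (hS ((Bx ∩ By).erase i)).trans ?_
      apply Submodule.finrank_mono
      apply le_inf
      · apply Submodule.span_mono
        intro w hw
        simp only [coe_biUnion, Set.mem_iUnion, mem_coe] at hw ⊢
        obtain ⟨j, hj, hw⟩ := hw
        rw [mem_erase, mem_inter] at hj
        exact ⟨j, hj.2.1, by rw [Function.update_of_ne hj.1]; exact hw⟩
      · apply Submodule.span_mono
        intro w hw
        simp only [coe_biUnion, Set.mem_iUnion, mem_coe] at hw ⊢
        obtain ⟨j, hj, hw⟩ := hw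
        rw [mem_erase, mem_inter] at hj
        exact ⟨j, hj.2.2, by rw [Function.update_of_ne hj.1]; exact hw⟩
    have h3 := Submodule.finrank_sup_add_finrank_inf_eq Mx My
    have h4 := card_union_add_card_inter Bx By
    have h5 : i ∈ Bx ∩ By := mem_inter.2 ⟨hiBx, hiBy⟩
    rw [card_erase_of_mem h5] at h2
    have h6 : 0 < (Bx ∩ By).card := card_pos.2 ⟨i, h5⟩
    omega

end Pool.Agent.Helper35.Gamm
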