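import Mathlib
import Pool.Agent.Helper35.GammRado

set_option autoImplicit false

namespace Pool.Agent.Helper35.Gamm

open Finset Module

theorem exists_map {F P V ι : Type} [Field F] [Field P] [Algebra P F] [FiniteDimensional P F]
    [AddCommGroup V] [Module F V] [FiniteDimensional F V] [Fintype ι] (k : ℕ) (v : ι → V)
    (hA : ∀ B : Finset ι, B.card ≤ finrank F (Submodule.span F (v '' ↑B)) * (k * finrank P F)) :
    ∃ L : V →ₗ[F] (Fin k → F), ∀ i, L (v i) ≠ 0 := by
  classical
  let W := Fin k → F
  let H := V →ₗ[F] W
  let ev : ι → (H →ₗ[P] W) := fun e =>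
    { toFun := fun L => L (v e)
      map_add' := fun _ _ => rfl
      map_smul' := fun _ _ => rfl }
  let bas := Module.finBasis P (Dual P W)
  let S : ι → Finset (Dual P H) := fun e => univ.image (fun j => (bas j) ∘ₗ ev e)
  have hfW : finrank P W = k * finrank P F := by
    have : finrank P (Fin k → F) = _ := Module.finrank_pi_fintype P (M := fun _ : Fin k => F)
    simpa using this
  have hcond : ∀ B : Finset ι, B.card ≤ finrank P (Submodule.span P (↑(B.biUnion S) : Set (Dual P H))) := by
    intro B
    refine (hA B).trans ?_
    set D := Submodule.span P (↑(B.biUnion S) : Set (Dual P H)) with hD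
    set T := Submodule.span F (v '' ↑B) with hT
    let ρ : H →ₗ[P] (T →ₗ[F] W) :=
      { toFun := fun L => L ∘ₗ T.subtype
        map_add' := fun _ _ => rfl
        map_smul' := fun _ _ => rfl }
    have hsurj : LinearMap.range ρ = ⊤ := by
      rw [LinearMap.range_eq_top]
      intro g
      obtain ⟨L, hL⟩ := LinearMap.exists_extend g
      exact ⟨L, hL⟩
    have hker : D.dualCoannihilator ≤ LinearMap.ker ρ := by
      intro L hL
      rw [Submodule.mem_dualCoannihilator] at hL
      rw [LinearMap.mem_ker]
      have hz : ∀ e ∈ B, L (v e) = 0 := by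
        intro e he
        by_contra hne
        have hall : ∀ τ : Dual P W, τ (L (v e)) = 0 := by
          intro τ
          have : τ ∈ Submodule.span P (Set.range bas) := by
            rw [bas.span_eq]; trivial
          refine Submodule.span_induction (p := fun τ _ => τ (L (v e)) = 0) ?_ ?_ ?_ ?_ this
          · rintro _ ⟨j, rfl⟩
            have := hL ((bas j) ∘ₗ ev e) (by
              apply Submodule.subset_span
              simp only [coe_biUnion, Set.mem_iUnion, mem_coe]
              exact ⟨e, he, mem_image.2 ⟨j, mem_univ _, rfl⟩⟩)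
            exact this
          · rfl
          · intro x y _ _ hx hy
            rw [LinearMap.add_apply, hx, hy, add_zero]
          · intro c x _ hx
            rw [LinearMap.smul_apply, hx, smul_zero]
        exact hne ((Module.forall_dual_apply_eq_zero_iff P (L (v e))).1 hall)
      have hle : T ≤ LinearMap.ker L := by
        rw [hT, Submodule.span_le]
        rintro _ ⟨e, he, rfl⟩
        exact hz e he
      ext x
      have : L x.1 = 0 := hle x.2
      change (L x.1) _ = 0
      rw [this]; rfl
    have e1 := Subspace.finrank_add_finrank_dualCoannihilator_eq D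
    have e2 := LinearMap.finrank_range_add_finrank_ker ρ
    rw [hsurj, finrank_top, Module.finrank_linearMap, hfW] at e2
    have e3 := Submodule.finrank_mono hker
    omega
  obtain ⟨u, hu, hlu⟩ := rado _ S rfl hcond
  obtain ⟨g, hg⟩ := LinearMap.exists_extend ((Basis.span hlu).constr P (fun _ => (1 : P)))
  have hg1 : ∀ e, g (u e) = 1 := by
    intro e
    have h1 : ((Basis.span hlu) e : Dual P H) = u e := by rw [Basis.span_apply]
    rw [← h1]
    have h2 := congrArg (fun f => f ((Basis.span hlu) e)) hg
    simp only [LinearMap.comp_apply, Submodule.subtype_apply, Basis.constr_basis] at h2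
    exact h2
  refine ⟨(evalEquiv P H).symm g, ?_⟩
  intro e h0
  have h1 := apply_evalEquiv_symm_apply P H (u e) g
  rw [hg1] at h1
  have h2 := hu e
  obtain ⟨j, _, hj⟩ := mem_image.1 h2
  rw [← hj] at h1
  have h3 : (ev e) ((evalEquiv P H).symm g) = 0 := h0
  rw [LinearMap.comp_apply, h3, map_zero] at h1
  exact zero_ne_one h1

end Pool.Agent.Helper35.Gamm
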