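import Mathlib
import Pool.Agent.Helper35.GammExt
import Pool.Agent.Helper35.GammLin

set_option autoImplicit false

namespace Pool.Agent.Helper35.Gamm

open Finset Module

/-- a rank-two set of pairwise independent vectors over a finite field -/
theorem line_card {F Q ι : Type} [Field F] [Fintype F] [AddCommGroup Q] [Module F Q]
    [DecidableEq ι] (u : ι → Q) (X : Finset ι)
    (h2 : ∀ x ∈ X, ∀ y ∈ X, x ≠ y → LinearIndepOn F u ({x, y} : Set ι))
    (h3 : ∀ x ∈ X, ∀ y ∈ X, ∀ z ∈ X, x ≠ y → x ≠ z → y ≠ z →
      ¬ LinearIndepOn F u ({x, y, z} : Set ι)) :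
    X.card ≤ Fintype.card F + 1 := by
  classical
  by_cases hc : X.card ≤ 2
  · have := Fintype.one_lt_card (α := F)
    omega
  push Not at hc
  obtain ⟨a, ha, b, hb, hab⟩ := one_lt_card.1 (show 1 < X.card by omega)
  have key : ∀ x : ι, ∃ s t : F, x ∈ X.erase a → (u x = s • u a + t • u b ∧ t ≠ 0) := by
    intro x
    by_cases hx : x ∈ X.erase a
    · rw [mem_erase] at hx
      by_cases hxb : x = b
      · subst hxb
        exact ⟨0, 1, fun _ => by simp⟩
      · have hn := h3 x hx.2 a ha b hb hx.1 hxb hab
        have hmem : u x ∈ Submodule.span F (u '' ({a, b} : Set ι)) := by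
          rw [(h2 a ha b hb hab).mem_span_iff]
          intro h
          exact absurd h hn
        rw [Set.image_pair, Submodule.mem_span_pair] at hmem
        obtain ⟨s, t, hst⟩ := hmem
        refine ⟨s, t, fun _ => ⟨hst.symm, ?_⟩⟩
        rintro rfl
        have hh := h2 x hx.2 a ha hx.1
        rw [LinearIndepOn.pair_iff _ hx.1] at hh
        have := hh 1 (-s) (by rw [← hst]; simp)
        exact one_ne_zero this.1
    · exact ⟨0, 0, fun h => absurd h hx⟩
  choose s t hst using key
  have hcard : (X.erase a).card ≤ (univ : Finset F).card := by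
    apply card_le_card_of_injOn (fun x => s x / t x) (fun _ _ => mem_univ _)
    intro x hx y hy hxy
    by_contra hne
    rw [mem_coe] at hx hy
    obtain ⟨ex, tx⟩ := hst x hx
    obtain ⟨ey, ty⟩ := hst y hy
    rw [mem_erase] at hx hy
    have hh := h2 x hx.2 y hy.2 hne
    rw [LinearIndepOn.pair_iff _ hne] at hh
    have hxy' : s x * t y = s y * t x := by
      simp only at hxy
      rwa [div_eq_div_iff tx ty] at hxy
    have := hh (t y) (-(t x)) (by
      rw [ex, ey, smul_add, smul_add, smul_smul, smul_smul, smul_smul, smul_smul]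
      have e1 : t y * s x = s x * t y := mul_comm _ _
      rw [e1, hxy']
      have e2 : -(t x) * s y = -(s y * t x) := by ring
      have e3 : -(t x) * t y = -(t y * t x) := by ring
      rw [e2, e3, neg_smul, neg_smul]
      abel)
    exact ty this.1
  rw [card_erase_of_mem ha] at hcard
  have : (univ : Finset F).card = Fintype.card F := rfl
  omega

theorem hall_iff {α Ω : Type} [DecidableEq α] [DecidableEq Ω] [Fintype Ω]
    (R : α → Ω → Prop) (Nb : α → Finset Ω) (hNb : ∀ x w, w ∈ Nb x ↔ R x w)
    (f₀ : α → Ω) (T : Finset α) :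
    (∃ f : α → Ω, Set.InjOn f (↑T : Set α) ∧ ∀ x ∈ (↑T : Set α), R x (f x)) ↔ Hall Nb T := by
  classical
  constructor
  · rintro ⟨f, hinj, hf⟩ J
    apply card_le_card_of_injOn f
    · intro x hx
      rw [mem_coe, mem_Inn] at hx
      exact hx.2 ((hNb x (f x)).2 (hf x hx.1))
    · intro x hx y hy hxy
      rw [mem_coe, mem_Inn] at hx hy
      exact hinj hx.1 hy.1 hxy
  · intro hH
    have := (Finset.all_card_le_biUnion_card_iff_exists_injective
      (fun x : {x // x ∈ T} => Nb x.1)).1 (by
        intro s
        refine le_trans ?_ (hH (s.biUnion (fun x => Nb x.1)))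
        have e : s.card = (s.image (fun x => x.1)).card :=
          (card_image_of_injective _ Subtype.val_injective).symm
        rw [e]
        apply card_le_card
        intro x hx
        rw [mem_image] at hx
        obtain ⟨y, hy, rfl⟩ := hx
        rw [mem_Inn]
        refine ⟨y.2, ?_⟩
        intro w hw
        rw [mem_biUnion]
        exact ⟨y, hy, hw⟩)
    obtain ⟨g, hg, hgm⟩ := this
    refine ⟨fun x => if h : x ∈ T then g ⟨x, h⟩ else f₀ x, ?_, ?_⟩
    · intro x hx y hy hxy
      rw [mem_coe] at hx hy
      simp only [hx, hy, dif_pos] at hxy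
      have := hg hxy
      simpa using this
    · intro x hx
      rw [mem_coe] at hx
      simp only [hx, dif_pos]
      exact (hNb _ _).1 (hgm ⟨x, hx⟩)

end Pool.Agent.Helper35.Gamm
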