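import Mathlib
import Pool.Agent.Helper35.GammMain

set_option autoImplicit false

namespace Pool.Agent.Helper35.Gamm

open Finset Module

theorem gammoid_hline {F : Type} [Field F] [Fintype F] {N K m : ℕ} {V : Type} [AddCommGroup V]
    [Module F V] (v : Fin N → V) (Nb : Fin N ⊕ Fin K → Finset (Fin m))
    (hLI : ∀ S : Finset (Fin N), LinearIndepOn F v (↑S : Set (Fin N)) ↔
      Hall Nb ((univ.image Sum.inr) ∪ S.image Sum.inl))
    (X₀ : Finset (Fin N)) :
    ∀ K' X : Finset (Fin N ⊕ Fin K), (univ.image Sum.inr) ⊆ K' →
      K' ∪ X ⊆ (univ.image Sum.inr) ∪ (X₀.image Sum.inl) → Simp Nb K' X →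
      ∀ J, Two Nb K' J → (∀ x ∈ X, Nb x ⊆ J) → X.card ≤ Fintype.card F + 1 := by
  classical
  intro K' X hK hE h J hJ hX
  set C : Finset (Fin N) := univ.filter (fun i => Sum.inl i ∈ K') with hC
  set Xf : Finset (Fin N) := univ.filter (fun i => Sum.inl i ∈ X) with hXf
  have hKe : ∀ T : Finset (Fin N), K' ∪ T.image Sum.inl =
      (univ.image Sum.inr) ∪ (C ∪ T).image Sum.inl := by
    intro T
    ext x
    simp only [mem_union, mem_image, mem_univ, true_and, hC, mem_filter]
    rcases x with i | j
    · constructor
      · rintro (h1 | ⟨a, ha, hh⟩)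
        · exact Or.inr ⟨i, Or.inl h1, rfl⟩
        · exact Or.inr ⟨a, Or.inr ha, hh⟩
      · rintro (⟨a, ha⟩ | ⟨a, ha | ha, hh⟩)
        · cases ha
        · cases hh; exact Or.inl ha
        · exact Or.inr ⟨a, ha, hh⟩
    · constructor
      · intro _
        exact Or.inl ⟨j, rfl⟩
      · intro _
        exact Or.inl (hK (mem_image.2 ⟨j, mem_univ _, rfl⟩))
  have hXe : X = Xf.image Sum.inl := by
    ext x
    simp only [mem_image, hXf, mem_filter, mem_univ, true_and]
    constructor
    · intro hx
      rcases x with i | j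
      · exact ⟨i, hx, rfl⟩
      · exfalso
        exact (disjoint_left.1 h.disj) (hK (mem_image.2 ⟨j, mem_univ _, rfl⟩)) hx
    · rintro ⟨i, hi, rfl⟩
      exact hi
  have hcard : X.card = Xf.card := by
    rw [hXe, card_image_of_injective _ Sum.inl_injective]
  have hdis : ∀ x ∈ Xf, x ∉ C := by
    intro x hx hxC
    rw [hXf, mem_filter] at hx
    rw [hC, mem_filter] at hxC
    exact (disjoint_left.1 h.disj) hxC.2 hx.2
  have hC0 : LinearIndepOn F v (↑C : Set (Fin N)) := by
    rw [hLI]
    have := hKe ∅
    rw [image_empty, union_empty, union_empty] at this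
    rw [← this]
    exact h.hK
  set u : Fin N → (V ⧸ Submodule.span F (v '' (↑C : Set (Fin N)))) :=
    (Submodule.mkQ (Submodule.span F (v '' (↑C : Set (Fin N))))) ∘ v with hu
  have hq : ∀ T : Finset (Fin N), (∀ x ∈ T, x ∈ Xf) →
      (LinearIndepOn F u (↑T : Set (Fin N)) ↔ Hall Nb (K' ∪ T.image Sum.inl)) := by
    intro T hT
    rw [hKe, ← hLI, coe_union]
    apply hC0.quotient_iff_union
    rw [Set.disjoint_left]
    intro x hx hx'
    exact hdis x (hT x (mem_coe.1 hx')) (mem_coe.1 hx)
  rw [hcard]
  apply line_card u Xf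
  · intro x hx y hy hxy
    have e := hq {x, y} (by
      intro z hz; rw [mem_insert, mem_singleton] at hz
      rcases hz with rfl | rfl <;> assumption)
    rw [coe_insert, coe_singleton] at e
    rw [e, image_insert, image_singleton]
    rw [hXf, mem_filter] at hx hy
    exact h.hall_two hx.2 hy.2 (fun hh => hxy (Sum.inl_injective hh))
  · intro x hx y hy z hz hxy hxz hyz hcon
    have e := hq {x, y, z} (by
      intro w hw; rw [mem_insert, mem_insert, mem_singleton] at hw
      rcases hw with rfl | rfl | rfl <;> assumption)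
    rw [coe_insert, coe_insert, coe_singleton] at e
    rw [e] at hcon
    rw [hXf, mem_filter] at hx hy hz
    have h1 := hcon J
    rw [Inn_union_left, card_union_of_disjoint] at h1
    · have h2 : (Inn Nb (({x, y, z} : Finset (Fin N)).image Sum.inl) J).card = 3 := by
        have e1 : Inn Nb (({x, y, z} : Finset (Fin N)).image Sum.inl) J
            = ({x, y, z} : Finset (Fin N)).image Sum.inl := by
          ext w
          rw [mem_Inn]
          constructor
          · exact fun hw => hw.1
          · intro hw
            refine ⟨hw, hX w ?_⟩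
            rw [mem_image] at hw
            obtain ⟨i, hi, rfl⟩ := hw
            rw [mem_insert, mem_insert, mem_singleton] at hi
            rcases hi with rfl | rfl | rfl
            · exact hx.2
            · exact hy.2
            · exact hz.2
        rw [e1, card_image_of_injective _ Sum.inl_injective, card_eq_three]
        exact ⟨x, y, z, hxy, hxz, hyz, rfl⟩
      rw [h2] at h1
      unfold Two at hJ
      omega
    · rw [disjoint_left]
      intro w hw hw'
      rw [mem_Inn] at hw hw'
      have hwX : w ∈ X := by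
        obtain ⟨i, hi, rfl⟩ := mem_image.1 hw'.1
        rw [mem_insert, mem_insert, mem_singleton] at hi
        rcases hi with rfl | rfl | rfl
        · exact hx.2
        · exact hy.2
        · exact hz.2
      exact (disjoint_left.1 h.disj) hw.1 hwX

theorem gammoid_critical {F : Type} [Field F] [Fintype F] {N K m r : ℕ}
    (v : Fin N → (Fin r → F)) (hv : ∀ i, v i ≠ 0)
    (R : Fin N ⊕ Fin K → Fin m → Prop)
    (hR : ∀ S : Finset (Fin N),
          LinearIndependent F (fun i : S => v i.1) ↔
            ∃ f : Fin N ⊕ Fin K → Fin m,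
              Set.InjOn f ((Sum.inl '' (S : Set (Fin N))) ∪ Set.range Sum.inr) ∧
              ∀ x ∈ ((Sum.inl '' (S : Set (Fin N))) ∪ Set.range Sum.inr), R x (f x))
    (p n : ℕ) (hp : p.Prime) (hcard : Fintype.card F = p ^ n) (k : ℕ) (hk : p ^ n ≤ n * k) :
    ∃ L : (Fin r → F) →ₗ[F] (Fin k → F), ∀ i, L (v i) ≠ 0 := by
  classical
  set Nb : Fin N ⊕ Fin K → Finset (Fin m) := fun x => univ.filter (R x) with hNb
  have hNb' : ∀ x w, w ∈ Nb x ↔ R x w := by
    intro x w; simp [hNb]
  obtain ⟨f₀, -⟩ : ∃ f₀ : Fin N ⊕ Fin K → Fin m, True := by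
    obtain ⟨f, _⟩ := (hR ∅).1 (by
      haveI : IsEmpty {x // x ∈ (∅ : Finset (Fin N))} := ⟨fun x => absurd x.2 (notMem_empty _)⟩
      exact linearIndependent_empty_type)
    exact ⟨f, trivial⟩
  set K₀ : Finset (Fin N ⊕ Fin K) := univ.image Sum.inr with hK₀
  have hLI : ∀ S : Finset (Fin N), LinearIndepOn F v (↑S : Set (Fin N)) ↔
      Hall Nb (K₀ ∪ S.image Sum.inl) := by
    intro S
    have e1 : LinearIndepOn F v (↑S : Set (Fin N)) ↔ LinearIndependent F (fun i : S => v i.1) :=
      Iff.rfl
    rw [e1, hR S, ← hall_iff R Nb hNb' f₀]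
    have e2 : (↑(K₀ ∪ S.image Sum.inl) : Set (Fin N ⊕ Fin K))
        = (Sum.inl '' (S : Set (Fin N))) ∪ Set.range Sum.inr := by
      rw [hK₀, coe_union, coe_image, coe_image, coe_univ, Set.image_univ, Set.union_comm]
    rw [e2]
  obtain ⟨X₀, hX₀, hmax⟩ := Finset.exists_max_image
    ((univ : Finset (Finset (Fin N))).filter (fun X => ∀ x ∈ X, ∀ y ∈ X, x ≠ y →
      LinearIndepOn F v ({x, y} : Set (Fin N)))) Finset.card
    ⟨∅, by simp⟩
  simp only [mem_filter, mem_univ, true_and] at hX₀ hmax
  have hrep : ∀ i, ∃ j ∈ X₀, i = j ∨ ∃ c : F, c • v i = v j := by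
    intro i
    by_cases hi : i ∈ X₀
    · exact ⟨i, hi, Or.inl rfl⟩
    · by_contra hcon
      push Not at hcon
      have := hmax (insert i X₀) (by
        intro x hx y hy hxy
        rw [mem_insert] at hx hy
        have hkey : ∀ j ∈ X₀, LinearIndepOn F v ({i, j} : Set (Fin N)) := by
          intro j hj
          have hij : i ≠ j := (hcon j hj).1
          rw [linearIndepOn_pair_iff v hij (hv i)]
          exact (hcon j hj).2
        rcases hx with rfl | hx
        · rcases hy with rfl | hy
          · exact absurd rfl hxy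
          · exact hkey y hy
        · rcases hy with rfl | hy
          · rw [Set.pair_comm]; exact hkey x hx
          · exact hX₀ x hx y hy hxy)
      rw [card_insert_of_notMem hi] at this
      omega
  have hSimp : Simp Nb K₀ (X₀.image Sum.inl) := by
    have hnotK : ∀ i : Fin N, (Sum.inl i : Fin N ⊕ Fin K) ∉ K₀ := by
      intro i hi
      rw [hK₀, mem_image] at hi
      obtain ⟨j, _, hj⟩ := hi
      cases hj
    constructor
    · rw [disjoint_left]
      intro x hx hx'
      obtain ⟨i, _, rfl⟩ := mem_image.1 hx'
      exact hnotK i hx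
    · have := (hLI ∅).1 (by simp)
      rwa [image_empty, union_empty] at this
    · intro x hx J hxJ
      obtain ⟨i, hi, rfl⟩ := mem_image.1 hx
      have h1 := (hLI {i}).1 (by simpa using hv i) J
      rw [image_singleton, Inn_union_left, card_union_of_disjoint] at h1
      · have : (Inn Nb {(Sum.inl i : Fin N ⊕ Fin K)} J).card = 1 := by
          rw [card_eq_one]
          refine ⟨Sum.inl i, ?_⟩
          ext w
          rw [mem_Inn, mem_singleton]
          exact ⟨fun h => h.1, fun h => ⟨h, h ▸ hxJ⟩⟩
        omega
      · rw [disjoint_left]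
        intro w hw hw'
        rw [mem_Inn] at hw hw'
        rw [mem_singleton] at hw'
        exact hnotK i (hw'.1 ▸ hw.1)
    · intro x hx y hy hxy J hxJ hyJ
      obtain ⟨i, hi, rfl⟩ := mem_image.1 hx
      obtain ⟨j, hj, rfl⟩ := mem_image.1 hy
      have hij : i ≠ j := fun h => hxy (h ▸ rfl)
      have h1 := (hLI {i, j}).1 (by
        rw [coe_insert, coe_singleton]; exact hX₀ i hi j hj hij) J
      rw [image_insert, image_singleton, Inn_union_left, card_union_of_disjoint] at h1
      · have : (Inn Nb {(Sum.inl i : Fin N ⊕ Fin K), Sum.inl j} J).card = 2 := by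
          rw [card_eq_two]
          refine ⟨Sum.inl i, Sum.inl j, hxy, ?_⟩
          ext w
          rw [mem_Inn, mem_insert, mem_singleton]
          constructor
          · exact fun h => h.1
          · intro h
            refine ⟨h, ?_⟩
            rcases h with h | h <;> rw [h] <;> assumption
        omega
      · rw [disjoint_left]
        intro w hw hw'
        rw [mem_Inn] at hw hw'
        rw [mem_insert, mem_singleton] at hw'
        rcases hw'.1 with h | h
        · exact hnotK i (h ▸ hw.1)
        · exact hnotK j (h ▸ hw.1)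
  have hq2 : 2 ≤ Fintype.card F := Fintype.one_lt_card
  have hext := extremal (Fintype.card F) hq2 K₀ (X₀.image Sum.inl)
    (gammoid_hline v Nb hLI X₀)
  haveI : Fact p.Prime := ⟨hp⟩
  haveI : CharP F p := charP_of_card_eq_prime_pow hcard
  letI : Algebra (ZMod p) F := ZMod.algebra F p
  haveI : Module.Finite (ZMod p) F := Module.Finite.of_finite
  have hfin : finrank (ZMod p) F = n := by
    have h1 := Module.card_eq_pow_finrank (K := ZMod p) (V := F)
    rw [ZMod.card, hcard] at h1
    exact (Nat.pow_right_injective hp.two_le h1).symm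
  obtain ⟨L, hL⟩ := exists_map (P := ZMod p) k (fun x : {x // x ∈ X₀} => v x.1) (by
    intro B
    rcases B.eq_empty_or_nonempty with rfl | hBne
    · simp
    set A : Finset (Fin N) := B.image (fun x => x.1) with hA
    have hAcard : A.card = B.card := card_image_of_injective _ Subtype.val_injective
    have hAX : A ⊆ X₀ := by
      intro x hx
      obtain ⟨y, _, rfl⟩ := mem_image.1 hx
      exact y.2
    obtain ⟨B', hB', hH, hb⟩ := hext _ K₀ (A.image Sum.inl) rfl (Subset.refl _)
      (union_subset_union (Subset.refl _) (image_subset_image hAX))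
      (hSimp.mono (image_subset_image hAX)) ((hBne.image _).image _)
    set B'' : Finset (Fin N) := univ.filter (fun i => Sum.inl i ∈ B') with hB''
    have hBe : B' = B''.image Sum.inl := by
      ext x
      simp only [mem_image, hB'', mem_filter, mem_univ, true_and]
      constructor
      · intro hx
        obtain ⟨i, _, rfl⟩ := mem_image.1 (hB' hx)
        exact ⟨i, hx, rfl⟩
      · rintro ⟨i, hi, rfl⟩
        exact hi
    have hB''A : B'' ⊆ A := by
      intro i hi
      rw [hB'', mem_filter] at hi
      obtain ⟨j, hj, hji⟩ := mem_image.1 (hB' hi.2)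
      rw [Sum.inl.injEq] at hji
      rwa [← hji]
    rw [hBe] at hH hb
    rw [card_image_of_injective _ Sum.inl_injective,
      card_image_of_injective _ Sum.inl_injective] at hb
    have hind : LinearIndependent F (fun i : B'' => v i.1) := (hLI B'').2 hH
    have hrank : B''.card ≤ finrank F (Submodule.span F
        ((fun x : {x // x ∈ X₀} => v x.1) '' (↑B : Set {x // x ∈ X₀}))) := by
      have h1 := finrank_span_eq_card hind
      rw [Fintype.card_coe] at h1
      rw [← h1]
      apply Submodule.finrank_mono
      apply Submodule.span_mono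
      rintro _ ⟨i, rfl⟩
      have := hB''A i.2
      rw [hA, mem_image] at this
      obtain ⟨y, hy, hyi⟩ := this
      refine ⟨y, mem_coe.2 hy, ?_⟩
      simp only
      rw [hyi]
    rw [hfin, ← hAcard]
    have h3 : A.card ≤ Fintype.card F * B''.card := by omega
    refine h3.trans ?_
    rw [hcard, mul_comm]
    apply Nat.mul_le_mul hrank
    rw [mul_comm k n]
    exact hk)
  refine ⟨L, ?_⟩
  intro i hi
  obtain ⟨j, hj, hij⟩ := hrep i
  rcases hij with rfl | ⟨c, hc⟩
  · exact hL ⟨i, hj⟩ hi
  · apply hL ⟨j, hj⟩
    change L (v j) = 0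
    rw [← hc, map_smul, hi, smul_zero]

end Pool.Agent.Helper35.Gamm
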