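import Mathlib
import Pool.Agent.Helper35.GammFinal

set_option autoImplicit false

namespace Pool.Agent.Helper35.GammWeak

theorem result :
    ∀ (F : Type) [Field F] [Fintype F] (p n : ℕ), p.Prime → Fintype.card F = p ^ n →
      ∀ (N r : ℕ) (v : Fin N → (Fin r → F)), (∀ i, v i ≠ 0) →
      (∃ (K m : ℕ) (R : Fin N ⊕ Fin K → Fin m → Prop),
        ∀ S : Finset (Fin N),
          LinearIndependent F (fun i : S => v i.1) ↔
            ∃ f : Fin N ⊕ Fin K → Fin m,
              Set.InjOn f ((Sum.inl '' (S : Set (Fin N))) ∪ Set.range Sum.inr) ∧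
              ∀ x ∈ ((Sum.inl '' (S : Set (Fin N))) ∪ Set.range Sum.inr), R x (f x)) →
      ∀ k : ℕ, p ^ n ≤ n * k →
        ∃ L : (Fin r → F) →ₗ[F] (Fin k → F), ∀ i, L (v i) ≠ 0 := by
  intro F _ _ p n hp hcard N r v hv ⟨K, m, R, hR⟩ k hk
  exact Pool.Agent.Helper35.Gamm.gammoid_critical v hv R hR p n hp hcard k hk

end Pool.Agent.Helper35.GammWeak
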