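import Mathlib

set_option autoImplicit false

namespace Pool.Agent.Helper35.Weave

/-- `L` is a (straight) line of the plane. -/
def IsLine2 (L : Set (ℝ × ℝ)) : Prop :=
  ∃ p u : ℝ × ℝ, u ≠ 0 ∧ L = {q | ∃ t : ℝ, q = p + t • u}

/-- `L` is a (straight) line of three-dimensional space. -/
def IsLine3 (L : Set (ℝ × ℝ × ℝ)) : Prop :=
  ∃ p u : ℝ × ℝ × ℝ, u ≠ 0 ∧ L = {q | ∃ t : ℝ, q = p + t • u}

/-- Orthogonal projection to the `xy`-plane. -/
def proj (q : ℝ × ℝ × ℝ) : ℝ × ℝ := (q.1, q.2.1)

/-- A weaving of lines indexed by `ι`: a simple arrangement of lines in the plane (any two meet in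
exactly one point, no three are concurrent), with, for every pair, one of the two lines designated
as lying above the other. -/
structure Weaving (ι : Type) where
  line : ι → Set (ℝ × ℝ)
  isLine : ∀ i, IsLine2 (line i)
  meet : ∀ i j, i ≠ j → ∃! q, q ∈ line i ∩ line j
  simple : ∀ i j k, i ≠ j → j ≠ k → i ≠ k → line i ∩ line j ∩ line k = ∅
  above : ι → ι → Prop
  above_iff : ∀ i j, i ≠ j → (above i j ↔ ¬ above j i)

/-- The crossing point of two distinct lines of the weaving. -/
noncomputable def Weaving.pt {ι : Type} (W : Weaving ι) (i j : ι) (h : i ≠ j) : ℝ × ℝ :=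
  (W.meet i j h).choose

/-- Deletion of the line `i`. -/
def Weaving.delete {ι : Type} (W : Weaving ι) (i : ι) : Weaving {j : ι // j ≠ i} where
  line j := W.line j
  isLine j := W.isLine j
  meet j k h := W.meet j k (fun h' => h (Subtype.ext h'))
  simple j k l h1 h2 h3 := W.simple j k l (fun h' => h1 (Subtype.ext h'))
    (fun h' => h2 (Subtype.ext h')) (fun h' => h3 (Subtype.ext h'))
  above j k := W.above j k
  above_iff j k h := W.above_iff j k (fun h' => h (Subtype.ext h'))

/-- The lines `R i` of space realize the weaving `W`: they project onto the lines of `W`, and over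
each crossing the line designated as the upper one has the larger `z`-coordinate. -/
structure Weaving.Realizes {ι : Type} (W : Weaving ι) (R : ι → Set (ℝ × ℝ × ℝ)) : Prop where
  isLine : ∀ i, IsLine3 (R i)
  proj_eq : ∀ i, proj '' R i = W.line i
  upper : ∀ i j, i ≠ j → W.above i j →
    ∀ x y z z' : ℝ, (x, y, z) ∈ R i → (x, y, z') ∈ R j → z' < z

/-- `W` is realizable. -/
def Weaving.Realizable {ι : Type} (W : Weaving ι) : Prop :=
  ∃ R : ι → Set (ℝ × ℝ × ℝ), W.Realizes R

/-- The arrangements of `W` and `W'` are combinatorially equivalent (line `i` corresponding to line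
`i`): along every line the crossing points with the other lines appear in the same order, up to
reversal of the line. -/
def Weaving.CombEquiv {ι : Type} (W W' : Weaving ι) : Prop :=
  ∀ (i j k l : ι) (hj : i ≠ j) (hk : i ≠ k) (hl : i ≠ l), j ≠ k → k ≠ l → j ≠ l →
    (Sbtw ℝ (W.pt i j hj) (W.pt i k hk) (W.pt i l hl) ↔
      Sbtw ℝ (W'.pt i j hj) (W'.pt i k hk) (W'.pt i l hl))

/-- `W` is weakly realizable: some weaving with a combinatorially equivalent arrangement and the
same above/below designations is realizable. -/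
def Weaving.WeaklyRealizable {ι : Type} (W : Weaving ι) : Prop :=
  ∃ W' : Weaving ι, W.CombEquiv W' ∧ (∀ i j, i ≠ j → (W.above i j ↔ W'.above i j)) ∧ W'.Realizable

/-- Boundary pairs of the cyclically ordered index set `0, …, n - 1`. -/
def Bd (n i j : ℕ) : Prop := i + 1 = j ∨ j + 1 = i ∨ (i = 0 ∧ j + 1 = n) ∨ (j = 0 ∧ i + 1 = n)

/-- The above/below pattern: on boundary pairs the line of smaller index is the upper one, on all
other pairs the line of larger index is the upper one. -/
def Up (n i j : ℕ) : Prop := (i < j ∧ Bd n i j) ∨ (j < i ∧ ¬ Bd n i j)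

end Pool.Agent.Helper35.Weave
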