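import Mathlib

set_option autoImplicit false

namespace Pool.Agent.Helper35.Weave

/-- The linear obstruction. `L j k` is the (normalized) distance of the crossing of `j` and `k`
from line `0`, the lift of line `j` is `α j + β j * L`. -/
theorem no_lift (n : ℕ) (hn : 4 ≤ n) (α β : ℕ → ℝ) (L : ℕ → ℕ → ℝ)
    (hpos : ∀ j k, 1 ≤ j → j < k → k < n → 0 < L j k)
    (hmono : ∀ m, 2 ≤ m → m + 1 < n → L (m - 1) m < L m (m + 1))
    (hlast : L 1 (n - 1) < L (n - 2) (n - 1))
    (hfirst : L 1 2 < L 1 (n - 1))
    (hcon : ∀ j, 1 ≤ j → j + 1 < n → α (j + 1) + β (j + 1) * L j (j + 1) < α j + β j * L j (j + 1))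
    (hdiag : α 1 + β 1 * L 1 (n - 1) < α (n - 1) + β (n - 1) * L 1 (n - 1))
    (hα : ∀ j, 2 ≤ j → j + 1 < n → 0 < α j) (hα1 : α 1 < 0) (hαn : α (n - 1) < 0) : False := by
  have key : ∀ m, 2 ≤ m → m < n → β m - β 1 < - α m / L (m - 1) m + α 1 / L 1 2 := by
    intro m hm
    induction m, hm using Nat.le_induction with
    | base =>
      intro h
      have h1 := hcon 1 (le_refl 1) (by omega)
      have h2 := hpos 1 2 (le_refl 1) (by omega) (by omega)
      simp only [Nat.reduceAdd, Nat.add_one_sub_one] at h1 ⊢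
      have h3 : (β 2 - β 1) * L 1 2 < - α 2 + α 1 := by linarith
      have h4 : β 2 - β 1 < (- α 2 + α 1) / L 1 2 := by
        rw [lt_div_iff₀ h2]; exact h3
      calc β 2 - β 1 < (- α 2 + α 1) / L 1 2 := h4
        _ = - α 2 / L (2 - 1) 2 + α 1 / L 1 2 := by rw [add_div]
    | succ m hm ih =>
      intro h
      have ih' := ih (by omega)
      have h1 := hcon m (by omega) h
      have hp1 := hpos m (m + 1) (by omega) (by omega) h
      have hp0 := hpos (m - 1) m (by omega) (by omega) (by omega)
      have hmm := hmono m hm h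
      have ha := hα m hm h
      have h3 : (β (m + 1) - β m) * L m (m + 1) < - α (m + 1) + α m := by linarith
      have h4 : β (m + 1) - β m < - α (m + 1) / L m (m + 1) + α m / L m (m + 1) := by
        rw [← add_div, lt_div_iff₀ hp1]; exact h3
      have h5 : α m / L m (m + 1) < α m / L (m - 1) m := by
        exact div_lt_div_of_pos_left ha hp0 hmm
      have h6 : - α m / L (m - 1) m = - (α m / L (m - 1) m) := neg_div _ _
      have : m + 1 - 1 = m := by omega
      rw [this]
      linarith
  have hk := key (n - 1) (by omega) (by omega)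
  have hn2 : n - 1 - 1 = n - 2 := by omega
  rw [hn2] at hk
  have hp1 := hpos 1 2 (le_refl 1) (by omega) (by omega)
  have hp2 := hpos 1 (n - 1) (le_refl 1) (by omega) (by omega)
  have hp3 := hpos (n - 2) (n - 1) (by omega) (by omega) (by omega)
  have h3 : - α (n - 1) / L 1 (n - 1) + α 1 / L 1 (n - 1) < β (n - 1) - β 1 := by
    rw [← add_div, div_lt_iff₀ hp2]; linarith
  have h4 : - α (n - 1) / L (n - 2) (n - 1) < - α (n - 1) / L 1 (n - 1) :=
    div_lt_div_of_pos_left (by linarith) hp2 hlast
  have h5 : - α 1 / L 1 (n - 1) < - α 1 / L 1 2 :=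
    div_lt_div_of_pos_left (by linarith) hp1 hfirst
  rw [neg_div, neg_div] at h5
  linarith

end Pool.Agent.Helper35.Weave
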