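import Mathlib
import Pool.Agent.Helper35.WeaveDefs
import Pool.Agent.Helper35.WeaveIneq

set_option autoImplicit false

namespace Pool.Agent.Helper35.Weave

theorem pt_mem {ι : Type} (W : Weaving ι) (i j : ι) (h : i ≠ j) :
    W.pt i j h ∈ W.line i ∧ W.pt i j h ∈ W.line j :=
  (W.meet i j h).choose_spec.1

theorem pt_unique {ι : Type} (W : Weaving ι) (i j : ι) (h : i ≠ j) (q : ℝ × ℝ)
    (h1 : q ∈ W.line i) (h2 : q ∈ W.line j) : q = W.pt i j h :=
  (W.meet i j h).choose_spec.2 q ⟨h1, h2⟩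

theorem pt_symm {ι : Type} (W : Weaving ι) (i j : ι) (h : i ≠ j) :
    W.pt i j h = W.pt j i h.symm :=
  pt_unique W j i h.symm _ (pt_mem W i j h).2 (pt_mem W i j h).1

/-- Normal form of a realization relative to one of its lines, called `o`. -/
theorem normal_form {ι : Type} (W : Weaving ι) (R : ι → Set (ℝ × ℝ × ℝ)) (hR : W.Realizes R)
    (o : ι) : ∃ (lam A : ℝ × ℝ → ℝ) (α β : ι → ℝ),
      (∀ p q : ℝ × ℝ, ∀ t : ℝ, lam (AffineMap.lineMap p q t) = (1 - t) * lam p + t * lam q) ∧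
      (∀ q, q ∈ W.line o ↔ lam q = 0) ∧ α o = 0 ∧
      (∀ j, ∀ q ∈ W.line j, (q.1, q.2, A q + (α j + β j * lam q)) ∈ R j) := by
  have hl : ∀ i, ∃ p u : ℝ × ℝ × ℝ, u ≠ 0 ∧ R i = {q | ∃ t : ℝ, q = p + t • u} := hR.isLine
  choose P U hU hRe using hl
  have memR : ∀ i (x y z : ℝ), (x, y, z) ∈ R i ↔ ∃ t : ℝ, x = (P i).1 + t * (U i).1 ∧
      y = (P i).2.1 + t * (U i).2.1 ∧ z = (P i).2.2 + t * (U i).2.2 := by
    intro i x y z
    rw [hRe i]
    simp only [Set.mem_ofPred_eq, Prod.ext_iff, Prod.fst_add, Prod.snd_add, Prod.smul_fst,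
      Prod.smul_snd, smul_eq_mul]
  have memL : ∀ i (x y : ℝ), (x, y) ∈ W.line i ↔ ∃ t : ℝ, x = (P i).1 + t * (U i).1 ∧
      y = (P i).2.1 + t * (U i).2.1 := by
    intro i x y
    rw [← hR.proj_eq i]
    constructor
    · rintro ⟨⟨x', y', z'⟩, hq, he⟩
      simp only [proj, Prod.mk.injEq] at he
      obtain ⟨rfl, rfl⟩ := he
      obtain ⟨t, h1, h2, h3⟩ := (memR i _ _ _).1 hq
      exact ⟨t, h1, h2⟩
    · rintro ⟨t, h1, h2⟩
      exact ⟨(x, y, (P i).2.2 + t * (U i).2.2), (memR i _ _ _).2 ⟨t, h1, h2, rfl⟩, rfl⟩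
  have hdir : ∀ i, (U i).1 ^ 2 + (U i).2.1 ^ 2 ≠ 0 := by
    intro i h0
    have ha : (U i).1 = 0 := by nlinarith [sq_nonneg (U i).1, sq_nonneg (U i).2.1]
    have hb : (U i).2.1 = 0 := by nlinarith [sq_nonneg (U i).1, sq_nonneg (U i).2.1]
    obtain ⟨p, u, hu, hL⟩ := W.isLine i
    have h1 : (p.1, p.2) ∈ W.line i := by rw [hL]; exact ⟨0, by simp⟩
    have h2 : ((p + u).1, (p + u).2) ∈ W.line i := by rw [hL]; exact ⟨1, by simp [Prod.ext_iff]⟩
    obtain ⟨t, h3, h4⟩ := (memL i _ _).1 h1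
    obtain ⟨s, h5, h6⟩ := (memL i _ _).1 h2
    rw [ha] at h3 h5
    rw [hb] at h4 h6
    apply hu
    ext
    · simp only [Prod.fst_add, Prod.fst_zero] at h5 ⊢; linarith
    · simp only [Prod.snd_add, Prod.snd_zero] at h6 ⊢; linarith
  set a0 := (U o).1 with ha0
  set b0 := (U o).2.1 with hb0
  set c0 := (U o).2.2 with hc0
  set x0 := (P o).1 with hx0
  set y0 := (P o).2.1 with hy0
  set z0 := (P o).2.2 with hz0
  have hN : a0 ^ 2 + b0 ^ 2 ≠ 0 := hdir o
  let lam : ℝ × ℝ → ℝ := fun q => a0 * (q.2 - y0) - b0 * (q.1 - x0)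
  let A : ℝ × ℝ → ℝ := fun q => z0 + c0 * ((q.1 - x0) * a0 + (q.2 - y0) * b0) / (a0 ^ 2 + b0 ^ 2)
  have hlam0 : ∀ q, q ∈ W.line o ↔ lam q = 0 := by
    rintro ⟨x, y⟩
    rw [memL]
    constructor
    · rintro ⟨t, h1, h2⟩
      simp only [lam]
      rw [h1, h2]; ring
    · intro h
      simp only [lam] at h
      refine ⟨((x - x0) * a0 + (y - y0) * b0) / (a0 ^ 2 + b0 ^ 2), ?_, ?_⟩
      · rw [← ha0, ← hx0]
        field_simp
        linear_combination (-b0) * h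
      · rw [← hb0, ← hy0]
        field_simp
        linear_combination a0 * h
  have hdet : ∀ j, j ≠ o → a0 * (U j).2.1 - b0 * (U j).1 ≠ 0 := by
    intro j hj h0
    have hNj := hdir j
    obtain ⟨⟨x, y⟩, ⟨hq1, hq2⟩, hqu⟩ := W.meet o j (Ne.symm hj)
    obtain ⟨t, h1, h2⟩ := (memL o _ _).1 hq1
    obtain ⟨s, h3, h4⟩ := (memL j _ _).1 hq2
    have h5 : (x + a0, y + b0) ∈ W.line o := (memL o _ _).2 ⟨t + 1, by rw [h1]; ring, by rw [h2]; ring⟩
    have h6 : (x + a0, y + b0) ∈ W.line j := by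
      refine (memL j _ _).2 ⟨s + (a0 * (U j).1 + b0 * (U j).2.1) / ((U j).1 ^ 2 + (U j).2.1 ^ 2),
        ?_, ?_⟩
      · rw [h3]
        field_simp
        linear_combination (U j).2.1 * h0
      · rw [h4]
        field_simp
        linear_combination (-(U j).1) * h0
    have h7 := hqu _ ⟨h5, h6⟩
    simp only [Prod.mk.injEq] at h7
    apply hN
    have e1 : a0 = 0 := by linarith [h7.1]
    have e2 : b0 = 0 := by linarith [h7.2]
    rw [e1, e2]; ring
  -- the coefficients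
  let f1 : ι → ℝ := fun j => (U j).2.2 - c0 * ((U j).1 * a0 + (U j).2.1 * b0) / (a0 ^ 2 + b0 ^ 2)
  let f0 : ι → ℝ := fun j => (P j).2.2 - z0 -
    c0 * (((P j).1 - x0) * a0 + ((P j).2.1 - y0) * b0) / (a0 ^ 2 + b0 ^ 2)
  let d : ι → ℝ := fun j => a0 * (U j).2.1 - b0 * (U j).1
  let l0 : ι → ℝ := fun j => a0 * ((P j).2.1 - y0) - b0 * ((P j).1 - x0)
  classical
  refine ⟨lam, A, fun j => if j = o then 0 else f0 j - f1 j * l0 j / d j,
    fun j => if j = o then 0 else f1 j / d j, ?_, hlam0, by simp, ?_⟩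
  · intro p q t
    simp only [lam, AffineMap.lineMap_apply, vsub_eq_sub, smul_eq_mul, vadd_eq_add, Prod.fst_add,
      Prod.snd_add, Prod.smul_fst, Prod.smul_snd, Prod.fst_sub, Prod.snd_sub]
    ring
  · rintro j ⟨x, y⟩ hq
    obtain ⟨t, h1, h2⟩ := (memL j _ _).1 hq
    rw [memR]
    refine ⟨t, h1, h2, ?_⟩
    by_cases hj : j = o
    · subst hj
      simp only [if_true, A]
      rw [h1, h2, ← ha0, ← hb0, ← hc0, ← hx0, ← hy0, ← hz0]
      field_simp
      ring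
    · simp only [if_neg hj]
      have hd : d j ≠ 0 := hdet j hj
      have hlt : lam (x, y) = l0 j + t * d j := by
        simp only [lam, l0, d]; rw [h1, h2]; ring
      have hA : A (x, y) + (f0 j + f1 j * t) = (P j).2.2 + t * (U j).2.2 := by
        simp only [A, f0, f1]; rw [h1, h2]; field_simp; ring
      rw [← hA, hlt]
      field_simp
      ring

theorem not_weakly (n : ℕ) (hn : 4 ≤ n) (W : Weaving (Fin n))
    (hord : ∀ (i j k l : Fin n) (hj : i ≠ j) (hk : i ≠ k) (hl : i ≠ l), j < k → k < l →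
      Sbtw ℝ (W.pt i j hj) (W.pt i k hk) (W.pt i l hl))
    (hup : ∀ i j : Fin n, i ≠ j → (W.above i j ↔ Up n i j)) : ¬ W.WeaklyRealizable := by
  rintro ⟨W', hce, hab, R, hR⟩
  have hup' : ∀ i j : Fin n, i ≠ j → (W'.above i j ↔ Up n i j) := fun i j h =>
    (hab i j h).symm.trans (hup i j h)
  have hord' : ∀ (i j k l : Fin n) (hj : i ≠ j) (hk : i ≠ k) (hl : i ≠ l), j < k → k < l →
      Sbtw ℝ (W'.pt i j hj) (W'.pt i k hk) (W'.pt i l hl) := fun i j k l hj hk hl h1 h2 =>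
    (hce i j k l hj hk hl h1.ne h2.ne (h1.trans h2).ne).1 (hord i j k l hj hk hl h1 h2)
  have hn0 : 0 < n := by omega
  let o : Fin n := ⟨0, hn0⟩
  obtain ⟨lam, A, α, β, haff, hzero, hα0, hmem⟩ := normal_form W' R hR o
  -- comparison at a crossing
  have hcmp : ∀ (i j : Fin n) (h : i ≠ j), W'.above i j →
      α j + β j * lam (W'.pt i j h) < α i + β i * lam (W'.pt i j h) := by
    intro i j h hij
    have h1 := hmem i _ (pt_mem W' i j h).1
    have h2 := hmem j _ (pt_mem W' i j h).2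
    have := hR.upper i j h hij _ _ _ _ h1 h2
    linarith
  have ho : ∀ (j : Fin n) (h : j ≠ o), lam (W'.pt j o h) = 0 := fun j h =>
    (hzero _).1 (pt_mem W' j o h).2
  have hne0 : ∀ (j k : Fin n) (h : j ≠ k), j ≠ o → k ≠ o → lam (W'.pt j k h) ≠ 0 := by
    intro j k h hj hk h0
    have h1 := (hzero _).2 h0
    have h2 := pt_mem W' j k h
    have h3 := W'.simple j k o h hk hj
    have : W'.pt j k h ∈ W'.line j ∩ W'.line k ∩ W'.line o := ⟨⟨h2.1, h2.2⟩, h1⟩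
    rw [h3] at this
    exact this
  -- ratio along a line
  have hratio : ∀ (j l m : Fin n) (hl : j ≠ l) (hm : j ≠ m), j ≠ o → l ≠ o → l < m →
      ∃ t : ℝ, 0 < t ∧ t < 1 ∧ lam (W'.pt j l hl) = t * lam (W'.pt j m hm) := by
    intro j l m hl hm hj hlo hlm
    have hol : o < l := by
      rw [Fin.lt_def]
      have : l.val ≠ 0 := fun h => hlo (Fin.ext h)
      change 0 < l.val
      omega
    have hs := hord' j o l m hj hl hm hol hlm
    rw [sbtw_iff_mem_image_Ioo_and_ne] at hs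
    obtain ⟨⟨t, ⟨ht0, ht1⟩, ht⟩, -⟩ := hs
    refine ⟨t, ht0, ht1, ?_⟩
    rw [← ht, haff, ho j hj]
    ring
  have hsame : ∀ (j l m : Fin n) (hl : j ≠ l) (hm : j ≠ m), j ≠ o → l ≠ o → m ≠ o →
      0 < lam (W'.pt j l hl) * lam (W'.pt j m hm) := by
    intro j l m hl hm hj hlo hmo
    have h1 := hne0 j l hl hj hlo
    have h2 := hne0 j m hm hj hmo
    rcases lt_trichotomy l m with h | h | h
    · obtain ⟨t, ht0, ht1, ht⟩ := hratio j l m hl hm hj hlo h
      rw [ht]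
      have : 0 < lam (W'.pt j m hm) * lam (W'.pt j m hm) := mul_self_pos.2 h2
      nlinarith
    · subst h
      exact mul_self_pos.2 h1
    · obtain ⟨t, ht0, ht1, ht⟩ := hratio j m l hm hl hj hmo h
      rw [ht]
      have : 0 < lam (W'.pt j l hl) * lam (W'.pt j l hl) := mul_self_pos.2 h1
      nlinarith
  let e1 : Fin n := ⟨1, by omega⟩
  let e2 : Fin n := ⟨2, by omega⟩
  have h1o : e1 ≠ o := by simp [e1, o]
  have h2o : e2 ≠ o := by simp [e2, o]
  have h12 : e1 ≠ e2 := by simp [e1, e2]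
  set κ := lam (W'.pt e1 e2 h12) with hκ
  have hκ0 : κ ≠ 0 := hne0 e1 e2 h12 h1o h2o
  have hpos : ∀ (j k : Fin n) (h : j ≠ k), j ≠ o → k ≠ o → 0 < κ * lam (W'.pt j k h) := by
    intro j k h hj hk
    by_cases hj1 : j = e1
    · subst hj1
      exact hsame e1 e2 k h12 h hj h2o hk
    · have hA1 : 0 < lam (W'.pt j k h) * lam (W'.pt j e1 hj1) := hsame j k e1 h hj1 hj hk h1o
      have hA2 : 0 < lam (W'.pt e1 e2 h12) * lam (W'.pt e1 j (Ne.symm hj1)) :=
        hsame e1 e2 j h12 (Ne.symm hj1) h1o h2o hj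
      rw [pt_symm W' e1 j] at hA2
      rw [hκ]
      have h3 : lam (W'.pt j e1 hj1) ≠ 0 := hne0 j e1 hj1 hj h1o
      have h4 : 0 < lam (W'.pt j e1 hj1) * lam (W'.pt j e1 hj1) := mul_self_pos.2 h3
      have h5 : 0 < (lam (W'.pt e1 e2 h12) * lam (W'.pt j k h)) *
          (lam (W'.pt j e1 hj1) * lam (W'.pt j e1 hj1)) := by
        have := mul_pos hA1 hA2
        nlinarith
      exact (pos_iff_pos_of_mul_pos h5).2 h4
  have hlt : ∀ (j l m : Fin n) (hl : j ≠ l) (hm : j ≠ m), j ≠ o → l ≠ o → l < m →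
      κ * lam (W'.pt j l hl) < κ * lam (W'.pt j m hm) := by
    intro j l m hl hm hj hlo hlm
    have hmo : m ≠ o := by
      intro h
      rw [h, Fin.lt_def] at hlm
      simp [o] at hlm
    obtain ⟨t, ht0, ht1, ht⟩ := hratio j l m hl hm hj hlo hlm
    have := hpos j m hm hj hmo
    rw [ht]
    nlinarith
  -- natural number indexed data
  let L : ℕ → ℕ → ℝ := fun j k =>
    if h : j < n ∧ k < n ∧ j ≠ k then κ * lam (W'.pt ⟨j, h.1⟩ ⟨k, h.2.1⟩
      (fun h' => h.2.2 (Fin.mk.inj h'))) else 0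
  let α' : ℕ → ℝ := fun j => if h : j < n then α ⟨j, h⟩ else 0
  let β' : ℕ → ℝ := fun j => if h : j < n then β ⟨j, h⟩ / κ else 0
  have hL : ∀ (j k : ℕ) (hj : j < n) (hk : k < n) (h : (⟨j, hj⟩ : Fin n) ≠ ⟨k, hk⟩),
      L j k = κ * lam (W'.pt ⟨j, hj⟩ ⟨k, hk⟩ h) := by
    intro j k hj hk h
    have : j < n ∧ k < n ∧ j ≠ k := ⟨hj, hk, fun h' => h (Fin.ext h')⟩
    simp only [L, dif_pos this]
  have hLs : ∀ j k, L j k = L k j := by
    intro j k
    by_cases h : j < n ∧ k < n ∧ j ≠ k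
    · have h' : (⟨j, h.1⟩ : Fin n) ≠ ⟨k, h.2.1⟩ := fun h' => h.2.2 (Fin.mk.inj h')
      rw [hL j k h.1 h.2.1 h', hL k j h.2.1 h.1 h'.symm, pt_symm]
    · have h' : ¬ (k < n ∧ j < n ∧ k ≠ j) := fun h' => h ⟨h'.2.1, h'.1, h'.2.2.symm⟩
      simp only [L, dif_neg h, dif_neg h']
  have hneo : ∀ (j : ℕ) (hj : j < n), 1 ≤ j → (⟨j, hj⟩ : Fin n) ≠ o := by
    intro j hj h1 h
    have := Fin.mk.inj h
    omega
  have hLt : ∀ j l m : ℕ, 1 ≤ j → 1 ≤ l → l < m → m < n → j < n → j ≠ l → j ≠ m → L j l < L j m := by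
    intro j l m h1 h2 h3 h4 h5 h6 h7
    have hjl : (⟨j, h5⟩ : Fin n) ≠ ⟨l, h3.trans h4⟩ := fun h => h6 (Fin.mk.inj h)
    have hjm : (⟨j, h5⟩ : Fin n) ≠ ⟨m, h4⟩ := fun h => h7 (Fin.mk.inj h)
    rw [hL j l h5 (h3.trans h4) hjl, hL j m h5 h4 hjm]
    exact hlt _ _ _ hjl hjm (hneo j h5 h1) (hneo l _ h2) h3
  -- comparison in the new notation
  have hc : ∀ (i j : ℕ) (hi : i < n) (hj : j < n), i ≠ j → Up n i j →
      α' j + β' j * L i j < α' i + β' i * L i j := by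
    intro i j hi hj hij hupij
    have hij' : (⟨i, hi⟩ : Fin n) ≠ ⟨j, hj⟩ := fun h => hij (Fin.mk.inj h)
    have h1 := hcmp ⟨i, hi⟩ ⟨j, hj⟩ hij' ((hup' _ _ hij').2 hupij)
    rw [hL i j hi hj hij']
    simp only [α', β', dif_pos hi, dif_pos hj]
    have e : ∀ b x : ℝ, b / κ * (κ * x) = b * x := by intro b x; field_simp
    rw [e, e]
    exact h1
  have hL0 : ∀ j, L 0 j = 0 := by
    intro j
    by_cases h : 0 < n ∧ j < n ∧ 0 ≠ j
    · have h' : (⟨0, h.1⟩ : Fin n) ≠ ⟨j, h.2.1⟩ := fun h' => h.2.2 (Fin.mk.inj h')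
      rw [hL 0 j h.1 h.2.1 h', pt_symm]
      have := ho ⟨j, h.2.1⟩ h'.symm
      rw [this, mul_zero]
    · simp only [L, dif_neg h]
  have hα0' : α' 0 = 0 := by
    simp only [α', dif_pos hn0]; exact hα0
  refine no_lift n hn α' β' L ?_ ?_ ?_ ?_ ?_ ?_ ?_ ?_ ?_
  · intro j k h1 h2 h3
    have hjk : (⟨j, h2.trans h3⟩ : Fin n) ≠ ⟨k, h3⟩ := fun h => h2.ne (Fin.mk.inj h)
    rw [hL j k (h2.trans h3) h3 hjk]
    exact hpos _ _ hjk (hneo j _ h1) (hneo k _ (by omega))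
  · intro m h1 h2
    rw [hLs (m - 1) m]
    exact hLt m (m - 1) (m + 1) (by omega) (by omega) (by omega) h2 (by omega) (by omega) (by omega)
  · rw [hLs 1 (n - 1), hLs (n - 2) (n - 1)]
    exact hLt (n - 1) 1 (n - 2) (by omega) (by omega) (by omega) (by omega) (by omega) (by omega)
      (by omega)
  · exact hLt 1 2 (n - 1) (by omega) (by omega) (by omega) (by omega) (by omega) (by omega)
      (by omega)
  · intro j h1 h2
    refine hc j (j + 1) (by omega) h2 (by omega) (Or.inl ⟨by omega, Or.inl rfl⟩)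
  · have := hc (n - 1) 1 (by omega) (by omega) (by omega)
      (Or.inr ⟨by omega, by unfold Bd; omega⟩)
    rw [hLs (n - 1) 1] at this
    exact this
  · intro j h1 h2
    have := hc j 0 (by omega) (by omega) (by omega) (Or.inr ⟨by omega, by unfold Bd; omega⟩)
    rw [hLs j 0, hL0, hα0'] at this
    linarith
  · have := hc 0 1 (by omega) (by omega) (by omega) (Or.inl ⟨by omega, by unfold Bd; omega⟩)
    rw [hL0, hα0'] at this
    linarith
  · have := hc 0 (n - 1) (by omega) (by omega) (by omega)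
      (Or.inl ⟨by omega, by unfold Bd; omega⟩)
    rw [hL0, hα0'] at this
    linarith

end Pool.Agent.Helper35.Weave
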