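import Mathlib
import Pool.Agent.Helper35.WeaveDefs
import Pool.Agent.Helper35.WeaveNeg

set_option autoImplicit false

namespace Pool.Agent.Helper35.Weave

theorem up_iff (n i j : ℕ) (h : i ≠ j) : Up n i j ↔ ¬ Up n j i := by
  unfold Up Bd
  omega

/-- the weaving: tangents `y = i x + i ^ 2` to a parabola, with the pattern `Up`. -/
def tang (n : ℕ) : Weaving (Fin n) where
  line i := {q | q.2 = (i.val : ℝ) * q.1 + (i.val : ℝ) ^ 2}
  isLine i := by
    refine ⟨(0, (i.val : ℝ) ^ 2), (1, (i.val : ℝ)), ?_, ?_⟩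
    · intro h
      have := congrArg Prod.fst h
      simp at this
    · ext q
      simp only [Set.mem_ofPred_eq, Prod.ext_iff, Prod.fst_add, Prod.snd_add, Prod.smul_fst,
        Prod.smul_snd, smul_eq_mul]
      constructor
      · intro h
        exact ⟨q.1, by ring, by rw [h]; ring⟩
      · rintro ⟨t, h1, h2⟩
        rw [h1, h2]; ring
  meet i j h := by
    have hij : (i.val : ℝ) - (j.val : ℝ) ≠ 0 := by
      intro h0
      apply h
      have : (i.val : ℝ) = (j.val : ℝ) := by linarith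
      exact Fin.ext (by exact_mod_cast this)
    refine ⟨(-((i.val : ℝ) + j.val), -((i.val : ℝ) * j.val)), ⟨?_, ?_⟩, ?_⟩
    · simp only [Set.mem_ofPred_eq]; ring
    · simp only [Set.mem_ofPred_eq]; ring
    · rintro ⟨x, y⟩ ⟨h1, h2⟩
      simp only [Set.mem_ofPred_eq] at h1 h2
      have hx : x = -((i.val : ℝ) + j.val) := by
        have : ((i.val : ℝ) - j.val) * (x + (i.val + j.val)) = 0 := by linear_combination h2 - h1
        rcases mul_eq_zero.1 this with h3 | h3
        · exact absurd h3 hij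
        · linarith
      rw [Prod.mk.injEq]
      exact ⟨hx, by rw [h1, hx]; ring⟩
  simple i j k h1 h2 h3 := by
    ext q
    simp only [Set.mem_inter_iff, Set.mem_ofPred_eq, Set.mem_empty_iff_false, iff_false]
    rintro ⟨⟨hi, hj⟩, hk⟩
    have hij : (i.val : ℝ) - (j.val : ℝ) ≠ 0 := by
      intro h0
      have : (i.val : ℝ) = (j.val : ℝ) := by linarith
      exact h1 (Fin.ext (by exact_mod_cast this))
    have hik : (i.val : ℝ) - (k.val : ℝ) ≠ 0 := by
      intro h0
      have : (i.val : ℝ) = (k.val : ℝ) := by linarith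
      exact h3 (Fin.ext (by exact_mod_cast this))
    have hjk : (j.val : ℝ) - (k.val : ℝ) ≠ 0 := by
      intro h0
      have : (j.val : ℝ) = (k.val : ℝ) := by linarith
      exact h2 (Fin.ext (by exact_mod_cast this))
    have e1 : ((i.val : ℝ) - j.val) * (q.1 + (i.val + j.val)) = 0 := by linear_combination hj - hi
    have e2 : ((i.val : ℝ) - k.val) * (q.1 + (i.val + k.val)) = 0 := by linear_combination hk - hi
    have e3 := (mul_eq_zero.1 e1).resolve_left hij
    have e4 := (mul_eq_zero.1 e2).resolve_left hik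
    apply hjk
    linarith
  above i j := Up n i j
  above_iff i j h := up_iff n i j (fun h' => h (Fin.ext h'))

theorem tang_pt (n : ℕ) (i j : Fin n) (h : i ≠ j) :
    (tang n).pt i j h = (-((i.val : ℝ) + j.val), -((i.val : ℝ) * j.val)) := by
  symm
  apply pt_unique
  · change (_ : ℝ) = _; simp only; ring
  · change (_ : ℝ) = _; simp only; ring

theorem tang_ord (n : ℕ) (i j k l : Fin n) (hj : i ≠ j) (hk : i ≠ k) (hl : i ≠ l) (h1 : j < k)
    (h2 : k < l) :
    Sbtw ℝ ((tang n).pt i j hj) ((tang n).pt i k hk) ((tang n).pt i l hl) := by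
  rw [tang_pt, tang_pt, tang_pt, sbtw_iff_mem_image_Ioo_and_ne]
  have h1' : (j.val : ℝ) < k.val := by exact_mod_cast h1
  have h2' : (k.val : ℝ) < l.val := by exact_mod_cast h2
  have hd : (0 : ℝ) < l.val - j.val := by linarith
  refine ⟨⟨((k.val : ℝ) - j.val) / (l.val - j.val), ⟨?_, ?_⟩, ?_⟩, ?_⟩
  · exact div_pos (by linarith) hd
  · rw [div_lt_one hd]; linarith
  · rw [AffineMap.lineMap_apply]
    simp only [vsub_eq_sub, vadd_eq_add, Prod.ext_iff, Prod.fst_add, Prod.snd_add, Prod.smul_fst,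
      Prod.smul_snd, smul_eq_mul, Prod.fst_sub, Prod.snd_sub]
    constructor
    · field_simp
      ring
    · field_simp
      ring
  · intro h
    have := congrArg Prod.fst h
    simp only at this
    linarith

/-- indicator of the set of indices preceding `t` in the chain cut at `i` -/
def ind (i t m : ℕ) : ℝ := if (i < t ∧ i < m ∧ m < t) ∨ (t < i ∧ (i < m ∨ m < t)) then 1 else 0

/-- height function of the lift of line `t` when the line `i` is deleted -/
noncomputable def ht (n i t : ℕ) (q : ℝ × ℝ) : ℝ :=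
  (∑ m ∈ Finset.range n, ind i t m * (q.2 - m * q.1 - (m : ℝ) ^ 2)) - t / n

theorem term_nonneg (i s t m : ℕ) (hst : s < t) (hs : s ≠ i) (ht : t ≠ i) :
    0 ≤ (ind i t m - ind i s m) * (((m : ℝ) - s) * (t - m)) := by
  have hst' : (s : ℝ) < t := by exact_mod_cast hst
  unfold ind
  split_ifs with h1 h2 h2
  · simp
  · -- only in `t`'s set: s ≤ m < t
    have h3 : s ≤ m := by omega
    have h4 : m ≤ t := by omega
    have h3' : (s : ℝ) ≤ m := by exact_mod_cast h3
    have h4' : (m : ℝ) ≤ t := by exact_mod_cast h4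
    have : 0 ≤ ((m : ℝ) - s) * (t - m) := mul_nonneg (by linarith) (by linarith)
    linarith
  · have h3 : m ≤ s ∨ t ≤ m := by omega
    rcases h3 with h3 | h3
    · have h3' : (m : ℝ) ≤ s := by exact_mod_cast h3
      have : 0 ≤ ((s : ℝ) - m) * (t - m) := mul_nonneg (by linarith) (by linarith)
      linarith
    · have h3' : (t : ℝ) ≤ m := by exact_mod_cast h3
      have : 0 ≤ ((m : ℝ) - s) * (m - t) := mul_nonneg (by linarith) (by linarith)
      linarith
  · simp

theorem ht_diff (n i s t : ℕ) (q : ℝ × ℝ) (h1 : q.2 = (s : ℝ) * q.1 + (s : ℝ) ^ 2)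
    (h2 : q.2 = (t : ℝ) * q.1 + (t : ℝ) ^ 2) (hst : s < t) :
    ht n i t q - ht n i s q =
      (∑ m ∈ Finset.range n, (ind i t m - ind i s m) * (((m : ℝ) - s) * (t - m))) - (t - s) / n := by
  have hst' : (s : ℝ) < t := by exact_mod_cast hst
  have hx : q.1 = -((s : ℝ) + t) := by
    have : ((t : ℝ) - s) * (q.1 + (s + t)) = 0 := by linear_combination h1 - h2
    rcases mul_eq_zero.1 this with h3 | h3
    · linarith
    · linarith
  have hy : q.2 = -((s : ℝ) * t) := by rw [h1, hx]; ring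
  have hterm : ∀ m : ℕ, (ind i t m - ind i s m) * (((m : ℝ) - s) * (t - m)) =
      ind i t m * (q.2 - m * q.1 - (m : ℝ) ^ 2) - ind i s m * (q.2 - m * q.1 - (m : ℝ) ^ 2) := by
    intro m
    rw [hx, hy]; ring
  rw [Finset.sum_congr rfl (fun m _ => hterm m), Finset.sum_sub_distrib]
  unfold ht
  ring

theorem ht_lt (n i s t : ℕ) (q : ℝ × ℝ) (h1 : q.2 = (s : ℝ) * q.1 + (s : ℝ) ^ 2)
    (h2 : q.2 = (t : ℝ) * q.1 + (t : ℝ) ^ 2) (hst : s < t) (htn : t < n) (hs : s ≠ i) (hti : t ≠ i)
    (hin : i < n) (hb : Bd n s t) : ht n i t q < ht n i s q := by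
  have hd := ht_diff n i s t q h1 h2 hst
  have hz : ∀ m ∈ Finset.range n, (ind i t m - ind i s m) * (((m : ℝ) - s) * (t - m)) = 0 := by
    intro m hm
    have hm' := Finset.mem_range.1 hm
    unfold Bd at hb
    unfold ind
    split_ifs with h3 h4 h4
    · simp
    · have : m = s ∨ m = t := by omega
      rcases this with h | h <;> rw [h] <;> simp
    · have : m = s ∨ m = t := by omega
      rcases this with h | h <;> rw [h] <;> simp
    · simp
  rw [Finset.sum_eq_zero hz] at hd
  have hst' : (s : ℝ) < t := by exact_mod_cast hst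
  have hn : (0 : ℝ) < n := by exact_mod_cast (by omega : 0 < n)
  have : 0 < ((t : ℝ) - s) / n := div_pos (by linarith) hn
  linarith

theorem ht_gt (n i s t : ℕ) (q : ℝ × ℝ) (h1 : q.2 = (s : ℝ) * q.1 + (s : ℝ) ^ 2)
    (h2 : q.2 = (t : ℝ) * q.1 + (t : ℝ) ^ 2) (hst : s < t) (htn : t < n) (hs : s ≠ i) (hti : t ≠ i)
    (hb : ¬ Bd n s t) : ht n i s q < ht n i t q := by
  have hd := ht_diff n i s t q h1 h2 hst
  have hst' : (s : ℝ) < t := by exact_mod_cast hst
  have hn : (0 : ℝ) < n := by exact_mod_cast (by omega : 0 < n)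
  have hbig : ∃ m ∈ Finset.range n, 1 ≤ (ind i t m - ind i s m) * (((m : ℝ) - s) * (t - m)) := by
    unfold Bd at hb
    have hcase : (s < i ∧ i < t ∧ t + 1 < n) ∨ (s < i ∧ i < t ∧ 0 < s) ∨
        ((i < s ∨ t < i) ∧ s + 1 < t) := by omega
    rcases hcase with h | h | h
    · refine ⟨n - 1, Finset.mem_range.2 (by omega), ?_⟩
      have e1 : ind i t (n - 1) = 0 := by unfold ind; rw [if_neg (by omega)]
      have e2 : ind i s (n - 1) = 1 := by unfold ind; rw [if_pos (by omega)]
      rw [e1, e2]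
      have e3 : (t : ℝ) + 1 ≤ ((n - 1 : ℕ) : ℝ) := by exact_mod_cast (by omega : t + 1 ≤ n - 1)
      nlinarith
    · refine ⟨0, Finset.mem_range.2 (by omega), ?_⟩
      have e1 : ind i t 0 = 0 := by unfold ind; rw [if_neg (by omega)]
      have e2 : ind i s 0 = 1 := by unfold ind; rw [if_pos (by omega)]
      rw [e1, e2]
      have e3 : (1 : ℝ) ≤ s := by exact_mod_cast (by omega : 1 ≤ s)
      push_cast
      nlinarith
    · refine ⟨s + 1, Finset.mem_range.2 (by omega), ?_⟩
      have e1 : ind i t (s + 1) = 1 := by unfold ind; rw [if_pos (by omega)]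
      have e2 : ind i s (s + 1) = 0 := by unfold ind; rw [if_neg (by omega)]
      rw [e1, e2]
      have e3 : (s : ℝ) + 2 ≤ t := by exact_mod_cast (by omega : s + 2 ≤ t)
      push_cast
      nlinarith
  obtain ⟨m, hm, hm1⟩ := hbig
  have hsum : 1 ≤ ∑ m ∈ Finset.range n, (ind i t m - ind i s m) * (((m : ℝ) - s) * (t - m)) :=
    hm1.trans (Finset.single_le_sum (f := fun m : ℕ => (ind i t m - ind i s m) *
      (((m : ℝ) - s) * (t - m))) (fun k _ => term_nonneg i s t k hst hs hti) hm)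
  have hlt : ((t : ℝ) - s) / n < 1 := by
    rw [div_lt_one hn]
    have e1 : (t : ℝ) < n := by exact_mod_cast htn
    have e2 : (0 : ℝ) ≤ s := Nat.cast_nonneg s
    linarith
  linarith

theorem delete_realizable (n : ℕ) (i : Fin n) : ((tang n).delete i).Realizable := by
  refine ⟨fun t => {q | q.2.1 = (t.1.val : ℝ) * q.1 + (t.1.val : ℝ) ^ 2 ∧
    q.2.2 = ht n i.val t.1.val (q.1, q.2.1)}, ?_, ?_, ?_⟩
  · intro t
    refine ⟨(0, (t.1.val : ℝ) ^ 2, (∑ m ∈ Finset.range n, ind i.val t.1.val m *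
        ((t.1.val : ℝ) ^ 2 - (m : ℝ) ^ 2)) - t.1.val / n),
      (1, (t.1.val : ℝ), ∑ m ∈ Finset.range n, ind i.val t.1.val m * ((t.1.val : ℝ) - m)), ?_, ?_⟩
    · intro h
      have := congrArg Prod.fst h
      simp at this
    · ext q
      simp only [Set.mem_ofPred_eq, Prod.ext_iff, Prod.fst_add, Prod.snd_add, Prod.smul_fst,
        Prod.smul_snd, smul_eq_mul]
      have hht : ∀ x : ℝ, ht n i.val t.1.val (x, (t.1.val : ℝ) * x + (t.1.val : ℝ) ^ 2) =
          (∑ m ∈ Finset.range n, ind i.val t.1.val m * ((t.1.val : ℝ) ^ 2 - (m : ℝ) ^ 2)) -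
          t.1.val / n + x * ∑ m ∈ Finset.range n, ind i.val t.1.val m * ((t.1.val : ℝ) - m) := by
        intro x
        unfold ht
        have : ∀ m ∈ Finset.range n, ind i.val t.1.val m *
            ((t.1.val : ℝ) * x + (t.1.val : ℝ) ^ 2 - m * x - (m : ℝ) ^ 2) =
            ind i.val t.1.val m * ((t.1.val : ℝ) ^ 2 - (m : ℝ) ^ 2) +
            x * (ind i.val t.1.val m * ((t.1.val : ℝ) - m)) := by
          intro m _; ring
        simp only
        rw [Finset.sum_congr rfl this, Finset.sum_add_distrib, ← Finset.mul_sum]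
        ring
      constructor
      · rintro ⟨h1, h2⟩
        refine ⟨q.1, by ring, by rw [h1]; ring, ?_⟩
        rw [h2, h1, hht]
      · rintro ⟨x, h1, h2, h3⟩
        have hx : q.1 = x := by rw [h1]; ring
        have hy : q.2.1 = (t.1.val : ℝ) * q.1 + (t.1.val : ℝ) ^ 2 := by rw [h2, hx]; ring
        refine ⟨hy, ?_⟩
        rw [hy, hht, h3, hx]
  · intro t
    ext q
    constructor
    · rintro ⟨⟨x, y, z⟩, ⟨h1, h2⟩, rfl⟩
      exact h1
    · intro h
      exact ⟨(q.1, q.2, ht n i.val t.1.val (q.1, q.2)), ⟨h, rfl⟩, rfl⟩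
  · rintro ⟨s, hs⟩ ⟨t, hti⟩ hne hab x y z z' ⟨h1, h2⟩ ⟨h3, h4⟩
    simp only at h1 h2 h3 h4
    have hst : s.val ≠ t.val := fun h => hne (Subtype.ext (Fin.ext h))
    have hs' : s.val ≠ i.val := fun h => hs (Fin.ext h)
    have ht' : t.val ≠ i.val := fun h => hti (Fin.ext h)
    change Up n s.val t.val at hab
    rw [h2, h4]
    rcases hab with ⟨hlt, hb⟩ | ⟨hlt, hb⟩
    · exact ht_lt n i.val s.val t.val (x, y) h1 h3 hlt t.isLt hs' ht' i.isLt hb
    · refine ht_gt n i.val t.val s.val (x, y) h3 h1 hlt s.isLt ht' hs' ?_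
      unfold Bd at hb ⊢
      omega

/-- For every `n ≥ 4` the tangent weaving is minimally non-realizable. -/
theorem minimal_weaving (n : ℕ) (hn : 4 ≤ n) :
    ∃ W : Weaving (Fin n),
      (∀ i : Fin n, W.line i = {q | q.2 = (i.val : ℝ) * q.1 + (i.val : ℝ) ^ 2}) ∧
      (∀ i j : Fin n, W.above i j ↔ Up n i j) ∧
      ¬ W.WeaklyRealizable ∧ ∀ i : Fin n, (W.delete i).Realizable :=
  ⟨tang n, fun _ => rfl, fun _ _ => Iff.rfl,
    not_weakly n hn (tang n) (tang_ord n) (fun _ _ _ => Iff.rfl), delete_realizable n⟩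

end Pool.Agent.Helper35.Weave
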